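import Mathlib
import Pool.Agent.W848.RK.HT
import Pool.Agent.H58R.Loc

set_option autoImplicit false
set_option linter.unusedVariables false

/-!
# A height inequality for matrices of `p`-th powers
-/

namespace Pool.Agent.TH53.BL

open NumberField Height Module
open Pool.Agent.W237.RK
open Pool.Agent.W848.RK
open Pool.Agent.Helper259.AbsHt
open Pool.Agent.H58P (Qb ht qb_isIntegral)

lemma sum_pow_prime {R : Type*} [CommRing R] {p : ℕ} (hp : p.Prime) {ι : Type*} (s : Finset ι)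
    (f : ι → R) : ∃ r, (∑ i ∈ s, f i) ^ p = ∑ i ∈ s, f i ^ p + p * r := by
  classical
  induction s using Finset.induction_on with
  | empty => exact ⟨0, by simp [hp.ne_zero]⟩
  | insert a s ha ih =>
    obtain ⟨r, hr⟩ := ih
    obtain ⟨r', hr'⟩ := exists_add_pow_prime_eq hp (f a) (∑ i ∈ s, f i)
    refine ⟨r + f a * (∑ i ∈ s, f i) * r', ?_⟩
    rw [Finset.sum_insert ha, Finset.sum_insert ha, hr', hr]
    ring

lemma det_pow_prime {R : Type*} [CommRing R] {p : ℕ} (hp : p.Prime) (hp2 : p ≠ 2) {n : ℕ}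
    (y : Matrix (Fin n) (Fin n) R) :
    ∃ r, (Matrix.of fun i j => y i j ^ p).det = y.det ^ p + p * r := by
  obtain ⟨r, hr⟩ := sum_pow_prime hp Finset.univ
    (fun σ : Equiv.Perm (Fin n) => ((Equiv.Perm.sign σ : ℤ) : R) * ∏ i, y (σ i) i)
  refine ⟨-r, ?_⟩
  rw [Matrix.det_apply', Matrix.det_apply', hr]
  have hodd : Odd p := hp.odd_of_ne_two hp2
  have : ∀ σ : Equiv.Perm (Fin n), (((Equiv.Perm.sign σ : ℤ) : R) * ∏ i, y (σ i) i) ^ p =
      ((Equiv.Perm.sign σ : ℤ) : R) * ∏ i, (Matrix.of fun i j => y i j ^ p) (σ i) i := by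
    intro σ
    rw [mul_pow, ← Finset.prod_pow]
    congr 1
    rcases Int.units_eq_one_or (Equiv.Perm.sign σ) with h | h
    · rw [h]; simp
    · rw [h]
      push_cast
      rw [hodd.neg_one_pow]
  simp only [this]
  ring

/-- local bound at a valuation -/
lemma val_det (V : ValuationSubring Qb) {n p : ℕ} (hp : p.Prime) (hp2 : p ≠ 2)
    (x : Fin n → Fin n → Qb) (h0 : (Matrix.of x).det = 0) :
    V.valuation ((Matrix.of fun i j => x i j ^ p).det) ≤
      V.valuation (p : Qb) * (∏ q : Fin n × Fin n, max 1 (V.valuation (x q.1 q.2))) ^ p := by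
  classical
  have hm : ∀ i : Fin n, ∃ m : Qb, m ≠ 0 ∧ (∀ j, V.valuation (x i j) ≤ V.valuation m) ∧
      V.valuation m ≤ ∏ j, max 1 (V.valuation (x i j)) := by
    intro i
    obtain ⟨m, hm1, hm2⟩ := Finset.exists_max_image (insert 1 (Finset.univ.image (x i)))
      (fun y => V.valuation y) ⟨1, Finset.mem_insert_self _ _⟩
    have h1 : 1 ≤ V.valuation m := by
      have := hm2 1 (Finset.mem_insert_self _ _)
      simpa using this
    refine ⟨m, ?_, fun j => hm2 _ (Finset.mem_insert_of_mem (Finset.mem_image_of_mem _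
      (Finset.mem_univ j))), ?_⟩
    · rintro rfl
      rw [map_zero] at h1
      exact absurd h1 (not_le.mpr zero_lt_one)
    · rcases Finset.mem_insert.mp hm1 with rfl | h
      · rw [map_one]
        exact Finset.one_le_prod' fun j _ => le_max_left _ _
      · obtain ⟨j, -, rfl⟩ := Finset.mem_image.mp h
        exact (le_max_right _ _).trans (Finset.single_le_prod'
          (f := fun j => max 1 (V.valuation (x i j))) (fun j _ => le_max_left _ _)
          (Finset.mem_univ j))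
  choose m hm0 hm1 hm2 using hm
  have hy : ∀ i j, x i j / m i ∈ V := by
    intro i j
    rw [← ValuationSubring.valuation_le_one_iff, map_div₀]
    have h1 : V.valuation (m i) ≠ 0 := (Valuation.ne_zero_iff _).mpr (hm0 i)
    exact (div_le_one₀ (zero_lt_iff.mpr h1)).mpr (hm1 i j)
  let Y : Matrix (Fin n) (Fin n) V := Matrix.of fun i j => ⟨x i j / m i, hy i j⟩
  have hYdet : Y.det = 0 := by
    apply Subtype.ext
    have h1 : ((Y.det : V) : Qb) = (Matrix.of fun i j => (m i)⁻¹ * x i j).det := by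
      have := RingHom.map_det (algebraMap V Qb) Y
      have e : (algebraMap V Qb).mapMatrix Y = Matrix.of fun i j => (m i)⁻¹ * x i j := by
        ext i j
        show x i j / m i = (m i)⁻¹ * x i j
        rw [div_eq_inv_mul]
      rw [e] at this
      exact this
    rw [h1]
    have h2 := Matrix.det_mul_column (fun i => (m i)⁻¹) (Matrix.of x)
    have h3 : (Matrix.of fun i j => (m i)⁻¹ * (Matrix.of x) i j) =
      Matrix.of fun i j => (m i)⁻¹ * x i j := rfl
    rw [h3] at h2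
    rw [h2, h0, mul_zero]
    rfl
  obtain ⟨r, hr⟩ := det_pow_prime hp hp2 Y
  rw [hYdet, zero_pow hp.ne_zero, zero_add] at hr
  have h4 : (Matrix.of fun i j => (x i j / m i) ^ p).det = (p : Qb) * (r : Qb) := by
    have h5 := congrArg (algebraMap V Qb) hr
    rw [RingHom.map_det, map_mul, map_natCast] at h5
    exact h5
  have h6 : (Matrix.of fun i j => x i j ^ p).det =
      (∏ i, m i ^ p) * ((p : Qb) * (r : Qb)) := by
    rw [← h4]
    have h7 := Matrix.det_mul_column (fun i => (m i) ^ p) (Matrix.of fun i j => (x i j / m i) ^ p)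
    rw [← h7]
    congr 1
    ext i j
    show x i j ^ p = m i ^ p * (x i j / m i) ^ p
    rw [← mul_pow, mul_div_cancel₀ _ (hm0 i)]
  have hr1 : V.valuation (r : Qb) ≤ 1 := (V.valuation_le_one_iff _).mpr r.2
  rw [h6, map_mul, map_mul, map_prod]
  calc (∏ i, V.valuation (m i ^ p)) * (V.valuation (p : Qb) * V.valuation (r : Qb))
      ≤ (∏ i, V.valuation (m i ^ p)) * (V.valuation (p : Qb) * 1) := by gcongr
    _ = V.valuation (p : Qb) * (∏ i, V.valuation (m i)) ^ p := by
        rw [mul_one, mul_comm]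
        congr 1
        rw [← Finset.prod_pow]
        refine Finset.prod_congr rfl fun i _ => ?_
        rw [map_pow]
    _ ≤ V.valuation (p : Qb) * (∏ i, ∏ j, max 1 (V.valuation (x i j))) ^ p := by
        have : (∏ i, V.valuation (m i)) ≤ ∏ i, ∏ j, max 1 (V.valuation (x i j)) :=
          Finset.prod_le_prod' fun i _ => hm2 i
        gcongr
    _ = _ := by rw [Fintype.prod_prod_type]

lemma single_le_prodR {ι : Type*} (s : Finset ι) (f : ι → ℝ) (hf : ∀ j ∈ s, 1 ≤ f j) {a : ι}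
    (ha : a ∈ s) : f a ≤ ∏ j ∈ s, f j := by
  classical
  rw [← Finset.mul_prod_erase s f ha]
  have h1 : (1 : ℝ) ≤ ∏ j ∈ s.erase a, f j := by
    refine Finset.prod_induction _ (fun x : ℝ => 1 ≤ x) (fun a b ha hb => ?_) le_rfl
      fun j hj => hf j (Finset.mem_of_mem_erase hj)
    exact one_le_mul_of_one_le_of_one_le ha hb
  nlinarith [hf a ha]

/-- archimedean bound -/
lemma norm_det (ψ : Qb →+* ℂ) {n p : ℕ} (x : Fin n → Fin n → Qb) :
    ‖ψ ((Matrix.of fun i j => x i j ^ p).det)‖ ≤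
      (n.factorial : ℝ) * (∏ q : Fin n × Fin n, max 1 ‖ψ (x q.1 q.2)‖) ^ p := by
  classical
  rw [Matrix.det_apply', map_sum]
  refine (norm_sum_le _ _).trans ?_
  have : ∀ σ ∈ (Finset.univ : Finset (Equiv.Perm (Fin n))),
      ‖ψ (((Equiv.Perm.sign σ : ℤ) : Qb) * ∏ i, (Matrix.of fun i j => x i j ^ p) (σ i) i)‖ ≤
      (∏ q : Fin n × Fin n, max 1 ‖ψ (x q.1 q.2)‖) ^ p := by
    intro σ _
    rw [map_mul, norm_mul, map_prod, norm_prod]
    have h1 : ‖ψ ((Equiv.Perm.sign σ : ℤ) : Qb)‖ = 1 := by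
      rcases Int.units_eq_one_or (Equiv.Perm.sign σ) with h | h
      · rw [h]; simp
      · rw [h]; simp
    rw [h1, one_mul]
    have h2 : ∀ i : Fin n, ‖ψ ((Matrix.of fun i j => x i j ^ p) (σ i) i)‖ ≤
        (∏ j : Fin n, max 1 ‖ψ (x j i)‖) ^ p := by
      intro i
      show ‖ψ (x (σ i) i ^ p)‖ ≤ _
      rw [map_pow, norm_pow]
      apply pow_le_pow_left₀ (norm_nonneg _)
      refine (le_max_right 1 _).trans ?_
      exact single_le_prodR _ (fun j => max 1 ‖ψ (x j i)‖) (fun j _ => le_max_left _ _)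
        (Finset.mem_univ (σ i))
    calc ∏ i, ‖ψ ((Matrix.of fun i j => x i j ^ p) (σ i) i)‖
        ≤ ∏ i : Fin n, (∏ j : Fin n, max 1 ‖ψ (x j i)‖) ^ p :=
          Finset.prod_le_prod (fun i _ => norm_nonneg _) fun i _ => h2 i
      _ = _ := by
          rw [Finset.prod_pow, Fintype.prod_prod_type, Finset.prod_comm]
  refine (Finset.sum_le_sum this).trans ?_
  rw [Finset.sum_const, Finset.card_univ, Fintype.card_perm, Fintype.card_fin, nsmul_eq_mul]

/-- **height inequality**: if a determinant vanishes but the determinant of the `p`-th powers does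
not, then the heights are not small -/
theorem det_height {n p : ℕ} (hp : p.Prime) (hp2 : p ≠ 2) (x : Fin n → Fin n → Qb)
    (h0 : (Matrix.of x).det = 0) (h1 : (Matrix.of fun i j => x i j ^ p).det ≠ 0) :
    Real.log ((p : ℝ) / n.factorial) ≤ p * ∑ q : Fin n × Fin n, ht (x q.1 q.2) := by
  classical
  set Δ : Qb := (Matrix.of fun i j => x i j ^ p).det with hΔ
  set V' : Fin n → Fin n → Qb := fun _ _ => 1 with hV'
  have hpQ : (p : Qb) ≠ 0 := by exact_mod_cast hp.ne_zero
  have hc : (p : Qb) * Δ⁻¹ ≠ 0 := mul_ne_zero hpQ (inv_ne_zero h1)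
  have hw := ht_wv x V'
  have hx : absLogHeight (((p : Qb) * Δ⁻¹) • fun f => wv x V' f ^ p) =
      p * ∑ q : Fin n × Fin n, ht (x q.1 q.2) := by
    rw [absLogHeight_smul _ hc, absLogHeight_powfam, hw]
    congr 1
    refine Finset.sum_congr rfl fun q _ => ?_
    rw [hV', Pool.Agent.H58R.ht_one, add_zero]
  rw [← hx]
  have hp0 : (0 : ℝ) < p := by exact_mod_cast hp.pos
  have hf0 : (0 : ℝ) < n.factorial := by exact_mod_cast Nat.factorial_pos n
  apply height_geR
  · positivity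
  · intro W
    obtain ⟨f, hf⟩ := exists_max x V' (fun y => W.valuation y) (by simp) (by simp)
    refine ⟨f, ?_⟩
    have h2 := val_det W hp hp2 x h0
    have h3 : W.valuation (wv x V' f) = ∏ q : Fin n × Fin n, max 1 (W.valuation (x q.1 q.2)) := by
      have hf' : W.valuation (wv x V' f) = ∏ q : Fin n × Fin n,
        (max 1 (W.valuation (x q.1 q.2)) * max 1 (W.valuation (V' q.1 q.2))) := hf
      rw [hf']
      refine Finset.prod_congr rfl fun q _ => ?_
      simp [hV']
    rw [← h3, ← hΔ] at h2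
    have hΔ' : W.valuation Δ ≠ 0 := (Valuation.ne_zero_iff _).mpr h1
    show 1 ≤ W.valuation ((p : Qb) * Δ⁻¹ * wv x V' f ^ p)
    rw [map_mul, map_mul, map_inv₀, map_pow, mul_right_comm]
    rw [← div_eq_mul_inv]
    exact (one_le_div₀ (zero_lt_iff.mpr hΔ')).mpr h2
  · intro ψ
    obtain ⟨f, hf⟩ := exists_max x V' (fun y => ‖ψ y‖) (by simp) (by simp)
    refine ⟨f, ?_⟩
    have h2 := norm_det ψ (p := p) x
    have h3 : ‖ψ (wv x V' f)‖ = ∏ q : Fin n × Fin n, max 1 ‖ψ (x q.1 q.2)‖ := by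
      have hf' : ‖ψ (wv x V' f)‖ = ∏ q : Fin n × Fin n,
        (max 1 ‖ψ (x q.1 q.2)‖ * max 1 ‖ψ (V' q.1 q.2)‖) := hf
      rw [hf']
      refine Finset.prod_congr rfl fun q _ => ?_
      simp [hV']
    rw [← h3, ← hΔ] at h2
    have hΔ' : 0 < ‖ψ Δ‖ := norm_pos_iff.mpr ((map_ne_zero ψ).mpr h1)
    show (p : ℝ) / n.factorial ≤ ‖ψ ((p : Qb) * Δ⁻¹ * wv x V' f ^ p)‖
    have e1 : ‖ψ ((p : Qb) * Δ⁻¹ * wv x V' f ^ p)‖ =
        (p : ℝ) * ‖ψ Δ‖⁻¹ * ‖ψ (wv x V' f)‖ ^ p := by
      simp only [map_mul, map_pow, map_inv₀, norm_mul, norm_pow, norm_inv, map_natCast,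
        Complex.norm_natCast]
    rw [e1, mul_right_comm, ← div_eq_mul_inv, div_le_div_iff₀ hf0 hΔ']
    calc (p : ℝ) * ‖ψ Δ‖ ≤ p * ((n.factorial : ℝ) * ‖ψ (wv x V' f)‖ ^ p) := by gcongr
      _ = _ := by ring

end Pool.Agent.TH53.BL
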