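import Mathlib

set_option autoImplicit false
set_option linter.unusedVariables false

/-!
# Linear algebra of characters, powers of sums of characters
-/

namespace Pool.Agent.TH53.BL

/-- evaluation points for linearly independent functions -/
lemma exists_points {K Y : Type*} [Field K] {n : ℕ} (v : Fin n → Y → K)
    (hv : LinearIndependent K v) :
    ∃ y : Fin n → Y, (Matrix.of fun i j => v j (y i)).det ≠ 0 := by
  classical
  set s : Set (Fin n → K) := Set.range fun (y : Y) (j : Fin n) => v j y with hs
  have hspan : Submodule.span K s = ⊤ := by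
    by_contra hne
    obtain ⟨f, hf0, hf⟩ := Submodule.exists_le_ker_of_lt_top _ (lt_top_iff_ne_top.mpr hne)
    apply hf0
    have h1 : ∀ y : Y, ∑ j, f (Pi.single j 1) * v j y = 0 := by
      intro y
      have h2 : (fun j => v j y) ∈ LinearMap.ker f := hf (Submodule.subset_span ⟨y, rfl⟩)
      rw [LinearMap.mem_ker] at h2
      have h3 : (fun j => v j y) = ∑ j, v j y • (Pi.single j (1 : K) : Fin n → K) := by
        funext l
        simp [Finset.sum_apply, Pi.single_apply]
      rw [h3, map_sum] at h2
      rw [← h2]
      refine Finset.sum_congr rfl fun j _ => ?_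
      rw [map_smul, smul_eq_mul, mul_comm]
    have h3 := Fintype.linearIndependent_iff.mp hv (fun j => f (Pi.single j 1)) (by
      funext y
      rw [Finset.sum_apply]
      simpa using h1 y)
    apply LinearMap.pi_ext
    intro i x
    have : (Pi.single i x : Fin n → K) = x • Pi.single i 1 := by
      funext l
      simp [Pi.single_apply]
    rw [this, map_smul, h3 i]
    simp
  obtain ⟨t, ht, hspan', hli⟩ := Submodule.exists_fun_fin_finrank_span_eq K s
  have hfr : Module.finrank K (Submodule.span K s) = n := by
    rw [hspan, finrank_top, Module.finrank_fin_fun]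
  have key : ∃ t : Fin n → (Fin n → K), (∀ i, t i ∈ s) ∧ LinearIndependent K t := by
    generalize Module.finrank K (Submodule.span K s) = m at t ht hspan' hli hfr
    subst hfr
    exact ⟨t, ht, hli⟩
  obtain ⟨t, ht, hli⟩ := key
  choose y hy using ht
  refine ⟨y, ?_⟩
  have h1 : LinearIndependent K (Matrix.of fun i j => v j (y i)).row := by
    have : (Matrix.of fun i j => v j (y i)).row = t := by
      funext i
      rw [← hy i]
      rfl
    rw [this]
    exact hli
  rw [Matrix.linearIndependent_rows_iff_isUnit, Matrix.isUnit_iff_isUnit_det] at h1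
  exact h1.ne_zero

/-- a sum of many characters has large rank -/
theorem exists_minor {K G : Type*} [Field K] [Monoid G] (a : (G →* K) →₀ K) {n : ℕ}
    (hn : n ≤ a.support.card) :
    ∃ σ τ : Fin n → G, (Matrix.of fun i j => a.sum fun ψ c => c * ψ (σ i * τ j)).det ≠ 0 := by
  classical
  set s := a.support.card with hs
  set e : Fin s ≃ a.support := a.support.equivFin.symm with he
  set ψ : Fin s → (G →* K) := fun i => (e i : G →* K) with hψ
  have hψi : Function.Injective ψ := fun i j h => e.injective (Subtype.ext h)
  have hsum : ∀ g : G, (a.sum fun ψ c => c * ψ g) = ∑ i, a (ψ i) * ψ i g := by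
    intro g
    rw [Finsupp.sum, ← Finset.sum_coe_sort a.support (fun x => a x * x g),
      ← Equiv.sum_comp e (fun x : a.support => a (x : G →* K) * (x : G →* K) g)]
  have hli : LinearIndependent K (fun i => (ψ i : G → K)) :=
    (linearIndependent_monoidHom G K).comp ψ hψi
  obtain ⟨τ, hτ⟩ := exists_points (fun i g => ψ i g) hli
  set F : Fin s → G → K := fun j g => ∑ i, a (ψ i) * (ψ i g * ψ i (τ j)) with hF
  have hFli : LinearIndependent K F := by
    rw [Fintype.linearIndependent_iff]
    intro c hc
    have h1 : ∑ i, (a (ψ i) * ∑ j, c j * ψ i (τ j)) • (ψ i : G → K) = 0 := by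
      funext g
      have := congrFun hc g
      rw [Finset.sum_apply] at this
      rw [Finset.sum_apply, ← this]
      simp only [hF, Pi.smul_apply, smul_eq_mul, Finset.mul_sum, Finset.sum_mul]
      rw [Finset.sum_comm]
      refine Finset.sum_congr rfl fun j _ => Finset.sum_congr rfl fun i _ => by ring
    have h2 := Fintype.linearIndependent_iff.mp hli _ h1
    have h3 : Matrix.vecMul c (Matrix.of fun i j => ψ j (τ i)) = 0 := by
      funext i
      have h4 : a (ψ i) ≠ 0 := Finsupp.mem_support_iff.mp (e i).2
      have h5 := h2 i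
      rw [mul_eq_zero] at h5
      have h6 := h5.resolve_left h4
      simpa [Matrix.vecMul, dotProduct] using h6
    have h7 := Matrix.eq_zero_of_vecMul_eq_zero hτ h3
    intro i
    rw [h7]
    rfl
  have hF' : LinearIndependent K (fun j : Fin n => F (Fin.castLE hn j)) :=
    hFli.comp _ (Fin.castLE_injective hn)
  obtain ⟨σ, hσ⟩ := exists_points _ hF'
  refine ⟨σ, fun j => τ (Fin.castLE hn j), ?_⟩
  convert hσ using 2
  ext i j
  simp only [Matrix.of_apply, hsum, hF]
  refine Finset.sum_congr rfl fun l _ => ?_
  rw [map_mul]

/-- a sum of few characters has small rank -/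
lemma det_zero {K G : Type*} [Field K] [Monoid G] {k n : ℕ} (hkn : k < n) (A : Fin k → K)
    (χ : Fin k → (G →* K)) (σ τ : Fin n → G) :
    (Matrix.of fun i j => ∑ l, A l * χ l (σ i * τ j)).det = 0 := by
  classical
  set B : Matrix (Fin n) (Fin k) K := Matrix.of fun i l => A l * χ l (σ i) with hB
  set C : Matrix (Fin k) (Fin n) K := Matrix.of fun l j => χ l (τ j) with hC
  have h1 : (Matrix.of fun i j => ∑ l, A l * χ l (σ i * τ j)) = B * C := by
    ext i j
    rw [Matrix.mul_apply]
    simp only [Matrix.of_apply, hB, hC]
    refine Finset.sum_congr rfl fun l _ => ?_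
    rw [map_mul, mul_assoc]
  rw [h1]
  by_contra hne
  have h2 : IsUnit (B * C) := by
    rw [Matrix.isUnit_iff_isUnit_det]
    exact isUnit_iff_ne_zero.mpr hne
  have h3 := Matrix.rank_of_isUnit _ h2
  have h4 := Matrix.rank_mul_le_left B C
  have h5 := Matrix.rank_le_width B
  rw [Fintype.card_fin] at h3
  omega

end Pool.Agent.TH53.BL
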