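import Mathlib

set_option autoImplicit false
set_option linter.unusedVariables false

/-!
# The number of terms of powers
-/

namespace Pool.Agent.TH53.BL

open Polynomial

/-- the support of `X f' - a f` -/
lemma support_theta {K : Type*} [Field K] [CharZero K] (f : K[X]) (a : ℕ) :
    (X * derivative f - C (a : K) * f).support = f.support.erase a := by
  ext i
  have hc : (X * derivative f - C (a : K) * f).coeff i = ((i : K) - a) * f.coeff i := by
    rw [coeff_sub, coeff_C_mul]
    cases i with
    | zero => simp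
    | succ i =>
      rw [coeff_X_mul, coeff_derivative]
      push_cast
      ring
  rw [mem_support_iff, hc, Finset.mem_erase, mem_support_iff, mul_ne_zero_iff]
  constructor
  · rintro ⟨h1, h2⟩
    refine ⟨?_, h2⟩
    rintro rfl
    exact h1 (sub_self _)
  · rintro ⟨h1, h2⟩
    refine ⟨?_, h2⟩
    rw [sub_ne_zero]
    exact_mod_cast h1

/-- a nonzero root of multiplicity `n` needs more than `n` terms -/
lemma mult_terms {K : Type*} [Field K] [CharZero K] {c : K} (hc : c ≠ 0) :
    ∀ (n : ℕ) (f : K[X]), f ≠ 0 → (X - C c) ^ n ∣ f → n < f.support.card := by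
  intro n
  induction n with
  | zero =>
    intro f hf _
    exact Finset.card_pos.mpr (nonempty_support_iff.mpr hf)
  | succ n ih =>
    intro f hf hdvd
    obtain ⟨a, ha⟩ := nonempty_support_iff.mpr hf
    have hs := support_theta f a
    have hcard : (X * derivative f - C (a : K) * f).support.card + 1 = f.support.card := by
      rw [hs]
      exact Finset.card_erase_add_one ha
    have hdvd' : (X - C c) ^ n ∣ X * derivative f - C (a : K) * f := by
      obtain ⟨h, rfl⟩ := hdvd
      refine ⟨X * (C ((n : K) + 1) * h + (X - C c) * derivative h) - C (a : K) * ((X - C c) * h), ?_⟩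
      rw [derivative_mul, derivative_X_sub_C_pow]
      push_cast
      simp only [map_add, map_natCast, map_one]
      ring
    have hne : X * derivative f - C (a : K) * f ≠ 0 := by
      intro h0
      rw [h0] at hs
      rw [support_zero] at hs
      have h1 : f.support = {a} := by
        have h2 : f.support.card = 1 := by
          rw [← hcard, h0, support_zero, Finset.card_empty]
        obtain ⟨b, hb⟩ := Finset.card_eq_one.mp h2
        rw [hb] at ha ⊢
        rw [Finset.mem_singleton.mp ha]
      have h3 : f = monomial a (f.coeff a) := by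
        ext i
        rw [coeff_monomial]
        by_cases hi : a = i
        · rw [if_pos hi, hi]
        · rw [if_neg hi]
          by_contra hcon
          have : i ∈ f.support := mem_support_iff.mpr hcon
          rw [h1, Finset.mem_singleton] at this
          exact hi this.symm
      have h4 : f.eval c = 0 := by
        obtain ⟨h, hh⟩ := hdvd
        rw [hh, eval_mul, eval_pow, eval_sub, eval_X, eval_C, sub_self, zero_pow (Nat.succ_ne_zero n),
          zero_mul]
      rw [h3, eval_monomial, mul_eq_zero] at h4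
      rcases h4 with h4 | h4
      · exact (mem_support_iff.mp ha) h4
      · exact pow_ne_zero _ hc h4
    have := ih _ hne hdvd'
    omega

/-- a polynomial with two terms has a nonzero root -/
lemma exists_root_ne_zero {K : Type*} [Field K] [IsAlgClosed K] (f : K[X])
    (hf : 2 ≤ f.support.card) : ∃ c : K, c ≠ 0 ∧ f.IsRoot c := by
  have hf0 : f ≠ 0 := by
    rintro rfl
    simp at hf
  obtain ⟨q, hq, hq'⟩ := exists_eq_pow_rootMultiplicity_mul_and_not_dvd f hf0 0
  set m := rootMultiplicity 0 f with hm
  have hdeg : q.degree ≠ 0 := by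
    intro h0
    obtain ⟨u, hu⟩ : ∃ u : K, q = C u := ⟨q.coeff 0, eq_C_of_degree_le_zero h0.le⟩
    rw [hu] at hq
    have h1 : f = monomial m u := by
      rw [hq, map_zero, sub_zero, ← C_mul_X_pow_eq_monomial, mul_comm]
    have h2 : f.support.card ≤ 1 := by
      rw [h1]
      exact card_support_le_one_iff_monomial.mpr ⟨m, u, rfl⟩
    omega
  obtain ⟨c, hc⟩ := IsAlgClosed.exists_root q hdeg
  refine ⟨c, ?_, ?_⟩
  · rintro rfl
    exact hq' (dvd_iff_isRoot.mpr hc)
  · rw [hq]
    exact root_mul_left_of_isRoot _ hc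

/-- the `p`-th power of a polynomial with two terms has more than `p` terms -/
lemma terms_pow {K : Type*} [Field K] [CharZero K] [IsAlgClosed K] (f : K[X])
    (hf : 2 ≤ f.support.card) (p : ℕ) : p < (f ^ p).support.card := by
  obtain ⟨c, hc, hroot⟩ := exists_root_ne_zero f hf
  have hf0 : f ≠ 0 := by
    rintro rfl
    simp at hf
  exact mult_terms hc p _ (pow_ne_zero _ hf0) (pow_dvd_pow_of_dvd (dvd_iff_isRoot.mpr hroot) p)

/-- projections of finite sums -/
lemma card_support_le {I X Y K : Type*} [Field K] (S : Finset I) (c : I → K) (g₁ : I → X)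
    (g₂ : I → Y) [Inhabited Y] (h : ∀ m ∈ S, ∀ m' ∈ S, g₁ m = g₁ m' → g₂ m = g₂ m') :
    (∑ m ∈ S, Finsupp.single (g₂ m) (c m)).support.card ≤
      (∑ m ∈ S, Finsupp.single (g₁ m) (c m)).support.card := by
  classical
  let φ : X → Y := fun x => if hx : ∃ m ∈ S, g₁ m = x then g₂ hx.choose else default
  have hφ : ∀ m ∈ S, φ (g₁ m) = g₂ m := by
    intro m hm
    have hx : ∃ m' ∈ S, g₁ m' = g₁ m := ⟨m, hm, rfl⟩
    have h1 : φ (g₁ m) = g₂ hx.choose := dif_pos hx
    rw [h1]
    exact h _ hx.choose_spec.1 _ hm hx.choose_spec.2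
  have h2 : ∑ m ∈ S, Finsupp.single (g₂ m) (c m) =
      Finsupp.mapDomain φ (∑ m ∈ S, Finsupp.single (g₁ m) (c m)) := by
    rw [Finsupp.mapDomain_finsetSum]
    refine Finset.sum_congr rfl fun m hm => ?_
    rw [Finsupp.mapDomain_single, hφ m hm]
  rw [h2]
  exact (Finset.card_le_card Finsupp.mapDomain_support).trans Finset.card_image_le

section main

variable {K G : Type*} [Field K] [Monoid G] {k : ℕ} (A : Fin k → K) (χ : Fin k → (G →* K))

/-- the `p`-th power of the generic sum -/
noncomputable def gp (p : ℕ) : MvPolynomial (Fin k) K :=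
  (∑ j, MvPolynomial.C (A j) * MvPolynomial.X j) ^ p

/-- the expansion of the `p`-th power in characters -/
noncomputable def ap (p : ℕ) : (G →* K) →₀ K :=
  ∑ m ∈ (gp A p).support, Finsupp.single (∏ j, χ j ^ m j) ((gp A p).coeff m)

lemma gp_degree (p : ℕ) (m : Fin k →₀ ℕ) (hm : m ∈ (gp A p).support) : ∑ j, m j = p := by
  have h1 : (gp A p).IsHomogeneous (1 * p) := by
    apply MvPolynomial.IsHomogeneous.pow
    apply MvPolynomial.IsHomogeneous.sum
    intro j _
    have := (MvPolynomial.isHomogeneous_C (Fin k) (A j)).mul (MvPolynomial.isHomogeneous_X K j)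
    simpa using this
  have h2 := h1 (MvPolynomial.mem_support_iff.mp hm)
  rw [Finsupp.weight_apply] at h2
  simpa [Finsupp.sum_fintype] using h2

lemma ap_apply (p : ℕ) (g : G) :
    ((ap A χ p).sum fun ψ c => c * ψ g) = (∑ j, A j * χ j g) ^ p := by
  classical
  have h1 : ((ap A χ p).sum fun ψ c => c * ψ g) =
      ∑ m ∈ (gp A p).support, (gp A p).coeff m * ∏ j, χ j g ^ m j := by
    rw [ap, ← Finsupp.sum_finsetSum_index]
    · refine Finset.sum_congr rfl fun m _ => ?_
      rw [Finsupp.sum_single_index (by simp)]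
      congr 1
      rw [MonoidHom.finsetProd_apply]
      refine Finset.prod_congr rfl fun j _ => ?_
      rw [MonoidHom.pow_apply]
    · intro ψ
      rw [zero_mul]
    · intro ψ a b
      rw [add_mul]
  rw [h1, ← MvPolynomial.eval_eq']
  simp only [gp, map_pow, map_sum, map_mul, MvPolynomial.eval_C, MvPolynomial.eval_X]

lemma pow_poly (p : ℕ) (w : Fin k → ℕ) :
    (∑ j, C (A j) * X ^ w j : K[X]) ^ p =
      ∑ m ∈ (gp A p).support, monomial (∑ j, w j * m j) ((gp A p).coeff m) := by
  have h1 : (∑ j, C (A j) * X ^ w j : K[X]) ^ p =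
      MvPolynomial.eval₂ (C : K →+* K[X]) (fun j => X ^ w j) (gp A p) := by
    simp only [gp, MvPolynomial.eval₂_pow, MvPolynomial.eval₂_sum, MvPolynomial.eval₂_mul,
      MvPolynomial.eval₂_C, MvPolynomial.eval₂_X]
  rw [h1, MvPolynomial.eval₂_eq']
  refine Finset.sum_congr rfl fun m _ => ?_
  rw [← C_mul_X_pow_eq_monomial]
  congr 1
  rw [← Finset.prod_pow_eq_pow_sum]
  refine Finset.prod_congr rfl fun j _ => ?_
  rw [pow_mul]

/-- **the `p`-th power of a sum of characters has many characters**, if there is a compatible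
nonconstant weight -/
theorem many_characters [CharZero K] [IsAlgClosed K] (p : ℕ) (w : Fin k → ℕ)
    (hA : ∀ J : Finset (Fin k), J.Nonempty → ∑ j ∈ J, A j ≠ 0)
    (hw : ∃ i j, w i ≠ w j)
    (hc : ∀ m ∈ (gp A p).support, ∀ m' ∈ (gp A p).support,
      ∏ j, χ j ^ m j = ∏ j, χ j ^ m' j → ∑ j, w j * m j = ∑ j, w j * m' j) :
    p < (ap A χ p).support.card := by
  classical
  set f : K[X] := ∑ j, C (A j) * X ^ w j with hf
  have hcoef : ∀ n, f.coeff n = ∑ j ∈ Finset.univ.filter (fun j => w j = n), A j := by
    intro n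
    rw [hf, finsetSum_coeff, Finset.sum_filter]
    refine Finset.sum_congr rfl fun j _ => ?_
    rw [coeff_C_mul, coeff_X_pow]
    by_cases h : n = w j
    · rw [if_pos h, if_pos h.symm, mul_one]
    · rw [if_neg h, if_neg (fun h' => h h'.symm), mul_zero]
  have hmem : ∀ j, w j ∈ f.support := by
    intro j
    rw [mem_support_iff, hcoef]
    exact hA _ ⟨j, by simp⟩
  have h2 : 2 ≤ f.support.card := by
    obtain ⟨i, j, hij⟩ := hw
    exact Finset.one_lt_card.mpr ⟨w i, hmem i, w j, hmem j, hij⟩
  have h3 := terms_pow f h2 p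
  refine lt_of_lt_of_le h3 ?_
  have h4 : (f ^ p).support ⊆
      (∑ m ∈ (gp A p).support, Finsupp.single (∑ j, w j * m j) ((gp A p).coeff m)).support := by
    intro n hn
    rw [mem_support_iff, pow_poly, finsetSum_coeff] at hn
    rw [Finsupp.mem_support_iff, Finsupp.finsetSum_apply]
    convert hn using 1
    refine Finset.sum_congr rfl fun m _ => ?_
    rw [coeff_monomial, Finsupp.single_apply]
  refine (Finset.card_le_card h4).trans ?_
  exact card_support_le _ (fun m => (gp A p).coeff m) (fun m => ∏ j, χ j ^ m j)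
    (fun m => ∑ j, w j * m j) hc

end main

end Pool.Agent.TH53.BL
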