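import Mathlib

set_option autoImplicit false
set_option linter.unusedVariables false

/-!
# Weights or bounded order
-/

namespace Pool.Agent.TH53.BL

/-- short relations between characters -/
def Rel {K G : Type*} [Field K] [Monoid G] {k : ℕ} (χ : Fin k → (G →* K)) (p : ℕ)
    (m m' : Fin k →₀ ℕ) : Prop :=
  ∑ j, m j = p ∧ ∑ j, m' j = p ∧ ∏ j, χ j ^ m j = ∏ j, χ j ^ m' j

lemma exists_fin_family {k n : ℕ} (s : Set (Fin n → ℚ))
    (hfr : Module.finrank ℚ (Submodule.span ℚ s) = k) :
    ∃ t : Fin k → (Fin n → ℚ), (∀ i, t i ∈ s) ∧ LinearIndependent ℚ t := by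
  subst hfr
  obtain ⟨t, ht, -, hli⟩ := Submodule.exists_fun_fin_finrank_span_eq ℚ s
  exact ⟨t, ht, hli⟩

lemma prod_zpow_eq {K ι : Type*} [Field K] (s : Finset ι) {a : K} (ha : a ≠ 0) (f : ι → ℤ) :
    ∏ i ∈ s, a ^ f i = a ^ ∑ i ∈ s, f i := by
  classical
  induction s using Finset.induction_on with
  | empty => simp
  | insert b s hb ih => rw [Finset.prod_insert hb, Finset.sum_insert hb, zpow_add₀ ha, ih]

theorem dichotomy {K G : Type*} [Field K] [Monoid G] {k : ℕ} (j₀ : Fin k) (χ : Fin k → (G →* K))
    (hχ : ∀ j g, χ j g ≠ 0) (p : ℕ) (hp : 0 < p) :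
    (∃ w : Fin k → ℕ, (∃ i j, w i ≠ w j) ∧ ∀ m m' : Fin k →₀ ℕ, Rel χ p m m' →
      ∑ j, w j * m j = ∑ j, w j * m' j) ∨
    ∃ q : ℕ, 0 < q ∧ q ≤ k.factorial * p ^ k ∧ ∀ j g, χ j g ^ q = χ j₀ g ^ q := by
  classical
  set R : Set (Fin k → ℚ) := {r | (∃ m m' : Fin k →₀ ℕ, Rel χ p m m' ∧
    r = fun j => (m j : ℚ) - m' j) ∨ r = Pi.single j₀ 1} with hR
  by_cases hspan : Submodule.span ℚ R = ⊤
  · right
    have hlift : ∀ r ∈ R, ∃ z : Fin k → ℤ, (∀ j, |z j| ≤ p) ∧ (r = fun j => (z j : ℚ)) ∧
        ∀ g, ∏ j, (χ j g / χ j₀ g) ^ z j = 1 := by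
      rintro r (⟨m, m', ⟨h1, h2, h3⟩, rfl⟩ | rfl)
      · have hmp : ∀ j, m j ≤ p := fun j => by
          rw [← h1]; exact Finset.single_le_sum (f := fun j => m j) (fun _ _ => Nat.zero_le _)
            (Finset.mem_univ j)
        have hmp' : ∀ j, m' j ≤ p := fun j => by
          rw [← h2]; exact Finset.single_le_sum (f := fun j => m' j) (fun _ _ => Nat.zero_le _)
            (Finset.mem_univ j)
        refine ⟨fun j => (m j : ℤ) - m' j, fun j => ?_, ?_, fun g => ?_⟩
        · show |(m j : ℤ) - m' j| ≤ p
          rw [abs_le]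
          have := hmp j
          have := hmp' j
          constructor <;> omega
        · funext j
          push_cast
          rfl
        · have h4 : ∏ j, (χ j g) ^ m j = ∏ j, (χ j g) ^ m' j := by
            have := DFunLike.congr_fun h3 g
            simpa [MonoidHom.finsetProd_apply] using this
          have h5 : ∀ j, (χ j g / χ j₀ g) ^ ((m j : ℤ) - m' j) =
              ((χ j g) ^ m j / (χ j g) ^ m' j) * ((χ j₀ g) ^ m' j / (χ j₀ g) ^ m j) := by
            intro j
            have a1 := hχ j g
            have a2 := hχ j₀ g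
            rw [zpow_sub₀ (div_ne_zero a1 a2), zpow_natCast, zpow_natCast, div_pow, div_pow]
            field_simp
          simp only [h5]
          rw [Finset.prod_mul_distrib, Finset.prod_div_distrib, Finset.prod_div_distrib, h4,
            Finset.prod_pow_eq_pow_sum, Finset.prod_pow_eq_pow_sum, h1, h2, div_self, div_self,
            one_mul]
          · exact pow_ne_zero _ (hχ _ _)
          · exact Finset.prod_ne_zero_iff.mpr fun j _ => pow_ne_zero _ (hχ _ _)
      · refine ⟨fun j => if j = j₀ then 1 else 0, fun j => ?_, ?_, fun g => ?_⟩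
        · show |if j = j₀ then (1 : ℤ) else 0| ≤ p
          split_ifs
          · simp; omega
          · simp
        · funext j
          by_cases h : j = j₀
          · subst h; simp
          · simp [h]
        · rw [Finset.prod_eq_single j₀]
          · simp [hχ j₀ g]
          · intro j _ hj
            simp [hj]
          · intro h
            exact absurd (Finset.mem_univ _) h
    have hfr : Module.finrank ℚ (Submodule.span ℚ R) = k := by
      rw [hspan, finrank_top, Module.finrank_fin_fun]
    obtain ⟨t, ht, hli⟩ := exists_fin_family R hfr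
    choose z hz1 hz2 hz3 using fun i => hlift (t i) (ht i)
    set M : Matrix (Fin k) (Fin k) ℤ := Matrix.of z with hM
    have hMt : M.map (Int.cast : ℤ → ℚ) = Matrix.of t := by
      ext i j
      rw [Matrix.map_apply, Matrix.of_apply, hz2 i]
      rfl
    have hdet : M.det ≠ 0 := by
      have h1 : LinearIndependent ℚ (Matrix.of t).row := hli
      rw [Matrix.linearIndependent_rows_iff_isUnit, Matrix.isUnit_iff_isUnit_det] at h1
      have h2 := h1.ne_zero
      rw [← hMt] at h2
      intro h0
      apply h2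
      have := Int.cast_det (R := ℚ) M
      rw [← this, h0, Int.cast_zero]
    refine ⟨M.det.natAbs, Int.natAbs_pos.mpr hdet, ?_, ?_⟩
    · have h1 := Matrix.det_le (A := M) (abv := AbsoluteValue.abs) (x := (p : ℤ))
        (fun i j => hz1 i j)
      rw [Fintype.card_fin, nsmul_eq_mul] at h1
      have h2 : (M.det.natAbs : ℤ) = |M.det| := Int.natCast_natAbs _
      have h3 : (M.det.natAbs : ℤ) ≤ ((k.factorial * p ^ k : ℕ) : ℤ) := by
        rw [h2]
        push_cast
        exact h1
      exact_mod_cast h3
    · intro j g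
      have hs0 : ∀ l, χ l g / χ j₀ g ≠ 0 := fun l => div_ne_zero (hχ _ _) (hχ _ _)
      have h1 : ∏ i, (∏ l, (χ l g / χ j₀ g) ^ z i l) ^ (M.adjugate j i) = 1 := by
        refine Finset.prod_eq_one fun i _ => ?_
        rw [hz3 i g, one_zpow]
      have h2 : ∏ i, (∏ l, (χ l g / χ j₀ g) ^ z i l) ^ (M.adjugate j i) =
          ∏ l, (χ l g / χ j₀ g) ^ ((M.adjugate * M) j l) := by
        have : ∀ i, (∏ l, (χ l g / χ j₀ g) ^ z i l) ^ (M.adjugate j i) =
            ∏ l, (χ l g / χ j₀ g) ^ (M.adjugate j i * M i l) := by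
          intro i
          rw [← Finset.prod_zpow]
          refine Finset.prod_congr rfl fun l _ => ?_
          rw [← zpow_mul, mul_comm]
          rfl
        simp only [this]
        rw [Finset.prod_comm]
        refine Finset.prod_congr rfl fun l _ => ?_
        rw [Matrix.mul_apply]
        exact prod_zpow_eq _ (hs0 l) _
      rw [h2, Matrix.adjugate_mul] at h1
      have h3 : (χ j g / χ j₀ g) ^ M.det = 1 := by
        rw [← h1, Finset.prod_eq_single j]
        · simp
        · intro l _ hl
          rw [Matrix.smul_apply, Matrix.one_apply_ne (Ne.symm hl)]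
          simp
        · intro h
          exact absurd (Finset.mem_univ _) h
      have h4 : (χ j g / χ j₀ g) ^ M.det.natAbs = 1 := by
        rcases Int.natAbs_eq M.det with h | h
        · rw [h, zpow_natCast] at h3
          simpa using h3
        · rw [h, zpow_neg, zpow_natCast, inv_eq_one] at h3
          simpa using h3
      rw [div_pow, div_eq_one_iff_eq (pow_ne_zero _ (hχ _ _))] at h4
      exact h4
  · left
    obtain ⟨f, hf0, hf⟩ := Submodule.exists_le_ker_of_lt_top _ (lt_top_iff_ne_top.mpr hspan)
    set lam : Fin k → ℚ := fun j => f (Pi.single j 1) with hlam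
    have hflam : ∀ r : Fin k → ℚ, f r = ∑ j, lam j * r j := by
      intro r
      have h3 : r = ∑ j, r j • (Pi.single j (1 : ℚ) : Fin k → ℚ) := by
        funext l
        simp [Finset.sum_apply, Pi.single_apply]
      conv_lhs => rw [h3]
      rw [map_sum]
      refine Finset.sum_congr rfl fun j _ => ?_
      rw [map_smul, smul_eq_mul, mul_comm]
    have hlam0 : lam j₀ = 0 := by
      have : (Pi.single j₀ 1 : Fin k → ℚ) ∈ LinearMap.ker f :=
        hf (Submodule.subset_span (Or.inr rfl))
      exact this
    have hlam1 : ∃ j, lam j ≠ 0 := by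
      by_contra hcon
      push Not at hcon
      apply hf0
      ext r
      simp only [LinearMap.coe_comp, Function.comp_apply, LinearMap.zero_apply,
        LinearMap.coe_single]
      exact hcon r
    obtain ⟨j₁, hj₁⟩ := hlam1
    set z : Fin k → ℤ := fun j => (lam j).num * ∏ l ∈ Finset.univ.erase j, ((lam l).den : ℤ) with hz
    set N : ℕ := ∏ l, (lam l).den with hN
    have hNpos : 0 < N := Finset.prod_pos fun l _ => (lam l).den_pos
    have hzN : ∀ j, (z j : ℚ) = N * lam j := by
      intro j
      have h1 : (N : ℚ) = (lam j).den * ∏ l ∈ Finset.univ.erase j, ((lam l).den : ℚ) := by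
        rw [hN]
        push_cast
        exact (Finset.mul_prod_erase _ _ (Finset.mem_univ j)).symm
      have h2 : (lam j) * (lam j).den = (lam j).num := Rat.mul_den_eq_num _
      rw [h1, hz]
      push_cast
      rw [← h2]
      ring
    set C : ℕ := ∑ j, (z j).natAbs with hC
    have hCz : ∀ j, 0 ≤ z j + C := by
      intro j
      have h1 : (z j).natAbs ≤ C := Finset.single_le_sum (f := fun j => (z j).natAbs)
        (fun _ _ => Nat.zero_le _) (Finset.mem_univ j)
      omega
    have hw : ∀ j, (((z j + C).toNat : ℕ) : ℤ) = z j + C := fun j => Int.toNat_of_nonneg (hCz j)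
    refine ⟨fun j => (z j + C).toNat, ⟨j₀, j₁, ?_⟩, ?_⟩
    · intro h
      have h' : (z j₀ + C).toNat = (z j₁ + C).toNat := h
      have h1 : z j₀ + C = z j₁ + C := by
        have a := hw j₀
        have b := hw j₁
        rw [h'] at a
        exact a.symm.trans b
      have h2 : (z j₀ : ℚ) = z j₁ := by exact_mod_cast (add_right_cancel h1)
      rw [hzN, hzN, hlam0, mul_zero] at h2
      have h3 : (N : ℚ) ≠ 0 := by exact_mod_cast hNpos.ne'
      exact (mul_ne_zero h3 hj₁) h2.symm
    · intro m m' hr
      have h1 : (fun j => (m j : ℚ) - m' j) ∈ LinearMap.ker f :=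
        hf (Submodule.subset_span (Or.inl ⟨m, m', hr, rfl⟩))
      rw [LinearMap.mem_ker, hflam] at h1
      obtain ⟨h2, h3, -⟩ := hr
      have h4 : (∑ j, z j * ((m j : ℤ) - m' j) : ℤ) = 0 := by
        have h5 : ((∑ j, z j * ((m j : ℤ) - m' j) : ℤ) : ℚ) = N * ∑ j, lam j * ((m j : ℚ) - m' j) := by
          push_cast
          rw [Finset.mul_sum]
          refine Finset.sum_congr rfl fun j _ => ?_
          rw [hzN]
          ring
        rw [h1, mul_zero] at h5
        exact_mod_cast h5
      have h6 : (∑ j, ((z j + C).toNat : ℤ) * (m j : ℤ)) = ∑ j, ((z j + C).toNat : ℤ) * (m' j : ℤ) := by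
        have h7 : (∑ j, (m j : ℤ)) = p := by exact_mod_cast h2
        have h8 : (∑ j, (m' j : ℤ)) = p := by exact_mod_cast h3
        rw [← sub_eq_zero, ← Finset.sum_sub_distrib]
        have h9 : ∀ j, ((z j + C).toNat : ℤ) * (m j : ℤ) - ((z j + C).toNat : ℤ) * (m' j : ℤ) =
            z j * ((m j : ℤ) - m' j) + C * ((m j : ℤ) - m' j) := by
          intro j
          rw [hw]
          ring
        simp only [h9]
        rw [Finset.sum_add_distrib, h4, ← Finset.mul_sum, Finset.sum_sub_distrib, h7, h8]
        ring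
      exact_mod_cast h6

end Pool.Agent.TH53.BL
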