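import Mathlib
import Pool.Agent.W237.RK.Gal
import Pool.Agent.TH53.BL1
import Pool.Agent.TH53.BL2
import Pool.Agent.TH53.BL3
import Pool.Agent.TH53.BL4

set_option autoImplicit false
set_option linter.unusedVariables false

/-!
# Small sums of few eigenvectors generate small fields
-/

namespace Pool.Agent.TH53.BL

open Pool.Agent.W237.RK
open Pool.Agent.H58P (Qb ht)
open Pool.Agent.H58B (ht_conj)

/-- the automorphisms which fix `F` -/
def fixG (F : GF) : Subgroup Aut where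
  carrier := {σ | Fix F σ}
  mul_mem' := fun h h' => fix_mul h h'
  one_mem' := fix_one F
  inv_mem' := fun h => fix_inv h

/-- the Kummer character -/
noncomputable def kum (F : GF) (hF : ∀ x : Qb, Tor x → x ∈ F) (γ : Qb) (hγ0 : γ ≠ 0)
    (h : ∀ σ : fixG F, Tor (σ.1 γ / γ)) : fixG F →* Qb where
  toFun σ := σ.1 γ / γ
  map_one' := by
    show (1 : Aut) γ / γ = 1
    rw [AlgEquiv.one_apply, div_self hγ0]
  map_mul' σ τ := by
    show (σ.1 * τ.1) γ / γ = σ.1 γ / γ * (τ.1 γ / γ)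
    have h1 : σ.1 (τ.1 γ / γ) = τ.1 γ / γ := σ.2 _ (hF _ (h τ))
    have h2 : τ.1 γ = (τ.1 γ / γ) * γ := by field_simp
    rw [AlgEquiv.mul_apply]
    conv_lhs => rw [h2, map_mul, h1]
    ring

lemma char_ne_zero {F : GF} (χ : fixG F →* Qb) (σ : fixG F) : χ σ ≠ 0 := by
  intro h
  have h1 : χ (σ * σ⁻¹) = 1 := by rw [mul_inv_cancel, map_one]
  rw [map_mul, h, zero_mul] at h1
  exact zero_ne_one h1

section core

variable {k : ℕ} (F : GF) (A : Fin k → Qb) (χ : Fin k → (fixG F →* Qb))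

lemma apply_sum (hA : ∀ j (σ : fixG F), σ.1 (A j) = A j * χ j σ) (J : Finset (Fin k))
    (σ : fixG F) : σ.1 (∑ j ∈ J, A j) = ∑ j ∈ J, A j * χ j σ := by
  rw [map_sum]
  exact Finset.sum_congr rfl fun j _ => hA j σ

lemma sub_sum_ne (hinj : Function.Injective χ) (hA0 : ∀ j, A j ≠ 0)
    (hA : ∀ j (σ : fixG F), σ.1 (A j) = A j * χ j σ) (J : Finset (Fin k)) (hJ : J.Nonempty) :
    ∑ j ∈ J, A j ≠ 0 := by
  classical
  intro h0
  have hli : LinearIndependent Qb (fun i => (χ i : fixG F → Qb)) :=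
    (linearIndependent_monoidHom (fixG F) Qb).comp χ hinj
  have h1 := Fintype.linearIndependent_iff.mp hli (fun j => if j ∈ J then A j else 0) (by
    funext σ
    rw [Finset.sum_apply]
    have h2 := apply_sum F A χ hA J σ
    rw [h0, map_zero] at h2
    simp only [Pi.smul_apply, smul_eq_mul, Pi.zero_apply, ite_mul, zero_mul]
    rw [Finset.sum_ite_mem, Finset.univ_inter]
    exact h2.symm)
  obtain ⟨j, hj⟩ := hJ
  have h3 := h1 j
  rw [if_pos hj] at h3
  exact hA0 j h3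

/-- a small sum of `k` eigenvectors: the ratios of the characters have bounded order -/
theorem core (j₀ : Fin k) (hinj : Function.Injective χ) (hA0 : ∀ j, A j ≠ 0)
    (hA : ∀ j (σ : fixG F), σ.1 (A j) = A j * χ j σ) (p : ℕ) (hp : p.Prime) (hp2 : p ≠ 2)
    (hkp : k ≤ p) (α : Qb) (hα : α = ∑ j, A j)
    (hsmall : (p : ℝ) * (((k : ℝ) + 1) ^ 2 * ht α) < Real.log ((p : ℝ) / (k + 1).factorial)) :
    ∃ q : ℕ, 0 < q ∧ q ≤ k.factorial * p ^ k ∧ ∀ j g, χ j g ^ q = χ j₀ g ^ q := by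
  classical
  rcases dichotomy j₀ χ (fun j g => char_ne_zero (χ j) g) p hp.pos with ⟨w, hw, hc⟩ | h
  · exfalso
    have h1 := many_characters A χ p w (sub_sum_ne F A χ hinj hA0 hA) hw (fun m hm m' hm' h =>
      hc m m' ⟨gp_degree A p m hm, gp_degree A p m' hm', h⟩)
    obtain ⟨σ, τ, hdet⟩ := exists_minor (ap A χ p) (n := k + 1) (by omega)
    set x : Fin (k + 1) → Fin (k + 1) → Qb := fun i j => ∑ l, A l * χ l (σ i * τ j) with hx
    have h2 : (Matrix.of fun i j => x i j ^ p).det ≠ 0 := by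
      have e : (Matrix.of fun i j => x i j ^ p) =
          Matrix.of fun i j => (ap A χ p).sum fun ψ c => c * ψ (σ i * τ j) := by
        funext i j
        exact (ap_apply A χ p (σ i * τ j)).symm
      rw [e]
      exact hdet
    have h3 : (Matrix.of x).det = 0 := det_zero (Nat.lt_succ_self k) A χ σ τ
    have h4 := det_height hp hp2 x h3 h2
    have h5 : ∀ i j, ht (x i j) = ht α := by
      intro i j
      have h6 : x i j = (σ i * τ j).1 α := by
        rw [hα, apply_sum F A χ hA]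
      rw [h6]
      exact ht_conj _ _
    have h7 : ∑ q : Fin (k + 1) × Fin (k + 1), ht (x q.1 q.2) = ((k : ℝ) + 1) ^ 2 * ht α := by
      simp only [h5]
      rw [Finset.sum_const, Finset.card_univ, Fintype.card_prod, Fintype.card_fin, nsmul_eq_mul]
      push_cast
      ring
    rw [h7] at h4
    linarith
  · exact h

/-- the number of conjugates -/
theorem orb_bound (j₀ : Fin k) (hA : ∀ j (σ : fixG F), σ.1 (A j) = A j * χ j σ) (γ₀ : Qb)
    (hγ0 : γ₀ ≠ 0) (hγ : ∀ σ : fixG F, σ.1 γ₀ = γ₀ * χ j₀ σ) (q : ℕ) (hq : 0 < q)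
    (h : ∀ j g, χ j g ^ q = χ j₀ g ^ q) (α : Qb) (hα : α = ∑ j, A j) :
    (orb F (α / γ₀)).ncard ≤ q ^ k := by
  classical
  set Z : Finset (Fin k → Qb) := Fintype.piFinset fun _ => Polynomial.nthRootsFinset q (1 : Qb)
    with hZ
  have hZc : Z.card ≤ q ^ k := by
    rw [hZ, Fintype.card_piFinset, Finset.prod_const, Finset.card_univ, Fintype.card_fin]
    apply Nat.pow_le_pow_left
    exact (Multiset.toFinset_card_le _).trans (Polynomial.card_nthRoots q 1)
  have hsub : orb F (α / γ₀) ⊆ (Z.image fun s => ∑ j, A j / γ₀ * s j : Finset Qb) := by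
    rintro _ ⟨σ, hσ, rfl⟩
    rw [Finset.mem_coe, Finset.mem_image]
    refine ⟨fun j => χ j ⟨σ, hσ⟩ / χ j₀ ⟨σ, hσ⟩, ?_, ?_⟩
    · rw [hZ, Fintype.mem_piFinset]
      intro j
      rw [Polynomial.mem_nthRootsFinset hq, div_pow, h j, div_self]
      exact pow_ne_zero _ (char_ne_zero _ _)
    · have h1 : σ α = ∑ j, A j * χ j ⟨σ, hσ⟩ := by
        rw [hα]
        exact apply_sum F A χ hA Finset.univ ⟨σ, hσ⟩
      have h2 : σ γ₀ = γ₀ * χ j₀ ⟨σ, hσ⟩ := hγ ⟨σ, hσ⟩
      rw [map_div₀, h1, h2, Finset.sum_div]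
      refine Finset.sum_congr rfl fun j _ => ?_
      have := char_ne_zero (χ j₀) ⟨σ, hσ⟩
      field_simp
  calc (orb F (α / γ₀)).ncard ≤ ((Z.image fun s => ∑ j, A j / γ₀ * s j : Finset Qb) : Set Qb).ncard :=
        Set.ncard_le_ncard hsub (Finset.finite_toSet _)
    _ = (Z.image fun s => ∑ j, A j / γ₀ * s j).card := Set.ncard_coe_finset _
    _ ≤ Z.card := Finset.card_image_le
    _ ≤ q ^ k := hZc

end core

end Pool.Agent.TH53.BL
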