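import Mathlib
import Pool.Agent.W237.RK.Defs
import Pool.Agent.W237.RK.Gal

set_option autoImplicit false
set_option linter.unusedVariables false

/-!
# Explicit constants, polynomial in the degree
-/

namespace Pool.Agent.TH53.RP

open Polynomial
open Pool.Agent.H58P (Qb ht)
open Pool.Agent.W237.RK

/-- the constant `1 / (A D^A)` -/
noncomputable def lowc (A D : ℕ) : ℝ := ((A : ℝ) * (D : ℝ) ^ A)⁻¹

lemma lowc_pos {A D : ℕ} (hA : 0 < A) (hD : 0 < D) : 0 < lowc A D := by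
  unfold lowc
  positivity

lemma lowc_anti {A A' D : ℕ} (hA : 0 < A) (hD : 0 < D) (h : A ≤ A') : lowc A' D ≤ lowc A D := by
  unfold lowc
  have h1 : (1 : ℝ) ≤ D := by exact_mod_cast hD
  have h2 : (A : ℝ) ≤ A' := by exact_mod_cast h
  have h3 : (D : ℝ) ^ A ≤ (D : ℝ) ^ A' := pow_le_pow_right₀ h1 h
  have h4 : (0 : ℝ) < A := by exact_mod_cast hA
  apply inv_anti₀ (by positivity)
  gcongr

/-- a function bounded by a polynomial -/
def PB (g : ℕ → ℝ) : Prop := ∃ A : ℕ, 0 < A ∧ ∀ D : ℕ, 0 < D → g D ≤ A * (D : ℝ) ^ A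

lemma PB.const (c : ℝ) : PB fun _ => c := by
  refine ⟨⌈|c|⌉₊ + 1, Nat.succ_pos _, fun D hD => ?_⟩
  have h1 : (1 : ℝ) ≤ D := by exact_mod_cast hD
  have h2 : (1 : ℝ) ≤ (D : ℝ) ^ (⌈|c|⌉₊ + 1) := one_le_pow₀ h1
  have h3 : |c| ≤ ⌈|c|⌉₊ := Nat.le_ceil _
  have h4 : c ≤ |c| := le_abs_self c
  push_cast
  nlinarith [abs_nonneg c]

lemma PB.id : PB fun D => (D : ℝ) := by
  refine ⟨1, one_pos, fun D hD => ?_⟩
  simp

lemma PB.mono {g g' : ℕ → ℝ} (h : ∀ D : ℕ, 0 < D → g D ≤ g' D) (hg : PB g') : PB g := by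
  obtain ⟨A, hA, h1⟩ := hg
  exact ⟨A, hA, fun D hD => (h D hD).trans (h1 D hD)⟩

lemma PB.mul {g g' : ℕ → ℝ} (hg : PB g) (hg' : PB g') (h0 : ∀ D : ℕ, 0 < D → 0 ≤ g' D) :
    PB fun D => g D * g' D := by
  obtain ⟨A, hA, h1⟩ := hg
  obtain ⟨A', hA', h2⟩ := hg'
  refine ⟨A * A' + A + A', by positivity, fun D hD => ?_⟩
  have h3 : (1 : ℝ) ≤ D := by exact_mod_cast hD
  calc g D * g' D ≤ (A * (D : ℝ) ^ A) * (A' * (D : ℝ) ^ A') := by
        apply mul_le_mul (h1 D hD) (h2 D hD) (h0 D hD) (by positivity)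
    _ = ((A * A' : ℕ) : ℝ) * (D : ℝ) ^ (A + A') := by push_cast; ring
    _ ≤ ((A * A' + A + A' : ℕ) : ℝ) * (D : ℝ) ^ (A * A' + A + A') := by
        apply mul_le_mul
        · exact_mod_cast (by omega : A * A' ≤ A * A' + A + A')
        · exact pow_le_pow_right₀ h3 (by omega)
        · positivity
        · positivity

lemma PB.add {g g' : ℕ → ℝ} (hg : PB g) (hg' : PB g') : PB fun D => g D + g' D := by
  obtain ⟨A, hA, h1⟩ := hg
  obtain ⟨A', hA', h2⟩ := hg'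
  refine ⟨A + A', by positivity, fun D hD => ?_⟩
  have h3 : (1 : ℝ) ≤ D := by exact_mod_cast hD
  have h4 : (D : ℝ) ^ A ≤ (D : ℝ) ^ (A + A') := pow_le_pow_right₀ h3 (by omega)
  have h5 : (D : ℝ) ^ A' ≤ (D : ℝ) ^ (A + A') := pow_le_pow_right₀ h3 (by omega)
  have h6 : (0 : ℝ) < A := by exact_mod_cast hA
  have h7 : (0 : ℝ) < A' := by exact_mod_cast hA'
  calc g D + g' D ≤ A * (D : ℝ) ^ A + A' * (D : ℝ) ^ A' := add_le_add (h1 D hD) (h2 D hD)
    _ ≤ A * (D : ℝ) ^ (A + A') + A' * (D : ℝ) ^ (A + A') := by gcongr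
    _ = ((A + A' : ℕ) : ℝ) * (D : ℝ) ^ (A + A') := by push_cast; ring

lemma PB.pow {g : ℕ → ℝ} (hg : PB g) (h0 : ∀ D : ℕ, 0 < D → 0 ≤ g D) (n : ℕ) :
    PB fun D => g D ^ n := by
  induction n with
  | zero => simpa using PB.const 1
  | succ n ih =>
    have := ih.mul hg h0
    simpa [pow_succ] using this

/-- the polynomial bound of the inverse -/
lemma PB.exists_lowc {g : ℕ → ℝ} (hg : PB g) (h0 : ∀ D : ℕ, 0 < D → 0 < g D) :
    ∃ A : ℕ, 0 < A ∧ ∀ D : ℕ, 0 < D → lowc A D ≤ (g D)⁻¹ := by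
  obtain ⟨A, hA, h1⟩ := hg
  exact ⟨A, hA, fun D hD => inv_anti₀ (h0 D hD) (h1 D hD)⟩

lemma lowc_inv_PB (A : ℕ) : PB fun D => (lowc A D)⁻¹ := by
  unfold lowc
  simp only [inv_inv]
  exact (PB.const (A : ℝ)).mul (PB.id.pow (fun D _ => by positivity) A) (fun D _ => by positivity)

/-- the exponent `m ≤ D` such that `α ^ m` is torsion-rigid -/
lemma torRigid_small {Finf : GF} (h : ∀ x : Qb, Tor x → x ∈ Finf) {α : Qb} (hα : α ≠ 0)
    {D : ℕ} (hD : (orb Finf α).ncard ≤ D) : ∃ m : ℕ, 0 < m ∧ m ≤ D ∧ TorRigid Finf (α ^ m) := by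
  classical
  let G : Subgroup Qbˣ :=
    { carrier := {η | Tor (η : Qb) ∧ ∃ ρ : Aut, Fix Finf ρ ∧ ρ α = (η : Qb) * α}
      mul_mem' := by
        rintro η η' ⟨h1, ρ, hρ, h2⟩ ⟨h1', ρ', hρ', h2'⟩
        refine ⟨by rw [Units.val_mul]; exact h1.mul h1', ρ * ρ', fix_mul hρ hρ', ?_⟩
        rw [AlgEquiv.mul_apply, h2', map_mul, hρ _ (h _ h1'), h2, Units.val_mul]
        ring
      one_mem' := ⟨by rw [Units.val_one]; exact tor_one, 1, fix_one _, by simp⟩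
      inv_mem' := by
        rintro η ⟨h1, ρ, hρ, h2⟩
        refine ⟨by rw [Units.val_inv_eq_inv_val]; exact h1.inv, ρ⁻¹, fix_inv hρ, ?_⟩
        have h3 : ρ⁻¹ (ρ α) = α := inv_apply_self ρ α
        rw [h2, map_mul, fix_inv hρ _ (h _ h1)] at h3
        rw [Units.val_inv_eq_inv_val, eq_inv_mul_iff_mul_eq₀ (Units.ne_zero η)]
        exact h3 }
  have hinj : Set.InjOn (fun η : Qbˣ => (η : Qb) * α) (G : Set Qbˣ) := by
    intro x _ y _ hxy
    exact Units.ext (mul_right_cancel₀ hα hxy)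
  have hsub : (fun η : Qbˣ => (η : Qb) * α) '' (G : Set Qbˣ) ⊆ orb Finf α := by
    rintro _ ⟨η, ⟨_, ρ, hρ, h2⟩, rfl⟩
    exact ⟨ρ, hρ, h2⟩
  have hfin : (G : Set Qbˣ).Finite :=
    Set.Finite.of_finite_image ((orb_finite Finf α).subset hsub) hinj
  have hG : Finite G := hfin
  have hcard : Nat.card G ≤ D := by
    have h1 := Set.ncard_le_ncard hsub (orb_finite Finf α)
    rw [hinj.ncard_image] at h1
    have h2 : (G : Set Qbˣ).ncard = Nat.card G := rfl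
    rw [h2] at h1
    exact h1.trans hD
  refine ⟨Nat.card G, Nat.card_pos, hcard, ?_⟩
  intro ρ hρ ht
  have hη : Tor (ρ α / α) := by
    rw [map_pow, ← div_pow] at ht
    exact Tor.of_pow Nat.card_pos ht
  have hη0 : ρ α / α ≠ 0 := hη.ne_zero
  set η : Qbˣ := Units.mk0 (ρ α / α) hη0 with hηdef
  have hηG : η ∈ G := by
    refine ⟨hη, ρ, hρ, ?_⟩
    show ρ α = (ρ α / α) * α
    field_simp
  have h1 : (⟨η, hηG⟩ : G) ^ Nat.card G = 1 := pow_card_eq_one'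
  have h2 : (ρ α / α) ^ Nat.card G = 1 := by
    have h3 : η ^ Nat.card G = 1 := congrArg Subtype.val h1
    have h4 : ((η ^ Nat.card G : Qbˣ) : Qb) = ((1 : Qbˣ) : Qb) := congrArg Units.val h3
    rw [Units.val_pow_eq_pow_val, Units.val_one] at h4
    exact h4
  rw [map_pow]
  rw [div_pow, div_eq_one_iff_eq (pow_ne_zero _ hα)] at h2
  exact h2

end Pool.Agent.TH53.RP
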