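import Mathlib
import Pool.Agent.W349.CV.Had

/-!
# Hadamard's inequality for Vandermonde determinants
-/

set_option autoImplicit false

open Finset
open scoped ComplexOrder Matrix

namespace Pool.Agent.TH53.HR

theorem vandermonde_le {N : ℕ} (v : Fin N → ℂ) :
    ‖(Matrix.vandermonde v).det‖ ^ 2 ≤ (N : ℝ) ^ N * ∏ i, (max 1 ‖v i‖) ^ (2 * (N - 1)) := by
  set W := Matrix.vandermonde v with hW
  have hps : (W * Wᴴ).PosSemidef := Matrix.posSemidef_self_mul_conjTranspose W
  have h1 := Pool.Agent.W349.CV.had N (W * Wᴴ) hps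
  have h2 : (W * Wᴴ).det.re = ‖W.det‖ ^ 2 := by
    rw [Matrix.det_mul, Matrix.det_conjTranspose, RCLike.star_def, Complex.mul_conj,
      Complex.ofReal_re, Complex.normSq_eq_norm_sq]
  rw [h2] at h1
  refine h1.trans ?_
  have h3 : (N : ℝ) ^ N * ∏ i, (max 1 ‖v i‖) ^ (2 * (N - 1)) =
      ∏ i : Fin N, (N : ℝ) * (max 1 ‖v i‖) ^ (2 * (N - 1)) := by
    rw [Finset.prod_mul_distrib, Finset.prod_const, Finset.card_univ, Fintype.card_fin]
  rw [h3]
  have h4 : ∀ i, ((W * Wᴴ) i i).re = ∑ j : Fin N, ‖v i‖ ^ (2 * (j : ℕ)) := by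
    intro i
    rw [Matrix.mul_apply, Complex.re_sum]
    refine Finset.sum_congr rfl fun j _ => ?_
    rw [Matrix.conjTranspose_apply, RCLike.star_def, Complex.mul_conj, Complex.ofReal_re,
      Complex.normSq_eq_norm_sq, hW, Matrix.vandermonde_apply, norm_pow, ← pow_mul, mul_comm]
  refine Finset.prod_le_prod (fun i _ => ?_) (fun i _ => ?_)
  · rw [h4]; positivity
  · rw [h4]
    calc ∑ j : Fin N, ‖v i‖ ^ (2 * (j : ℕ)) ≤ ∑ j : Fin N, (max 1 ‖v i‖) ^ (2 * (N - 1)) := by
          refine Finset.sum_le_sum fun j _ => ?_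
          calc ‖v i‖ ^ (2 * (j : ℕ)) ≤ (max 1 ‖v i‖) ^ (2 * (j : ℕ)) :=
                pow_le_pow_left₀ (norm_nonneg _) (le_max_right _ _) _
            _ ≤ (max 1 ‖v i‖) ^ (2 * (N - 1)) := by
                apply pow_le_pow_right₀ (le_max_left _ _)
                have := j.2
                omega
      _ = (N : ℝ) * (max 1 ‖v i‖) ^ (2 * (N - 1)) := by
          rw [Finset.sum_const, Finset.card_univ, Fintype.card_fin, nsmul_eq_mul]

end Pool.Agent.TH53.HR
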