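import Mathlib
import Pool.Agent.TH53.RP0
import Pool.Agent.TH53.RP1
import Pool.Agent.W369.RK.GL
import Pool.Agent.W402.RK.POW

set_option autoImplicit false
set_option linter.unusedVariables false

/-!
# Pairs of close elements, powers, and numerical lemmas
-/

namespace Pool.Agent.TH53.RP

open Polynomial IntermediateField Module
open Pool.Agent.H58P (Qb ht qb_isIntegral)
open Pool.Agent.W237.RK
open Pool.Agent.W369.RK (prod_le_of_one um_sub)

lemma um_le_max {p : ℕ} [Fact p.Prime] (a b : PadicAlgCl p) :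
    ‖a - b‖ ≤ max 1 ‖a‖ * max 1 ‖b‖ := by
  refine (um_sub p a b).trans (max_le ?_ ?_)
  · calc ‖a‖ ≤ max 1 ‖a‖ * 1 := by rw [mul_one]; exact le_max_right _ _
      _ ≤ _ := mul_le_mul_of_nonneg_left (le_max_left _ _) (zero_le_one.trans (le_max_left _ _))
  · calc ‖b‖ ≤ 1 * max 1 ‖b‖ := by rw [one_mul]; exact le_max_right _ _
      _ ≤ _ := mul_le_mul_of_nonneg_right (le_max_left _ _) (zero_le_one.trans (le_max_left _ _))

/-- **the height inequality for a set with many pairs of close elements** -/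
theorem pairs (p : ℕ) [Fact p.Prime] (φ : Qb →+* PadicAlgCl p) (M : GF)
    (hM : FiniteDimensional ℚ M) (hst : ∀ σ : Aut, ∀ x ∈ M, σ x ∈ M)
    (Z Z₁ : Finset Qb) (hZM : ∀ z ∈ Z, z ∈ M) (hZ₁ : Z₁ ⊆ Z)
    (T : Finset (M ≃ₐ[ℚ] M)) (δ : ℝ) (hδ0 : 0 < δ) (hδ1 : δ ≤ 1)
    (hT : ∀ τ ∈ T, ∃ t : Aut, (∀ x : M, t x = (τ x : Qb)) ∧ ∀ z ∈ Z₁, ∃ z' ∈ Z, z' ≠ z ∧
      ‖φ (t z) - φ (t z')‖ ≤ δ * (max 1 ‖φ (t z)‖ * max 1 ‖φ (t z')‖)) :
    (T.card : ℝ) * (Z₁.card * -Real.log δ) ≤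
      (Module.finrank ℚ M : ℝ) *
        (Z.card * Real.log Z.card + (2 * (Z.card - 1 : ℕ)) * ∑ z ∈ Z, ht z) := by
  classical
  set e := Z.equivFin.symm with he
  set z : Fin Z.card → M := fun i => ⟨(e i : Qb), hZM _ (e i).2⟩ with hz
  have hzinj : Function.Injective z := by
    intro i j hij
    have h1 : (e i : Qb) = e j := congrArg (fun x : M => (x : Qb)) hij
    exact e.injective (Subtype.ext h1)
  have key := ht2 p φ M hM hst Z.card z hzinj T (δ ^ Z₁.card) (by positivity)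
    (pow_le_one₀ hδ0.le hδ1) ?_
  · rw [Real.log_pow] at key
    have h1 : ∑ i, ht (z i : Qb) = ∑ x ∈ Z, ht x := by
      rw [← Finset.sum_coe_sort Z]
      exact Equiv.sum_comp e (fun x : Z => ht (x : Qb))
    rw [h1] at key
    calc (T.card : ℝ) * (Z₁.card * -Real.log δ) = T.card * -(Z₁.card * Real.log δ) := by ring
      _ ≤ _ := key
  · intro τ hτ
    obtain ⟨t, ht, hclose⟩ := hT τ hτ
    have hτz : ∀ i, ((τ (z i) : M) : Qb) = t (e i : Qb) := fun i => (ht (z i)).symm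
    simp only [hτz]
    have hrow : ∀ i, ∏ j ∈ ({i}ᶜ : Finset (Fin Z.card)), ‖φ (t (e i)) - φ (t (e j))‖ ≤
        (if (e i : Qb) ∈ Z₁ then δ else 1) * ∏ j ∈ ({i}ᶜ : Finset (Fin Z.card)),
          (max 1 ‖φ (t (e i))‖ * max 1 ‖φ (t (e j))‖) := by
      intro i
      by_cases h : (e i : Qb) ∈ Z₁
      · rw [if_pos h]
        obtain ⟨z', hz', hne, hcl⟩ := hclose _ h
        set j₀ : Fin Z.card := Z.equivFin ⟨z', hz'⟩ with hj₀
        have hej₀ : (e j₀ : Qb) = z' := by rw [hj₀, he, Equiv.symm_apply_apply]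
        apply prod_le_of_one _ (fun j => ‖φ (t (e i)) - φ (t (e j))‖)
          (fun j => max 1 ‖φ (t (e i))‖ * max 1 ‖φ (t (e j))‖) δ (fun j _ => norm_nonneg _)
          (fun j _ => um_le_max _ _) j₀ ?_ hδ0.le ?_
        · rw [Finset.mem_compl, Finset.mem_singleton]
          rintro h1
          apply hne
          rw [← hej₀, h1]
        · show ‖φ (t (e i)) - φ (t (e j₀))‖ ≤ _
          rw [hej₀]
          exact hcl
      · rw [if_neg h, one_mul]
        exact Finset.prod_le_prod (fun _ _ => norm_nonneg _) fun _ _ => um_le_max _ _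
    have hcount : ∏ i, (if (e i : Qb) ∈ Z₁ then δ else 1) = δ ^ Z₁.card := by
      have h1 : ∏ i, (if (e i : Qb) ∈ Z₁ then δ else 1) = ∏ x ∈ Z, (if x ∈ Z₁ then δ else 1) := by
        rw [← Finset.prod_coe_sort Z]
        exact Equiv.prod_comp e (fun x : Z => if (x : Qb) ∈ Z₁ then δ else 1)
      rw [h1, ← Finset.prod_filter, Finset.prod_const]
      congr 2
      ext x
      rw [Finset.mem_filter]
      exact ⟨fun h => h.2, fun h => ⟨hZ₁ h, h⟩⟩
    calc ∏ i, ∏ j ∈ ({i}ᶜ : Finset (Fin Z.card)), ‖φ (t (e i)) - φ (t (e j))‖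
        ≤ ∏ i, ((if (e i : Qb) ∈ Z₁ then δ else 1) * ∏ j ∈ ({i}ᶜ : Finset (Fin Z.card)),
          (max 1 ‖φ (t (e i))‖ * max 1 ‖φ (t (e j))‖)) :=
          Finset.prod_le_prod (fun i _ => Finset.prod_nonneg fun _ _ => norm_nonneg _)
            fun i _ => hrow i
      _ = _ := by rw [Finset.prod_mul_distrib, hcount]

section pow

variable {p : ℕ} [hp : Fact p.Prime]

open Pool.Agent.W402.RK (sub_le_max step p_pos two_le_p sub_eq_max)

lemma core_pow (B C : ℕ) (hBC : B ≤ 2 ^ C) {X Y : PadicAlgCl p} (hX : ‖X‖ ≤ 1) (hY : ‖Y‖ ≤ 1)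
    (h : ‖X - Y‖ ^ B ≤ (p : ℝ)⁻¹) (k : ℕ) :
    ‖X ^ (p ^ k) - Y ^ (p ^ k)‖ * (p : ℝ) ^ k ≤ (p : ℝ) ^ C := by
  have hp0 := p_pos (p := p)
  have hp2 := two_le_p (p := p)
  have hinv : (0 : ℝ) < (p : ℝ)⁻¹ := by positivity
  have hinv1 : (p : ℝ)⁻¹ < 1 := inv_lt_one_of_one_lt₀ (by linarith)
  set d : ℕ → ℝ := fun j => ‖X ^ (p ^ j) - Y ^ (p ^ j)‖ with hd
  have hd0 : ∀ j, 0 ≤ d j := fun j => norm_nonneg _
  have hXj : ∀ j, ‖X ^ (p ^ j)‖ ≤ 1 := fun j => by
    rw [norm_pow]; exact pow_le_one₀ (norm_nonneg _) hX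
  have hYj : ∀ j, ‖Y ^ (p ^ j)‖ ≤ 1 := fun j => by
    rw [norm_pow]; exact pow_le_one₀ (norm_nonneg _) hY
  have hd1 : ∀ j, d j ≤ 1 := fun j =>
    (sub_le_max _ _).trans (max_le (hXj j) (hYj j))
  have hstep : ∀ j, d (j + 1) ≤ max (d j * (p : ℝ)⁻¹) (d j ^ 2) := by
    intro j
    have := step (hXj j) (hYj j)
    simp only [hd]
    rw [pow_succ, pow_mul, pow_mul]
    exact this
  have hB : B ≠ 0 := by
    rintro rfl
    rw [pow_zero] at h
    linarith
  have claim : ∀ j, d j ≤ (p : ℝ)⁻¹ ∨ d j ^ B ≤ ((p : ℝ)⁻¹) ^ (2 ^ j) := by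
    intro j
    induction j with
    | zero =>
      right
      simp only [hd, pow_zero, pow_one]
      exact h
    | succ j ih =>
      have hs := hstep j
      by_cases hle : d j ≤ (p : ℝ)⁻¹
      · left
        refine hs.trans (max_le ?_ ?_)
        · nlinarith [hd0 j, hd1 j]
        · nlinarith [hd0 j, hd1 j]
      · have ih' := ih.resolve_left hle
        push Not at hle
        right
        have h1 : d (j + 1) ≤ d j ^ 2 := by
          refine hs.trans (max_le ?_ le_rfl)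
          nlinarith [hd0 j]
        calc d (j + 1) ^ B ≤ (d j ^ 2) ^ B := pow_le_pow_left₀ (hd0 _) h1 _
          _ = (d j ^ B) ^ 2 := by rw [← pow_mul, ← pow_mul, mul_comm]
          _ ≤ (((p : ℝ)⁻¹) ^ (2 ^ j)) ^ 2 := pow_le_pow_left₀ (by positivity) ih' _
          _ = ((p : ℝ)⁻¹) ^ (2 ^ (j + 1)) := by rw [← pow_mul, pow_succ]
  have hdC : d C ≤ (p : ℝ)⁻¹ := by
    rcases claim C with h1 | h1
    · exact h1
    · by_contra hcon
      push Not at hcon
      have h2 : ((p : ℝ)⁻¹) ^ B < d C ^ B := pow_lt_pow_left₀ hcon hinv.le hB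
      have h3 : ((p : ℝ)⁻¹) ^ (2 ^ C) ≤ ((p : ℝ)⁻¹) ^ B :=
        pow_le_pow_of_le_one hinv.le hinv1.le hBC
      linarith
  have hdi : ∀ i, d (C + i) ≤ ((p : ℝ)⁻¹) ^ (i + 1) := by
    intro i
    induction i with
    | zero => simpa using hdC
    | succ i ih =>
      have hs := hstep (C + i)
      have h1 : d (C + i) ≤ (p : ℝ)⁻¹ := by
        refine ih.trans ?_
        calc ((p : ℝ)⁻¹) ^ (i + 1) ≤ ((p : ℝ)⁻¹) ^ 1 :=
              pow_le_pow_of_le_one hinv.le hinv1.le (by omega)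
          _ = _ := pow_one _
      have h2 : d (C + i + 1) ≤ d (C + i) * (p : ℝ)⁻¹ := by
        refine hs.trans (max_le le_rfl ?_)
        nlinarith [hd0 (C + i)]
      calc d (C + (i + 1)) = d (C + i + 1) := rfl
        _ ≤ d (C + i) * (p : ℝ)⁻¹ := h2
        _ ≤ ((p : ℝ)⁻¹) ^ (i + 1) * (p : ℝ)⁻¹ := mul_le_mul_of_nonneg_right ih hinv.le
        _ = ((p : ℝ)⁻¹) ^ (i + 1 + 1) := (pow_succ _ _).symm
  change d k * (p : ℝ) ^ k ≤ (p : ℝ) ^ C
  rcases le_total k C with hk | hk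
  · calc d k * (p : ℝ) ^ k ≤ 1 * (p : ℝ) ^ k := by
          apply mul_le_mul_of_nonneg_right (hd1 k) (by positivity)
      _ = (p : ℝ) ^ k := one_mul _
      _ ≤ (p : ℝ) ^ C := pow_le_pow_right₀ (by linarith) hk
  · obtain ⟨i, rfl⟩ := Nat.exists_eq_add_of_le hk
    calc d (C + i) * (p : ℝ) ^ (C + i) ≤ ((p : ℝ)⁻¹) ^ (i + 1) * (p : ℝ) ^ (C + i) := by
          apply mul_le_mul_of_nonneg_right (hdi i) (by positivity)
      _ ≤ ((p : ℝ)⁻¹) ^ i * (p : ℝ) ^ (C + i) := by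
          apply mul_le_mul_of_nonneg_right _ (by positivity)
          exact pow_le_pow_of_le_one hinv.le hinv1.le (by omega)
      _ = (p : ℝ) ^ C := by
          rw [pow_add, inv_pow]
          field_simp

theorem pow2 (B C : ℕ) (hBC : B ≤ 2 ^ C) (k : ℕ) :
    (∀ y : PadicAlgCl p, ‖y - 1‖ ^ B ≤ (p : ℝ)⁻¹ → ‖y ^ (p ^ k) - 1‖ * (p : ℝ) ^ k ≤ (p : ℝ) ^ C) ∧
    (∀ x y : PadicAlgCl p, ‖x - y‖ ^ B ≤ (p : ℝ)⁻¹ * (max 1 ‖x‖ * max 1 ‖y‖) ^ B →
      ‖x ^ (p ^ k) - y ^ (p ^ k)‖ * (p : ℝ) ^ k ≤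
        (p : ℝ) ^ C * (max 1 ‖x‖ * max 1 ‖y‖) ^ (p ^ k)) := by
  refine ⟨?_, ?_⟩
  · intro y hy
    have hp2 := two_le_p (p := p)
    have hB : B ≠ 0 := by
      rintro rfl
      rw [pow_zero] at hy
      have : (p : ℝ)⁻¹ < 1 := inv_lt_one_of_one_lt₀ (by linarith)
      linarith
    have h1 : ‖y - 1‖ ≤ 1 := by
      by_contra hcon
      push Not at hcon
      have h2 := one_le_pow₀ hcon.le (n := B)
      have : (p : ℝ)⁻¹ < 1 := inv_lt_one_of_one_lt₀ (by linarith)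
      linarith
    have h2 : ‖y‖ ≤ 1 := by
      have : y = (y - 1) + 1 := by ring
      rw [this]
      exact (IsUltrametricDist.norm_add_le_max _ _).trans (max_le h1 (by simp))
    have := core_pow B C hBC h2 (Y := 1) (by simp) hy k
    simpa using this
  · intro x y hxy
    have hp2 := two_le_p (p := p)
    have hinv0 : (0 : ℝ) < (p : ℝ)⁻¹ := by positivity
    have hinv : (p : ℝ)⁻¹ < 1 := inv_lt_one_of_one_lt₀ (by linarith)
    set N := max 1 ‖x‖ * max 1 ‖y‖ with hN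
    have hN1 : 1 ≤ N := one_le_mul_of_one_le_of_one_le (le_max_left _ _) (le_max_left _ _)
    have hlt : ‖x - y‖ < N := by
      by_contra hcon
      push Not at hcon
      have h2 : N ^ B ≤ ‖x - y‖ ^ B := pow_le_pow_left₀ (by linarith) hcon _
      have h3 : 0 < N ^ B := by positivity
      nlinarith
    by_cases hx : ‖x‖ ≤ 1
    · by_cases hy : ‖y‖ ≤ 1
      · have hNe : N = 1 := by rw [hN, max_eq_left hx, max_eq_left hy, one_mul]
        rw [hNe] at hxy ⊢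
        rw [one_pow, mul_one] at hxy ⊢
        exact core_pow B C hBC hx hy hxy k
      · exfalso
        push Not at hy
        have h1 : N = ‖y‖ := by rw [hN, max_eq_left hx, max_eq_right hy.le, one_mul]
        have h2 : ‖x - y‖ = ‖y‖ := by
          rw [sub_eq_max (by linarith),
            max_eq_right (by linarith)]
        linarith
    · push Not at hx
      by_cases hy : ‖y‖ ≤ 1
      · exfalso
        have h1 : N = ‖x‖ := by rw [hN, max_eq_right hx.le, max_eq_left hy, mul_one]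
        have h2 : ‖x - y‖ = ‖x‖ := by
          rw [sub_eq_max (by linarith),
            max_eq_left (by linarith)]
        linarith
      · push Not at hy
        have h1 : N = ‖x‖ * ‖y‖ := by rw [hN, max_eq_right hx.le, max_eq_right hy.le]
        have hx0 : x ≠ 0 := by
          rintro rfl; rw [norm_zero] at hx; linarith
        have hy0 : y ≠ 0 := by
          rintro rfl; rw [norm_zero] at hy; linarith
        have e1 : ‖x⁻¹ - y⁻¹‖ = ‖x - y‖ / N := by
          have : x⁻¹ - y⁻¹ = -((x - y) / (x * y)) := by field_simp; ring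
          rw [this, norm_neg, norm_div, norm_mul, h1]
        have h3 : ‖x⁻¹ - y⁻¹‖ ^ B ≤ (p : ℝ)⁻¹ := by
          rw [e1, div_pow, div_le_iff₀ (by positivity)]
          exact hxy
        have hxi : ‖x⁻¹‖ ≤ 1 := by rw [norm_inv]; exact inv_le_one_of_one_le₀ hx.le
        have hyi : ‖y⁻¹‖ ≤ 1 := by rw [norm_inv]; exact inv_le_one_of_one_le₀ hy.le
        have h4 := core_pow B C hBC hxi hyi h3 k
        have e2 : ‖x ^ (p ^ k) - y ^ (p ^ k)‖ =
            ‖(x⁻¹) ^ (p ^ k) - (y⁻¹) ^ (p ^ k)‖ * N ^ (p ^ k) := by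
          have : x ^ (p ^ k) - y ^ (p ^ k) =
              -(((x⁻¹) ^ (p ^ k) - (y⁻¹) ^ (p ^ k)) * (x * y) ^ (p ^ k)) := by
            rw [inv_pow, inv_pow, mul_pow]
            have a1 : x ^ (p ^ k) ≠ 0 := pow_ne_zero _ hx0
            have a2 : y ^ (p ^ k) ≠ 0 := pow_ne_zero _ hy0
            field_simp
            ring
          rw [this, norm_neg, norm_mul, norm_pow, norm_mul, h1]
        rw [e2]
        calc _ = (‖(x⁻¹) ^ (p ^ k) - (y⁻¹) ^ (p ^ k)‖ * (p : ℝ) ^ k) * N ^ (p ^ k) := by ring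
          _ ≤ _ := mul_le_mul_of_nonneg_right h4 (by positivity)

end pow

/-! ### numerical lemmas -/

lemma exists_C (p X : ℕ) (hX : 0 < X) : ∃ C : ℕ, X ≤ 2 ^ C ∧ (p : ℝ) ^ C ≤ (2 * (X : ℝ)) ^ p := by
  refine ⟨Nat.log 2 X + 1, (Nat.lt_pow_succ_log_self (by norm_num) X).le, ?_⟩
  have h1 : 2 ^ Nat.log 2 X ≤ X := Nat.pow_log_le_self 2 hX.ne'
  have h2 : (p : ℝ) ≤ 2 ^ p := by exact_mod_cast (Nat.lt_two_pow_self (n := p)).le
  calc (p : ℝ) ^ (Nat.log 2 X + 1) ≤ ((2 : ℝ) ^ p) ^ (Nat.log 2 X + 1) :=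
        pow_le_pow_left₀ (Nat.cast_nonneg _) h2 _
    _ = ((2 : ℝ) ^ (Nat.log 2 X + 1)) ^ p := by rw [← pow_mul, ← pow_mul, mul_comm]
    _ ≤ (2 * (X : ℝ)) ^ p := by
        apply pow_le_pow_left₀ (by positivity)
        rw [pow_succ, mul_comm]
        have h3 : ((2 : ℝ) ^ Nat.log 2 X) ≤ X := by exact_mod_cast h1
        linarith

lemma exists_N (p : ℕ) (hp : 1 < p) (q D : ℕ) (hD : 0 < D) :
    ∃ N : ℕ, (q : ℝ) * (Real.log (2 * D) + 1) < N * Real.log p ∧
      (p : ℝ) ^ N ≤ p * (6 * (D : ℝ)) ^ q := by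
  have hp1 : (1 : ℝ) < p := by exact_mod_cast hp
  have hlogp : 0 < Real.log p := Real.log_pos hp1
  have hD1 : (1 : ℝ) ≤ D := by exact_mod_cast hD
  set X : ℝ := (q : ℝ) * (Real.log (2 * D) + 1) with hX
  have hX0 : 0 ≤ X := by
    have : 0 ≤ Real.log (2 * D) := Real.log_nonneg (by linarith)
    positivity
  refine ⟨⌊X / Real.log p⌋₊ + 1, ?_, ?_⟩
  · have := Nat.lt_floor_add_one (X / Real.log p)
    rw [div_lt_iff₀ hlogp] at this
    push_cast
    exact this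
  · rw [pow_succ, mul_comm]
    apply mul_le_mul_of_nonneg_left _ (by positivity)
    have h1 : (⌊X / Real.log p⌋₊ : ℝ) * Real.log p ≤ X := by
      rw [← le_div_iff₀ hlogp]
      exact Nat.floor_le (by positivity)
    have h2 : (p : ℝ) ^ ⌊X / Real.log p⌋₊ = Real.exp (⌊X / Real.log p⌋₊ * Real.log p) := by
      rw [Real.exp_nat_mul, Real.exp_log (by positivity)]
    have h3 : Real.exp X = (2 * (D : ℝ) * Real.exp 1) ^ q := by
      rw [hX, Real.exp_nat_mul, Real.exp_add, Real.exp_log (by positivity)]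
    rw [h2]
    refine (Real.exp_le_exp.mpr h1).trans ?_
    rw [h3]
    apply pow_le_pow_left₀ (by positivity)
    have h4 := Real.exp_one_lt_d9
    have h5 : Real.exp 1 ≤ 3 := by linarith
    nlinarith

end Pool.Agent.TH53.RP
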