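import Mathlib
import Pool.Agent.TH53.RP2

set_option autoImplicit false
set_option linter.unusedVariables false

/-!
# The descent step with polynomial constants
-/

namespace Pool.Agent.TH53.RP

open Polynomial IntermediateField Module
open Pool.Agent.H58P (Qb ht qb_isIntegral)
open Pool.Agent.W237.RK
open Pool.Agent.W369.RK (exists_nf_normal count local_part)

/-- the final computation -/
lemma finish (Tc F κm N₁ n D r : ℕ) (hn0 : 0 < n) (hn : n ≤ r * N₁) (hnD : n ≤ 2 * D)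
    (hD : 0 < D) (hN₁ : 0 < N₁) (hF : F ≤ Tc * κm) (hT : 0 < Tc) (L S : ℝ) (hS0 : 0 ≤ S)
    (hS : S ≤ n * (1 / (8 * D)))
    (h : (Tc : ℝ) * (N₁ * L) ≤ (F : ℝ) * (n * Real.log n + (2 * (n - 1 : ℕ)) * S)) :
    L ≤ ((κm * r : ℕ) : ℝ) * (Real.log (2 * D) + 1) := by
  have hD1 : (1 : ℝ) ≤ D := by exact_mod_cast hD
  have hn1 : (1 : ℝ) ≤ n := by exact_mod_cast hn0
  have hnD' : (n : ℝ) ≤ 2 * D := by exact_mod_cast hnD
  have hn' : (n : ℝ) ≤ r * N₁ := by exact_mod_cast hn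
  have hN : (0 : ℝ) < N₁ := by exact_mod_cast hN₁
  have hT' : (0 : ℝ) < Tc := by exact_mod_cast hT
  have hF' : (F : ℝ) ≤ Tc * κm := by exact_mod_cast hF
  have hlog : Real.log n ≤ Real.log (2 * D) := Real.log_le_log (by linarith) hnD'
  have hlog0 : 0 ≤ Real.log (2 * D) := Real.log_nonneg (by linarith)
  have hn2 : ((n - 1 : ℕ) : ℝ) ≤ n := by exact_mod_cast Nat.sub_le n 1
  have hS2 : (2 * ((n - 1 : ℕ) : ℝ)) * S ≤ n := by
    calc (2 * ((n - 1 : ℕ) : ℝ)) * S ≤ (2 * (n : ℝ)) * (n * (1 / (8 * D))) := by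
          apply mul_le_mul _ hS hS0 (by positivity)
          linarith
      _ = n * (n / (4 * D)) := by field_simp; ring
      _ ≤ n * 1 := by
          apply mul_le_mul_of_nonneg_left _ (by positivity)
          rw [div_le_one (by positivity)]
          linarith
      _ = n := mul_one _
  have h1 : (n : ℝ) * Real.log n + (2 * ((n - 1 : ℕ) : ℝ)) * S ≤ (r * N₁) * (Real.log (2 * D) + 1) := by
    calc (n : ℝ) * Real.log n + (2 * ((n - 1 : ℕ) : ℝ)) * S ≤ n * Real.log (2 * D) + n := by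
          apply add_le_add _ hS2
          apply mul_le_mul_of_nonneg_left hlog (by positivity)
      _ = n * (Real.log (2 * D) + 1) := by ring
      _ ≤ _ := mul_le_mul_of_nonneg_right hn' (by linarith)
  have h2 : (Tc : ℝ) * (N₁ * L) ≤ (Tc * κm) * ((r * N₁) * (Real.log (2 * D) + 1)) := by
    refine h.trans ?_
    calc (F : ℝ) * (n * Real.log n + (2 * (n - 1 : ℕ)) * S)
        ≤ F * ((r * N₁) * (Real.log (2 * D) + 1)) :=
          mul_le_mul_of_nonneg_left h1 (Nat.cast_nonneg _)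
      _ ≤ _ := mul_le_mul_of_nonneg_right hF' (by positivity)
  have h3 : ((Tc : ℝ) * N₁) * L ≤ (Tc * N₁) * (((κm * r : ℕ) : ℝ) * (Real.log (2 * D) + 1)) := by
    push_cast
    linarith
  exact le_of_mul_le_mul_left h3 (by positivity)

/-- the descent step with polynomial constants -/
def S_GL2 : Prop := ∀ (p : ℕ) [Fact p.Prime] (φ : Qb →+* PadicAlgCl p) (κ m B : ℕ),
  ∃ A : ℕ, 0 < A ∧ ∀ D : ℕ, 0 < D → ∃ k : ℕ, ∀ (K E : GF) (σ₀ σ : Aut) (β : Qb) (S : Finset Aut),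
    FiniteDimensional ℚ K → Module.finrank ℚ K ≤ κ → FiniteDimensional ℚ E → K ≤ E →
    NormalOver K E → Fix K σ₀ → Fix K σ → Gap p φ E σ₀ B →
    S.card ≤ m → (∀ τ : Aut, Fix K τ → ∃ s ∈ S, AgreeOn E (τ * σ₀ * τ⁻¹) s) →
    (∃ τ : Aut, Fix K τ ∧ AgreeOn E (τ * σ₀ * τ⁻¹) σ) →
    β ≠ 0 → (orb E β).ncard ≤ D →
    (∀ σ' : Aut, Fix K σ' → ht (σ' β / β) ≤ lowc A D) →
    ∃ σ' : Aut, Fix K σ' ∧ AgreeOn E σ' σ ∧ (σ' β) ^ (p ^ k) = β ^ (p ^ k)

theorem gl2 (hroots : S_ROOTS) : S_GL2 := by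
  intro p hp φ κ m B
  classical
  have hp2 : 2 ≤ p := hp.out.two_le
  have hp1 : (1 : ℝ) < p := by exact_mod_cast hp.out.one_lt
  have hp0 : (0 : ℝ) < p := by linarith
  have hlogp : 0 < Real.log p := Real.log_pos hp1
  -- the constant
  set g : ℕ → ℝ := fun D => (8 * (D : ℝ)) *
    ((2 * ((2 * (B + 1) : ℝ) * (D : ℝ))) ^ p * (p * (6 * (D : ℝ)) ^ (κ * m * 2))) with hg
  have hgpos : ∀ D : ℕ, 0 < D → 0 < g D := by
    intro D hD
    have : (0 : ℝ) < D := by exact_mod_cast hD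
    simp only [hg]
    positivity
  have hgPB : PB g := by
    have h8 : PB fun D => (8 * (D : ℝ)) := (PB.const 8).mul PB.id fun D _ => by positivity
    have h2 : PB fun D => (2 * ((2 * (B + 1) : ℝ) * (D : ℝ))) :=
      (PB.const 2).mul ((PB.const _).mul PB.id fun D _ => by positivity) fun D _ => by positivity
    have h6 : PB fun D => (6 * (D : ℝ)) := (PB.const 6).mul PB.id fun D _ => by positivity
    exact h8.mul ((h2.pow (fun D _ => by positivity) p).mul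
      ((PB.const (p : ℝ)).mul (h6.pow (fun D _ => by positivity) _) fun D _ => by positivity)
      fun D _ => by positivity) fun D _ => by positivity
  obtain ⟨A, hA, hAg⟩ := hgPB.exists_lowc hgpos
  refine ⟨A, hA, fun D hDpos => ?_⟩
  have hDR : (0 : ℝ) < D := by exact_mod_cast hDpos
  obtain ⟨C, hC1, hC2⟩ := exists_C p (2 * (B + 1) * D) (by positivity)
  obtain ⟨N, hN, hN2⟩ := exists_N p hp.out.one_lt (κ * m * 2) D hDpos
  set k := C + N with hk
  set c : ℝ := lowc A D with hc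
  have hcpos : 0 < c := lowc_pos hA hDpos
  have hpkc : (p : ℝ) ^ k * c ≤ 1 / (8 * D) := by
    have h1 : (p : ℝ) ^ k ≤ (2 * ((2 * (B + 1) : ℝ) * (D : ℝ))) ^ p *
        (p * (6 * (D : ℝ)) ^ (κ * m * 2)) := by
      rw [hk, pow_add]
      push_cast at hC2
      exact mul_le_mul hC2 hN2 (by positivity) (by positivity)
    have h2 : c ≤ (g D)⁻¹ := hAg D hDpos
    set G := (2 * ((2 * (B + 1) : ℝ) * (D : ℝ))) ^ p * (p * (6 * (D : ℝ)) ^ (κ * m * 2)) with hG
    have hGpos : 0 < G := by positivity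
    have hgD : g D = (8 * D) * G := rfl
    rw [hgD] at h2
    calc (p : ℝ) ^ k * c ≤ G * ((8 * D) * G)⁻¹ :=
          mul_le_mul h1 h2 hcpos.le hGpos.le
      _ = 1 / (8 * D) := by field_simp
  refine ⟨k, ?_⟩
  intro K E σ₀ σ β S hKfd hKκ hEfd hKE hNE hσ₀K hσK hgap hSm hS hσ hβ hD hht'
  by_contra hcon
  push Not at hcon
  -- `B` is positive
  have hB : 0 < B := by
    rcases Nat.eq_zero_or_pos B with h0 | h0
    · exfalso
      have := hgap 1 (one_mem E) one_ne_zero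
      rw [h0, pow_zero] at this
      have h1 : (p : ℝ)⁻¹ < 1 := inv_lt_one_of_one_lt₀ hp1
      linarith
    · exact h0
  have horb := orb_finite E β
  -- the number `δ`
  obtain ⟨δ, hδ0, hδ1, hδ⟩ : ∃ δ : ℝ, 0 < δ ∧ δ < 1 ∧ δ ^ (2 * B * D) = (p : ℝ)⁻¹ := by
    have hn : (2 * B * D) ≠ 0 := by positivity
    refine ⟨((p : ℝ)⁻¹) ^ ((1 : ℝ) / (2 * B * D : ℕ)), by positivity, ?_, ?_⟩
    · apply Real.rpow_lt_one (by positivity) (inv_lt_one_of_one_lt₀ hp1)
      positivity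
    · rw [← Real.rpow_natCast, ← Real.rpow_mul (by positivity)]
      rw [one_div, inv_mul_cancel₀ (by exact_mod_cast hn), Real.rpow_one]
  have hBC : 2 * B * D ≤ 2 ^ C := le_trans (Nat.mul_le_mul_right D (by omega)) hC1
  -- the sets
  set Y : Finset Qb := horb.toFinset with hY
  have hYmem : ∀ y, y ∈ Y ↔ ∃ ρ : Aut, Fix E ρ ∧ ρ β = y := by
    intro y
    rw [hY, Set.Finite.mem_toFinset]
    exact Iff.rfl
  have hYcard : Y.card ≤ D := by rwa [← Set.ncard_eq_toFinset_card _ horb]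
  have hβY : β ∈ Y := (hYmem β).mpr ⟨1, fix_one E, rfl⟩
  obtain ⟨M, hMfd, hEM, hsM, hM⟩ := exists_nf_normal E ((Y ∪ Y.image σ : Finset Qb) : Set Qb)
    (Finset.finite_toSet _)
  have hYM : ∀ y ∈ Y, y ∈ M := fun y hy => hsM (Finset.mem_union_left _ hy)
  have hσM : ∀ y ∈ Y, σ y ∈ M := fun y hy =>
    hsM (Finset.mem_union_right _ (Finset.mem_image_of_mem _ hy))
  obtain ⟨T, hT, hTcard⟩ := count K E M hKE hEM hM hNE σ₀ σ S m κ hSm hS hσ hKκ
  set P := p ^ k with hP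
  set z₁ : Qb → Qb := fun y => (y / β) ^ P with hz₁
  set z₂ : Qb → Qb := fun y => (σ y / β) ^ P with hz₂
  set Z₁ := Y.image z₁ with hZ₁
  set Z₂ := Y.image z₂ with hZ₂
  set Z := Z₁ ∪ Z₂ with hZ
  have hZ₂card : Z₂.card ≤ Z₁.card := by
    have h1 : Z₂ = Z₁.image (fun w => σ (w * β ^ P) / β ^ P) := by
      rw [hZ₂, hZ₁, Finset.image_image]
      apply Finset.image_congr
      intro y _
      show (σ y / β) ^ P = σ ((y / β) ^ P * β ^ P) / β ^ P
      rw [← mul_pow, div_mul_cancel₀ _ hβ, map_pow, div_pow]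
    rw [h1]
    exact Finset.card_image_le
  have hZ₁card : Z₁.card ≤ D := Finset.card_image_le.trans hYcard
  have hZ₁pos : 0 < Z₁.card := Finset.card_pos.mpr ⟨z₁ β, Finset.mem_image_of_mem _ hβY⟩
  have hunion : Z.card ≤ Z₁.card + Z₂.card := Finset.card_union_le Z₁ Z₂
  have hZcard : Z.card ≤ 2 * Z₁.card := by omega
  have hne : ∀ y ∈ Y, ∀ y' ∈ Y, z₂ y' ≠ z₁ y := by
    intro y hy y' hy' h
    obtain ⟨ρ, hρ, rfl⟩ := (hYmem y).mp hy
    obtain ⟨ρ', hρ', rfl⟩ := (hYmem y').mp hy'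
    apply hcon (ρ⁻¹ * σ * ρ')
    · exact fix_mul (fix_mul (fix_inv (fix_mono hKE hρ)) hσK) (fix_mono hKE hρ')
    · intro x hx
      show ρ⁻¹ (σ (ρ' x)) = σ x
      rw [hρ' x hx]
      exact fix_inv hρ _ (hNE σ hσK x hx)
    · have h1 : (σ (ρ' β)) ^ P = (ρ β) ^ P := by
        have h2 : (σ (ρ' β) / β) ^ P = (ρ β / β) ^ P := h
        rw [div_pow, div_pow] at h2
        exact (div_left_inj' (pow_ne_zero _ hβ)).mp h2
      show (ρ⁻¹ (σ (ρ' β))) ^ P = β ^ P
      rw [← map_pow, h1, map_pow, inv_apply_self]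
  have hZM : ∀ z ∈ Z, z ∈ M := by
    intro z hz
    rcases Finset.mem_union.mp hz with hz | hz
    · obtain ⟨y, hy, rfl⟩ := Finset.mem_image.mp hz
      exact pow_mem (div_mem (hYM y hy) (hYM β hβY)) _
    · obtain ⟨y, hy, rfl⟩ := Finset.mem_image.mp hz
      exact pow_mem (div_mem (hσM y hy) (hYM β hβY)) _
  have hmain := pairs p φ M hMfd hM Z Z₁ hZM Finset.subset_union_left T (((p : ℝ) ^ N)⁻¹)
    (by positivity) (by
      apply inv_le_one_of_one_le₀
      exact one_le_pow₀ hp1.le) (by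
      intro τ hτ
      obtain ⟨t, htK, ht, hag⟩ := hT τ hτ
      refine ⟨t, ht, ?_⟩
      intro z hz
      obtain ⟨y, hy, rfl⟩ := Finset.mem_image.mp hz
      obtain ⟨ρ₀, hρ₀, hρ₀y⟩ := (hYmem y).mp hy
      have hy0 : y ≠ 0 := by
        rw [← hρ₀y]
        exact (map_ne_zero ρ₀).mpr hβ
      have horby : orb E y = orb E β := by
        rw [← hρ₀y]
        apply Set.Subset.antisymm
        · rintro _ ⟨ρ, hρ, rfl⟩
          exact ⟨ρ * ρ₀, fix_mul hρ hρ₀, rfl⟩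
        · rintro _ ⟨ρ, hρ, rfl⟩
          refine ⟨ρ * ρ₀⁻¹, fix_mul hρ (fix_inv hρ₀), ?_⟩
          show ρ (ρ₀⁻¹ (ρ₀ β)) = ρ β
          rw [inv_apply_self]
      obtain ⟨ρ, hρ, hclose⟩ := local_part p φ hroots E B D δ hδ0 hδ1 hB hδ σ₀ σ t y hy0
        (hNE t htK) hgap hag (by rw [horby]; exact hD)
      have hρy : ρ y ∈ Y := (hYmem _).mpr ⟨ρ * ρ₀, fix_mul hρ hρ₀, by rw [← hρ₀y]; rfl⟩
      refine ⟨z₂ (ρ y), Finset.mem_union_right _ (Finset.mem_image_of_mem _ hρy),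
        hne y hy _ hρy, ?_⟩
      have h1 := (pow2 (p := p) (2 * B * D) C hBC k).1 (φ (t (σ (ρ y))) / φ (t y)) (by
          rw [← hδ]
          exact pow_le_pow_left₀ (norm_nonneg _) hclose.le _)
      have hty0 : φ (t y) ≠ 0 := (map_ne_zero φ).mpr ((map_ne_zero t).mpr hy0)
      have htβ0 : φ (t β) ≠ 0 := (map_ne_zero φ).mpr ((map_ne_zero t).mpr hβ)
      set w : PadicAlgCl p := (φ (t (σ (ρ y))) / φ (t y)) ^ P with hw
      have e1 : φ (t (z₂ (ρ y))) = φ (t (z₁ y)) * w := by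
        simp only [hz₁, hz₂, hw, map_pow, map_div₀, ← mul_pow]
        congr 1
        field_simp
      have e2 : φ (t (z₁ y)) - φ (t (z₂ (ρ y))) = -(φ (t (z₁ y)) * (w - 1)) := by
        rw [e1]; ring
      rw [e2, norm_neg, norm_mul]
      have h2 : ‖w - 1‖ ≤ ((p : ℝ) ^ N)⁻¹ := by
        have h3 : (0 : ℝ) < (p : ℝ) ^ C := by positivity
        have h4 : (0 : ℝ) < (p : ℝ) ^ N := by positivity
        have h5 : (p : ℝ) ^ k = (p : ℝ) ^ C * (p : ℝ) ^ N := by rw [hk, pow_add]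
        rw [← one_div, le_div_iff₀ h4]
        rw [h5] at h1
        have h6 : (p : ℝ) ^ C * (‖w - 1‖ * (p : ℝ) ^ N) ≤ (p : ℝ) ^ C * 1 := by
          rw [mul_one]
          calc _ = ‖w - 1‖ * ((p : ℝ) ^ C * (p : ℝ) ^ N) := by ring
            _ ≤ _ := h1
        exact le_of_mul_le_mul_left h6 h3
      calc ‖φ (t (z₁ y))‖ * ‖w - 1‖ ≤ (max 1 ‖φ (t (z₁ y))‖ * max 1 ‖φ (t (z₂ (ρ y)))‖) *
            ((p : ℝ) ^ N)⁻¹ := by
            apply mul_le_mul _ h2 (norm_nonneg _) (by positivity)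
            calc ‖φ (t (z₁ y))‖ ≤ max 1 ‖φ (t (z₁ y))‖ * 1 := by
                  rw [mul_one]; exact le_max_right _ _
              _ ≤ _ := mul_le_mul_of_nonneg_left (le_max_left _ _)
                  (zero_le_one.trans (le_max_left _ _))
        _ = _ := mul_comm _ _)
  -- the heights
  have hhz : ∀ z ∈ Z, ht z ≤ 1 / (8 * D) := by
    intro z hz
    have key : ∃ s : Aut, Fix K s ∧ z = (s β / β) ^ P := by
      rcases Finset.mem_union.mp hz with hz | hz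
      · obtain ⟨y, hy, rfl⟩ := Finset.mem_image.mp hz
        obtain ⟨ρ, hρ, rfl⟩ := (hYmem y).mp hy
        exact ⟨ρ, fix_mono hKE hρ, rfl⟩
      · obtain ⟨y, hy, rfl⟩ := Finset.mem_image.mp hz
        obtain ⟨ρ, hρ, rfl⟩ := (hYmem y).mp hy
        exact ⟨σ * ρ, fix_mul hσK (fix_mono hKE hρ), rfl⟩
    obtain ⟨s, hs, rfl⟩ := key
    rw [Pool.Agent.H58B.ht_pow, hP]
    refine le_trans ?_ hpkc
    push_cast
    exact mul_le_mul_of_nonneg_left (hht' s hs) (by positivity)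
  have hsum : ∑ z ∈ Z, ht z ≤ Z.card * (1 / (8 * D)) := by
    have := Finset.sum_le_card_nsmul Z (fun z => ht z) _ hhz
    rwa [nsmul_eq_mul] at this
  have hsum0 : 0 ≤ ∑ z ∈ Z, ht z := Finset.sum_nonneg fun z _ => Pool.Agent.H58R.ht_nonneg z
  have hlogN : -Real.log (((p : ℝ) ^ N)⁻¹) = N * Real.log p := by
    rw [Real.log_inv, neg_neg, Real.log_pow]
  rw [hlogN] at hmain
  have hMpos : 0 < finrank ℚ M := finrank_pos
  have hTpos : 0 < T.card := by
    rcases Nat.eq_zero_or_pos T.card with h0 | h0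
    · rw [h0, zero_mul] at hTcard
      omega
    · exact h0
  have hZpos : 0 < Z.card := lt_of_lt_of_le hZ₁pos (Finset.card_le_card Finset.subset_union_left)
  have hfin := finish T.card (finrank ℚ M) (κ * m) Z₁.card Z.card D 2 hZpos hZcard (by omega)
    hDpos hZ₁pos hTcard hTpos (N * Real.log p) _ hsum0 hsum hmain
  linarith

end Pool.Agent.TH53.RP
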