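import Mathlib
import Pool.Agent.TH53.RP3
import Pool.Agent.W669.RK.GLF

set_option autoImplicit false
set_option linter.unusedVariables false

/-!
# The Frobenius step with polynomial constants
-/

namespace Pool.Agent.TH53.RP

open Polynomial
open Pool.Agent.W237.RK
open Pool.Agent.H58P (Qb ht)
open Pool.Agent.H58R (ht_nonneg)
open Pool.Agent.H58B (ht_conj ht_pow)
open Pool.Agent.W669.RK (exists_big exists_close tor_of_ht_zero max_one_pow)

/-- the Frobenius step with polynomial constants -/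
def S_GLF2 : Prop := ∀ (p : ℕ) [Fact p.Prime] (φ : Qb →+* PadicAlgCl p) (κ n₁ : ℕ),
  ∃ A : ℕ, 0 < A ∧ ∀ D : ℕ, 0 < D → ∀ (K E : GF) (σ : Aut) (a : ℕ) (β : Qb),
    FiniteDimensional ℚ K → Module.finrank ℚ K ≤ κ → FiniteDimensional ℚ E → K ≤ E →
    NormalOver K E → Fix K σ → (∀ τ : Aut, Fix K τ → ∀ x ∈ E, τ (σ x) = σ (τ x)) →
    0 < a → a ≤ n₁ →
    (∀ x ∈ E, ‖φ x‖ ≤ 1 → ‖φ (σ x - x ^ (p ^ a))‖ ^ n₁ ≤ (p : ℝ)⁻¹) →
    β ≠ 0 → (orb E β).ncard ≤ D → ht β ≤ lowc A D → Tor β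

/-- the fibres of `x ↦ x ^ n` -/
lemma card_fibre [DecidableEq Qb] (n : ℕ) (hn : 0 < n) (s : Finset Qb) :
    s.card ≤ n * (s.image fun x => x ^ n).card := by
  apply Finset.card_le_mul_card_image
  intro b _
  have h1 : (s.filter fun x => x ^ n = b) ⊆ (nthRoots n b).toFinset := by
    intro x hx
    rw [Finset.mem_filter] at hx
    rw [Multiset.mem_toFinset, mem_nthRoots hn]
    exact hx.2
  exact (Finset.card_le_card h1).trans ((Multiset.toFinset_card_le _).trans (card_nthRoots n b))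

theorem glf2 : S_GLF2 := by
  classical
  intro p _ φ κ n₁
  have hp : p.Prime := Fact.out
  have hpR : (0 : ℝ) < p := by exact_mod_cast hp.pos
  have hp1 : (1 : ℝ) < p := by exact_mod_cast hp.one_lt
  have hlogp : 0 < Real.log p := Real.log_pos hp1
  -- the constant
  set r : ℕ := 1 + p ^ n₁ with hr
  set q : ℕ := κ * r with hq
  set g : ℕ → ℝ := fun D => (8 * (D : ℝ)) *
    (((2 * ((n₁ + 1 : ℝ) * (D : ℝ))) ^ p * (p * (6 * (D : ℝ)) ^ q)) * (p : ℝ) ^ n₁) with hg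
  have hgpos : ∀ D : ℕ, 0 < D → 0 < g D := by
    intro D hD
    have : (0 : ℝ) < D := by exact_mod_cast hD
    simp only [hg]
    positivity
  have hgPB : PB g := by
    have h8 : PB fun D => (8 * (D : ℝ)) := (PB.const 8).mul PB.id fun D _ => by positivity
    have h2 : PB fun D => (2 * ((n₁ + 1 : ℝ) * (D : ℝ))) :=
      (PB.const 2).mul ((PB.const _).mul PB.id fun D _ => by positivity) fun D _ => by positivity
    have h6 : PB fun D => (6 * (D : ℝ)) := (PB.const 6).mul PB.id fun D _ => by positivity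
    exact h8.mul (((h2.pow (fun D _ => by positivity) p).mul
      ((PB.const (p : ℝ)).mul (h6.pow (fun D _ => by positivity) _) fun D _ => by positivity)
      fun D _ => by positivity).mul (PB.const ((p : ℝ) ^ n₁)) fun D _ => by positivity)
      fun D _ => by positivity
  obtain ⟨A, hA, hAg⟩ := hgPB.exists_lowc hgpos
  refine ⟨A, hA, fun D hDpos => ?_⟩
  have hDR : (0 : ℝ) < D := by exact_mod_cast hDpos
  obtain ⟨C, hC1, hC2⟩ := exists_C p ((n₁ + 1) * D) (by positivity)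
  obtain ⟨N, hN, hN2⟩ := exists_N p hp.one_lt q D hDpos
  set k := C + N with hk
  set c : ℝ := lowc A D with hc
  have hcpos : 0 < c := lowc_pos hA hDpos
  have hpkc : (p : ℝ) ^ k * (p : ℝ) ^ n₁ * c ≤ 1 / (8 * D) := by
    have h1 : (p : ℝ) ^ k ≤ (2 * ((n₁ + 1 : ℝ) * (D : ℝ))) ^ p * (p * (6 * (D : ℝ)) ^ q) := by
      rw [hk, pow_add]
      push_cast at hC2
      exact mul_le_mul hC2 hN2 (by positivity) (by positivity)
    have h2 : c ≤ (g D)⁻¹ := hAg D hDpos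
    set G := (2 * ((n₁ + 1 : ℝ) * (D : ℝ))) ^ p * (p * (6 * (D : ℝ)) ^ q) with hG
    have hGpos : 0 < G := by positivity
    have hgD : g D = (8 * D) * (G * (p : ℝ) ^ n₁) := rfl
    rw [hgD] at h2
    calc (p : ℝ) ^ k * (p : ℝ) ^ n₁ * c ≤ (G * (p : ℝ) ^ n₁) * ((8 * D) * (G * (p : ℝ) ^ n₁))⁻¹ :=
          mul_le_mul (mul_le_mul_of_nonneg_right h1 (by positivity)) h2 hcpos.le (by positivity)
      _ = 1 / (8 * D) := by field_simp
  intro K E σ a β hK hκ hE hKE hN' hσ hcomm ha ha' hfrob hβ hD hht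
  by_cases h0 : ht β = 0
  · exact tor_of_ht_zero β hβ h0
  exfalso
  have hn₁pos : 0 < n₁ := lt_of_lt_of_le ha ha'
  have hhpos : 0 < ht β := lt_of_le_of_ne (ht_nonneg β) (Ne.symm h0)
  set Y := (orb_finite E β).toFinset with hY
  have hYmem : ∀ y, y ∈ Y ↔ ∃ ρ : Aut, Fix E ρ ∧ ρ β = y := by
    intro y
    rw [hY, Set.Finite.mem_toFinset]
    exact Iff.rfl
  have hYcard : Y.card = (orb E β).ncard := (Set.ncard_eq_toFinset_card _ _).symm
  have hYD : Y.card ≤ D := by rw [hYcard]; exact hD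
  have hβY : β ∈ Y := by rw [hY, Set.Finite.mem_toFinset]; exact self_mem_orb E β
  have hco : ∀ j, (∏ y ∈ Y, (X - Polynomial.C y)).coeff j ∈ E := by
    intro j
    rw [hY, ← minpoly_map_eq_oprod, coeff_map]
    exact ((minpoly E β).coeff j).2
  obtain ⟨M, hMf, hMs, hEM, hsM, T, hT1, hT2⟩ := exists_big K E hE hKE (Y ∪ Y.image σ)
  have hYM : ∀ y ∈ Y, y ∈ M := fun y hy => hsM _ (Finset.mem_union_left _ hy)
  have hσM : ∀ y ∈ Y, σ y ∈ M := fun y hy => hsM _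
    (Finset.mem_union_right _ (Finset.mem_image_of_mem _ hy))
  have hhty : ∀ y ∈ Y, ht y = ht β := by
    intro y hy
    rw [hY, Set.Finite.mem_toFinset] at hy
    obtain ⟨τ, -, rfl⟩ := hy
    exact ht_conj τ β
  set z₁ : Qb → Qb := fun y => (y ^ (p ^ a)) ^ (p ^ k) with hz₁
  set z₂ : Qb → Qb := fun y => (σ y) ^ (p ^ k) with hz₂
  have hht1 : ∀ y ∈ Y, ht (z₁ y) = (p : ℝ) ^ k * ((p : ℝ) ^ a * ht β) := by
    intro y hy
    show ht ((y ^ (p ^ a)) ^ (p ^ k)) = _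
    rw [ht_pow, ht_pow, hhty y hy]
    push_cast
    ring
  have hht2 : ∀ y ∈ Y, ht (z₂ y) = (p : ℝ) ^ k * ht β := by
    intro y hy
    show ht ((σ y) ^ (p ^ k)) = _
    rw [ht_pow, ht_conj, hhty y hy]
    push_cast
    ring
  have hne : ∀ y ∈ Y, ∀ y' ∈ Y, z₂ y' ≠ z₁ y := by
    intro y hy y' hy' hs
    have h1 : ht (z₂ y') = ht (z₁ y) := by rw [hs]
    rw [hht1 y hy, hht2 y' hy'] at h1
    have h2 : ht β = (p : ℝ) ^ a * ht β := mul_left_cancel₀ (by positivity) h1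
    have h3 : (1 : ℝ) < (p : ℝ) ^ a := one_lt_pow₀ hp1 (by omega)
    have h4 : ht β < (p : ℝ) ^ a * ht β := lt_mul_of_one_lt_left hhpos h3
    linarith
  set Z₁ := Y.image z₁ with hZ₁
  set Z₂ := Y.image z₂ with hZ₂
  set Z := Z₁ ∪ Z₂ with hZ
  have hZ₂card : Z₂.card ≤ p ^ n₁ * Z₁.card := by
    set W := Y.image (fun y => y ^ (p ^ k)) with hW
    have h1 : Z₂ = W.image σ := by
      rw [hZ₂, hW, Finset.image_image]
      apply Finset.image_congr
      intro y _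
      show (σ y) ^ (p ^ k) = σ (y ^ (p ^ k))
      rw [map_pow]
    have h2 : Z₁ = W.image (fun x => x ^ (p ^ a)) := by
      rw [hZ₁, hW, Finset.image_image]
      apply Finset.image_congr
      intro y _
      show (y ^ (p ^ a)) ^ (p ^ k) = (y ^ (p ^ k)) ^ (p ^ a)
      rw [← pow_mul, ← pow_mul, mul_comm]
    calc Z₂.card ≤ W.card := by rw [h1]; exact Finset.card_image_le
      _ ≤ p ^ a * Z₁.card := by rw [h2]; exact card_fibre _ (pow_pos hp.pos a) W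
      _ ≤ p ^ n₁ * Z₁.card := Nat.mul_le_mul_right _ (Nat.pow_le_pow_right hp.pos ha')
  have hZ₁card : Z₁.card ≤ D := Finset.card_image_le.trans hYD
  have hZ₂card' : Z₂.card ≤ D := Finset.card_image_le.trans hYD
  have hZ₁pos : 0 < Z₁.card := Finset.card_pos.mpr ⟨z₁ β, Finset.mem_image_of_mem _ hβY⟩
  have hunion : Z.card ≤ Z₁.card + Z₂.card := Finset.card_union_le Z₁ Z₂
  have hZcard : Z.card ≤ r * Z₁.card := by
    rw [hr, add_mul, one_mul]
    omega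
  have hZcard2 : Z.card ≤ 2 * D := by omega
  have hZM : ∀ z ∈ Z, z ∈ M := by
    intro z hz
    rcases Finset.mem_union.mp hz with hz | hz
    · obtain ⟨y, hy, rfl⟩ := Finset.mem_image.mp hz
      exact pow_mem (pow_mem (hYM y hy) _) _
    · obtain ⟨y, hy, rfl⟩ := Finset.mem_image.mp hz
      exact pow_mem (hσM y hy) _
  have hBC : n₁ * D ≤ 2 ^ C := le_trans (Nat.mul_le_mul_right D (by omega)) hC1
  have hmain := pairs p φ M hMf hMs Z Z₁ hZM Finset.subset_union_left T (((p : ℝ) ^ N)⁻¹)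
    (by positivity) (by
      apply inv_le_one_of_one_le₀
      exact one_le_pow₀ hp1.le) (by
    intro τ hτ
    obtain ⟨t, ht1, ht2⟩ := hT2 τ hτ
    refine ⟨t, ht2, ?_⟩
    intro z hz
    obtain ⟨y, hy, rfl⟩ := Finset.mem_image.mp hz
    set ψ : Qb →+* PadicAlgCl p := φ.comp (t : Qb →+* Qb) with hψ
    have hψE : ∀ x ∈ E, ‖ψ x‖ ≤ 1 → ‖ψ (σ x - x ^ (p ^ a))‖ ^ n₁ ≤ (p : ℝ)⁻¹ := by
      intro x hx hx1
      have h1 := hfrob (t x) (hN' t ht1 x hx) hx1
      have h2 : ψ (σ x - x ^ (p ^ a)) = φ (σ (t x) - (t x) ^ (p ^ a)) := by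
        rw [← hcomm t ht1 x hx, ← map_pow, ← map_sub]
        rfl
      rw [h2]
      exact h1
    obtain ⟨y₀, hy₀, hclose⟩ := exists_close ψ σ E a n₁ D hn₁pos Y hYD hco y hy hψE
    refine ⟨z₂ y₀, Finset.mem_union_right _ (Finset.mem_image_of_mem _ hy₀),
        hne y hy _ hy₀, ?_⟩
    have hpow := (pow2 (p := p) (n₁ * D) C hBC k).2 (ψ y ^ (p ^ a)) (ψ (σ y₀)) hclose
    have e1 : φ (t (z₁ y)) = (ψ y ^ (p ^ a)) ^ (p ^ k) := by
      show φ (t ((y ^ (p ^ a)) ^ (p ^ k))) = (φ (t y) ^ (p ^ a)) ^ (p ^ k)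
      rw [map_pow, map_pow, map_pow, map_pow]
    have e2 : φ (t (z₂ y₀)) = ψ (σ y₀) ^ (p ^ k) := by
      show φ (t ((σ y₀) ^ (p ^ k))) = (φ (t (σ y₀))) ^ (p ^ k)
      rw [map_pow, map_pow]
    rw [e1, e2]
    have e3 : max 1 ‖(ψ y ^ (p ^ a)) ^ (p ^ k)‖ * max 1 ‖ψ (σ y₀) ^ (p ^ k)‖ =
        (max 1 ‖ψ y ^ (p ^ a)‖ * max 1 ‖ψ (σ y₀)‖) ^ (p ^ k) := by
      rw [norm_pow (ψ y ^ (p ^ a)), norm_pow (ψ (σ y₀)), ← max_one_pow _ (norm_nonneg _),
        ← max_one_pow _ (norm_nonneg _), ← mul_pow]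
    rw [e3]
    set R := (max 1 ‖ψ y ^ (p ^ a)‖ * max 1 ‖ψ (σ y₀)‖) ^ (p ^ k) with hR
    set d := ‖(ψ y ^ (p ^ a)) ^ (p ^ k) - ψ (σ y₀) ^ (p ^ k)‖ with hd
    have h3 : (0 : ℝ) < (p : ℝ) ^ C := by positivity
    have h4 : (0 : ℝ) < (p : ℝ) ^ N := by positivity
    have h5 : (p : ℝ) ^ k = (p : ℝ) ^ C * (p : ℝ) ^ N := by rw [hk, pow_add]
    rw [inv_mul_eq_div, le_div_iff₀ h4]
    rw [h5] at hpow
    have h6 : (p : ℝ) ^ C * (d * (p : ℝ) ^ N) ≤ (p : ℝ) ^ C * R := by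
      calc _ = d * ((p : ℝ) ^ C * (p : ℝ) ^ N) := by ring
        _ ≤ _ := hpow
    exact le_of_mul_le_mul_left h6 h3)
  have hlogN : -Real.log (((p : ℝ) ^ N)⁻¹) = N * Real.log p := by
    rw [Real.log_inv, neg_neg, Real.log_pow]
  rw [hlogN] at hmain
  -- the heights
  have hhz : ∀ z ∈ Z, ht z ≤ 1 / (8 * D) := by
    intro z hz
    have h8 : (p : ℝ) ^ a ≤ (p : ℝ) ^ n₁ := pow_le_pow_right₀ hp1.le ha'
    have h9 : (1 : ℝ) ≤ (p : ℝ) ^ n₁ := one_le_pow₀ hp1.le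
    have h10 : (p : ℝ) ^ k * ((p : ℝ) ^ n₁ * ht β) ≤ 1 / (8 * D) := by
      refine le_trans ?_ hpkc
      calc (p : ℝ) ^ k * ((p : ℝ) ^ n₁ * ht β) = (p : ℝ) ^ k * (p : ℝ) ^ n₁ * ht β := by ring
        _ ≤ _ := mul_le_mul_of_nonneg_left hht (by positivity)
    refine le_trans ?_ h10
    rcases Finset.mem_union.mp hz with hz | hz
    · obtain ⟨y, hy, rfl⟩ := Finset.mem_image.mp hz
      rw [hht1 y hy]
      apply mul_le_mul_of_nonneg_left _ (by positivity)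
      exact mul_le_mul_of_nonneg_right h8 hhpos.le
    · obtain ⟨y, hy, rfl⟩ := Finset.mem_image.mp hz
      rw [hht2 y hy]
      apply mul_le_mul_of_nonneg_left _ (by positivity)
      calc ht β = 1 * ht β := (one_mul _).symm
        _ ≤ _ := mul_le_mul_of_nonneg_right h9 hhpos.le
  have hsum : ∑ z ∈ Z, ht z ≤ Z.card * (1 / (8 * D)) := by
    have := Finset.sum_le_card_nsmul Z (fun z => ht z) _ hhz
    rwa [nsmul_eq_mul] at this
  have hsum0 : 0 ≤ ∑ z ∈ Z, ht z := Finset.sum_nonneg fun z _ => ht_nonneg z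
  have hTpos : 0 < T.card := by
    have h1 : 0 < Module.finrank ℚ M := Module.finrank_pos
    rw [hT1] at h1
    exact Nat.pos_of_mul_pos_left h1
  have hZpos : 0 < Z.card := lt_of_lt_of_le hZ₁pos (Finset.card_le_card Finset.subset_union_left)
  have hTcard : Module.finrank ℚ M ≤ T.card * κ := by
    rw [hT1, mul_comm]
    exact Nat.mul_le_mul_left _ hκ
  have hfin := finish T.card (Module.finrank ℚ M) κ Z₁.card Z.card D r hZpos hZcard hZcard2
    hDpos hZ₁pos hTcard hTpos (N * Real.log p) _ hsum0 hsum hmain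
  linarith

end Pool.Agent.TH53.RP
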