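import Mathlib
import Pool.Agent.TH53.RP3
import Pool.Agent.W369.RK.CS
import Pool.Agent.W237.RK.KS

set_option autoImplicit false
set_option linter.unusedVariables false

/-!
# The cyclotomic step and the Kummer step with polynomial constants
-/

namespace Pool.Agent.TH53.RP

open Polynomial IntermediateField Module
open Pool.Agent.H58P (Qb ht qb_isIntegral)
open Pool.Agent.W237.RK
open Pool.Agent.W369.RK (fix_lev pow_act)

/-- the cyclotomic step -/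
def S_CS2 : Prop := ∀ (p : ℕ) [Fact p.Prime] (φ : Qb →+* PadicAlgCl p) (K : GF)
  (Γ : Subgroup Qbˣ), FiniteDimensional ℚ K → Γ.FG → (∀ g ∈ Γ, (g : Qb) ∈ K) →
  ∃ (B A : ℕ), 0 < A ∧ ∀ D : ℕ, 0 < D → ∀ (Finf : GF) (i n M M' : ℕ) (β : Qb), n + B ≤ i →
    ¬ p ∣ M → ¬ p ∣ M' → kinf K ≤ Finf → lev K Γ (p ^ i * M') (p ^ n * M) ≤ Finf →
    NormalOver K Finf → β ≠ 0 → (orb Finf β).ncard ≤ D → TorRigid Finf β →
    Rigid Finf (lev K Γ (p ^ i * M') (p ^ n * M)) β →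
    (∀ σ : Aut, Fix K σ → ht (σ β / β) ≤ lowc A D) →
    ∃ γ : Qb, Tor γ ∧ Rigid Finf (lev K Γ (p ^ (i - 1) * M') (p ^ n * M)) (β / γ)

/-- the Kummer step -/
def S_KS2 : Prop := ∀ (p : ℕ) [Fact p.Prime] (φ : Qb →+* PadicAlgCl p) (K : GF)
  (Γ : Subgroup Qbˣ), FiniteDimensional ℚ K → Γ.FG → (∀ g ∈ Γ, (g : Qb) ∈ K) → ∀ J : ℕ,
  ∃ (n₀ A : ℕ), 0 < A ∧ ∀ D : ℕ, 0 < D → ∀ (Finf : GF) (i n M M' : ℕ) (β : Qb), n₀ ≤ n → n ≤ i →
    i ≤ n + J → ¬ p ∣ M → ¬ p ∣ M' → levInf K Γ (p ^ n * M) ≤ Finf →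
    NormalOver K Finf → β ≠ 0 → (orb Finf β).ncard ≤ D → TorRigid Finf β →
    Rigid Finf (lev K Γ (p ^ i * M') (p ^ n * M)) β →
    (∀ σ : Aut, Fix K σ → ht (σ β / β) ≤ lowc A D) →
    ∃ γ : Qb, (∃ g ∈ Γ, γ ^ (p ^ n * M) = (g : Qb)) ∧
      Rigid Finf (levInf K Γ (p ^ (n - 1) * M)) (β / γ)

theorem cs2 : S_GL2 → S_LT → S_CS2 := by
  intro hgl hlt p hp φ K Γ hKfd hΓ hΓK
  have hpp := hp.out
  obtain ⟨B₀, hB₀, hLT⟩ := hlt p φ K Γ hKfd hΓ hΓK 0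
  obtain ⟨A, hA, hGL'⟩ := hgl p φ (finrank ℚ K) 1 B₀
  refine ⟨B₀ + 3, A, hA, fun D hD0 => ?_⟩
  obtain ⟨k, hGL⟩ := hGL' D hD0
  intro Finf i n M M' β hni hM hM' hkinf hlevF hNF hβ hD htor hrig hht
  have hM'0 : 0 < M' := by
    rcases Nat.eq_zero_or_pos M' with h0 | h0
    · rw [h0] at hM'
      exact absurd (dvd_zero p) hM'
    · exact h0
  have hM0 : 0 < M := by
    rcases Nat.eq_zero_or_pos M with h0 | h0
    · rw [h0] at hM
      exact absurd (dvd_zero p) hM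
    · exact h0
  have hi3 : 3 ≤ i := by omega
  obtain ⟨σ₀, hσ₀fix, hσ₀mov, hgap⟩ := hLT i i n M M' (by omega) (by omega) le_rfl (by omega)
    hM hM'
  have hmin : min n (i - B₀) = n := by omega
  rw [hmin] at hσ₀fix
  set E := lev K Γ (p ^ i * M') (p ^ n * M) with hE
  set E' := lev K Γ (p ^ (i - 1) * M') (p ^ n * M) with hE'
  have hK'E' : K ≤ E' := le_lev K Γ _ _
  have hKE : K ≤ E := le_lev K Γ _ _
  have hNE : NormalOver K E := normal_lev K Γ hΓK _ _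
  have hNE' : NormalOver K E' := normal_lev K Γ hΓK _ _
  have hE'E : E' ≤ E := by
    apply lev_mono K Γ _ (Nat.mul_pos (pow_pos hpp.pos n) hM0) dvd_rfl
    exact Nat.mul_dvd_mul_right (pow_dvd_pow p (by omega)) M'
  have hEfd : FiniteDimensional ℚ E := finiteDimensional_lev K hKfd Γ hΓ _ _
    (Nat.mul_pos (pow_pos hpp.pos i) hM'0) (Nat.mul_pos (pow_pos hpp.pos n) hM0)
  have hσ₀K : Fix K σ₀ := fix_mono hK'E' hσ₀fix
  have hKfix : ∀ σ : Aut, AgreeOn E σ σ₀ → Fix K σ := by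
    intro σ hσ x hx
    rw [hσ x (hKE hx), hσ₀K x hx]
  -- roots of unity in `E'`
  have hrootE' : ∀ x : Qb, x ^ (p ^ (i - 1)) = 1 → x ∈ E' := by
    intro x hx
    apply root_mem_lev
    rw [pow_mul, hx, one_pow]
  have hrootE'2 : ∀ x : Qb, x ^ (p ^ 2) = 1 → x ∈ E' := by
    intro x hx
    apply hrootE'
    have h1 : p ^ (i - 1) = p ^ 2 * p ^ (i - 3) := by
      rw [← pow_add]
      congr 1
      omega
    rw [h1, pow_mul, hx, one_pow]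
  have hrootE'1 : ∀ x : Qb, x ^ p = 1 → x ∈ E' := by
    intro x hx
    apply hrootE'2
    rw [pow_two, pow_mul, hx, one_pow]
  -- conjugates of `σ₀`
  have hconj : ∀ τ : Aut, Fix K τ → AgreeOn E (τ * σ₀ * τ⁻¹) σ₀ := by
    intro τ hτ
    apply Pool.Agent.W369.RK.agree_lev
    · intro x hx
      show τ (σ₀ (τ⁻¹ x)) = σ₀ x
      rw [fix_inv hτ x hx, hσ₀K x hx, hτ x hx]
    · intro x hx
      show τ (σ₀ (τ⁻¹ x)) = σ₀ x
      have hxt : Tor x := ⟨p ^ i * M', Nat.mul_pos (pow_pos hpp.pos i) hM'0, hx⟩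
      obtain ⟨a, ha⟩ := Pool.Agent.W369.RK.tor_pow τ⁻¹ x hxt
      obtain ⟨b, hb⟩ := Pool.Agent.W369.RK.tor_pow σ₀ x hxt
      have h1 : σ₀ (τ⁻¹ x) = (τ⁻¹ x) ^ b := by
        rw [ha, map_pow, hb, ← pow_mul, ← pow_mul, mul_comm]
      rw [h1, map_pow, apply_inv_self, hb]
    · intro y hy
      show τ (σ₀ (τ⁻¹ y)) = σ₀ y
      have h1 : y ∈ E' := rad_mem_lev K Γ hy
      rw [hσ₀fix _ (hNE' _ (fix_inv hτ) y h1), hσ₀fix y h1, apply_inv_self]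
  -- the descent step
  have horb : (orb E β).ncard ≤ D := by
    rw [orb_eq_of_rigid hlevF hrig]
    exact hD
  obtain ⟨st, hstK, hstE, hstβ⟩ := hGL K E σ₀ σ₀ β {σ₀} hKfd le_rfl hEfd hKE hNE hσ₀K hσ₀K hgap
    (by rw [Finset.card_singleton])
    (fun τ hτ => ⟨σ₀, Finset.mem_singleton_self _, hconj τ hτ⟩)
    ⟨1, fix_one K, hconj 1 (fix_one K)⟩ hβ horb (fun σ' h1 => hht σ' h1)
  set ξ := st β / β with hξ
  have hstβ' : st β = ξ * β := by rw [hξ]; field_simp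
  have hξk : ξ ^ (p ^ k) = 1 := by
    rw [hξ, div_pow, hstβ, div_self (pow_ne_zero _ hβ)]
  have hξtor : Tor ξ := ⟨p ^ k, pow_pos hpp.pos k, hξk⟩
  have hξ0 : ξ ≠ 0 := hξtor.ne_zero
  have htorF : ∀ x : Qb, Tor x → x ∈ Finf := fun x hx => hkinf (tor_mem_kinf K hx)
  -- (1) `ξ ∈ E`
  have hξE : ξ ∈ E := by
    apply mem_of_fix
    intro κ hκ
    obtain ⟨ρ, hρ, hρβ⟩ := hrig (st⁻¹ * κ * st) (fix_conj' hNE hstK hκ)
    obtain ⟨ρ'', hρ'', hρ''β⟩ := hrig κ hκ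
    set ρ' := st * ρ * st⁻¹ with hρ'
    have hρ'F : Fix Finf ρ' := fix_conj hNF hstK hρ
    have h1 : κ (st β) = ξ * ρ' β := by
      have h2 : κ (st β) = st ((st⁻¹ * κ * st) β) := by
        show κ (st β) = st (st⁻¹ (κ (st β)))
        rw [apply_inv_self]
      rw [h2, hρβ]
      have h3 : st (ρ β) = ρ' (st β) := by
        show st (ρ β) = st (ρ (st⁻¹ (st β)))
        rw [inv_apply_self]
      rw [h3, hstβ', map_mul, hρ'F ξ (htorF ξ hξtor)]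
    have h4 : κ (st β) = κ ξ * ρ'' β := by
      rw [hstβ', map_mul, hρ''β]
    have h5 : ξ * ρ' β = κ ξ * ρ'' β := by rw [← h1, h4]
    have hκξ : Tor (κ ξ) := hξtor.map κ
    have h6 : (ρ''⁻¹ * ρ') β = (κ ξ / ξ) * β := by
      have h7 : ρ''⁻¹ (ξ * ρ' β) = ρ''⁻¹ (κ ξ * ρ'' β) := by rw [h5]
      rw [map_mul, map_mul, fix_inv hρ'' ξ (htorF ξ hξtor), fix_inv hρ'' _ (htorF _ hκξ),
        inv_apply_self] at h7
      show ρ''⁻¹ (ρ' β) = _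
      field_simp
      rw [mul_comm, h7]
    have h8 := htor (ρ''⁻¹ * ρ') (fix_mul (fix_inv hρ'') hρ'F) (by
      rw [h6, mul_div_assoc, div_self hβ, mul_one]
      exact hκξ.div hξtor)
    rw [h8] at h6
    have h9 : κ ξ / ξ = 1 := by
      have h10 : (κ ξ / ξ) * β = 1 * β := by rw [← h6, one_mul]
      exact mul_right_cancel₀ hβ h10
    rwa [div_eq_one_iff_eq hξ0] at h9
  -- `σ₀ ^ p` is trivial on `E`
  have hpw : ∀ x : Qb, x ^ (p ^ i) = 1 → ∃ ω : Qb, ω ^ p = 1 ∧ σ₀ x = ω * x := by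
    intro x hx
    have hx0 : x ≠ 0 := by
      rintro rfl
      rw [zero_pow (pow_pos hpp.pos i).ne'] at hx
      exact zero_ne_one hx
    refine ⟨σ₀ x / x, ?_, by field_simp⟩
    rw [div_pow, ← map_pow, hσ₀fix (x ^ p), div_self (pow_ne_zero _ hx0)]
    apply hrootE'
    rw [← pow_mul, ← pow_succ', show i - 1 + 1 = i by omega, hx]
  have hζex : ∃ ζ : Qb, IsPrimitiveRoot ζ (p ^ i) := by
    have : NeZero ((p ^ i : ℕ) : Qb) := ⟨by exact_mod_cast (pow_pos hpp.pos i).ne'⟩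
    exact HasEnoughRootsOfUnity.exists_primitiveRoot Qb (p ^ i)
  obtain ⟨ζ, hζ⟩ := hζex
  have hζ0 : ζ ≠ 0 := hζ.ne_zero (pow_pos hpp.pos i).ne'
  have hζE : ζ ∈ E := by
    apply root_mem_lev
    rw [pow_mul, hζ.pow_eq_one, one_pow]
  obtain ⟨η, hηp, hη⟩ := hpw ζ hζ.pow_eq_one
  have hη1 : η ≠ 1 := by
    intro h
    rw [h, one_mul] at hη
    exact hσ₀mov ζ hζ hη
  have hηfix : σ₀ η = η := hσ₀fix η (hrootE'1 η hηp)
  have hηprim : IsPrimitiveRoot η p := by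
    have h1 : orderOf η = p := orderOf_eq_prime hηp hη1
    rw [← h1]
    exact IsPrimitiveRoot.orderOf η
  have hσ₀p : Fix E (σ₀ ^ p) := by
    apply fix_lev K Γ p i M' _ hpp hM' ζ hζ
    · exact fix_pow hσ₀fix p
    · rw [pow_act σ₀ ζ η hη hηfix, hηp, one_mul]
  have hstpow : ∀ j : ℕ, AgreeOn E (st ^ j) (σ₀ ^ j) := by
    intro j
    induction j with
    | zero => intro x _; rfl
    | succ j ih =>
      intro x hx
      rw [pow_succ, pow_succ, AlgEquiv.mul_apply, AlgEquiv.mul_apply, hstE x hx]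
      exact ih _ (hNE σ₀ hσ₀K x hx)
  have hstp : Fix E (st ^ p) := by
    intro x hx
    rw [hstpow p x hx, hσ₀p x hx]
  -- (2) `ξ ^ (p ^ i) = 1`
  have hξi : ξ ^ (p ^ i) = 1 := by
    by_contra hcon
    obtain ⟨a, -, ha⟩ := (Nat.dvd_prime_pow hpp).mp (orderOf_dvd_of_pow_eq_one hξk)
    have hai : i + 1 ≤ a := by
      by_contra hlt'
      apply hcon
      apply orderOf_dvd_iff_pow_eq_one.mp
      rw [ha]
      exact pow_dvd_pow p (by omega)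
    have hprimξ : IsPrimitiveRoot ξ (p ^ a) := by
      rw [← ha]
      exact IsPrimitiveRoot.orderOf ξ
    set ζ' := ξ ^ (p ^ (a - (i + 1))) with hζ'
    have hζ'prim : IsPrimitiveRoot ζ' (p ^ (i + 1)) := by
      apply hprimξ.pow (pow_pos hpp.pos a)
      rw [← pow_add]
      congr 1
      omega
    have hζ'E : ζ' ∈ E := pow_mem hξE _
    have hζ'0 : ζ' ≠ 0 := pow_ne_zero _ hξ0
    have h1 : IsPrimitiveRoot (ζ' ^ p) (p ^ i) := by
      apply hζ'prim.pow (pow_pos hpp.pos _)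
      rw [pow_succ']
    set ω := σ₀ ζ' / ζ' with hω
    have hωζ' : σ₀ ζ' = ω * ζ' := by rw [hω]; field_simp
    have h2 : ω ^ (p ^ 2) = 1 := by
      rw [hω, div_pow, ← map_pow, hσ₀fix (ζ' ^ (p ^ 2)), div_self (pow_ne_zero _ hζ'0)]
      apply hrootE'
      rw [← pow_mul, ← pow_add, show 2 + (i - 1) = i + 1 by omega, hζ'prim.pow_eq_one]
    have h3 : ω ^ p ≠ 1 := by
      intro h
      apply hσ₀mov _ h1
      rw [map_pow, hωζ', mul_pow, h, one_mul]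
    have h4 : (σ₀ ^ p) ζ' = ω ^ p * ζ' := pow_act σ₀ ζ' ω hωζ' (hσ₀fix ω (hrootE'2 ω h2)) p
    rw [hσ₀p ζ' hζ'E] at h4
    apply h3
    have h5 : ω ^ p * ζ' = 1 * ζ' := by rw [← h4, one_mul]
    exact mul_right_cancel₀ hζ'0 h5
  -- (3) `ξ ^ p = 1`
  obtain ⟨θ, hθp, hθ⟩ := hpw ξ hξi
  have hθfix : σ₀ θ = θ := hσ₀fix θ (hrootE'1 θ hθp)
  have hθE : θ ∈ E := hE'E (hrootE'1 θ hθp)
  have hstξ : st ξ = θ * ξ := by rw [hstE ξ hξE, hθ]
  have hstθ : st θ = θ := by rw [hstE θ hθE, hθfix]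
  have hstj : ∀ j : ℕ, (st ^ j) β = θ ^ (j.choose 2) * ξ ^ j * β := by
    intro j
    induction j with
    | zero => simp
    | succ j ih =>
      rw [pow_succ', AlgEquiv.mul_apply, ih, map_mul, map_mul, map_pow, map_pow, hstθ, hstξ,
        hstβ', Nat.choose_succ_succ' j 1, Nat.choose_one_right]
      ring
  have h3 : θ ^ (p.choose 2) * ξ ^ p = 1 := by
    obtain ⟨ρ, hρ, hρβ⟩ := hrig (st ^ p) hstp
    have h1 : ρ β = θ ^ (p.choose 2) * ξ ^ p * β := by rw [← hρβ, hstj]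
    have h2 := htor ρ hρ (by
      rw [h1, mul_div_assoc, div_self hβ, mul_one]
      refine ⟨p ^ (i + 1), pow_pos hpp.pos _, ?_⟩
      rw [mul_pow, ← pow_mul, ← pow_mul]
      have e1 : p.choose 2 * p ^ (i + 1) = p * (p.choose 2 * p ^ i) := by ring
      have e2 : p * p ^ (i + 1) = p ^ i * (p * p) := by ring
      rw [e1, e2, pow_mul, hθp, one_pow, pow_mul, hξi, one_pow, one_mul])
    rw [h2] at h1
    have h5 : 1 * β = θ ^ (p.choose 2) * ξ ^ p * β := by rw [← h1, one_mul]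
    exact (mul_right_cancel₀ hβ h5).symm
  have h4 : ξ ^ (p ^ 2) = 1 := by
    have h5 : (θ ^ (p.choose 2) * ξ ^ p) ^ p = 1 := by rw [h3, one_pow]
    rw [mul_pow, ← pow_mul, mul_comm (p.choose 2) p, pow_mul, hθp, one_pow, one_mul,
      ← pow_mul] at h5
    rw [pow_two]
    exact h5
  have hθ1 : θ = 1 := by
    have h5 := hσ₀fix ξ (hrootE'2 ξ h4)
    rw [hθ] at h5
    have h6 : θ * ξ = 1 * ξ := by rw [h5, one_mul]
    exact mul_right_cancel₀ hξ0 h6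
  have hξp : ξ ^ p = 1 := by
    rw [hθ1, one_pow, one_mul] at h3
    exact h3
  -- (4)
  have hnep : NeZero p := ⟨hpp.ne_zero⟩
  obtain ⟨a, -, ha⟩ := hηprim.eq_pow_of_pow_eq_one hξp
  set γ := ζ ^ a with hγ
  have hγ0 : γ ≠ 0 := pow_ne_zero _ hζ0
  have hγE : γ ∈ E := pow_mem hζE _
  have hζtor : Tor ζ := ⟨p ^ i, pow_pos hpp.pos i, hζ.pow_eq_one⟩
  have hγtor : Tor γ := hζtor.pow a
  have hσ₀γ : σ₀ γ = ξ * γ := by
    rw [hγ, map_pow, hη, mul_pow, ha]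
  have hstβγ : st (β / γ) = β / γ := by
    rw [map_div₀, hstβ', hstE γ hγE, hσ₀γ]
    field_simp
  refine ⟨γ, hγtor, ?_⟩
  -- (5)
  intro κ hκ
  have hκζ : ∃ j : ℕ, κ ζ = η ^ j * ζ := by
    have h5 : (κ ζ / ζ) ^ p = 1 := by
      rw [div_pow, ← map_pow, hκ (ζ ^ p), div_self (pow_ne_zero _ hζ0)]
      apply hrootE'
      rw [← pow_mul, ← pow_succ', show i - 1 + 1 = i by omega, hζ.pow_eq_one]
    obtain ⟨j, -, hj⟩ := hηprim.eq_pow_of_pow_eq_one h5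
    refine ⟨j, ?_⟩
    rw [hj]
    field_simp
  obtain ⟨j, hj⟩ := hκζ
  have hκ'E : Fix E ((st ^ j)⁻¹ * κ) := by
    apply fix_lev K Γ p i M' _ hpp hM' ζ hζ
    · intro x hx
      show (st ^ j)⁻¹ (κ x) = x
      have h5 : (st ^ j) x = x := by
        rw [hstpow j x (hE'E hx)]
        exact fix_pow hσ₀fix j x hx
      rw [hκ x hx]
      calc (st ^ j)⁻¹ x = (st ^ j)⁻¹ ((st ^ j) x) := by rw [h5]
        _ = x := inv_apply_self _ _
    · show (st ^ j)⁻¹ (κ ζ) = ζ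
      have h5 : (st ^ j) ζ = κ ζ := by
        rw [hstpow j ζ hζE, pow_act σ₀ ζ η hη hηfix, hj]
      rw [← h5, inv_apply_self]
  obtain ⟨ρ, hρ, hρβ⟩ := hrig _ hκ'E
  refine ⟨st ^ j * ρ * (st ^ j)⁻¹, fix_conj hNF (fix_pow hstK j) hρ, ?_⟩
  have h5 : ((st ^ j)⁻¹ * κ) (β / γ) = ρ (β / γ) := by
    rw [map_div₀, map_div₀, hρβ, hκ'E γ hγE, hρ γ (htorF γ hγtor)]
  have h6 : (st ^ j) (β / γ) = β / γ := by
    clear h5 hρβ hκ'E hj
    induction j with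
    | zero => rfl
    | succ j ih => rw [pow_succ, AlgEquiv.mul_apply, hstβγ, ih]
  have h7 : (st ^ j)⁻¹ (β / γ) = β / γ := by
    calc (st ^ j)⁻¹ (β / γ) = (st ^ j)⁻¹ ((st ^ j) (β / γ)) := by rw [h6]
      _ = β / γ := inv_apply_self _ _
  show κ (β / γ) = (st ^ j) (ρ ((st ^ j)⁻¹ (β / γ)))
  rw [h7, ← h5]
  show κ (β / γ) = (st ^ j) ((st ^ j)⁻¹ (κ (β / γ)))
  rw [apply_inv_self]

theorem ks2 : S_GL2 → S_LT → S_KI → S_KDB → S_KS2 := by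
  intro hGL hLT hKI hKDB p _ φ K Γ hKfd hΓfg hΓ J
  classical
  have hp : p.Prime := Fact.out
  obtain ⟨s, g, hgΓ, hg⟩ := exists_gens Γ hΓfg
  obtain ⟨cK, hcK⟩ := hKI p K Γ hKfd hΓfg hΓ
  obtain ⟨B, hB0, hB⟩ := hLT p φ K Γ hKfd hΓfg hΓ (cK + J)
  obtain ⟨A, hA, hgl'⟩ := hGL p φ (Module.finrank ℚ K) ((p ^ (cK + B)) ^ s) B
  refine ⟨cK + B + 2, A, hA, fun D hD0 => ?_⟩
  obtain ⟨k, hgl⟩ := hgl' D hD0
  intro Finf i n M M' β hn hni hiJ hM hM' hFinf hnorm hβ hD htr hrig hht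
  have hMpos : 0 < M := Nat.pos_of_ne_zero (by rintro rfl; exact hM (dvd_zero p))
  have hM'pos : 0 < M' := Nat.pos_of_ne_zero (by rintro rfl; exact hM' (dvd_zero p))
  have hNpos : 0 < p ^ i * M' := Nat.mul_pos (pow_pos hp.pos i) hM'pos
  have hRpos : 0 < p ^ n * M := Nat.mul_pos (pow_pos hp.pos n) hMpos
  set E := lev K Γ (p ^ i * M') (p ^ n * M) with hE
  have hEinf : E ≤ levInf K Γ (p ^ n * M) := lev_le_levInf K Γ hNpos
  have hEFinf : E ≤ Finf := hEinf.trans hFinf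
  have hKE : K ≤ E := le_lev K Γ _ _
  have hkinfF : kinf K ≤ Finf := (kinf_le_levInf K Γ _).trans hFinf
  have htorF : ∀ x : Qb, Tor x → x ∈ Finf := fun x hx => hkinfF (tor_mem_kinf K hx)
  have hEnorm : NormalOver K E := normal_lev K Γ hΓ _ _
  have hEfd : FiniteDimensional ℚ E := finiteDimensional_lev K hKfd Γ hΓfg _ _ hNpos hRpos
  -- the local automorphism
  obtain ⟨σ₀, hσ₀fix, hσ₀prim, hσ₀gap⟩ := hB (n - cK) i n M M' (by omega) hni (by omega)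
    (by omega) hM hM'
  have hσ₀K : Fix K σ₀ := fix_mono (le_lev K Γ _ _) hσ₀fix
  have hmin : min n (n - cK - B) = n - cK - B := by omega
  rw [hmin] at hσ₀fix
  have hσ₀root : ∀ x : Qb, x ^ (p ^ (n - cK - 1)) = 1 → σ₀ x = x := by
    intro x hx
    apply hσ₀fix
    apply root_mem_lev
    rw [pow_mul, hx, one_pow]
  -- the class of `σ₀`
  obtain ⟨S, hScard, hS⟩ := conj_count K Γ hΓ s g hgΓ hg (p ^ i * M') (p ^ n * M) (p ^ (cK + B))
    (p ^ (n - cK - B) * M) (p ^ (n - cK - 1) * M') hNpos (pow_pos hp.pos _)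
    (Nat.mul_pos (pow_pos hp.pos _) hMpos)
    (by
      rw [mul_right_comm, ← pow_add]
      congr 2
      omega)
    σ₀ hσ₀fix
  have horb : (orb E β).ncard ≤ D := by rwa [orb_eq_of_rigid hEFinf hrig]
  set L := levInf K Γ (p ^ (n - 1) * M) with hL
  have hKL : K ≤ L := le_levInf K Γ _
  have hLF : L ≤ Finf := by
    refine (levInf_mono K Γ hRpos ?_).trans hFinf
    exact Nat.mul_dvd_mul_right (pow_dvd_pow p (by omega)) M
  have hKIn : ∀ w : Aut, Fix L w → ∃ τ : Aut, Fix (kinf K) τ ∧ ∀ y : Qb,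
      (∃ g ∈ Γ, y ^ (p ^ n * M) = (g : Qb)) →
        (τ y / y) ^ (p ^ n) = 1 ∧ (τ y / y) ^ (p ^ (n - 1 - cK)) = w y / y :=
    fun w hw => hcK n M (by omega) hM w hw
  -- the lifts
  have hlift : ∀ w : Aut, Fix L w → ∃ σ' : Aut, Fix K σ' ∧ AgreeOn E σ' (σ₀ * w) ∧
      ∃ ξ : Qb, Tor ξ ∧ σ' β = ξ * β := by
    intro w hw
    have hwK : Fix K w := fix_mono hKL hw
    obtain ⟨σ', h1, h2, h3⟩ := hgl K E σ₀ (σ₀ * w) β S hKfd le_rfl hEfd hKE hEnorm hσ₀K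
      (fix_mul hσ₀K hwK) hσ₀gap hScard hS
      (conj_exists p K Γ hΓ cK n M (p ^ i * M') (by omega) hMpos hNpos hKIn σ₀ hσ₀K hσ₀root
        hσ₀prim w hw) hβ horb (fun σ' h => hht σ' h)
    refine ⟨σ', h1, h2, σ' β / β, ⟨p ^ k, pow_pos hp.pos k, ?_⟩, ?_⟩
    · rw [div_pow, h3, div_self (pow_ne_zero _ hβ)]
    · field_simp
  obtain ⟨σs, hσs1, hσs2, ξ₀, hξ₀, hσsβ⟩ := hlift 1 (fix_one L)
  -- `w` acts on `β` by a root of unity, up to an automorphism over `Finf`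
  have hact : ∀ w : Aut, Fix L w → ∃ ζ : Qb, Tor ζ ∧ ∃ ρ : Aut, Fix Finf ρ ∧ w β = ζ * ρ β := by
    intro w hw
    obtain ⟨σ', h1, h2, ξ, hξ, h3⟩ := hlift w hw
    set w' := σs⁻¹ * σ' with hw'
    have hw'K : Fix K w' := fix_mul (fix_inv hσs1) h1
    have hw'E : AgreeOn E w' w := by
      intro x hx
      rw [hw', AlgEquiv.mul_apply, h2 x hx]
      have h4 : σs (w x) = (σ₀ * 1) (w x) := hσs2 (w x) (hEnorm w (fix_mono hKL hw) x hx)
      have h5 : (σ₀ * w) x = σs (w x) := by rw [h4]; rfl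
      rw [h5, inv_apply_self]
    have hinv : σs⁻¹ β = (σs⁻¹ ξ₀)⁻¹ * β := by
      have h4 : σs⁻¹ (σs β) = β := inv_apply_self σs β
      rw [hσsβ, map_mul] at h4
      have h5 : σs⁻¹ ξ₀ ≠ 0 := (map_ne_zero σs⁻¹).mpr hξ₀.ne_zero
      field_simp
      rw [mul_comm]
      exact h4
    have hw'β : w' β = (σs⁻¹ ξ * (σs⁻¹ ξ₀)⁻¹) * β := by
      rw [hw', AlgEquiv.mul_apply, h3, map_mul, hinv]
      ring
    have hζ : Tor (σs⁻¹ ξ * (σs⁻¹ ξ₀)⁻¹) := (hξ.map _).mul (hξ₀.map _).inv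
    set ζ := σs⁻¹ ξ * (σs⁻¹ ξ₀)⁻¹ with hζdef
    have hκ : Fix E (w'⁻¹ * w) := by
      intro x hx
      rw [AlgEquiv.mul_apply, ← hw'E x hx, inv_apply_self]
    obtain ⟨ρ, hρ, h6⟩ := hrig _ hκ
    refine ⟨ζ, hζ, w' * ρ * w'⁻¹, fix_conj hnorm hw'K hρ, ?_⟩
    have h7 : w β = w' (ρ β) := by
      rw [← h6]
      exact (apply_inv_self w' (w β)).symm
    have h8 : w'⁻¹ (w' β) = β := inv_apply_self w' β
    rw [h7]
    have h9 : (w' * ρ * w'⁻¹) (w' β) = w' (ρ β) := by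
      rw [AlgEquiv.mul_apply, h8, AlgEquiv.mul_apply]
    rw [← h9, hw'β, map_mul, fix_conj hnorm hw'K hρ ζ (htorF ζ hζ)]
  -- the multiplier is unique
  have huniq : ∀ (ζ₁ ζ₂ : Qb) (ρ₁ ρ₂ : Aut), Tor ζ₁ → Tor ζ₂ → Fix Finf ρ₁ → Fix Finf ρ₂ →
      ζ₁ * ρ₁ β = ζ₂ * ρ₂ β → ζ₁ = ζ₂ := by
    intro ζ₁ ζ₂ ρ₁ ρ₂ hζ₁ hζ₂ hρ₁ hρ₂ h
    have h1 : ρ₁ β = (ζ₂ / ζ₁) * ρ₂ β := by
      have := hζ₁.ne_zero
      field_simp
      rw [mul_comm]
      exact h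
    have hζ : Tor (ζ₂ / ζ₁) := hζ₂.div hζ₁
    have h2 : (ρ₂⁻¹ * ρ₁) β = (ζ₂ / ζ₁) * β := by
      rw [AlgEquiv.mul_apply, h1, map_mul, inv_apply_self, fix_inv hρ₂ _ (htorF _ hζ)]
    have h3 : (ρ₂⁻¹ * ρ₁) β = β := by
      apply htr _ (fix_mul (fix_inv hρ₂) hρ₁)
      rw [h2, mul_div_assoc, div_self hβ, mul_one]
      exact hζ
    rw [h3] at h2
    have h4 : ζ₂ / ζ₁ = 1 := by
      have h5 : ζ₂ / ζ₁ * β = 1 * β := by rw [← h2, one_mul]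
      exact mul_right_cancel₀ hβ h5
    exact ((div_eq_one_iff_eq hζ₁.ne_zero).mp h4).symm
  choose! ζf hζf hζρ using hact
  choose! ρf hρf hwβ using hζρ
  -- multiplicativity
  have hmul : ∀ τ τ' : Aut, Fix L τ → Fix L τ' → ζf (τ * τ') = ζf τ * ζf τ' := by
    intro τ τ' hτ hτ'
    have h1 := hwβ (τ * τ') (fix_mul hτ hτ')
    have h2 : (τ * τ') β = (ζf τ * ζf τ') * ((τ * ρf τ' * τ⁻¹) * ρf τ) β := by
      have hc1 : Fix Finf (τ * ρf τ' * τ⁻¹) :=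
        fix_conj hnorm (fix_mono hKL hτ) (hρf τ' hτ')
      have e0 : (τ * τ') β = τ (τ' β) := rfl
      rw [e0, hwβ τ' hτ', map_mul, hτ _ (tor_mem_levInf K Γ (hζf τ' hτ'))]
      have h3 : τ (ρf τ' β) = (τ * ρf τ' * τ⁻¹) (τ β) := by
        rw [AlgEquiv.mul_apply, inv_apply_self, AlgEquiv.mul_apply]
      rw [h3, hwβ τ hτ, map_mul, hc1 _ (htorF _ (hζf τ hτ))]
      show ζf τ' * (ζf τ * (τ * ρf τ' * τ⁻¹) (ρf τ β)) =
        ζf τ * ζf τ' * (τ * ρf τ' * τ⁻¹) (ρf τ β)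
      ring
    rw [h1] at h2
    exact huniq _ _ _ _ (hζf _ (fix_mul hτ hτ')) ((hζf τ hτ).mul (hζf τ' hτ'))
      (hρf _ (fix_mul hτ hτ')) (fix_mul (fix_conj hnorm (fix_mono hKL hτ) (hρf τ' hτ')) (hρf τ hτ))
      h2
  have htriv : ∀ τ : Aut, Fix L τ → Fix E τ → ζf τ = 1 := by
    intro τ hτ hτE
    obtain ⟨ρ, hρ, h⟩ := hrig τ hτE
    have h1 := hwβ τ hτ
    rw [h] at h1
    have h2 : (1 : Qb) * ρ β = ζf τ * ρf τ β := by rw [one_mul]; exact h1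
    exact (huniq 1 (ζf τ) ρ (ρf τ) tor_one (hζf τ hτ) hρ (hρf τ hτ) h2).symm
  have hone : ζf 1 = 1 := htriv 1 (fix_one L) (fix_one E)
  have hpowmul : ∀ (τ : Aut), Fix L τ → ∀ j : ℕ, ζf (τ ^ j) = ζf τ ^ j := by
    intro τ hτ j
    induction j with
    | zero => rw [pow_zero, pow_zero, hone]
    | succ j ih => rw [pow_succ, pow_succ, hmul _ _ (fix_pow hτ j) hτ, ih]
  have hyp : ∀ y : Qb, (∃ g ∈ Γ, y ^ (p ^ n * M) = (g : Qb)) → y ^ p ∈ L := by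
    rintro y ⟨x, hx, h⟩
    apply rad_mem_levInf
    refine ⟨x, hx, ?_⟩
    rw [← pow_mul, ← h]
    congr 1
    rw [← mul_assoc, ← pow_succ']
    congr 2
    omega
  have hord : ∀ τ : Aut, Fix L τ → ζf τ ^ p = 1 := by
    intro τ hτ
    rw [← hpowmul τ hτ p]
    apply htriv _ (fix_pow hτ p)
    apply fix_lev_of hNpos (fix_pow hτ p)
    intro y hy
    have hy0 : y ≠ 0 := rad_ne_zero hRpos hy
    have hωp : (τ y / y) ^ p = 1 := by
      rw [div_pow, ← map_pow, hτ _ (hyp y hy), div_self (pow_ne_zero _ hy0)]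
    set ω := τ y / y with hω
    have hωtor : Tor ω := ⟨p, hp.pos, hωp⟩
    have hτy : τ y = ω * y := by rw [hω]; field_simp
    have hpow : ∀ j : ℕ, (τ ^ j) y = ω ^ j * y := by
      intro j
      induction j with
      | zero => simp
      | succ j ih =>
        rw [pow_succ', AlgEquiv.mul_apply, ih, map_mul, map_pow,
          hτ ω (tor_mem_levInf K Γ hωtor), hτy]
        ring
    rw [hpow, hωp, one_mul]
  -- Kummer duality
  obtain ⟨z, hz, hzy⟩ := exists_roots Γ s g hg (p ^ n * M) hRpos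
  have hzrad : ∀ j, ∃ x ∈ Γ, (z j : Qb) ^ (p ^ n * M) = (x : Qb) := fun j =>
    ⟨g j, hgΓ j, by rw [← Units.val_pow_eq_pow_val, hz]⟩
  have hfin : ∃ T : Finset Qbˣ, ∀ y ∈ radS Γ (p ^ n * M), ∃ t ∈ T, ((y / t : Qbˣ) : Qb) ∈ L := by
    refine ⟨Finset.univ.image fun r : Fin s → Fin p => ∏ j, z j ^ (r j : ℕ), ?_⟩
    intro y hy
    rw [radS_iff] at hy
    obtain ⟨e, ζ, hζ, hy'⟩ := hzy y hy
    have hppos : (0 : ℤ) < p := by exact_mod_cast hp.pos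
    have hr : ∀ j, ((e j % p).toNat : ℤ) = e j % p := fun j =>
      Int.toNat_of_nonneg (Int.emod_nonneg _ hppos.ne')
    have hrlt : ∀ j, (e j % p).toNat < p := by
      intro j
      have := Int.emod_lt_of_pos (e j) hppos
      have h2 := hr j
      omega
    refine ⟨∏ j, z j ^ (e j % p).toNat, Finset.mem_image.mpr
      ⟨fun j => ⟨(e j % p).toNat, hrlt j⟩, Finset.mem_univ _, rfl⟩, ?_⟩
    have h1 : ((y / ∏ j, z j ^ (e j % p).toNat : Qbˣ) : Qb) =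
        ζ * ∏ j, ((z j : Qb) ^ p) ^ (e j / p) := by
      rw [Units.val_div_eq_div_val, hy', mul_div_assoc, Units.coe_prod, Units.coe_prod,
        ← Finset.prod_div_distrib]
      congr 1
      apply Finset.prod_congr rfl
      intro j _
      rw [Units.val_zpow_eq_zpow_val, Units.val_pow_eq_pow_val, ← zpow_natCast (z j : Qb) p,
        ← zpow_natCast (z j : Qb) (e j % p).toNat, ← zpow_mul, hr j, ← zpow_sub₀ (Units.ne_zero _)]
      congr 1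
      have := Int.emod_add_mul_ediv (e j) p
      linarith
    rw [h1]
    refine mul_mem (tor_mem_levInf K Γ ⟨_, hRpos, hζ⟩) (prod_mem fun j _ => ?_)
    exact zpow_mem (hyp _ (hzrad j)) _
  obtain ⟨γ, hγS, hγ⟩ := hKDB L p (radS Γ (p ^ n * M)) hp.pos
    (fun x hx => tor_mem_levInf K Γ ⟨p, hp.pos, hx⟩)
    (fun y hy => hyp _ ((radS_iff y).mp hy)) hfin ζf hmul hord
    (fun τ hτ h => htriv τ hτ (fix_lev_of hNpos hτ fun y hy => by
      have hy0 : y ≠ 0 := rad_ne_zero hRpos hy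
      exact h (Units.mk0 y hy0) ((radS_iff _).mpr hy)))
  have hγrad := (radS_iff γ).mp hγS
  have hγF : (γ : Qb) ∈ Finf := hFinf (rad_mem_levInf K Γ hγrad)
  refine ⟨γ, hγrad, ?_⟩
  intro w hw
  refine ⟨ρf w, hρf w hw, ?_⟩
  have hγ0 : (γ : Qb) ≠ 0 := Units.ne_zero γ
  have hζ0 := (hζf w hw).ne_zero
  rw [map_div₀, map_div₀, hγ w hw, hρf w hw _ hγF, hwβ w hw]
  field_simp

end Pool.Agent.TH53.RP
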