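import Mathlib
import Pool.Agent.TH53.RP4
import Pool.Agent.TH53.RP5
import Pool.Agent.W402.RK.BOG

set_option autoImplicit false
set_option linter.unusedVariables false

/-!
# The polynomial Bogomolov property relative to the maximal cyclotomic extension
-/

namespace Pool.Agent.TH53.RP

open Polynomial IntermediateField
open Pool.Agent.H58P (Qb ht)
open Pool.Agent.W237.RK
open Pool.Agent.W402.RK (bot_mem fg_bot root_mul_mem comm_lev iterate_CS)

/-- the polynomial lower bound relative to `K(μ_∞)` -/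
def S_BOG2 : Prop := ∀ K : GF, FiniteDimensional ℚ K → ∃ A : ℕ, 0 < A ∧ ∀ D : ℕ, 0 < D →
  ∀ y : Qb, y ≠ 0 → (orb (kinf K) y).ncard ≤ D → ¬ Tor y → lowc A D ≤ ht y

theorem bog2 (hCS : S_CS2) (hFROB : S_FROB) (hGLF : S_GLF2) : S_BOG2 := by
  intro K hK
  have : Fact (Nat.Prime 3) := ⟨Nat.prime_three⟩
  let φ : Qb →+* PadicAlgCl 3 :=
    (IsAlgClosed.lift (R := ℚ) (M := PadicAlgCl 3) (S := Qb) : Qb →ₐ[ℚ] PadicAlgCl 3).toRingHom
  obtain ⟨B, A₁, hA₁, h1'⟩ := hCS 3 φ K ⊥ hK fg_bot (bot_mem K)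
  set K' := lev K ⊥ (3 ^ B) 1 with hK'
  have hK'fd : FiniteDimensional ℚ K' :=
    finiteDimensional_lev K hK ⊥ fg_bot (3 ^ B) 1 (by positivity) one_pos
  obtain ⟨n₁, h2⟩ := hFROB 3 φ K' hK'fd
  obtain ⟨A₂, hA₂, h3'⟩ := hGLF 3 φ (Module.finrank ℚ K') n₁
  have hPB : PB fun D => (lowc (A₁ + A₂) D)⁻¹ * (2 * (D : ℝ)) :=
    (lowc_inv_PB (A₁ + A₂)).mul ((PB.const 2).mul PB.id fun D _ => by positivity)
      fun D _ => by positivity
  obtain ⟨A, hA, hAc⟩ := hPB.exists_lowc (fun D hD => by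
    have h1 := lowc_pos (A := A₁ + A₂) (by omega) hD
    have h2 : (0 : ℝ) < D := by exact_mod_cast hD
    positivity)
  refine ⟨A, hA, fun D hD0 => ?_⟩
  have h1 := h1' D hD0
  have h3 := h3' D hD0
  have hDR : (0 : ℝ) < D := by exact_mod_cast hD0
  set c₀ : ℝ := lowc (A₁ + A₂) D with hc₀
  have hc₀pos : 0 < c₀ := lowc_pos (by omega) hD0
  have hc₀1 : c₀ ≤ lowc A₁ D := lowc_anti hA₁ hD0 (by omega)
  have hc₀2 : c₀ ≤ lowc A₂ D := lowc_anti hA₂ hD0 (by omega)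
  have hcA : lowc A D ≤ c₀ / (2 * D) := by
    have h4 := hAc D hD0
    rwa [mul_inv, inv_inv, ← div_eq_mul_inv] at h4
  set c₁ : ℝ := lowc A₁ D with hc₁
  set c₂ : ℝ := lowc A₂ D with hc₂
  intro y hy0 hyD hyT
  by_contra hlt
  push Not at hlt
  apply hyT
  obtain ⟨e, he0, heD, heT⟩ := torRigid_small (Finf := kinf K) (fun x hx => tor_mem_kinf K hx)
    hy0 hyD
  set y₁ := y ^ e with hy₁
  have hy₁0 : y₁ ≠ 0 := pow_ne_zero _ hy0
  have hhty₁ : 2 * ht y₁ < c₀ := by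
    rw [hy₁, Pool.Agent.H58B.ht_pow]
    have h5 := hlt.trans_le hcA
    rw [lt_div_iff₀ (by positivity)] at h5
    have h6 : (e : ℝ) ≤ D := by exact_mod_cast heD
    have h7 := Pool.Agent.H58R.ht_nonneg y
    nlinarith
  have hhty₁0 : 0 ≤ ht y₁ := Pool.Agent.H58R.ht_nonneg y₁
  set Finf := kinf K with hFinf
  have hD₁ : (orb Finf y₁).ncard ≤ D := (orb_pow_ncard y e).trans hyD
  have hT₁ : TorRigid Finf y₁ := heT
  -- rigidity at a finite level
  have hlevInf : levInf K ⊥ 1 = Finf := by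
    apply le_antisymm
    · apply levInf_le (le_kinf K) (fun x hx => tor_mem_kinf K hx)
      rintro z ⟨g, hg, hz⟩
      rw [Subgroup.mem_bot] at hg
      rw [hg, Units.val_one, pow_one] at hz
      rw [hz]
      exact one_mem _
    · exact kinf_le_levInf K ⊥ 1
  have hR₀ : Rigid Finf (levInf K ⊥ 1) y₁ := by
    rw [hlevInf]
    exact fun κ hκ => ⟨κ, hκ, rfl⟩
  obtain ⟨N, hN, hRN⟩ := exists_rigid_lev Finf K ⊥ 1 y₁ hR₀
  obtain ⟨j, M', hM', hNj⟩ := Nat.exists_eq_pow_mul_and_not_dvd hN.ne' 3 (by norm_num)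
  have hRj : Rigid Finf (lev K ⊥ (3 ^ (B + j) * M') 1) y₁ := by
    apply rigid_mono _ hRN
    apply lev_mono K ⊥ _ one_pos (dvd_refl 1)
    rw [hNj, pow_add, mul_assoc]
    exact Dvd.intro_left _ rfl
  have hM'0 : 0 < M' := by
    rcases Nat.eq_zero_or_pos M' with h | h
    · exact absurd (h ▸ dvd_zero 3) hM'
    · exact h
  -- the levels are inside `Finf`
  have hle : ∀ N : ℕ, 0 < N → lev K ⊥ N 1 ≤ Finf := by
    intro N hN
    rw [← hlevInf]
    exact lev_le_levInf K ⊥ hN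
  obtain ⟨γ, hγ, hRγ⟩ := iterate_CS 3 K Finf D B c₁ M' le_rfl
    (by
      intro i β hi hβ0 hβD hβT hβR hβh
      have := h1 Finf i 0 1 M' β (by omega) (by norm_num) hM' le_rfl
        (by
          rw [pow_zero, one_mul]
          exact hle _ (by positivity)) (normal_kinf K) hβ0 hβD hβT
        (by rw [pow_zero, one_mul]; exact hβR) hβh
      rw [pow_zero, one_mul] at this
      exact this)
    j y₁ hy₁0 hD₁ hT₁ hRj
    (by
      intro σ hσ
      have a1 : ht (σ y₁ / y₁) ≤ ht (σ y₁) + ht y₁⁻¹ := by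
        rw [div_eq_mul_inv]
        exact Pool.Agent.H58R.ht_mul_le _ _
      rw [Pool.Agent.H58R.ht_inv _ hy₁0, Pool.Agent.H58B.ht_conj] at a1
      linarith)
  have hγ0 := hγ.ne_zero
  have hγm : γ ∈ Finf := tor_mem_kinf K hγ
  set β := y₁ / γ with hβ
  have hβ0 : β ≠ 0 := div_ne_zero hy₁0 hγ0
  obtain ⟨M'', σ, a, hM'', hdvd, hσ, ha0, ha1, hσζ, hσx⟩ := h2 M' hM'
  have hM''0 : 0 < M'' := by
    rcases Nat.eq_zero_or_pos M'' with h | h
    · exact absurd (h ▸ dvd_zero 3) hM''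
    · exact h
  set E := lev K' ⊥ M'' 1 with hE
  have hKK' : K ≤ K' := le_lev K ⊥ _ _
  have hEfin : E ≤ Finf := by
    apply lev_le
    · exact hle _ (by positivity)
    · intro x hx
      exact tor_mem_kinf K ⟨M'', hM''0, hx⟩
    · rintro z ⟨g, hg, hz⟩
      rw [Subgroup.mem_bot] at hg
      rw [hg, Units.val_one, pow_one] at hz
      rw [hz]
      exact one_mem _
  have hlevE : lev K ⊥ (3 ^ B * M') 1 ≤ E := by
    apply lev_le
    · exact hKK'.trans (le_lev K' ⊥ _ _)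
    · intro x hx
      apply root_mul_mem (a := 3 ^ B) (b := M') _ _ _ x hx
      · exact Nat.Coprime.pow_left B ((Nat.Prime.coprime_iff_not_dvd Nat.prime_three).mpr hM')
      · intro x hx
        exact le_lev K' ⊥ _ _ (root_mem_lev K ⊥ hx)
      · intro x hx
        apply root_mem_lev
        obtain ⟨k, rfl⟩ := hdvd
        rw [pow_mul, hx, one_pow]
    · rintro z ⟨g, hg, hz⟩
      rw [Subgroup.mem_bot] at hg
      rw [hg, Units.val_one, pow_one] at hz
      rw [hz]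
      exact one_mem _
  have hRE : Rigid Finf E β := rigid_mono hlevE hRγ
  have horb : orb E β = orb Finf β := orb_eq_of_rigid hEfin hRE
  have hβD : (orb E β).ncard ≤ D := by
    rw [horb, hβ, orb_div_ncard hγ0 hγm]
    exact hD₁
  have hβht : ht β ≤ c₂ := by
    have : β = γ⁻¹ * y₁ := by rw [hβ, div_eq_mul_inv, mul_comm]
    rw [this, ht_tor_mul hγ.inv]
    linarith
  have hEfd : FiniteDimensional ℚ E :=
    finiteDimensional_lev K' hK'fd ⊥ fg_bot M'' 1 hM''0 one_pos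
  have hfinal : Tor β := h3 K' E σ a β hK'fd le_rfl hEfd (le_lev K' ⊥ _ _)
    (normal_lev K' ⊥ (bot_mem K') M'' 1) hσ
    (fun τ hτ => comm_lev K' M'' σ τ hσ hτ (3 ^ a) hσζ) ha0 ha1 hσx hβ0 hβD hβht
  have hy₁T : Tor y₁ := by
    have : y₁ = β * γ := by rw [hβ, div_mul_cancel₀ _ hγ0]
    rw [this]
    exact hfinal.mul hγ
  exact Tor.of_pow he0 hy₁T

end Pool.Agent.TH53.RP
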