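import Mathlib
import Pool.Agent.TH53.RP8
import Pool.Agent.TH53.BL5

set_option autoImplicit false
set_option linter.unusedVariables false

/-!
# Sums of few terms
-/

namespace Pool.Agent.TH53.BL

open IntermediateField
open Pool.Agent.W237.RK
open Pool.Agent.H58P (Qb ht)
open Pool.Agent.H58R (ht_nonneg ht_mul_le ht_inv ht_zpow ht_prod_le)
open Pool.Agent.TH53.RP

/-- the field generated by all roots of unity -/
noncomputable def cyc : GF := IntermediateField.adjoin ℚ {y | ∃ n : ℕ, 0 < n ∧ y ^ n = 1}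

lemma fix_sup {L E : GF} {τ : Aut} (h1 : Fix L τ) (h2 : Fix E τ) : Fix (L ⊔ E) τ := by
  let U : GF :=
    { carrier := {x | τ x = x}
      mul_mem' := by
        intro x y hx hy
        show τ (x * y) = x * y
        rw [map_mul, show τ x = x from hx, show τ y = y from hy]
      add_mem' := by
        intro x y hx hy
        show τ (x + y) = x + y
        rw [map_add, show τ x = x from hx, show τ y = y from hy]
      algebraMap_mem' := fun r => τ.commutes r
      inv_mem' := by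
        intro x hx
        show τ x⁻¹ = x⁻¹
        rw [map_inv₀, show τ x = x from hx] }
  have hU : L ⊔ E ≤ U := sup_le (fun x hx => h1 x hx) (fun x hx => h2 x hx)
  intro x hx
  exact hU hx

/-- the number of conjugates over a finite extension -/
theorem orb_ext (L : GF) (hL : cyc ≤ L) (E : IntermediateField cyc Qb)
    [FiniteDimensional cyc E] (x : Qb) :
    (orb L x).ncard ≤ Module.finrank cyc E * (orb (L ⊔ E.restrictScalars ℚ) x).ncard := by
  classical
  set F : GF := L ⊔ E.restrictScalars ℚ with hF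
  let r : fixG L → (E →ₐ[cyc] Qb) := fun σ =>
    { toFun := fun y => σ.1 (y : Qb)
      map_one' := by simp
      map_mul' := fun a b => by simp
      map_zero' := by simp
      map_add' := fun a b => by simp
      commutes' := fun c => σ.2 _ (hL c.2) }
  have hr : ∀ σ (y : E), r σ y = σ.1 (y : Qb) := fun _ _ => rfl
  let s : (E →ₐ[cyc] Qb) → Set Qb := fun φ => {y | ∃ σ : fixG L, r σ = φ ∧ σ.1 x = y}
  have hs : ∀ φ, (s φ).ncard ≤ (orb F x).ncard := by
    intro φ
    by_cases hne : ∃ σ : fixG L, r σ = φ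
    · obtain ⟨σ₀, hσ₀⟩ := hne
      have hsub : s φ ⊆ σ₀.1 '' orb F x := by
        rintro _ ⟨σ, hσ, rfl⟩
        refine ⟨(σ₀.1⁻¹ * σ.1) x, ⟨σ₀.1⁻¹ * σ.1, ?_, rfl⟩, ?_⟩
        · apply fix_sup (fix_mul (fix_inv σ₀.2) σ.2)
          intro y hy
          have h1 : σ.1 y = σ₀.1 y := by
            have := DFunLike.congr_fun (hσ.trans hσ₀.symm) (⟨y, hy⟩ : E)
            exact this
          rw [AlgEquiv.mul_apply, h1, inv_apply_self]
        · rw [AlgEquiv.mul_apply, apply_inv_self]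
      refine (Set.ncard_le_ncard hsub ((orb_finite F x).image _)).trans ?_
      exact Set.ncard_image_le (orb_finite F x)
    · have : s φ = ∅ := by
        rw [Set.eq_empty_iff_forall_notMem]
        rintro y ⟨σ, hσ, -⟩
        exact hne ⟨σ, hσ⟩
      rw [this, Set.ncard_empty]
      exact Nat.zero_le _
  have hfin : ∀ φ, (s φ).Finite := by
    intro φ
    apply (orb_finite L x).subset
    rintro _ ⟨σ, -, rfl⟩
    exact ⟨σ.1, σ.2, rfl⟩
  have hcover : orb L x ⊆ ⋃ φ ∈ (Finset.univ : Finset (E →ₐ[cyc] Qb)), s φ := by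
    rintro _ ⟨σ, hσ, rfl⟩
    simp only [Finset.mem_univ, Set.iUnion_true, Set.mem_iUnion]
    exact ⟨r ⟨σ, hσ⟩, ⟨σ, hσ⟩, rfl, rfl⟩
  calc (orb L x).ncard ≤ (⋃ φ ∈ (Finset.univ : Finset (E →ₐ[cyc] Qb)), s φ).ncard := by
        refine Set.ncard_le_ncard hcover ?_
        exact Set.Finite.biUnion (Finset.finite_toSet _) fun φ _ => hfin φ
    _ ≤ ∑ φ ∈ (Finset.univ : Finset (E →ₐ[cyc] Qb)), (s φ).ncard :=
        Finset.set_ncard_biUnion_le _ _
    _ ≤ ∑ φ ∈ (Finset.univ : Finset (E →ₐ[cyc] Qb)), (orb F x).ncard :=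
        Finset.sum_le_sum fun φ _ => hs φ
    _ = Module.finrank cyc E * (orb F x).ncard := by
        rw [Finset.sum_const, Finset.card_univ, AlgHom.card, smul_eq_mul]

/-- the dependence on the number of terms -/
def B (k : ℕ) : ℕ := (4 * (k + 1).factorial) ^ (k * (k + 1))

lemma B_pos (k : ℕ) : 0 < B k := by
  unfold B
  positivity

lemma B_mono {k k' : ℕ} (h : k' ≤ k) : B k' ≤ B k := by
  unfold B
  have h1 : (k' + 1).factorial ≤ (k + 1).factorial := Nat.factorial_le (by omega)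
  have h2 : k' * (k' + 1) ≤ k * (k + 1) := Nat.mul_le_mul h (by omega)
  calc (4 * (k' + 1).factorial) ^ (k' * (k' + 1)) ≤ (4 * (k + 1).factorial) ^ (k' * (k' + 1)) :=
        Nat.pow_le_pow_left (by omega) _
    _ ≤ _ := Nat.pow_le_pow_right (by positivity) h2

lemma B_bound1 {k p : ℕ} (hk : 0 < k) (hp : p ≤ 4 * (k + 1).factorial) :
    2 * (p * (k + 1) ^ 2) ≤ B k := by
  have h1 : (k + 1) ^ 2 ≤ 2 * (k + 1).factorial := by
    rw [Nat.factorial_succ]
    have := Nat.self_le_factorial k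
    nlinarith
  have h2 : 2 * (p * (k + 1) ^ 2) ≤ (4 * (k + 1).factorial) ^ 2 := by
    calc 2 * (p * (k + 1) ^ 2) ≤ 2 * ((4 * (k + 1).factorial) * (2 * (k + 1).factorial)) := by gcongr
      _ = (4 * (k + 1).factorial) ^ 2 := by ring
  refine h2.trans ?_
  unfold B
  apply Nat.pow_le_pow_right (by positivity)
  nlinarith

lemma B_bound2 {k p q : ℕ} (hp : p ≤ 4 * (k + 1).factorial) (hq : q ≤ k.factorial * p ^ k) :
    q ^ k ≤ B k := by
  have h1 : k.factorial ≤ 4 * (k + 1).factorial := by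
    have := Nat.factorial_le (Nat.le_succ k)
    simp only [Nat.succ_eq_add_one] at this
    omega
  have h2 : q ≤ (4 * (k + 1).factorial) ^ (k + 1) := by
    calc q ≤ k.factorial * p ^ k := hq
      _ ≤ (4 * (k + 1).factorial) * (4 * (k + 1).factorial) ^ k := by gcongr
      _ = _ := by ring
  calc q ^ k ≤ ((4 * (k + 1).factorial) ^ (k + 1)) ^ k := Nat.pow_le_pow_left h2 k
    _ = B k := by rw [← pow_mul, B, mul_comm (k + 1) k]

lemma DivG.inv {Γ : Subgroup Qbˣ} {x : Qb} (h : DivG Γ x) : DivG Γ x⁻¹ := by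
  obtain ⟨n, hn, g, hg, h⟩ := h
  exact ⟨n, hn, g⁻¹, Subgroup.inv_mem _ hg, by rw [inv_pow, h, Units.val_inv_eq_inv_val]⟩

theorem step (F : GF) (Γ : Subgroup Qbˣ) (hF : ∀ x : Qb, Tor x → x ∈ F)
    (hΓ : ∀ g ∈ Γ, (g : Qb) ∈ F) {k : ℕ} (b γ : Fin k → Qb) (hb : ∀ j, b j ∈ F)
    (hγ : ∀ j, DivG Γ (γ j)) (α : Qb) (hα : α = ∑ j, b j * γ j) (hα0 : α ≠ 0) :
    ((B k : ℕ) : ℝ)⁻¹ ≤ ht α ∨ ∃ γ₀, DivG Γ γ₀ ∧ (orb F (α / γ₀)).ncard ≤ B k := by
  classical
  have hγ0 : ∀ j, γ j ≠ 0 := fun j => Pool.Agent.TH53.RP.DivG.ne_zero (hγ j)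
  let χ : Fin k → (fixG F →* Qb) := fun j => kum F hF (γ j) (hγ0 j) fun σ =>
    tor_ratio hΓ (hγ0 j) (hγ j) σ.2
  have hχ : ∀ j (σ : fixG F), σ.1 (γ j) = γ j * χ j σ := by
    intro j σ
    have h1 : χ j σ = σ.1 (γ j) / γ j := rfl
    rw [h1, mul_div_cancel₀ _ (hγ0 j)]
  let Aψ : (fixG F →* Qb) → Qb := fun ψ => ∑ j ∈ Finset.univ.filter (fun j => χ j = ψ), b j * γ j
  have hAψ : ∀ ψ (σ : fixG F), σ.1 (Aψ ψ) = Aψ ψ * ψ σ := by
    intro ψ σ
    show σ.1 (∑ j ∈ Finset.univ.filter (fun j => χ j = ψ), b j * γ j) =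
      (∑ j ∈ Finset.univ.filter (fun j => χ j = ψ), b j * γ j) * ψ σ
    rw [map_sum, Finset.sum_mul]
    refine Finset.sum_congr rfl fun j hj => ?_
    rw [Finset.mem_filter] at hj
    rw [map_mul, hχ j σ, σ.2 _ (hb j), hj.2, mul_assoc]
  set S : Finset (fixG F →* Qb) := (Finset.univ.image χ).filter (fun ψ => Aψ ψ ≠ 0) with hS
  have hsum : α = ∑ ψ ∈ S, Aψ ψ := by
    rw [hS, Finset.sum_filter_ne_zero, hα]
    exact (Finset.sum_fiberwise_of_maps_to (fun j _ => Finset.mem_image_of_mem χ (Finset.mem_univ j))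
      (fun j => b j * γ j)).symm
  have hcard : S.card ≤ k := by
    calc S.card ≤ (Finset.univ.image χ).card := Finset.card_filter_le _ _
      _ ≤ (Finset.univ : Finset (Fin k)).card := Finset.card_image_le
      _ = k := by simp
  have hpos : 0 < S.card := by
    rw [Finset.card_pos]
    by_contra hcon
    rw [Finset.not_nonempty_iff_eq_empty] at hcon
    rw [hcon, Finset.sum_empty] at hsum
    exact hα0 hsum
  set k' := S.card with hk'
  set e : Fin k' ≃ S := S.equivFin.symm with he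
  set A : Fin k' → Qb := fun i => Aψ (e i : fixG F →* Qb) with hA
  set χ' : Fin k' → (fixG F →* Qb) := fun i => (e i : fixG F →* Qb) with hχ'
  have hαA : α = ∑ i, A i := by
    rw [hsum, ← Finset.sum_coe_sort S (fun ψ => Aψ ψ)]
    exact (Equiv.sum_comp e (fun x : S => Aψ (x : fixG F →* Qb))).symm
  have hinj : Function.Injective χ' := fun i j h => e.injective (Subtype.ext h)
  have hA0 : ∀ i, A i ≠ 0 := fun i => (Finset.mem_filter.mp (e i).2).2
  have hAσ : ∀ i (σ : fixG F), σ.1 (A i) = A i * χ' i σ := fun i σ => hAψ _ σ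
  set j₀ : Fin k' := ⟨0, hpos⟩ with hj₀
  obtain ⟨l, -, hl⟩ := Finset.mem_image.mp (Finset.mem_filter.mp (e j₀).2).1
  obtain ⟨p, hp, hp1, hp2⟩ := Nat.exists_prime_lt_and_le_two_mul (2 * (k' + 1).factorial)
    (by positivity)
  have hp2' : p ≤ 4 * (k' + 1).factorial := by omega
  have hf1 : k' + 1 ≤ (k' + 1).factorial := Nat.self_le_factorial _
  have hBm := B_mono hcard
  by_cases hsmall : (p : ℝ) * (((k' : ℝ) + 1) ^ 2 * ht α) <
      Real.log ((p : ℝ) / (k' + 1).factorial)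
  · right
    obtain ⟨q, hq0, hq1, hq2⟩ := core F A χ' j₀ hinj hA0 hAσ p hp (by omega) (by omega) α hαA hsmall
    refine ⟨γ l, hγ l, ?_⟩
    have h1 := orb_bound F A χ' j₀ hAσ (γ l) (hγ0 l) (fun σ => by
      rw [hχ l σ, hl]) q hq0 hq2 α hαA
    exact h1.trans ((B_bound2 hp2' hq1).trans hBm)
  · left
    push Not at hsmall
    have hf0 : (0 : ℝ) < (k' + 1).factorial := by exact_mod_cast Nat.factorial_pos _
    have h1 : Real.log 2 ≤ Real.log ((p : ℝ) / (k' + 1).factorial) := by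
      apply Real.log_le_log (by norm_num)
      rw [le_div_iff₀ hf0]
      exact_mod_cast hp1.le
    have h2 : (1 : ℝ) / 2 < Real.log 2 := by
      have := Real.log_two_gt_d9
      linarith
    have h3 : (1 : ℝ) / 2 ≤ (p : ℝ) * (((k' : ℝ) + 1) ^ 2 * ht α) := by linarith
    have h4 : ((2 * (p * (k' + 1) ^ 2) : ℕ) : ℝ) ≤ (B k : ℕ) := by
      exact_mod_cast (B_bound1 hpos hp2').trans hBm
    push_cast at h4
    have h5 : (0 : ℝ) < B k := by exact_mod_cast B_pos k
    rw [inv_le_iff_one_le_mul₀ h5]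
    have h6 := ht_nonneg α
    nlinarith [mul_le_mul_of_nonneg_left h4 h6]

/-- the main estimate -/
theorem main (Γ : Subgroup Qbˣ) (hΓfg : Γ.FG) : ∃ A : ℕ, 0 < A ∧
    ∀ (k D : ℕ) (E : IntermediateField cyc Qb), FiniteDimensional cyc E →
      Module.finrank cyc E ≤ D → ∀ (b γ : Fin k → Qb), (∀ j, b j ∈ E) → (∀ j, DivG Γ (γ j)) →
      ∀ α : Qb, α = ∑ j, b j * γ j → α ≠ 0 → ¬ DivG Γ α → lowc A (D * B k) ≤ ht α := by
  obtain ⟨S, hS⟩ := id hΓfg
  set T : Set Qb := (fun u : Qbˣ => (u : Qb)) '' (S : Set Qbˣ) with hT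
  have hTf : Finite T := (S.finite_toSet.image _)
  set K : GF := IntermediateField.adjoin ℚ T with hK
  have hKfd : FiniteDimensional ℚ K :=
    IntermediateField.finiteDimensional_adjoin fun x _ => Pool.Agent.H58P.qb_isIntegral x
  have hΓK : ∀ g ∈ Γ, (g : Qb) ∈ K := by
    intro g hg
    rw [← hS] at hg
    induction hg using Subgroup.closure_induction with
    | mem x hx => exact IntermediateField.subset_adjoin _ _ ⟨x, hx, rfl⟩
    | one => exact one_mem K
    | mul x y _ _ hx hy => rw [Units.val_mul]; exact mul_mem hx hy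
    | inv x _ hx => rw [Units.val_inv_eq_inv_val]; exact inv_mem hx
  obtain ⟨A, hA, hmain⟩ := dist' K Γ hKfd hΓfg hΓK ∅ (by simp)
  refine ⟨A, hA, ?_⟩
  intro k D E hE hD b γ hb hγ α hα hα0 hnd
  set L : GF := fullField K Γ ∅ with hL
  set F : GF := L ⊔ E.restrictScalars ℚ with hF
  have hTorL : ∀ x : Qb, Tor x → x ∈ L := fun x hx => kinf_le_fullField K Γ ∅ (tor_mem_kinf K hx)
  have hcyc : cyc ≤ L := by
    rw [cyc, IntermediateField.adjoin_le_iff]
    intro y hy
    exact hTorL y hy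
  have hLF : L ≤ F := le_sup_left
  have hD0 : 0 < D := lt_of_lt_of_le Module.finrank_pos hD
  have hDB : 0 < D * B k := Nat.mul_pos hD0 (B_pos k)
  rcases step F Γ (fun x hx => hLF (hTorL x hx)) (fun g hg => hLF (le_fullField K Γ ∅ (hΓK g hg)))
    b γ (fun j => (le_sup_right : E.restrictScalars ℚ ≤ F) (hb j)) hγ α hα hα0 with h | h
  · refine le_trans ?_ h
    unfold lowc
    have h1 : (0 : ℝ) < B k := by exact_mod_cast B_pos k
    apply inv_anti₀ h1
    have h2 : (1 : ℝ) ≤ A := by exact_mod_cast hA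
    have h3 : ((B k : ℕ) : ℝ) ≤ ((D * B k : ℕ) : ℝ) := by
      exact_mod_cast Nat.le_mul_of_pos_left _ hD0
    have h4 : (1 : ℝ) ≤ ((D * B k : ℕ) : ℝ) := by exact_mod_cast hDB
    calc ((B k : ℕ) : ℝ) ≤ ((D * B k : ℕ) : ℝ) := h3
      _ = ((D * B k : ℕ) : ℝ) ^ 1 := (pow_one _).symm
      _ ≤ ((D * B k : ℕ) : ℝ) ^ A := pow_le_pow_right₀ h4 hA
      _ ≤ A * ((D * B k : ℕ) : ℝ) ^ A := le_mul_of_one_le_left (by positivity) h2
  · obtain ⟨γ₀, hγ₀, horb⟩ := h
    have hγ₀0 : γ₀ ≠ 0 := Pool.Agent.TH53.RP.DivG.ne_zero hγ₀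
    have h1 : (orb L (α / γ₀)).ncard ≤ D * B k := by
      refine (orb_ext L hcyc E (α / γ₀)).trans ?_
      exact Nat.mul_le_mul hD horb
    have h2 := hmain (D * B k) hDB (α / γ₀) (div_ne_zero hα0 hγ₀0) h1 (by
      intro hcon
      apply hnd
      have := hcon.mul hγ₀
      rwa [div_mul_cancel₀ _ hγ₀0] at this) γ₀⁻¹ (DivG.inv hγ₀)
    rwa [div_inv_eq_mul, div_mul_cancel₀ _ hγ₀0] at h2

/-- the height of the constant coefficient of a minimal polynomial -/
theorem ht_coeff_zero (L : GF) (ξ : Qb) :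
    ht ((minpoly L ξ).coeff 0 : Qb) ≤ ((minpoly L ξ).natDegree : ℝ) * ht ξ := by
  classical
  have h1 := minpoly_map_eq_oprod L ξ
  have h2 : (((minpoly L ξ).coeff 0 : L) : Qb) = ∏ y ∈ (orb_finite L ξ).toFinset, (-y) := by
    have h3 : (((minpoly L ξ).coeff 0 : L) : Qb) =
        ((minpoly L ξ).map (algebraMap L Qb)).coeff 0 := by
      rw [Polynomial.coeff_map]
      rfl
    rw [h3, h1, Polynomial.coeff_zero_prod]
    refine Finset.prod_congr rfl fun y _ => ?_
    simp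
  rw [h2]
  refine (ht_prod_le _ _).trans ?_
  have h4 : ∀ y ∈ (orb_finite L ξ).toFinset, ht (-y) = ht ξ := by
    intro y hy
    rw [Set.Finite.mem_toFinset] at hy
    obtain ⟨σ, -, rfl⟩ := hy
    have h5 : ht (-(σ ξ)) = ht (σ ξ) := by
      have := ht_tor_mul (ω := (-1 : Qb)) (y := σ ξ) ⟨2, by norm_num, by norm_num⟩
      rwa [neg_one_mul] at this
    rw [h5, Pool.Agent.H58B.ht_conj]
  rw [Finset.sum_congr rfl h4, Finset.sum_const, nsmul_eq_mul, ← orb_ncard,
    Set.ncard_eq_toFinset_card _ (orb_finite L ξ)]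

end Pool.Agent.TH53.BL
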