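import Mathlib
import Pool.Agent.TH53.BL3
import Pool.Agent.TH53.BL4

set_option autoImplicit false
set_option linter.unusedVariables false

/-!
# Algebra for quotients of sums of characters
-/

namespace Pool.Agent.TH53.BL

open Polynomial

lemma exists_primes (N : ℕ) (hN : N ≠ 0) (m : ℕ) :
    ∃ S : Finset ℕ, S.card = m ∧ ∀ p ∈ S, p.Prime ∧ N < p ∧ p ≤ 2 ^ m * N := by
  induction m with
  | zero => exact ⟨∅, rfl, by simp⟩
  | succ m ih =>
    obtain ⟨S, hS, h⟩ := ih
    obtain ⟨q, hq, hq1, hq2⟩ := Nat.exists_prime_lt_and_le_two_mul (2 ^ m * N) (by positivity)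
    have hqS : q ∉ S := fun hcon => absurd (h q hcon).2.2 (not_le.mpr hq1)
    have h1 : N ≤ 2 ^ m * N := Nat.le_mul_of_pos_left _ (by positivity)
    refine ⟨insert q S, by rw [Finset.card_insert_of_notMem hqS, hS], ?_⟩
    intro p hp
    rcases Finset.mem_insert.mp hp with rfl | hp
    · refine ⟨hq, by omega, ?_⟩
      rw [pow_succ]
      linarith
    · obtain ⟨h2, h3, h4⟩ := h p hp
      refine ⟨h2, h3, h4.trans ?_⟩
      rw [pow_succ]
      nlinarith [Nat.zero_le (2 ^ m * N)]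

lemma good_prime {K G : Type*} [Field K] [Monoid G] {n : ℕ} (χ : Fin n → (G →* K))
    (hχ : ∀ i g, χ i g ≠ 0) (N : ℕ) (hN : N ≠ 0) :
    ∃ p, p.Prime ∧ N < p ∧ p ≤ 2 ^ (n ^ 2 + 1) * N ∧ ∀ i j, χ i ^ p = χ j ^ p → χ i = χ j := by
  classical
  obtain ⟨S, hS, h⟩ := exists_primes N hN (n ^ 2 + 1)
  by_contra hcon
  push Not at hcon
  have h1 : ∀ p : ℕ, ∃ ij : Fin n × Fin n, p ∈ S →
      χ ij.1 ^ p = χ ij.2 ^ p ∧ χ ij.1 ≠ χ ij.2 := by
    intro p
    by_cases hp : p ∈ S
    · obtain ⟨h2, h3, h4⟩ := h p hp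
      obtain ⟨i, j, h5, h6⟩ := hcon p h2 h3 h4
      exact ⟨(i, j), fun _ => ⟨h5, h6⟩⟩
    · have hn : 0 < n := by
        by_contra h0
        have hn0 : n = 0 := by omega
        subst hn0
        obtain ⟨q, hq⟩ := Finset.card_pos.mp (by rw [hS]; omega : 0 < S.card)
        obtain ⟨h2, h3, h4⟩ := h q hq
        obtain ⟨i, _⟩ := hcon q h2 h3 h4
        exact i.elim0
      exact ⟨(⟨0, hn⟩, ⟨0, hn⟩), fun hp' => absurd hp' hp⟩
  choose f hf using h1
  obtain ⟨p, hp, q, hq, hpq, hfe⟩ := Finset.exists_ne_map_eq_of_card_lt_of_maps_to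
    (s := S) (t := (Finset.univ : Finset (Fin n × Fin n))) (f := f) (by
      rw [hS, Finset.card_univ, Fintype.card_prod, Fintype.card_fin]
      nlinarith) (fun _ _ => Finset.mem_univ _)
  obtain ⟨h2, h3⟩ := hf p hp
  obtain ⟨h4, -⟩ := hf q hq
  rw [← hfe] at h4
  apply h3
  ext g
  have h5 : (χ (f p).1 g / χ (f p).2 g) ^ p = 1 := by
    have := DFunLike.congr_fun h2 g
    rw [MonoidHom.pow_apply, MonoidHom.pow_apply] at this
    rw [div_pow, this, div_self (pow_ne_zero _ (hχ _ _))]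
  have h6 : (χ (f p).1 g / χ (f p).2 g) ^ q = 1 := by
    have := DFunLike.congr_fun h4 g
    rw [MonoidHom.pow_apply, MonoidHom.pow_apply] at this
    rw [div_pow, this, div_self (pow_ne_zero _ (hχ _ _))]
  have h7 : orderOf (χ (f p).1 g / χ (f p).2 g) ∣ Nat.gcd p q :=
    Nat.dvd_gcd (orderOf_dvd_of_pow_eq_one h5) (orderOf_dvd_of_pow_eq_one h6)
  rw [(Nat.coprime_primes (h p hp).1 (h q hq).1).mpr hpq, Nat.dvd_one, orderOf_eq_one_iff] at h7
  exact (div_eq_one_iff_eq (hχ _ _)).mp h7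

lemma rm_pow {K : Type*} [Field K] (f : K[X]) (r : K) (m : ℕ) :
    rootMultiplicity r (f ^ m) = m * rootMultiplicity r f := by
  classical
  rw [← count_roots, ← count_roots, roots_pow, Multiset.count_nsmul]

/-- two relations of different multiplicities -/
theorem proportional {K : Type*} [Field K] [CharZero K] [IsAlgClosed K] {P Q P₁ Q₁ : K[X]}
    {p : ℕ} (hP : P ≠ 0) (hQ : Q ≠ 0) (hP₁ : P₁ ≠ 0) (hQ₁ : Q₁ ≠ 0)
    (h1 : P₁.support.card ≤ p) (h2 : Q₁.support.card ≤ p) (h : P₁ * Q ^ p = P ^ p * Q₁) :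
    ∃ (a b : ℕ) (c : K), c ≠ 0 ∧ X ^ a * P = C c * (X ^ b * Q) := by
  classical
  have hm : ∀ r : K, r ≠ 0 → rootMultiplicity r P = rootMultiplicity r Q := by
    intro r hr
    have h3 : rootMultiplicity r P₁ < p :=
      lt_of_lt_of_le (mult_terms hr _ P₁ hP₁ (pow_rootMultiplicity_dvd P₁ r)) h1
    have h4 : rootMultiplicity r Q₁ < p :=
      lt_of_lt_of_le (mult_terms hr _ Q₁ hQ₁ (pow_rootMultiplicity_dvd Q₁ r)) h2
    have h5 := congrArg (rootMultiplicity r) h
    rw [rootMultiplicity_mul (mul_ne_zero hP₁ (pow_ne_zero _ hQ)),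
      rootMultiplicity_mul (mul_ne_zero (pow_ne_zero _ hP) hQ₁), rm_pow,
      rm_pow] at h5
    by_contra hne
    rcases lt_or_gt_of_ne hne with h6 | h6
    · have h7 : p * rootMultiplicity r P + p ≤ p * rootMultiplicity r Q := by
        calc p * rootMultiplicity r P + p = p * (rootMultiplicity r P + 1) := by ring
          _ ≤ _ := Nat.mul_le_mul_left p h6
      omega
    · have h7 : p * rootMultiplicity r Q + p ≤ p * rootMultiplicity r P := by
        calc p * rootMultiplicity r Q + p = p * (rootMultiplicity r Q + 1) := by ring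
          _ ≤ _ := Nat.mul_le_mul_left p h6
      omega
  set a := rootMultiplicity 0 Q with ha
  set b := rootMultiplicity 0 P with hb
  have hXa : (X ^ a * P : K[X]) ≠ 0 := mul_ne_zero (pow_ne_zero _ X_ne_zero) hP
  have hXb : (X ^ b * Q : K[X]) ≠ 0 := mul_ne_zero (pow_ne_zero _ X_ne_zero) hQ
  have hXm : ∀ (r : K) (m : ℕ), rootMultiplicity r (X ^ m : K[X]) = if r = 0 then m else 0 := by
    intro r m
    rw [rm_pow]
    by_cases hr : r = 0
    · rw [if_pos hr, hr]
      have := rootMultiplicity_X_sub_C_self (x := (0 : K))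
      rw [map_zero, sub_zero] at this
      rw [this, mul_one]
    · rw [if_neg hr]
      have : rootMultiplicity r (X : K[X]) = 0 := by
        apply rootMultiplicity_eq_zero
        rwa [IsRoot.def, eval_X]
      rw [this, mul_zero]
  have hroots : (X ^ a * P : K[X]).roots = (X ^ b * Q : K[X]).roots := by
    ext r
    rw [count_roots, count_roots, rootMultiplicity_mul hXa, rootMultiplicity_mul hXb, hXm, hXm]
    by_cases hr : r = 0
    · rw [if_pos hr, if_pos hr, hr, ← ha, ← hb, add_comm]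
    · rw [if_neg hr, if_neg hr, hm r hr]
  refine ⟨a, b, (X ^ a * P : K[X]).leadingCoeff / (X ^ b * Q : K[X]).leadingCoeff, ?_, ?_⟩
  · exact div_ne_zero (leadingCoeff_ne_zero.mpr hXa) (leadingCoeff_ne_zero.mpr hXb)
  · have e1 := (IsAlgClosed.splits (X ^ a * P : K[X])).eq_prod_roots
    have e2 := (IsAlgClosed.splits (X ^ b * Q : K[X])).eq_prod_roots
    have hl : (X ^ b * Q : K[X]).leadingCoeff ≠ 0 := leadingCoeff_ne_zero.mpr hXb
    rw [hroots] at e1
    calc (X ^ a * P : K[X]) = C (X ^ a * P : K[X]).leadingCoeff *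
          ((X ^ b * Q : K[X]).roots.map fun x => X - C x).prod := e1
      _ = C ((X ^ a * P : K[X]).leadingCoeff / (X ^ b * Q : K[X]).leadingCoeff) *
          (C (X ^ b * Q : K[X]).leadingCoeff *
            ((X ^ b * Q : K[X]).roots.map fun x => X - C x).prod) := by
          rw [← mul_assoc, ← map_mul, div_mul_cancel₀ _ hl]
      _ = _ := by rw [← e2]

/-- lifting of identities between characters to polynomials with weights -/
theorem weight_lift {K G : Type*} [Field K] [Monoid G] {n : ℕ} (χ : Fin n → (G →* K))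
    (Z : MvPolynomial (Fin n) K) (hZ : ∀ g, MvPolynomial.eval (fun ν => χ ν g) Z = 0)
    (w : Fin n → ℕ) (hc : ∀ m ∈ Z.support, ∀ m' ∈ Z.support,
      ∏ j, χ j ^ m j = ∏ j, χ j ^ m' j → ∑ j, w j * m j = ∑ j, w j * m' j) (g₀ : G) :
    MvPolynomial.eval₂ (C : K →+* K[X]) (fun ν => C (χ ν g₀) * X ^ w ν) Z = 0 := by
  classical
  set z : (G →* K) →₀ K := ∑ m ∈ Z.support, Finsupp.single (∏ j, χ j ^ m j) (Z.coeff m) with hz
  have hz0 : z = 0 := by
    have hli := linearIndependent_monoidHom G K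
    rw [linearIndependent_iff] at hli
    apply hli
    funext g
    rw [Finsupp.linearCombination_apply, Finsupp.sum_apply']
    have h1 : (z.sum fun ψ c => c * ψ g) =
        ∑ m ∈ Z.support, Z.coeff m * ∏ j, χ j g ^ m j := by
      rw [hz, ← Finsupp.sum_finsetSum_index]
      · refine Finset.sum_congr rfl fun m _ => ?_
        rw [Finsupp.sum_single_index (by simp)]
        congr 1
        rw [MonoidHom.finsetProd_apply]
        refine Finset.prod_congr rfl fun j _ => ?_
        rw [MonoidHom.pow_apply]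
      · intro ψ
        rw [zero_mul]
      · intro ψ a b
        rw [add_mul]
    have h2 := hZ g
    rw [MvPolynomial.eval_eq', ← h1] at h2
    exact h2
  let φ : (G →* K) → ℕ := fun x => if hx : ∃ m ∈ Z.support, ∏ j, χ j ^ m j = x then
    ∑ j, w j * hx.choose j else 0
  have hφ : ∀ m ∈ Z.support, φ (∏ j, χ j ^ m j) = ∑ j, w j * m j := by
    intro m hm
    have hx : ∃ m' ∈ Z.support, ∏ j, χ j ^ m' j = ∏ j, χ j ^ m j := ⟨m, hm, rfl⟩
    have h1 : φ (∏ j, χ j ^ m j) = ∑ j, w j * hx.choose j := dif_pos hx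
    rw [h1]
    exact hc _ hx.choose_spec.1 _ hm hx.choose_spec.2
  rw [MvPolynomial.eval₂_eq']
  have h3 : ∀ m ∈ Z.support, C (Z.coeff m) * ∏ i, (C (χ i g₀) * X ^ w i : K[X]) ^ m i =
      (Finsupp.single (∏ j, χ j ^ m j) (Z.coeff m)).sum
        fun ψ c => (C (c * ψ g₀) * X ^ φ ψ : K[X]) := by
    intro m hm
    rw [Finsupp.sum_single_index (by simp), hφ m hm, MonoidHom.finsetProd_apply,
      ← Finset.prod_pow_eq_pow_sum]
    simp only [mul_pow, Finset.prod_mul_distrib, map_mul, map_prod, MonoidHom.pow_apply, map_pow,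
      pow_mul]
    ring
  rw [Finset.sum_congr rfl h3, Finsupp.sum_finsetSum_index, ← hz, hz0]
  · simp
  · intro ψ
    simp
  · intro ψ a b
    rw [add_mul, map_add, add_mul]

end Pool.Agent.TH53.BL
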