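import Mathlib
import Pool.Agent.TH53.BL5
import Pool.Agent.TH53.BL7

set_option autoImplicit false
set_option linter.unusedVariables false

/-!
# Small quotients of sums of eigenvectors
-/

namespace Pool.Agent.TH53.BL

open Polynomial
open Pool.Agent.W237.RK
open Pool.Agent.H58P (Qb ht)
open Pool.Agent.H58B (ht_conj)
open Pool.Agent.H58R (ht_nonneg)

/-- the bihomogeneous relations -/
def Rel2 {K G : Type*} [Field K] [Monoid G] {n : ℕ} (χ : Fin n → (G →* K)) (ε : Fin n → Bool)
    (p : ℕ) (m m' : Fin n →₀ ℕ) : Prop :=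
  (∀ e, ∑ j with ε j = e, m j = p) ∧ (∀ e, ∑ j with ε j = e, m' j = p) ∧
    ∏ j, χ j ^ m j = ∏ j, χ j ^ m' j

theorem dichotomy2 {K G : Type*} [Field K] [Monoid G] {n : ℕ} (χ : Fin n → (G →* K))
    (ε : Fin n → Bool) (base : Bool → Fin n) (hbase : ∀ e, ε (base e) = e)
    (hχ : ∀ j g, χ j g ≠ 0) (p : ℕ) (hp : 0 < p) :
    (∃ w : Fin n → ℕ, (∃ i j, ε i = ε j ∧ w i ≠ w j) ∧ ∀ m m' : Fin n →₀ ℕ, Rel2 χ ε p m m' →
      ∑ j, w j * m j = ∑ j, w j * m' j) ∨
    ∃ q : ℕ, 0 < q ∧ q ≤ n.factorial * p ^ n ∧ ∀ j g, χ j g ^ q = χ (base (ε j)) g ^ q := by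
  classical
  have hle : ∀ (m : Fin n →₀ ℕ), (∀ e, ∑ j with ε j = e, m j = p) → ∀ j, m j ≤ p := by
    intro m hm j
    rw [← hm (ε j)]
    exact Finset.single_le_sum (f := fun j => m j) (fun _ _ => Nat.zero_le _)
      (Finset.mem_filter.mpr ⟨Finset.mem_univ j, rfl⟩)
  have hprod : ∀ (m : Fin n →₀ ℕ), (∀ e, ∑ j with ε j = e, m j = p) → ∀ g,
      ∏ j, (χ (base (ε j)) g) ^ m j = ∏ e : Bool, (χ (base e) g) ^ p := by
    intro m hm g
    rw [← Finset.prod_fiberwise (Finset.univ : Finset (Fin n)) ε]
    refine Finset.prod_congr rfl fun e _ => ?_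
    rw [← hm e, ← Finset.prod_pow_eq_pow_sum]
    refine Finset.prod_congr rfl fun j hj => ?_
    rw [(Finset.mem_filter.mp hj).2]
  have hsum : ∀ (m : Fin n →₀ ℕ), (∀ e, ∑ j with ε j = e, m j = p) → ∑ j, m j = ∑ _e : Bool, p := by
    intro m hm
    rw [← Finset.sum_fiberwise (Finset.univ : Finset (Fin n)) ε]
    exact Finset.sum_congr rfl fun e _ => hm e
  set R : Set (Fin n → ℚ) := {r | (∃ m m' : Fin n →₀ ℕ, Rel2 χ ε p m m' ∧
    r = fun j => (m j : ℚ) - m' j) ∨ ∃ e, r = Pi.single (base e) 1} with hR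
  by_cases hspan : Submodule.span ℚ R = ⊤
  · right
    have hlift : ∀ r ∈ R, ∃ z : Fin n → ℤ, (∀ j, |z j| ≤ p) ∧ (r = fun j => (z j : ℚ)) ∧
        ∀ g, ∏ j, (χ j g / χ (base (ε j)) g) ^ z j = 1 := by
      rintro r (⟨m, m', ⟨h1, h2, h3⟩, rfl⟩ | ⟨e, rfl⟩)
      · have hmp := hle m h1
        have hmp' := hle m' h2
        refine ⟨fun j => (m j : ℤ) - m' j, fun j => ?_, ?_, fun g => ?_⟩
        · show |(m j : ℤ) - m' j| ≤ p
          rw [abs_le]
          have := hmp j
          have := hmp' j
          constructor <;> omega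
        · funext j
          push_cast
          rfl
        · have h4 : ∏ j, (χ j g) ^ m j = ∏ j, (χ j g) ^ m' j := by
            have := DFunLike.congr_fun h3 g
            simpa [MonoidHom.finsetProd_apply] using this
          have h5 : ∀ j, (χ j g / χ (base (ε j)) g) ^ ((m j : ℤ) - m' j) =
              ((χ j g) ^ m j / (χ j g) ^ m' j) *
                ((χ (base (ε j)) g) ^ m' j / (χ (base (ε j)) g) ^ m j) := by
            intro j
            have a1 := hχ j g
            have a2 := hχ (base (ε j)) g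
            rw [zpow_sub₀ (div_ne_zero a1 a2), zpow_natCast, zpow_natCast, div_pow, div_pow]
            field_simp
          simp only [h5]
          rw [Finset.prod_mul_distrib, Finset.prod_div_distrib, Finset.prod_div_distrib, h4,
            hprod m h1 g, hprod m' h2 g, div_self, div_self, one_mul]
          · exact Finset.prod_ne_zero_iff.mpr fun j _ => pow_ne_zero _ (hχ _ _)
          · exact Finset.prod_ne_zero_iff.mpr fun j _ => pow_ne_zero _ (hχ _ _)
      · refine ⟨fun j => if j = base e then 1 else 0, fun j => ?_, ?_, fun g => ?_⟩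
        · show |if j = base e then (1 : ℤ) else 0| ≤ p
          split_ifs
          · simp; omega
          · simp
        · funext j
          by_cases h : j = base e
          · subst h; simp
          · simp [h]
        · rw [Finset.prod_eq_single (base e)]
          · simp [hbase e, hχ (base e) g]
          · intro j _ hj
            simp [hj]
          · intro h
            exact absurd (Finset.mem_univ _) h
    have hfr : Module.finrank ℚ (Submodule.span ℚ R) = n := by
      rw [hspan, finrank_top, Module.finrank_fin_fun]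
    obtain ⟨t, ht, hli⟩ := exists_fin_family R hfr
    choose z hz1 hz2 hz3 using fun i => hlift (t i) (ht i)
    set M : Matrix (Fin n) (Fin n) ℤ := Matrix.of z with hM
    have hMt : M.map (Int.cast : ℤ → ℚ) = Matrix.of t := by
      ext i j
      rw [Matrix.map_apply, Matrix.of_apply, hz2 i]
      rfl
    have hdet : M.det ≠ 0 := by
      have h1 : LinearIndependent ℚ (Matrix.of t).row := hli
      rw [Matrix.linearIndependent_rows_iff_isUnit, Matrix.isUnit_iff_isUnit_det] at h1
      have h2 := h1.ne_zero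
      rw [← hMt] at h2
      intro h0
      apply h2
      have := Int.cast_det (R := ℚ) M
      rw [← this, h0, Int.cast_zero]
    refine ⟨M.det.natAbs, Int.natAbs_pos.mpr hdet, ?_, ?_⟩
    · have h1 := Matrix.det_le (A := M) (abv := AbsoluteValue.abs) (x := (p : ℤ))
        (fun i j => hz1 i j)
      rw [Fintype.card_fin, nsmul_eq_mul] at h1
      have h2 : (M.det.natAbs : ℤ) = |M.det| := Int.natCast_natAbs _
      have h3 : (M.det.natAbs : ℤ) ≤ ((n.factorial * p ^ n : ℕ) : ℤ) := by
        rw [h2]
        push_cast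
        exact h1
      exact_mod_cast h3
    · intro j g
      have hs0 : ∀ l, χ l g / χ (base (ε l)) g ≠ 0 := fun l => div_ne_zero (hχ _ _) (hχ _ _)
      have h1 : ∏ i, (∏ l, (χ l g / χ (base (ε l)) g) ^ z i l) ^ (M.adjugate j i) = 1 := by
        refine Finset.prod_eq_one fun i _ => ?_
        rw [hz3 i g, one_zpow]
      have h2 : ∏ i, (∏ l, (χ l g / χ (base (ε l)) g) ^ z i l) ^ (M.adjugate j i) =
          ∏ l, (χ l g / χ (base (ε l)) g) ^ ((M.adjugate * M) j l) := by
        have : ∀ i, (∏ l, (χ l g / χ (base (ε l)) g) ^ z i l) ^ (M.adjugate j i) =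
            ∏ l, (χ l g / χ (base (ε l)) g) ^ (M.adjugate j i * M i l) := by
          intro i
          rw [← Finset.prod_zpow]
          refine Finset.prod_congr rfl fun l _ => ?_
          rw [← zpow_mul, mul_comm]
          rfl
        simp only [this]
        rw [Finset.prod_comm]
        refine Finset.prod_congr rfl fun l _ => ?_
        rw [Matrix.mul_apply]
        exact prod_zpow_eq _ (hs0 l) _
      rw [h2, Matrix.adjugate_mul] at h1
      have h3 : (χ j g / χ (base (ε j)) g) ^ M.det = 1 := by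
        rw [← h1, Finset.prod_eq_single j]
        · simp
        · intro l _ hl
          rw [Matrix.smul_apply, Matrix.one_apply_ne (Ne.symm hl)]
          simp
        · intro h
          exact absurd (Finset.mem_univ _) h
      have h4 : (χ j g / χ (base (ε j)) g) ^ M.det.natAbs = 1 := by
        rcases Int.natAbs_eq M.det with h | h
        · rw [h, zpow_natCast] at h3
          simpa using h3
        · rw [h, zpow_neg, zpow_natCast, inv_eq_one] at h3
          simpa using h3
      rw [div_pow, div_eq_one_iff_eq (pow_ne_zero _ (hχ _ _))] at h4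
      exact h4
  · left
    obtain ⟨f, hf0, hf⟩ := Submodule.exists_le_ker_of_lt_top _ (lt_top_iff_ne_top.mpr hspan)
    set lam : Fin n → ℚ := fun j => f (Pi.single j 1) with hlam
    have hflam : ∀ r : Fin n → ℚ, f r = ∑ j, lam j * r j := by
      intro r
      have h3 : r = ∑ j, r j • (Pi.single j (1 : ℚ) : Fin n → ℚ) := by
        funext l
        simp [Finset.sum_apply, Pi.single_apply]
      conv_lhs => rw [h3]
      rw [map_sum]
      refine Finset.sum_congr rfl fun j _ => ?_
      rw [map_smul, smul_eq_mul, mul_comm]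
    have hlam0 : ∀ e, lam (base e) = 0 := by
      intro e
      have : (Pi.single (base e) 1 : Fin n → ℚ) ∈ LinearMap.ker f :=
        hf (Submodule.subset_span (Or.inr ⟨e, rfl⟩))
      exact this
    have hlam1 : ∃ j, lam j ≠ 0 := by
      by_contra hcon
      push Not at hcon
      apply hf0
      ext r
      simp only [LinearMap.coe_comp, Function.comp_apply, LinearMap.zero_apply,
        LinearMap.coe_single]
      exact hcon r
    obtain ⟨j₁, hj₁⟩ := hlam1
    set z : Fin n → ℤ := fun j => (lam j).num * ∏ l ∈ Finset.univ.erase j, ((lam l).den : ℤ) with hz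
    set N : ℕ := ∏ l, (lam l).den with hN
    have hNpos : 0 < N := Finset.prod_pos fun l _ => (lam l).den_pos
    have hzN : ∀ j, (z j : ℚ) = N * lam j := by
      intro j
      have h1 : (N : ℚ) = (lam j).den * ∏ l ∈ Finset.univ.erase j, ((lam l).den : ℚ) := by
        rw [hN]
        push_cast
        exact (Finset.mul_prod_erase _ _ (Finset.mem_univ j)).symm
      have h2 : (lam j) * (lam j).den = (lam j).num := Rat.mul_den_eq_num _
      rw [h1, hz]
      push_cast
      rw [← h2]
      ring
    set C : ℕ := ∑ j, (z j).natAbs with hC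
    have hCz : ∀ j, 0 ≤ z j + C := by
      intro j
      have h1 : (z j).natAbs ≤ C := Finset.single_le_sum (f := fun j => (z j).natAbs)
        (fun _ _ => Nat.zero_le _) (Finset.mem_univ j)
      omega
    have hw : ∀ j, (((z j + C).toNat : ℕ) : ℤ) = z j + C := fun j => Int.toNat_of_nonneg (hCz j)
    refine ⟨fun j => (z j + C).toNat, ⟨base (ε j₁), j₁, hbase _, ?_⟩, ?_⟩
    · intro h
      have h' : (z (base (ε j₁)) + C).toNat = (z j₁ + C).toNat := h
      have h1 : z (base (ε j₁)) + C = z j₁ + C := by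
        have a := hw (base (ε j₁))
        have b := hw j₁
        rw [h'] at a
        exact a.symm.trans b
      have h2 : (z (base (ε j₁)) : ℚ) = z j₁ := by exact_mod_cast (add_right_cancel h1)
      rw [hzN, hzN, hlam0, mul_zero] at h2
      have h3 : (N : ℚ) ≠ 0 := by exact_mod_cast hNpos.ne'
      exact (mul_ne_zero h3 hj₁) h2.symm
    · intro m m' hr
      have h1 : (fun j => (m j : ℚ) - m' j) ∈ LinearMap.ker f :=
        hf (Submodule.subset_span (Or.inl ⟨m, m', hr, rfl⟩))
      rw [LinearMap.mem_ker, hflam] at h1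
      obtain ⟨h2', h3', -⟩ := hr
      have h2 := hsum m h2'
      have h3 := hsum m' h3'
      have h4 : (∑ j, z j * ((m j : ℤ) - m' j) : ℤ) = 0 := by
        have h5 : ((∑ j, z j * ((m j : ℤ) - m' j) : ℤ) : ℚ) = N * ∑ j, lam j * ((m j : ℚ) - m' j) := by
          push_cast
          rw [Finset.mul_sum]
          refine Finset.sum_congr rfl fun j _ => ?_
          rw [hzN]
          ring
        rw [h1, mul_zero] at h5
        exact_mod_cast h5
      have h6 : (∑ j, ((z j + C).toNat : ℤ) * (m j : ℤ)) = ∑ j, ((z j + C).toNat : ℤ) * (m' j : ℤ) := by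
        have h7 : (∑ j, (m j : ℤ)) = ∑ j, (m' j : ℤ) := by exact_mod_cast h2.trans h3.symm
        rw [← sub_eq_zero, ← Finset.sum_sub_distrib]
        have h9 : ∀ j, ((z j + C).toNat : ℤ) * (m j : ℤ) - ((z j + C).toNat : ℤ) * (m' j : ℤ) =
            z j * ((m j : ℤ) - m' j) + C * ((m j : ℤ) - m' j) := by
          intro j
          rw [hw]
          ring
        simp only [h9]
        rw [Finset.sum_add_distrib, h4, ← Finset.mul_sum, Finset.sum_sub_distrib, h7]
        ring
      exact_mod_cast h6

/-- the number of terms -/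
lemma supp_card {K ι : Type*} [Field K] (s : Finset ι) (a : ι → K) (k : ι → ℕ) :
    (∑ ν ∈ s, C (a ν) * X ^ k ν : K[X]).support.card ≤ s.card := by
  classical
  have : (∑ ν ∈ s, C (a ν) * X ^ k ν : K[X]).support ⊆ s.image k := by
    intro n hn
    rw [mem_support_iff, finsetSum_coeff] at hn
    by_contra hcon
    apply hn
    refine Finset.sum_eq_zero fun ν hν => ?_
    rw [coeff_C_mul, coeff_X_pow, if_neg, mul_zero]
    rintro rfl
    exact hcon (Finset.mem_image_of_mem k hν)
  exact (Finset.card_le_card this).trans Finset.card_image_le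

section rel

variable {n : ℕ} (F : GF) (A : Fin n → Qb) (χ : Fin n → (fixG F →* Qb)) (ε : Fin n → Bool)

/-- the exponent of `α` -/
def ex (e : Bool) : ℕ := if e then 1 else 0

lemma block_ne (hinj : ∀ i j, ε i = ε j → χ i = χ j → i = j) (hA0 : ∀ j, A j ≠ 0)
    (hA : ∀ j (σ : fixG F), σ.1 (A j) = A j * χ j σ) (J : Finset (Fin n)) (hJ : J.Nonempty)
    (e : Bool) (hJe : ∀ j ∈ J, ε j = e) : ∑ j ∈ J, A j ≠ 0 := by
  classical
  intro h0
  have hli : LinearIndependent Qb (fun j : J => (χ j : fixG F → Qb)) :=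
    (linearIndependent_monoidHom (fixG F) Qb).comp (fun j : J => χ j) (by
      intro i j h
      exact Subtype.ext (hinj i j ((hJe i i.2).trans (hJe j j.2).symm) h))
  have h1 := Fintype.linearIndependent_iff.mp hli (fun j => A j) (by
    funext σ
    rw [Finset.sum_apply]
    have h2 := apply_sum F A χ hA J σ
    rw [h0, map_zero, ← Finset.sum_coe_sort J (fun j => A j * χ j σ)] at h2
    exact h2.symm)
  obtain ⟨j, hj⟩ := hJ
  exact hA0 j (h1 ⟨j, hj⟩)

/-- small heights: the `p`-th powers are dependent -/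
theorem dependency (hA0 : ∃ j, A j ≠ 0) (hA : ∀ j (σ : fixG F), σ.1 (A j) = A j * χ j σ)
    (hTor : ∀ j σ, Tor (χ j σ)) (α : Qb) (hrel : ∑ j, A j * α ^ ex (ε j) = 0)
    (p : ℕ) (hp : p.Prime) (hp2 : p ≠ 2)
    (hsmall : (p : ℝ) * ((n : ℝ) ^ 2 * ht α) < Real.log ((p : ℝ) / n.factorial)) :
    ∃ A' : Fin n → Qb, (∃ j, A' j ≠ 0) ∧ ∀ σ : fixG F,
      ∑ j, A' j * ((χ j σ) ^ p * ((σ.1 α) ^ p) ^ ex (ε j)) = 0 := by
  classical
  by_contra hcon
  push Not at hcon
  have hli : LinearIndependent Qb (fun (j : Fin n) (σ : fixG F) =>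
      (χ j σ) ^ p * ((σ.1 α) ^ p) ^ ex (ε j)) := by
    rw [Fintype.linearIndependent_iff]
    intro A' hA' j
    by_contra hj
    obtain ⟨σ, hσ⟩ := hcon A' ⟨j, hj⟩
    apply hσ
    have := congrFun hA' σ
    rw [Finset.sum_apply] at this
    simpa using this
  obtain ⟨σ, hσ⟩ := exists_points _ hli
  set x : Fin n → Fin n → Qb := fun i j => χ j (σ i) * ((σ i).1 α) ^ ex (ε j) with hx
  have h1 : (Matrix.of fun i j => x i j ^ p).det ≠ 0 := by
    have e : (Matrix.of fun i j => x i j ^ p) = Matrix.of fun i j =>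
        (χ j (σ i)) ^ p * (((σ i).1 α) ^ p) ^ ex (ε j) := by
      funext i j
      show (χ j (σ i) * ((σ i).1 α) ^ ex (ε j)) ^ p = (χ j (σ i)) ^ p * (((σ i).1 α) ^ p) ^ ex (ε j)
      rw [mul_pow, ← pow_mul, ← pow_mul, mul_comm (ex (ε j))]
    rw [e]
    exact hσ
  have h0 : (Matrix.of x).det = 0 := by
    rw [← Matrix.exists_mulVec_eq_zero_iff]
    refine ⟨A, ?_, ?_⟩
    · intro h
      obtain ⟨j, hj⟩ := hA0
      exact hj (congrFun h j)
    · funext i
      have h2 := congrArg (σ i).1 hrel
      rw [map_sum, map_zero] at h2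
      show ∑ j, x i j * A j = 0
      rw [← h2]
      refine Finset.sum_congr rfl fun j _ => ?_
      rw [map_mul, map_pow, hA j (σ i)]
      simp only [hx]
      ring
  have h2 := det_height hp hp2 x h0 h1
  have h3 : ∀ i j, ht (x i j) ≤ ht α := by
    intro i j
    simp only [hx]
    rw [ht_tor_mul (hTor j (σ i))]
    by_cases h : ε j = true
    · rw [h]
      show ht (((σ i).1 α) ^ 1) ≤ _
      rw [pow_one]
      exact (ht_conj _ _).le
    · have h' : ε j = false := by simpa using h
      rw [h']
      show ht (((σ i).1 α) ^ 0) ≤ _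
      rw [pow_zero, Pool.Agent.H58R.ht_one]
      exact ht_nonneg _
  have h4 : ∑ q : Fin n × Fin n, ht (x q.1 q.2) ≤ (n : ℝ) ^ 2 * ht α := by
    calc ∑ q : Fin n × Fin n, ht (x q.1 q.2) ≤ ∑ _q : Fin n × Fin n, ht α :=
          Finset.sum_le_sum fun q _ => h3 q.1 q.2
      _ = (n : ℝ) ^ 2 * ht α := by
          rw [Finset.sum_const, Finset.card_univ, Fintype.card_prod, Fintype.card_fin,
            nsmul_eq_mul]
          push_cast
          ring
  have hp0 : (0 : ℝ) ≤ p := by positivity
  have h5 := mul_le_mul_of_nonneg_left h4 hp0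
  linarith

lemma block_split {R : Type*} [CommRing R] (f : Fin n → R) (a : R) :
    ∑ j, f j * a ^ ex (ε j) = (∑ j with ε j = false, f j) + a * ∑ j with ε j = true, f j := by
  classical
  rw [← Finset.sum_fiberwise (Finset.univ : Finset (Fin n)) ε, Fintype.sum_bool, add_comm]
  congr 1
  · refine Finset.sum_congr rfl fun j hj => ?_
    rw [(Finset.mem_filter.mp hj).2]
    show f j * a ^ 0 = f j
    rw [pow_zero, mul_one]
  · rw [Finset.mul_sum]
    refine Finset.sum_congr rfl fun j hj => ?_
    rw [(Finset.mem_filter.mp hj).2]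
    show f j * a ^ 1 = a * f j
    rw [pow_one, mul_comm]

end rel

end Pool.Agent.TH53.BL
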