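import Mathlib
import Pool.Agent.TH53.BL8

set_option autoImplicit false
set_option linter.unusedVariables false

/-!
# The reduction to a shorter relation
-/

namespace Pool.Agent.TH53.BL

open Polynomial
open Pool.Agent.W237.RK
open Pool.Agent.H58P (Qb ht)
open Pool.Agent.H58B (ht_conj)
open Pool.Agent.H58R (ht_nonneg)

section Z

variable {n : ℕ} (A A' : Fin n → Qb) (ε : Fin n → Bool) (p : ℕ)

/-- a block of the linear form -/
noncomputable def TT (e : Bool) : MvPolynomial (Fin n) Qb :=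
  ∑ j with ε j = e, MvPolynomial.C (A j) * MvPolynomial.X j

/-- a block of the power form -/
noncomputable def TP (e : Bool) : MvPolynomial (Fin n) Qb :=
  ∑ j with ε j = e, MvPolynomial.C (A' j) * MvPolynomial.X j ^ p

/-- the identity -/
noncomputable def ZZ : MvPolynomial (Fin n) Qb :=
  TP A' ε p false * TT A ε true ^ p - TT A ε false ^ p * TP A' ε p true

/-- the weight of a block -/
def wt (e : Bool) (j : Fin n) : ℕ := if ε j = e then 1 else 0

lemma TT_hom (e e' : Bool) : MvPolynomial.IsWeightedHomogeneous (wt ε e) (TT A ε e')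
    (if e' = e then 1 else 0) := by
  apply MvPolynomial.IsWeightedHomogeneous.sum
  intro j hj
  have h1 := (MvPolynomial.isWeightedHomogeneous_C (wt ε e) (A j)).mul
    (MvPolynomial.isWeightedHomogeneous_X Qb (wt ε e) j)
  have h2 : 0 + wt ε e j = if e' = e then 1 else 0 := by
    rw [zero_add, wt, (Finset.mem_filter.mp hj).2]
  rw [h2] at h1
  exact h1

lemma TP_hom (e e' : Bool) : MvPolynomial.IsWeightedHomogeneous (wt ε e) (TP A' ε p e')
    (p * (if e' = e then 1 else 0)) := by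
  apply MvPolynomial.IsWeightedHomogeneous.sum
  intro j hj
  have h1 := (MvPolynomial.isWeightedHomogeneous_C (wt ε e) (A' j)).mul
    ((MvPolynomial.isWeightedHomogeneous_X Qb (wt ε e) j).pow p)
  have h2 : 0 + p • wt ε e j = p * (if e' = e then 1 else 0) := by
    rw [zero_add, wt, (Finset.mem_filter.mp hj).2, smul_eq_mul]
  rw [h2] at h1
  exact h1

lemma ZZ_degree (m : Fin n →₀ ℕ) (hm : m ∈ (ZZ A A' ε p).support) (e : Bool) :
    ∑ j with ε j = e, m j = p := by
  have h1 : MvPolynomial.IsWeightedHomogeneous (wt ε e) (ZZ A A' ε p) p := by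
    apply MvPolynomial.IsWeightedHomogeneous.sub
    · have h2 := (TP_hom A' ε p e false).mul ((TT_hom A ε e true).pow p)
      have h3 : p * (if false = e then 1 else 0) + p • (if true = e then 1 else 0) = p := by
        cases e <;> simp
      rw [h3] at h2
      exact h2
    · have h2 := ((TT_hom A ε e false).pow p).mul (TP_hom A' ε p e true)
      have h3 : p • (if false = e then 1 else 0) + p * (if true = e then 1 else 0) = p := by
        cases e <;> simp
      rw [h3] at h2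
      exact h2
  have h2 := h1 (MvPolynomial.mem_support_iff.mp hm)
  rw [Finsupp.weight_apply, Finsupp.sum_fintype _ _ (by simp)] at h2
  rw [← h2, Finset.sum_filter]
  refine Finset.sum_congr rfl fun j _ => ?_
  rw [wt]
  split_ifs <;> simp

lemma TT_eval {R : Type*} [CommRing R] (φ : Qb →+* R) (x : Fin n → R) (e : Bool) :
    MvPolynomial.eval₂ φ x (TT A ε e) = ∑ j with ε j = e, φ (A j) * x j := by
  simp only [TT, MvPolynomial.eval₂_sum, MvPolynomial.eval₂_mul, MvPolynomial.eval₂_C,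
    MvPolynomial.eval₂_X]

lemma TP_eval {R : Type*} [CommRing R] (φ : Qb →+* R) (x : Fin n → R) (e : Bool) :
    MvPolynomial.eval₂ φ x (TP A' ε p e) = ∑ j with ε j = e, φ (A' j) * x j ^ p := by
  simp only [TP, MvPolynomial.eval₂_sum, MvPolynomial.eval₂_mul, MvPolynomial.eval₂_C,
    MvPolynomial.eval₂_pow, MvPolynomial.eval₂_X]

lemma ZZ_eval {R : Type*} [CommRing R] (φ : Qb →+* R) (x : Fin n → R) :
    MvPolynomial.eval₂ φ x (ZZ A A' ε p) =
      (∑ j with ε j = false, φ (A' j) * x j ^ p) * (∑ j with ε j = true, φ (A j) * x j) ^ p -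
      (∑ j with ε j = false, φ (A j) * x j) ^ p * (∑ j with ε j = true, φ (A' j) * x j ^ p) := by
  rw [ZZ, ← MvPolynomial.coe_eval₂Hom, map_sub, map_mul, map_mul, map_pow, map_pow,
    MvPolynomial.coe_eval₂Hom, TT_eval, TT_eval, TP_eval, TP_eval]

end Z

/-- **the reduction to a shorter relation** -/
theorem smaller {n : ℕ} (F : GF) (A : Fin n → Qb) (χ : Fin n → (fixG F →* Qb))
    (ε : Fin n → Bool) (hinj : ∀ i j, ε i = ε j → χ i = χ j → i = j) (hA0 : ∀ j, A j ≠ 0)
    (hA : ∀ j (σ : fixG F), σ.1 (A j) = A j * χ j σ) (α : Qb) (hα : α ≠ 0)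
    (hrel : ∑ j, A j * α ^ ex (ε j) = 0) (j₀ j₁ : Fin n) (hj₀ : ε j₀ = false) (hj₁ : ε j₁ = true)
    (p : ℕ) (hp : p.Prime) (hp2 : p ≠ 2) (hnp : n ≤ p)
    (hinj' : ∀ i j, ε i = ε j → χ i ^ p = χ j ^ p → i = j)
    (A' : Fin n → Qb) (hA'0 : ∃ j, A' j ≠ 0) (hA' : ∀ σ : fixG F,
      ∑ j, A' j * ((χ j σ) ^ p * ((σ.1 α) ^ p) ^ ex (ε j)) = 0)
    (w : Fin n → ℕ) (hw : ∃ i j, ε i = ε j ∧ w i ≠ w j)
    (hc : ∀ m m' : Fin n →₀ ℕ, Rel2 χ ε p m m' → ∑ j, w j * m j = ∑ j, w j * m' j) :
    ∃ J : Finset (Fin n), J.Nonempty ∧ J ≠ Finset.univ ∧ ∑ j ∈ J, A j * α ^ ex (ε j) = 0 := by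
  classical
  have hodd : Odd p := hp.odd_of_ne_two hp2
  have hσα : ∀ σ : fixG F, σ.1 α ≠ 0 := fun σ => (map_ne_zero σ.1).mpr hα
  -- the two relations at `σ`
  have hR : ∀ σ : fixG F, (∑ j with ε j = false, A j * χ j σ) +
      σ.1 α * ∑ j with ε j = true, A j * χ j σ = 0 := by
    intro σ
    rw [← block_split ε (fun j => A j * χ j σ) (σ.1 α)]
    have h := congrArg σ.1 hrel
    rw [map_sum, map_zero] at h
    rw [← h]
    refine Finset.sum_congr rfl fun j _ => ?_
    rw [map_mul, map_pow, hA j σ]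
  have hR' : ∀ σ : fixG F, (∑ j with ε j = false, A' j * (χ j σ) ^ p) +
      (σ.1 α) ^ p * ∑ j with ε j = true, A' j * (χ j σ) ^ p = 0 := by
    intro σ
    rw [← block_split ε (fun j => A' j * (χ j σ) ^ p) ((σ.1 α) ^ p), ← hA' σ]
    exact Finset.sum_congr rfl fun j _ => mul_assoc _ _ _
  -- a point where the blocks of the second relation do not vanish
  obtain ⟨σ₀, hσf, hσt⟩ : ∃ σ₀ : fixG F, (∑ j with ε j = false, A' j * (χ j σ₀) ^ p) ≠ 0 ∧
      (∑ j with ε j = true, A' j * (χ j σ₀) ^ p) ≠ 0 := by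
    by_contra hcon
    push Not at hcon
    have hall : ∀ σ : fixG F, (∑ j with ε j = false, A' j * (χ j σ) ^ p) = 0 ∧
        (∑ j with ε j = true, A' j * (χ j σ) ^ p) = 0 := by
      intro σ
      have h1 := hR' σ
      by_cases h : (∑ j with ε j = false, A' j * (χ j σ) ^ p) = 0
      · rw [h, zero_add, mul_eq_zero] at h1
        exact ⟨h, h1.resolve_left (pow_ne_zero _ (hσα σ))⟩
      · have h2 := hcon σ h
        rw [h2, mul_zero, add_zero] at h1
        exact absurd h1 h
    obtain ⟨j, hj⟩ := hA'0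
    have hblock : ∀ σ : fixG F, (∑ i with ε i = ε j, A' i * (χ i σ) ^ p) = 0 := by
      intro σ
      cases h : ε j
      · exact (hall σ).1
      · exact (hall σ).2
    set J : Finset (Fin n) := Finset.univ.filter (fun i => ε i = ε j) with hJ
    have hli : LinearIndependent Qb (fun i : J => ((χ i ^ p : fixG F →* Qb) : fixG F → Qb)) :=
      (linearIndependent_monoidHom (fixG F) Qb).comp (fun i : J => χ i ^ p) (by
        intro i i' h
        have h1 := (Finset.mem_filter.mp i.2).2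
        have h2 := (Finset.mem_filter.mp i'.2).2
        exact Subtype.ext (hinj' i i' (h1.trans h2.symm) h))
    have h1 := Fintype.linearIndependent_iff.mp hli (fun i => A' i) (by
      funext σ
      rw [Finset.sum_apply]
      have h2 := hblock σ
      rw [← Finset.sum_coe_sort J (fun i => A' i * (χ i σ) ^ p)] at h2
      exact h2)
    exact hj (h1 ⟨j, Finset.mem_filter.mpr ⟨Finset.mem_univ j, rfl⟩⟩)
  -- the identity between characters
  have hZ : ∀ g : fixG F, MvPolynomial.eval (fun ν => χ ν g) (ZZ A A' ε p) = 0 := by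
    intro g
    have h1 : MvPolynomial.eval (fun ν => χ ν g) (ZZ A A' ε p) =
        MvPolynomial.eval₂ (RingHom.id Qb) (fun ν => χ ν g) (ZZ A A' ε p) := by
      rw [MvPolynomial.eval₂_id]
    rw [h1, ZZ_eval]
    simp only [RingHom.id_apply]
    have h2 := hR g
    have h3 := hR' g
    have h4 : (∑ j with ε j = false, A j * χ j g) = -(g.1 α * ∑ j with ε j = true, A j * χ j g) :=
      eq_neg_of_add_eq_zero_left h2
    have h5 : (∑ j with ε j = false, A' j * (χ j g) ^ p) =
        -((g.1 α) ^ p * ∑ j with ε j = true, A' j * (χ j g) ^ p) :=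
      eq_neg_of_add_eq_zero_left h3
    rw [h4, h5, hodd.neg_pow, mul_pow]
    ring
  have hlift := weight_lift χ (ZZ A A' ε p) hZ w (fun m hm m' hm' h =>
    hc m m' ⟨ZZ_degree A A' ε p m hm, ZZ_degree A A' ε p m' hm', h⟩) σ₀
  rw [ZZ_eval] at hlift
  set P : Qb[X] := ∑ j with ε j = false, C (A j) * (C (χ j σ₀) * X ^ w j) with hP
  set Q : Qb[X] := ∑ j with ε j = true, C (A j) * (C (χ j σ₀) * X ^ w j) with hQ
  set P₁ : Qb[X] := ∑ j with ε j = false, C (A' j) * (C (χ j σ₀) * X ^ w j) ^ p with hP₁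
  set Q₁ : Qb[X] := ∑ j with ε j = true, C (A' j) * (C (χ j σ₀) * X ^ w j) ^ p with hQ₁
  have hid : P₁ * Q ^ p = P ^ p * Q₁ := sub_eq_zero.mp hlift
  have hPe : P.eval 1 = ∑ j with ε j = false, A j * χ j σ₀ := by
    rw [hP, eval_finsetSum]
    refine Finset.sum_congr rfl fun j _ => ?_
    simp
  have hQe : Q.eval 1 = ∑ j with ε j = true, A j * χ j σ₀ := by
    rw [hQ, eval_finsetSum]
    refine Finset.sum_congr rfl fun j _ => ?_
    simp
  have hP₁e : P₁.eval 1 = ∑ j with ε j = false, A' j * (χ j σ₀) ^ p := by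
    rw [hP₁, eval_finsetSum]
    refine Finset.sum_congr rfl fun j _ => ?_
    simp
  have hQ₁e : Q₁.eval 1 = ∑ j with ε j = true, A' j * (χ j σ₀) ^ p := by
    rw [hQ₁, eval_finsetSum]
    refine Finset.sum_congr rfl fun j _ => ?_
    simp
  have hPs : P.eval 1 = σ₀.1 (∑ j with ε j = false, A j) := by
    rw [hPe, apply_sum F A χ hA]
  have hQs : Q.eval 1 = σ₀.1 (∑ j with ε j = true, A j) := by
    rw [hQe, apply_sum F A χ hA]
  have hbf := block_ne F A χ ε hinj hA0 hA (Finset.univ.filter fun j => ε j = false)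
    ⟨j₀, Finset.mem_filter.mpr ⟨Finset.mem_univ _, hj₀⟩⟩ false
    (fun j hj => (Finset.mem_filter.mp hj).2)
  have hbt := block_ne F A χ ε hinj hA0 hA (Finset.univ.filter fun j => ε j = true)
    ⟨j₁, Finset.mem_filter.mpr ⟨Finset.mem_univ _, hj₁⟩⟩ true
    (fun j hj => (Finset.mem_filter.mp hj).2)
  have hPe0 : P.eval 1 ≠ 0 := by rw [hPs]; exact (map_ne_zero σ₀.1).mpr hbf
  have hQe0 : Q.eval 1 ≠ 0 := by rw [hQs]; exact (map_ne_zero σ₀.1).mpr hbt
  have hne : ∀ f : Qb[X], f.eval 1 ≠ 0 → f ≠ 0 := by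
    rintro f hf rfl
    exact hf eval_zero
  have hcard : ∀ e, (Finset.univ.filter fun j => ε j = e).card ≤ p := by
    intro e
    refine (Finset.card_filter_le _ _).trans ?_
    simpa using hnp
  have hsupp : ∀ e, (∑ j with ε j = e, C (A' j) * (C (χ j σ₀) * X ^ w j) ^ p : Qb[X]).support.card
      ≤ p := by
    intro e
    have h1 : (∑ j with ε j = e, C (A' j) * (C (χ j σ₀) * X ^ w j) ^ p : Qb[X]) =
        ∑ j with ε j = e, C (A' j * (χ j σ₀) ^ p) * X ^ (w j * p) := by
      refine Finset.sum_congr rfl fun j _ => ?_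
      rw [mul_pow, ← pow_mul, ← mul_assoc, map_mul, map_pow]
    rw [h1]
    exact (supp_card _ _ _).trans (hcard e)
  obtain ⟨a, b, c, hc0, hprop⟩ := proportional (hne P hPe0) (hne Q hQe0)
    (hne P₁ (by rw [hP₁e]; exact hσf)) (hne Q₁ (by rw [hQ₁e]; exact hσt)) (hsupp false)
    (hsupp true) hid
  -- the constant
  have hcα : c = -σ₀.1 α := by
    have h1 := congrArg (eval 1) hprop
    simp only [eval_mul, eval_pow, eval_X, one_pow, one_mul, eval_C] at h1
    have h2 := hR σ₀
    rw [← hPe, ← hQe, h1, ← add_mul, mul_eq_zero] at h2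
    exact eq_neg_of_add_eq_zero_left (h2.resolve_right hQe0)
  -- choice of the weight
  obtain ⟨i, j, hij, hwij⟩ := hw
  obtain ⟨ν₀, hν₀, hν₀'⟩ : ∃ ν₀, ε ν₀ = false ∧ (ε i = false → ν₀ = i) := by
    cases h : ε i
    · exact ⟨i, h, fun _ => rfl⟩
    · exact ⟨j₀, hj₀, fun h' => by simp at h'⟩
  have hcoefP : ∀ t, P.coeff t = σ₀.1 (∑ l with (ε l = false ∧ w l = t), A l) := by
    intro t
    rw [apply_sum F A χ hA, hP, finsetSum_coeff, ← Finset.filter_filter, Finset.sum_filter (p := fun l => w l = t)]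
    refine Finset.sum_congr rfl fun l _ => ?_
    rw [← mul_assoc, ← map_mul, coeff_C_mul, coeff_X_pow]
    by_cases h : w l = t
    · rw [if_pos h, if_pos h.symm, mul_one]
    · rw [if_neg h, if_neg (fun h' => h h'.symm), mul_zero]
  have hcoefQ : ∀ t, Q.coeff t = σ₀.1 (∑ l with (ε l = true ∧ w l = t), A l) := by
    intro t
    rw [apply_sum F A χ hA, hQ, finsetSum_coeff, ← Finset.filter_filter, Finset.sum_filter (p := fun l => w l = t)]
    refine Finset.sum_congr rfl fun l _ => ?_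
    rw [← mul_assoc, ← map_mul, coeff_C_mul, coeff_X_pow]
    by_cases h : w l = t
    · rw [if_pos h, if_pos h.symm, mul_one]
    · rw [if_neg h, if_neg (fun h' => h h'.symm), mul_zero]
  have hP0 : P.coeff (w ν₀) ≠ 0 := by
    rw [hcoefP]
    exact (map_ne_zero σ₀.1).mpr (block_ne F A χ ε hinj hA0 hA _
      ⟨ν₀, Finset.mem_filter.mpr ⟨Finset.mem_univ _, hν₀, rfl⟩⟩ false
      (fun j hj => (Finset.mem_filter.mp hj).2.1))
  have h1 : (X ^ a * P : Qb[X]).coeff (w ν₀ + a) = (C c * (X ^ b * Q) : Qb[X]).coeff (w ν₀ + a) := by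
    rw [hprop]
  rw [coeff_X_pow_mul, coeff_C_mul, coeff_X_pow_mul'] at h1
  have hb : b ≤ w ν₀ + a := by
    by_contra hcon
    rw [if_neg hcon, mul_zero] at h1
    exact hP0 h1
  rw [if_pos hb] at h1
  set w₁ := w ν₀ + a - b with hw₁
  rw [hcoefP, hcoefQ, hcα] at h1
  set Jf : Finset (Fin n) := Finset.univ.filter (fun l => ε l = false ∧ w l = w ν₀) with hJf
  set Jt : Finset (Fin n) := Finset.univ.filter (fun l => ε l = true ∧ w l = w₁) with hJt
  have h2 : (∑ l ∈ Jf, A l) + α * ∑ l ∈ Jt, A l = 0 := by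
    have h3 : σ₀.1 ((∑ l ∈ Jf, A l) + α * ∑ l ∈ Jt, A l) = 0 := by
      rw [map_add, map_mul, h1]
      ring
    exact (map_eq_zero σ₀.1).mp h3
  refine ⟨Jf ∪ Jt, ⟨ν₀, ?_⟩, ?_, ?_⟩
  · exact Finset.mem_union_left _ (Finset.mem_filter.mpr ⟨Finset.mem_univ _, hν₀, rfl⟩)
  · intro hun
    have hi : i ∈ Jf ∪ Jt := by rw [hun]; exact Finset.mem_univ _
    have hj : j ∈ Jf ∪ Jt := by rw [hun]; exact Finset.mem_univ _
    rw [hJf, hJt, Finset.mem_union, Finset.mem_filter, Finset.mem_filter] at hi hj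
    rcases hi with ⟨-, h3, h4⟩ | ⟨-, h3, h4⟩
    · rcases hj with ⟨-, h5, h6⟩ | ⟨-, h5, h6⟩
      · exact hwij (h4.trans h6.symm)
      · rw [h3, h5] at hij
        simp at hij
    · rcases hj with ⟨-, h5, h6⟩ | ⟨-, h5, h6⟩
      · rw [h3, h5] at hij
        simp at hij
      · exact hwij (h4.trans h6.symm)
  · have hdisj : Disjoint Jf Jt := by
      rw [Finset.disjoint_left]
      intro l h3 h4
      rw [hJf, Finset.mem_filter] at h3
      rw [hJt, Finset.mem_filter] at h4
      have := h3.2.1.symm.trans h4.2.1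
      simp at this
    rw [Finset.sum_union hdisj, ← h2, Finset.mul_sum]
    congr 1
    · refine Finset.sum_congr rfl fun l hl => ?_
      rw [hJf, Finset.mem_filter] at hl
      rw [hl.2.1]
      show A l * α ^ 0 = A l
      rw [pow_zero, mul_one]
    · refine Finset.sum_congr rfl fun l hl => ?_
      rw [hJt, Finset.mem_filter] at hl
      rw [hl.2.1]
      show A l * α ^ 1 = α * A l
      rw [pow_one, mul_comm]

end Pool.Agent.TH53.BL
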