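import Mathlib
import Pool.Agent.TH53.RP8
import Pool.Agent.TH53.BL6
import Pool.Agent.TH53.BL9

set_option autoImplicit false
set_option linter.unusedVariables false

/-!
# Quotients of sums of few terms
-/

namespace Pool.Agent.TH53.BL

open IntermediateField
open Pool.Agent.W237.RK
open Pool.Agent.H58P (Qb ht)
open Pool.Agent.H58R (ht_nonneg ht_mul_le ht_inv ht_zpow ht_prod_le)
open Pool.Agent.TH53.RP

/-- the number of conjugates of a quotient -/
theorem orb_bound2 {n : ℕ} (F : GF) (A : Fin n → Qb) (χ : Fin n → (fixG F →* Qb))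
    (ε : Fin n → Bool) (hinj : ∀ i j, ε i = ε j → χ i = χ j → i = j) (hA0 : ∀ j, A j ≠ 0)
    (hA : ∀ j (σ : fixG F), σ.1 (A j) = A j * χ j σ) (α : Qb)
    (hrel : ∑ j, A j * α ^ ex (ε j) = 0) (base : Bool → Fin n) (hbase : ∀ e, ε (base e) = e)
    (γ : Bool → Qb) (hγ0 : ∀ e, γ e ≠ 0) (hγ : ∀ e (σ : fixG F), σ.1 (γ e) = γ e * χ (base e) σ)
    (q : ℕ) (hq : 0 < q) (h : ∀ j g, χ j g ^ q = χ (base (ε j)) g ^ q) :
    (orb F (α / (γ false / γ true))).ncard ≤ q ^ n := by
  classical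
  set Z : Finset (Fin n → Qb) := Fintype.piFinset fun _ => Polynomial.nthRootsFinset q (1 : Qb)
    with hZ
  have hZc : Z.card ≤ q ^ n := by
    rw [hZ, Fintype.card_piFinset, Finset.prod_const, Finset.card_univ, Fintype.card_fin]
    apply Nat.pow_le_pow_left
    exact (Multiset.toFinset_card_le _).trans (Polynomial.card_nthRoots q 1)
  set Φ : (Fin n → Qb) → Qb := fun s => -((∑ j with ε j = false, A j * s j) /
    (∑ j with ε j = true, A j * s j)) * (γ true / γ false) with hΦ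
  have hsub : orb F (α / (γ false / γ true)) ⊆ (Z.image Φ : Finset Qb) := by
    rintro _ ⟨σ', hσ', rfl⟩
    set σ : fixG F := ⟨σ', hσ'⟩ with hσ
    have hσσ : σ' = σ.1 := rfl
    rw [hσσ, Finset.mem_coe, Finset.mem_image]
    refine ⟨fun j => χ j σ / χ (base (ε j)) σ, ?_, ?_⟩
    · rw [hZ, Fintype.mem_piFinset]
      intro j
      rw [Polynomial.mem_nthRootsFinset hq, div_pow, h j, div_self]
      exact pow_ne_zero _ (char_ne_zero _ _)
    · have h0 : (∑ j with ε j = false, A j * χ j σ) +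
          σ.1 α * ∑ j with ε j = true, A j * χ j σ = 0 := by
        rw [← block_split ε (fun j => A j * χ j σ) (σ.1 α)]
        have h := congrArg σ.1 hrel
        rw [map_sum, map_zero] at h
        rw [← h]
        refine Finset.sum_congr rfl fun j _ => ?_
        rw [map_mul, map_pow, hA j σ]
      have hbt := block_ne F A χ ε hinj hA0 hA (Finset.univ.filter fun j => ε j = true)
        ⟨base true, Finset.mem_filter.mpr ⟨Finset.mem_univ _, hbase true⟩⟩ true
        (fun j hj => (Finset.mem_filter.mp hj).2)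
      have hbt' : (∑ j with ε j = true, A j * χ j σ) ≠ 0 := by
        rw [← apply_sum F A χ hA]
        exact (map_ne_zero σ.1).mpr hbt
      have hblock : ∀ e, (∑ j with ε j = e, A j * χ j σ) =
          χ (base e) σ * ∑ j with ε j = e, A j * (χ j σ / χ (base (ε j)) σ) := by
        intro e
        rw [Finset.mul_sum]
        refine Finset.sum_congr rfl fun j hj => ?_
        rw [(Finset.mem_filter.mp hj).2]
        have := char_ne_zero (χ (base e)) σ
        field_simp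
      have hcf := char_ne_zero (χ (base false)) σ
      have hct := char_ne_zero (χ (base true)) σ
      have h1 : (∑ j with ε j = true, A j * (χ j σ / χ (base (ε j)) σ)) ≠ 0 := by
        intro h2
        apply hbt'
        rw [hblock, h2, mul_zero]
      rw [hblock false, hblock true] at h0
      set Sf := ∑ j with ε j = false, A j * (χ j σ / χ (base (ε j)) σ) with hSf
      set St := ∑ j with ε j = true, A j * (χ j σ / χ (base (ε j)) σ) with hSt
      have h2 : σ.1 α = -(χ (base false) σ * Sf) / (χ (base true) σ * St) := by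
        rw [eq_div_iff (mul_ne_zero hct h1)]
        exact eq_neg_of_add_eq_zero_right h0
      show -(Sf / St) * (γ true / γ false) = σ.1 (α / (γ false / γ true))
      rw [map_div₀, map_div₀, hγ, hγ, h2]
      have a1 := hγ0 true
      have a2 := hγ0 false
      field_simp
  calc (orb F (α / (γ false / γ true))).ncard ≤ ((Z.image Φ : Finset Qb) : Set Qb).ncard :=
        Set.ncard_le_ncard hsub (Finset.finite_toSet _)
    _ = (Z.image Φ).card := Set.ncard_coe_finset _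
    _ ≤ Z.card := Finset.card_image_le
    _ ≤ q ^ n := hZc

/-- the dependence on the number of terms -/
def B2 (n : ℕ) : ℕ := (2 ^ (n ^ 2 + 1) * (2 * n.factorial)) ^ (n * (n + 1))

lemma B2_pos (n : ℕ) : 0 < B2 n := by
  unfold B2
  positivity

lemma B2_mono {k k' : ℕ} (h : k' ≤ k) : B2 k' ≤ B2 k := by
  unfold B2
  have h1 : k'.factorial ≤ k.factorial := Nat.factorial_le h
  have h2 : k' * (k' + 1) ≤ k * (k + 1) := Nat.mul_le_mul h (by omega)
  have h3 : 2 ^ (k' ^ 2 + 1) ≤ 2 ^ (k ^ 2 + 1) :=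
    Nat.pow_le_pow_right (by norm_num) (by nlinarith)
  calc (2 ^ (k' ^ 2 + 1) * (2 * k'.factorial)) ^ (k' * (k' + 1))
      ≤ (2 ^ (k ^ 2 + 1) * (2 * k.factorial)) ^ (k' * (k' + 1)) := by gcongr
    _ ≤ _ := Nat.pow_le_pow_right (by positivity) h2

lemma B2_bound1 {n p : ℕ} (hn : 0 < n) (hp : p ≤ 2 ^ (n ^ 2 + 1) * (2 * n.factorial)) :
    2 * (p * n ^ 2) ≤ B2 n := by
  set M := 2 ^ (n ^ 2 + 1) * (2 * n.factorial) with hM
  have h1 : 2 * n ^ 2 ≤ M := by
    have h2 : n ^ 2 + 1 < 2 ^ (n ^ 2 + 1) := Nat.lt_two_pow_self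
    have h3 : 1 ≤ n.factorial := Nat.factorial_pos n
    rw [hM]
    nlinarith
  have h2 : 2 * (p * n ^ 2) ≤ M ^ 2 := by
    calc 2 * (p * n ^ 2) = p * (2 * n ^ 2) := by ring
      _ ≤ M * M := Nat.mul_le_mul hp h1
      _ = M ^ 2 := by ring
  refine h2.trans ?_
  unfold B2
  rw [← hM]
  apply Nat.pow_le_pow_right (by positivity)
  nlinarith

lemma B2_bound2 {n p q : ℕ} (hp : p ≤ 2 ^ (n ^ 2 + 1) * (2 * n.factorial))
    (hq : q ≤ n.factorial * p ^ n) : q ^ n ≤ B2 n := by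
  set M := 2 ^ (n ^ 2 + 1) * (2 * n.factorial) with hM
  have h1 : n.factorial ≤ M := by
    have h3 : 1 ≤ 2 ^ (n ^ 2 + 1) := Nat.one_le_two_pow
    rw [hM]
    nlinarith
  have h2 : q ≤ M ^ (n + 1) := by
    calc q ≤ n.factorial * p ^ n := hq
      _ ≤ M * M ^ n := by gcongr
      _ = _ := by ring
  calc q ^ n ≤ (M ^ (n + 1)) ^ n := Nat.pow_le_pow_left h2 n
    _ = B2 n := by rw [← pow_mul, B2, ← hM, mul_comm (n + 1) n]

/-- **small elements satisfying a linear relation with eigenvectors** -/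
theorem rec_bound (F : GF) (Γ : Subgroup Qbˣ) (hF : ∀ x : Qb, Tor x → x ∈ F)
    (hΓ : ∀ g ∈ Γ, (g : Qb) ∈ F) (α : Qb) (hα : α ≠ 0) :
    ∀ (n : ℕ) (A : Fin n → Qb) (χ : Fin n → (fixG F →* Qb)) (ε : Fin n → Bool), 0 < n →
      (∀ i j, ε i = ε j → χ i = χ j → i = j) → (∀ j, A j ≠ 0) →
      (∀ j (σ : fixG F), σ.1 (A j) = A j * χ j σ) →
      (∀ j, ∃ γ, DivG Γ γ ∧ ∀ σ : fixG F, σ.1 γ = γ * χ j σ) →
      ∑ j, A j * α ^ ex (ε j) = 0 →
      ((B2 n : ℕ) : ℝ)⁻¹ ≤ ht α ∨ ∃ γ₀, DivG Γ γ₀ ∧ (orb F (α / γ₀)).ncard ≤ B2 n := by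
  classical
  intro n
  induction n using Nat.strong_induction_on with
  | _ n ih =>
  intro A χ ε hn hinj hA0 hA hdiv hrel
  have hTor : ∀ j σ, Tor (χ j σ) := by
    intro j σ
    obtain ⟨γ, hγ, h⟩ := hdiv j
    have hγ0 := Pool.Agent.TH53.RP.DivG.ne_zero hγ
    have h1 := tor_ratio hΓ hγ0 hγ σ.2
    rw [h σ, mul_div_cancel_left₀ _ hγ0] at h1
    exact h1
  have hrel' : (∑ j with ε j = false, A j) + α * ∑ j with ε j = true, A j = 0 := by
    rw [← block_split ε A α, hrel]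
  -- both blocks are nonempty
  have hblk : ∀ e, ∃ j, ε j = e := by
    by_contra hcon
    push Not at hcon
    obtain ⟨e, he⟩ := hcon
    have hall : ∀ j, ε j = !e := by
      intro j
      have := he j
      revert this
      cases ε j <;> cases e <;> simp
    have hfil : (Finset.univ.filter fun j => ε j = e) = ∅ := by
      rw [Finset.filter_eq_empty_iff]
      intro j _
      exact he j
    have hne := block_ne F A χ ε hinj hA0 hA (Finset.univ.filter fun j => ε j = !e)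
      ⟨⟨0, hn⟩, Finset.mem_filter.mpr ⟨Finset.mem_univ _, hall _⟩⟩ (!e)
      (fun j hj => (Finset.mem_filter.mp hj).2)
    cases e
    · rw [hfil, Finset.sum_empty, zero_add, mul_eq_zero] at hrel'
      exact hne (hrel'.resolve_left hα)
    · rw [hfil, Finset.sum_empty, mul_zero, add_zero] at hrel'
      exact hne hrel'
  choose base hbase using hblk
  have hfac : 1 ≤ n.factorial := Nat.factorial_pos n
  have hnf : n ≤ n.factorial := Nat.self_le_factorial n
  obtain ⟨p, hp, hp1, hp2, hpinj⟩ := good_prime χ (fun j g => char_ne_zero (χ j) g)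
    (2 * n.factorial) (by positivity)
  by_cases hsmall : (p : ℝ) * ((n : ℝ) ^ 2 * ht α) < Real.log ((p : ℝ) / n.factorial)
  · obtain ⟨A', hA'0, hA'⟩ := dependency F A χ ε ⟨⟨0, hn⟩, hA0 _⟩ hA hTor α hrel p hp (by omega)
      hsmall
    rcases dichotomy2 χ ε base hbase (fun j g => char_ne_zero (χ j) g) p hp.pos with
      ⟨w, hw, hc⟩ | ⟨q, hq0, hq1, hq2⟩
    · obtain ⟨J, hJ, hJu, hJr⟩ := smaller F A χ ε hinj hA0 hA α hα hrel (base false) (base true)
        (hbase false) (hbase true) p hp (by omega) (by omega)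
        (fun i j h1 h2 => hinj i j h1 (hpinj i j h2)) A' hA'0 hA' w hw hc
      have hcard : J.card < n := by
        have h1 := Finset.card_lt_univ_of_notMem (s := J)
          (Classical.choose_spec (by
            by_contra hcon
            push Not at hcon
            exact hJu (Finset.eq_univ_iff_forall.mpr hcon) : ∃ x, x ∉ J))
        simpa using h1
      set e : Fin J.card ≃ J := J.equivFin.symm with he
      have h1 := ih J.card hcard (fun i => A (e i)) (fun i => χ (e i)) (fun i => ε (e i))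
        (Finset.card_pos.mpr hJ) (fun i j h2 h3 => e.injective (Subtype.ext (hinj _ _ h2 h3)))
        (fun i => hA0 _) (fun i σ => hA _ σ) (fun i => hdiv _) (by
          have h2 := Equiv.sum_comp e (fun x : J => A x * α ^ ex (ε x))
          rw [h2, Finset.sum_coe_sort J (fun x => A x * α ^ ex (ε x))]
          exact hJr)
      have hBm := B2_mono hcard.le
      rcases h1 with h1 | ⟨γ₀, h2, h3⟩
      · left
        refine le_trans ?_ h1
        apply inv_anti₀
        · exact_mod_cast B2_pos _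
        · exact_mod_cast hBm
      · exact Or.inr ⟨γ₀, h2, h3.trans hBm⟩
    · right
      choose γ hγ1 hγ2 using fun e => hdiv (base e)
      have hγ0 : ∀ e, γ e ≠ 0 := fun e => Pool.Agent.TH53.RP.DivG.ne_zero (hγ1 e)
      refine ⟨γ false / γ true, ?_, ?_⟩
      · rw [div_eq_mul_inv]
        exact Pool.Agent.W237.RK.DivG.mul (hγ1 false) (DivG.inv (hγ1 true))
      · exact (orb_bound2 F A χ ε hinj hA0 hA α hrel base hbase γ hγ0 hγ2 q hq0 hq2).trans
          (B2_bound2 hp2 hq1)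
  · left
    push Not at hsmall
    have hf0 : (0 : ℝ) < n.factorial := by exact_mod_cast Nat.factorial_pos _
    have h1 : Real.log 2 ≤ Real.log ((p : ℝ) / n.factorial) := by
      apply Real.log_le_log (by norm_num)
      rw [le_div_iff₀ hf0]
      exact_mod_cast hp1.le
    have h2 : (1 : ℝ) / 2 < Real.log 2 := by
      have := Real.log_two_gt_d9
      linarith
    have h3 : (1 : ℝ) / 2 ≤ (p : ℝ) * ((n : ℝ) ^ 2 * ht α) := by linarith
    have h4 : ((2 * (p * n ^ 2) : ℕ) : ℝ) ≤ (B2 n : ℕ) := by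
      exact_mod_cast B2_bound1 hn hp2
    push_cast at h4
    have h5 : (0 : ℝ) < B2 n := by exact_mod_cast B2_pos n
    rw [inv_le_iff_one_le_mul₀ h5]
    have h6 := ht_nonneg α
    nlinarith [mul_le_mul_of_nonneg_left h4 h6]

/-- grouping of the terms -/
theorem grouping (F : GF) (Γ : Subgroup Qbˣ) (hF : ∀ x : Qb, Tor x → x ∈ F)
    (hΓ : ∀ g ∈ Γ, (g : Qb) ∈ F) {k : ℕ} (b γ : Fin k → Qb) (hb : ∀ j, b j ∈ F)
    (hγ : ∀ j, DivG Γ (γ j)) :
    ∃ (S : Finset (fixG F →* Qb)) (a : (fixG F →* Qb) → Qb), S.card ≤ k ∧ (∀ ψ ∈ S, a ψ ≠ 0) ∧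
      (∀ ψ (σ : fixG F), σ.1 (a ψ) = a ψ * ψ σ) ∧
      (∀ ψ ∈ S, ∃ γ, DivG Γ γ ∧ ∀ σ : fixG F, σ.1 γ = γ * ψ σ) ∧
      ∑ j, b j * γ j = ∑ ψ ∈ S, a ψ := by
  classical
  have hγ0 : ∀ j, γ j ≠ 0 := fun j => Pool.Agent.TH53.RP.DivG.ne_zero (hγ j)
  let χ : Fin k → (fixG F →* Qb) := fun j => kum F hF (γ j) (hγ0 j) fun σ =>
    tor_ratio hΓ (hγ0 j) (hγ j) σ.2
  have hχ : ∀ j (σ : fixG F), σ.1 (γ j) = γ j * χ j σ := by
    intro j σ
    have h1 : χ j σ = σ.1 (γ j) / γ j := rfl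
    rw [h1, mul_div_cancel₀ _ (hγ0 j)]
  let a : (fixG F →* Qb) → Qb := fun ψ => ∑ j ∈ Finset.univ.filter (fun j => χ j = ψ), b j * γ j
  refine ⟨(Finset.univ.image χ).filter (fun ψ => a ψ ≠ 0), a, ?_, ?_, ?_, ?_, ?_⟩
  · calc ((Finset.univ.image χ).filter (fun ψ => a ψ ≠ 0)).card ≤ (Finset.univ.image χ).card :=
          Finset.card_filter_le _ _
      _ ≤ (Finset.univ : Finset (Fin k)).card := Finset.card_image_le
      _ = k := by simp
  · exact fun ψ hψ => (Finset.mem_filter.mp hψ).2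
  · intro ψ σ
    show σ.1 (∑ j ∈ Finset.univ.filter (fun j => χ j = ψ), b j * γ j) =
      (∑ j ∈ Finset.univ.filter (fun j => χ j = ψ), b j * γ j) * ψ σ
    rw [map_sum, Finset.sum_mul]
    refine Finset.sum_congr rfl fun j hj => ?_
    rw [Finset.mem_filter] at hj
    rw [map_mul, hχ j σ, σ.2 _ (hb j), hj.2, mul_assoc]
  · intro ψ hψ
    obtain ⟨l, -, hl⟩ := Finset.mem_image.mp (Finset.mem_filter.mp hψ).1
    exact ⟨γ l, hγ l, fun σ => by rw [hχ l σ, hl]⟩
  · rw [Finset.sum_filter_ne_zero]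
    exact (Finset.sum_fiberwise_of_maps_to (fun j _ => Finset.mem_image_of_mem χ (Finset.mem_univ j))
      (fun j => b j * γ j)).symm

theorem step2 (F : GF) (Γ : Subgroup Qbˣ) (hF : ∀ x : Qb, Tor x → x ∈ F)
    (hΓ : ∀ g ∈ Γ, (g : Qb) ∈ F) {k l : ℕ} (b γ : Fin k → Qb) (b' γ' : Fin l → Qb)
    (hb : ∀ j, b j ∈ F) (hγ : ∀ j, DivG Γ (γ j)) (hb' : ∀ j, b' j ∈ F)
    (hγ' : ∀ j, DivG Γ (γ' j)) (α : Qb) (hα : α * ∑ j, b' j * γ' j = ∑ j, b j * γ j)
    (hα0 : α ≠ 0) (hQ : ∑ j, b' j * γ' j ≠ 0) :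
    ((B2 (k + l) : ℕ) : ℝ)⁻¹ ≤ ht α ∨ ∃ γ₀, DivG Γ γ₀ ∧ (orb F (α / γ₀)).ncard ≤ B2 (k + l) := by
  classical
  obtain ⟨S, a, hS, ha0, ha, hdiv, hsum⟩ := grouping F Γ hF hΓ b γ hb hγ
  obtain ⟨S', a', hS', ha0', ha', hdiv', hsum'⟩ := grouping F Γ hF hΓ b' γ' hb' hγ'
  set n := Fintype.card (S ⊕ S') with hn
  have hnk : n ≤ k + l := by
    rw [hn, Fintype.card_sum, Fintype.card_coe, Fintype.card_coe]
    omega
  have hn0 : 0 < n := by
    rw [hn, Fintype.card_sum, Fintype.card_coe, Fintype.card_coe]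
    have : 0 < S'.card := by
      rw [Finset.card_pos]
      by_contra hcon
      rw [Finset.not_nonempty_iff_eq_empty] at hcon
      rw [hcon, Finset.sum_empty] at hsum'
      exact hQ hsum'
    omega
  set e : Fin n ≃ S ⊕ S' := (Fintype.equivFin (S ⊕ S')).symm with he
  let A : S ⊕ S' → Qb := Sum.elim (fun ψ => a ψ) (fun ψ => -(a' ψ))
  let χ : S ⊕ S' → (fixG F →* Qb) := Sum.elim (fun ψ => ψ) (fun ψ => ψ)
  let ε : S ⊕ S' → Bool := Sum.elim (fun _ => false) (fun _ => true)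
  have h := rec_bound F Γ hF hΓ α hα0 n (fun i => A (e i)) (fun i => χ (e i)) (fun i => ε (e i)) hn0
    (by
      intro i j h1 h2
      apply e.injective
      revert h1 h2
      rcases e i with x | x <;> rcases e j with y | y <;> intro h1 h2
      · exact congrArg Sum.inl (Subtype.ext h2)
      · exact absurd h1 (by simp [ε])
      · exact absurd h1 (by simp [ε])
      · exact congrArg Sum.inr (Subtype.ext h2))
    (by
      intro i
      rcases e i with x | x
      · exact ha0 x x.2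
      · exact neg_ne_zero.mpr (ha0' x x.2))
    (by
      intro i σ
      rcases e i with x | x
      · exact ha x σ
      · show σ.1 (-(a' x)) = -(a' x) * (x : fixG F →* Qb) σ
        rw [map_neg, ha' x σ]
        ring)
    (by
      intro i
      rcases e i with x | x
      · exact hdiv x x.2
      · exact hdiv' x x.2)
    (by
      have h2 := Equiv.sum_comp e (fun x : S ⊕ S' => A x * α ^ ex (ε x))
      rw [h2, Fintype.sum_sum_type]
      have h3 : ∑ x : S, A (Sum.inl x) * α ^ ex (ε (Sum.inl x)) = ∑ j, b j * γ j := by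
        rw [hsum, ← Finset.sum_coe_sort S (fun ψ => a ψ)]
        refine Finset.sum_congr rfl fun x _ => ?_
        show a x * α ^ 0 = a x
        rw [pow_zero, mul_one]
      have h4 : ∑ x : S', A (Sum.inr x) * α ^ ex (ε (Sum.inr x)) = -(α * ∑ j, b' j * γ' j) := by
        rw [hsum', ← Finset.sum_coe_sort S' (fun ψ => a' ψ), Finset.mul_sum,
          ← Finset.sum_neg_distrib]
        refine Finset.sum_congr rfl fun x _ => ?_
        show -(a' x) * α ^ 1 = -(α * a' x)
        ring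
      rw [h3, h4, hα]
      ring)
  have hBm := B2_mono hnk
  rcases h with h1 | ⟨γ₀, h2, h3⟩
  · left
    refine le_trans ?_ h1
    apply inv_anti₀
    · exact_mod_cast B2_pos _
    · exact_mod_cast hBm
  · exact Or.inr ⟨γ₀, h2, h3.trans hBm⟩

/-- the main estimate for quotients -/
theorem main2 (Γ : Subgroup Qbˣ) (hΓfg : Γ.FG) : ∃ A : ℕ, 0 < A ∧
    ∀ (k l D : ℕ) (E : IntermediateField cyc Qb), FiniteDimensional cyc E →
      Module.finrank cyc E ≤ D → ∀ (b γ : Fin k → Qb) (b' γ' : Fin l → Qb),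
      (∀ j, b j ∈ E) → (∀ j, DivG Γ (γ j)) → (∀ j, b' j ∈ E) → (∀ j, DivG Γ (γ' j)) →
      ∀ α : Qb, α * ∑ j, b' j * γ' j = ∑ j, b j * γ j → ∑ j, b' j * γ' j ≠ 0 → α ≠ 0 →
      ¬ DivG Γ α → lowc A (D * B2 (k + l)) ≤ ht α := by
  obtain ⟨S, hS⟩ := id hΓfg
  set T : Set Qb := (fun u : Qbˣ => (u : Qb)) '' (S : Set Qbˣ) with hT
  have hTf : Finite T := (S.finite_toSet.image _)
  set K : GF := IntermediateField.adjoin ℚ T with hK
  have hKfd : FiniteDimensional ℚ K :=
    IntermediateField.finiteDimensional_adjoin fun x _ => Pool.Agent.H58P.qb_isIntegral x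
  have hΓK : ∀ g ∈ Γ, (g : Qb) ∈ K := by
    intro g hg
    rw [← hS] at hg
    induction hg using Subgroup.closure_induction with
    | mem x hx => exact IntermediateField.subset_adjoin _ _ ⟨x, hx, rfl⟩
    | one => exact one_mem K
    | mul x y _ _ hx hy => rw [Units.val_mul]; exact mul_mem hx hy
    | inv x _ hx => rw [Units.val_inv_eq_inv_val]; exact inv_mem hx
  obtain ⟨A, hA, hmain⟩ := dist' K Γ hKfd hΓfg hΓK ∅ (by simp)
  refine ⟨A, hA, ?_⟩
  intro k l D E hE hD b γ b' γ' hb hγ hb' hγ' α hα hQ hα0 hnd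
  set L : GF := fullField K Γ ∅ with hL
  set F : GF := L ⊔ E.restrictScalars ℚ with hF
  have hTorL : ∀ x : Qb, Tor x → x ∈ L := fun x hx => kinf_le_fullField K Γ ∅ (tor_mem_kinf K hx)
  have hcyc : cyc ≤ L := by
    rw [cyc, IntermediateField.adjoin_le_iff]
    intro y hy
    exact hTorL y hy
  have hLF : L ≤ F := le_sup_left
  have hEF : E.restrictScalars ℚ ≤ F := le_sup_right
  have hD0 : 0 < D := lt_of_lt_of_le Module.finrank_pos hD
  have hDB : 0 < D * B2 (k + l) := Nat.mul_pos hD0 (B2_pos _)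
  rcases step2 F Γ (fun x hx => hLF (hTorL x hx)) (fun g hg => hLF (le_fullField K Γ ∅ (hΓK g hg)))
    b γ b' γ' (fun j => hEF (hb j)) hγ (fun j => hEF (hb' j)) hγ' α hα hα0 hQ with h | h
  · refine le_trans ?_ h
    unfold lowc
    have h1 : (0 : ℝ) < B2 (k + l) := by exact_mod_cast B2_pos _
    apply inv_anti₀ h1
    have h2 : (1 : ℝ) ≤ A := by exact_mod_cast hA
    have h3 : ((B2 (k + l) : ℕ) : ℝ) ≤ ((D * B2 (k + l) : ℕ) : ℝ) := by
      exact_mod_cast Nat.le_mul_of_pos_left _ hD0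
    have h4 : (1 : ℝ) ≤ ((D * B2 (k + l) : ℕ) : ℝ) := by exact_mod_cast hDB
    calc ((B2 (k + l) : ℕ) : ℝ) ≤ ((D * B2 (k + l) : ℕ) : ℝ) := h3
      _ = ((D * B2 (k + l) : ℕ) : ℝ) ^ 1 := (pow_one _).symm
      _ ≤ ((D * B2 (k + l) : ℕ) : ℝ) ^ A := pow_le_pow_right₀ h4 hA
      _ ≤ A * ((D * B2 (k + l) : ℕ) : ℝ) ^ A := le_mul_of_one_le_left (by positivity) h2
  · obtain ⟨γ₀, hγ₀, horb⟩ := h
    have hγ₀0 : γ₀ ≠ 0 := Pool.Agent.TH53.RP.DivG.ne_zero hγ₀
    have h1 : (orb L (α / γ₀)).ncard ≤ D * B2 (k + l) := by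
      refine (orb_ext L hcyc E (α / γ₀)).trans ?_
      exact Nat.mul_le_mul hD horb
    have h2 := hmain (D * B2 (k + l)) hDB (α / γ₀) (div_ne_zero hα0 hγ₀0) h1 (by
      intro hcon
      apply hnd
      have := hcon.mul hγ₀
      rwa [div_mul_cancel₀ _ hγ₀0] at this) γ₀⁻¹ (DivG.inv hγ₀)
    rwa [div_inv_eq_mul, div_mul_cancel₀ _ hγ₀0] at h2

end Pool.Agent.TH53.BL
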