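import Mathlib
import Pool.Agent.TH53.BL10

set_option autoImplicit false
set_option linter.unusedVariables false

/-!
# Quotients of sums of radicals
-/

namespace Pool.Agent.TH53.BL

open IntermediateField
open Pool.Agent.W237.RK
open Pool.Agent.H58P (Qb ht)
open Pool.Agent.H58R (ht_nonneg ht_mul_le ht_inv ht_zpow ht_prod_le)
open Pool.Agent.TH53.RP

/-- a nonzero radical over `F` -/
def Rad (F : GF) (θ : Qb) : Prop := θ ≠ 0 ∧ ∃ m : ℕ, 0 < m ∧ θ ^ m ∈ F

lemma Rad.tor {F : GF} {θ : Qb} (h : Rad F θ) (σ : fixG F) : Tor (σ.1 θ / θ) := by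
  obtain ⟨h0, m, hm, h1⟩ := h
  refine ⟨m, hm, ?_⟩
  rw [div_pow, ← map_pow, σ.2 _ h1, div_self (pow_ne_zero _ h0)]

lemma Rad.div {F : GF} {θ θ' : Qb} (h : Rad F θ) (h' : Rad F θ') : Rad F (θ / θ') := by
  obtain ⟨h0, m, hm, h1⟩ := h
  obtain ⟨h0', m', hm', h1'⟩ := h'
  refine ⟨div_ne_zero h0 h0', m * m', Nat.mul_pos hm hm', ?_⟩
  rw [div_pow, pow_mul θ, mul_comm m m', pow_mul θ']
  exact div_mem (pow_mem h1 _) (pow_mem h1' _)

lemma Rad.pow {F : GF} {θ : Qb} (h : Rad F θ) (n : ℕ) : Rad F (θ ^ n) := by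
  obtain ⟨h0, m, hm, h1⟩ := h
  refine ⟨pow_ne_zero _ h0, m, hm, ?_⟩
  rw [← pow_mul, mul_comm, pow_mul]
  exact pow_mem h1 _

theorem rec_bound' (F : GF) (hF : ∀ x : Qb, Tor x → x ∈ F) (α : Qb) (hα : α ≠ 0) :
    ∀ (n : ℕ) (A : Fin n → Qb) (χ : Fin n → (fixG F →* Qb)) (ε : Fin n → Bool), 0 < n →
      (∀ i j, ε i = ε j → χ i = χ j → i = j) → (∀ j, A j ≠ 0) →
      (∀ j (σ : fixG F), σ.1 (A j) = A j * χ j σ) →
      (∀ j, ∃ γ, Rad F γ ∧ ∀ σ : fixG F, σ.1 γ = γ * χ j σ) →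
      ∑ j, A j * α ^ ex (ε j) = 0 →
      ((B2 n : ℕ) : ℝ)⁻¹ ≤ ht α ∨ ∃ γ₀, Rad F γ₀ ∧ (orb F (α / γ₀)).ncard ≤ B2 n := by
  classical
  intro n
  induction n using Nat.strong_induction_on with
  | _ n ih =>
  intro A χ ε hn hinj hA0 hA hdiv hrel
  have hTor : ∀ j σ, Tor (χ j σ) := by
    intro j σ
    obtain ⟨γ, hγ, h⟩ := hdiv j
    have h1 := hγ.tor σ
    rw [h σ, mul_div_cancel_left₀ _ hγ.1] at h1
    exact h1
  have hrel' : (∑ j with ε j = false, A j) + α * ∑ j with ε j = true, A j = 0 := by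
    rw [← block_split ε A α, hrel]
  have hblk : ∀ e, ∃ j, ε j = e := by
    by_contra hcon
    push Not at hcon
    obtain ⟨e, he⟩ := hcon
    have hall : ∀ j, ε j = !e := by
      intro j
      have := he j
      revert this
      cases ε j <;> cases e <;> simp
    have hfil : (Finset.univ.filter fun j => ε j = e) = ∅ := by
      rw [Finset.filter_eq_empty_iff]
      intro j _
      exact he j
    have hne := block_ne F A χ ε hinj hA0 hA (Finset.univ.filter fun j => ε j = !e)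
      ⟨⟨0, hn⟩, Finset.mem_filter.mpr ⟨Finset.mem_univ _, hall _⟩⟩ (!e)
      (fun j hj => (Finset.mem_filter.mp hj).2)
    cases e
    · rw [hfil, Finset.sum_empty, zero_add, mul_eq_zero] at hrel'
      exact hne (hrel'.resolve_left hα)
    · rw [hfil, Finset.sum_empty, mul_zero, add_zero] at hrel'
      exact hne hrel'
  choose base hbase using hblk
  have hfac : 1 ≤ n.factorial := Nat.factorial_pos n
  have hnf : n ≤ n.factorial := Nat.self_le_factorial n
  obtain ⟨p, hp, hp1, hp2, hpinj⟩ := good_prime χ (fun j g => char_ne_zero (χ j) g)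
    (2 * n.factorial) (by positivity)
  by_cases hsmall : (p : ℝ) * ((n : ℝ) ^ 2 * ht α) < Real.log ((p : ℝ) / n.factorial)
  · obtain ⟨A', hA'0, hA'⟩ := dependency F A χ ε ⟨⟨0, hn⟩, hA0 _⟩ hA hTor α hrel p hp (by omega)
      hsmall
    rcases dichotomy2 χ ε base hbase (fun j g => char_ne_zero (χ j) g) p hp.pos with
      ⟨w, hw, hc⟩ | ⟨q, hq0, hq1, hq2⟩
    · obtain ⟨J, hJ, hJu, hJr⟩ := smaller F A χ ε hinj hA0 hA α hα hrel (base false) (base true)
        (hbase false) (hbase true) p hp (by omega) (by omega)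
        (fun i j h1 h2 => hinj i j h1 (hpinj i j h2)) A' hA'0 hA' w hw hc
      have hcard : J.card < n := by
        have h1 := Finset.card_lt_univ_of_notMem (s := J)
          (Classical.choose_spec (by
            by_contra hcon
            push Not at hcon
            exact hJu (Finset.eq_univ_iff_forall.mpr hcon) : ∃ x, x ∉ J))
        simpa using h1
      set e : Fin J.card ≃ J := J.equivFin.symm with he
      have h1 := ih J.card hcard (fun i => A (e i)) (fun i => χ (e i)) (fun i => ε (e i))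
        (Finset.card_pos.mpr hJ) (fun i j h2 h3 => e.injective (Subtype.ext (hinj _ _ h2 h3)))
        (fun i => hA0 _) (fun i σ => hA _ σ) (fun i => hdiv _) (by
          have h2 := Equiv.sum_comp e (fun x : J => A x * α ^ ex (ε x))
          rw [h2, Finset.sum_coe_sort J (fun x => A x * α ^ ex (ε x))]
          exact hJr)
      have hBm := B2_mono hcard.le
      rcases h1 with h1 | ⟨γ₀, h2, h3⟩
      · left
        refine le_trans ?_ h1
        apply inv_anti₀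
        · exact_mod_cast B2_pos _
        · exact_mod_cast hBm
      · exact Or.inr ⟨γ₀, h2, h3.trans hBm⟩
    · right
      choose γ hγ1 hγ2 using fun e => hdiv (base e)
      exact ⟨γ false / γ true, (hγ1 false).div (hγ1 true),
        (orb_bound2 F A χ ε hinj hA0 hA α hrel base hbase γ (fun e => (hγ1 e).1) hγ2 q hq0 hq2).trans
          (B2_bound2 hp2 hq1)⟩
  · left
    push Not at hsmall
    have hf0 : (0 : ℝ) < n.factorial := by exact_mod_cast Nat.factorial_pos _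
    have h1 : Real.log 2 ≤ Real.log ((p : ℝ) / n.factorial) := by
      apply Real.log_le_log (by norm_num)
      rw [le_div_iff₀ hf0]
      exact_mod_cast hp1.le
    have h2 : (1 : ℝ) / 2 < Real.log 2 := by
      have := Real.log_two_gt_d9
      linarith
    have h3 : (1 : ℝ) / 2 ≤ (p : ℝ) * ((n : ℝ) ^ 2 * ht α) := by linarith
    have h4 : ((2 * (p * n ^ 2) : ℕ) : ℝ) ≤ (B2 n : ℕ) := by
      exact_mod_cast B2_bound1 hn hp2
    push_cast at h4
    have h5 : (0 : ℝ) < B2 n := by exact_mod_cast B2_pos n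
    rw [inv_le_iff_one_le_mul₀ h5]
    have h6 := ht_nonneg α
    nlinarith [mul_le_mul_of_nonneg_left h4 h6]

/-- grouping of radicals -/
theorem grouping' (F : GF) (hF : ∀ x : Qb, Tor x → x ∈ F) {k : ℕ} (b γ : Fin k → Qb)
    (hb : ∀ j, b j ∈ F) (hγ : ∀ j, Rad F (γ j)) :
    ∃ (S : Finset (fixG F →* Qb)) (a : (fixG F →* Qb) → Qb), S.card ≤ k ∧ (∀ ψ ∈ S, a ψ ≠ 0) ∧
      (∀ ψ (σ : fixG F), σ.1 (a ψ) = a ψ * ψ σ) ∧
      (∀ ψ ∈ S, ∃ j, ∀ σ : fixG F, σ.1 (γ j) = γ j * ψ σ) ∧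
      ∑ j, b j * γ j = ∑ ψ ∈ S, a ψ := by
  classical
  have hγ0 : ∀ j, γ j ≠ 0 := fun j => (hγ j).1
  let χ : Fin k → (fixG F →* Qb) := fun j => kum F hF (γ j) (hγ0 j) fun σ => (hγ j).tor σ
  have hχ : ∀ j (σ : fixG F), σ.1 (γ j) = γ j * χ j σ := by
    intro j σ
    have h1 : χ j σ = σ.1 (γ j) / γ j := rfl
    rw [h1, mul_div_cancel₀ _ (hγ0 j)]
  let a : (fixG F →* Qb) → Qb := fun ψ => ∑ j ∈ Finset.univ.filter (fun j => χ j = ψ), b j * γ j
  refine ⟨(Finset.univ.image χ).filter (fun ψ => a ψ ≠ 0), a, ?_, ?_, ?_, ?_, ?_⟩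
  · calc ((Finset.univ.image χ).filter (fun ψ => a ψ ≠ 0)).card ≤ (Finset.univ.image χ).card :=
          Finset.card_filter_le _ _
      _ ≤ (Finset.univ : Finset (Fin k)).card := Finset.card_image_le
      _ = k := by simp
  · exact fun ψ hψ => (Finset.mem_filter.mp hψ).2
  · intro ψ σ
    show σ.1 (∑ j ∈ Finset.univ.filter (fun j => χ j = ψ), b j * γ j) =
      (∑ j ∈ Finset.univ.filter (fun j => χ j = ψ), b j * γ j) * ψ σ
    rw [map_sum, Finset.sum_mul]
    refine Finset.sum_congr rfl fun j hj => ?_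
    rw [Finset.mem_filter] at hj
    rw [map_mul, hχ j σ, σ.2 _ (hb j), hj.2, mul_assoc]
  · intro ψ hψ
    obtain ⟨l, -, hl⟩ := Finset.mem_image.mp (Finset.mem_filter.mp hψ).1
    exact ⟨l, fun σ => by rw [hχ l σ, hl]⟩
  · rw [Finset.sum_filter_ne_zero]
    exact (Finset.sum_fiberwise_of_maps_to (fun j _ => Finset.mem_image_of_mem χ (Finset.mem_univ j))
      (fun j => b j * γ j)).symm

/-- quotients of sums of radicals -/
theorem step3 (F : GF) (hF : ∀ x : Qb, Tor x → x ∈ F) {k l : ℕ} (θ : Fin k → Qb)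
    (θ' : Fin l → Qb) (hθ : ∀ j, ∃ m : ℕ, 0 < m ∧ θ j ^ m ∈ F)
    (hθ' : ∀ j, ∃ m : ℕ, 0 < m ∧ θ' j ^ m ∈ F) (α : Qb) (hα : α * ∑ j, θ' j = ∑ j, θ j)
    (hα0 : α ≠ 0) (hQ : ∑ j, θ' j ≠ 0) :
    ((B2 (k + l) : ℕ) : ℝ)⁻¹ ≤ ht α ∨ ∃ γ₀, Rad F γ₀ ∧ (orb F (α / γ₀)).ncard ≤ B2 (k + l) := by
  classical
  have hrep : ∀ {k : ℕ} (θ : Fin k → Qb), (∀ j, ∃ m : ℕ, 0 < m ∧ θ j ^ m ∈ F) →
      ∃ b γ : Fin k → Qb, (∀ j, b j ∈ F) ∧ (∀ j, Rad F (γ j)) ∧ ∑ j, θ j = ∑ j, b j * γ j := by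
    intro k θ hθ
    refine ⟨fun j => if θ j = 0 then 0 else 1, fun j => if θ j = 0 then 1 else θ j, ?_, ?_, ?_⟩
    · intro j
      show (if θ j = 0 then (0 : Qb) else 1) ∈ F
      split_ifs
      · exact zero_mem _
      · exact one_mem _
    · intro j
      show Rad F (if θ j = 0 then (1 : Qb) else θ j)
      split_ifs with h
      · exact ⟨one_ne_zero, 1, one_pos, by rw [one_pow]; exact one_mem _⟩
      · exact ⟨h, hθ j⟩
    · refine Finset.sum_congr rfl fun j _ => ?_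
      show θ j = (if θ j = 0 then (0 : Qb) else 1) * (if θ j = 0 then (1 : Qb) else θ j)
      split_ifs with h
      · rw [h, zero_mul]
      · rw [one_mul]
  obtain ⟨b, γ, hb, hγ, hbγ⟩ := hrep θ hθ
  obtain ⟨b', γ', hb', hγ', hbγ'⟩ := hrep θ' hθ'
  obtain ⟨S, a, hS, ha0, ha, hdiv, hsum⟩ := grouping' F hF b γ hb hγ
  obtain ⟨S', a', hS', ha0', ha', hdiv', hsum'⟩ := grouping' F hF b' γ' hb' hγ'
  rw [hbγ, hbγ'] at hα
  rw [hbγ'] at hQ
  set n := Fintype.card (S ⊕ S') with hn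
  have hnk : n ≤ k + l := by
    rw [hn, Fintype.card_sum, Fintype.card_coe, Fintype.card_coe]
    omega
  have hn0 : 0 < n := by
    rw [hn, Fintype.card_sum, Fintype.card_coe, Fintype.card_coe]
    have : 0 < S'.card := by
      rw [Finset.card_pos]
      by_contra hcon
      rw [Finset.not_nonempty_iff_eq_empty] at hcon
      rw [hcon, Finset.sum_empty] at hsum'
      exact hQ hsum'
    omega
  set e : Fin n ≃ S ⊕ S' := (Fintype.equivFin (S ⊕ S')).symm with he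
  let A : S ⊕ S' → Qb := Sum.elim (fun ψ => a ψ) (fun ψ => -(a' ψ))
  let χ : S ⊕ S' → (fixG F →* Qb) := Sum.elim (fun ψ => ψ) (fun ψ => ψ)
  let ε : S ⊕ S' → Bool := Sum.elim (fun _ => false) (fun _ => true)
  have h := rec_bound' F hF α hα0 n (fun i => A (e i)) (fun i => χ (e i)) (fun i => ε (e i)) hn0
    (by
      intro i j h1 h2
      apply e.injective
      revert h1 h2
      rcases e i with x | x <;> rcases e j with y | y <;> intro h1 h2
      · exact congrArg Sum.inl (Subtype.ext h2)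
      · exact absurd h1 (by simp [ε])
      · exact absurd h1 (by simp [ε])
      · exact congrArg Sum.inr (Subtype.ext h2))
    (by
      intro i
      rcases e i with x | x
      · exact ha0 x x.2
      · exact neg_ne_zero.mpr (ha0' x x.2))
    (by
      intro i σ
      rcases e i with x | x
      · exact ha x σ
      · show σ.1 (-(a' x)) = -(a' x) * (x : fixG F →* Qb) σ
        rw [map_neg, ha' x σ]
        ring)
    (by
      intro i
      rcases e i with x | x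
      · obtain ⟨j, hj⟩ := hdiv x x.2
        exact ⟨γ j, hγ j, hj⟩
      · obtain ⟨j, hj⟩ := hdiv' x x.2
        exact ⟨γ' j, hγ' j, hj⟩)
    (by
      have h2 := Equiv.sum_comp e (fun x : S ⊕ S' => A x * α ^ ex (ε x))
      rw [h2, Fintype.sum_sum_type]
      have h3 : ∑ x : S, A (Sum.inl x) * α ^ ex (ε (Sum.inl x)) = ∑ j, b j * γ j := by
        rw [hsum, ← Finset.sum_coe_sort S (fun ψ => a ψ)]
        refine Finset.sum_congr rfl fun x _ => ?_
        show a x * α ^ 0 = a x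
        rw [pow_zero, mul_one]
      have h4 : ∑ x : S', A (Sum.inr x) * α ^ ex (ε (Sum.inr x)) = -(α * ∑ j, b' j * γ' j) := by
        rw [hsum', ← Finset.sum_coe_sort S' (fun ψ => a' ψ), Finset.mul_sum,
          ← Finset.sum_neg_distrib]
        refine Finset.sum_congr rfl fun x _ => ?_
        show -(a' x) * α ^ 1 = -(α * a' x)
        ring
      rw [h3, h4, hα]
      ring)
  have hBm := B2_mono hnk
  rcases h with h1 | ⟨γ₀, h2, h3⟩
  · left
    refine le_trans ?_ h1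
    apply inv_anti₀
    · exact_mod_cast B2_pos _
    · exact_mod_cast hBm
  · exact Or.inr ⟨γ₀, h2, h3.trans hBm⟩

/-- the field generated by the division group -/
noncomputable def divF (Γ : Subgroup Qbˣ) : GF := IntermediateField.adjoin ℚ {y | DivG Γ y}

/-- elements of `F(Γ_div)` are sums of terms `b γ` -/
lemma span_form (F : GF) (Γ : Subgroup Qbˣ) (x : Qb) (hx : x ∈ F ⊔ divF Γ) :
    ∃ (k : ℕ) (b γ : Fin k → Qb), (∀ j, b j ∈ F) ∧ (∀ j, DivG Γ (γ j)) ∧
      x = ∑ j, b j * γ j := by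
  classical
  set S : Set Qb := {y | DivG Γ y} with hS
  have h1 : F ⊔ divF Γ ≤ (IntermediateField.adjoin F S).restrictScalars ℚ := by
    apply sup_le
    · intro y hy
      exact (IntermediateField.adjoin F S).algebraMap_mem ⟨y, hy⟩
    · rw [divF, IntermediateField.adjoin_le_iff]
      intro y hy
      exact IntermediateField.subset_adjoin F S hy
  have h2 : x ∈ IntermediateField.adjoin F S := h1 hx
  have h3 : x ∈ Algebra.adjoin F S := by
    rw [← IntermediateField.adjoin_toSubalgebra_of_isAlgebraic (F := F) (S := S) (fun y _ =>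
      ((Pool.Agent.H58P.qb_isIntegral y).tower_top (A := F)).isAlgebraic)]
    exact h2
  have h4 : x ∈ Submodule.span F (Submonoid.closure S : Set Qb) := by
    rw [← Algebra.adjoin_eq_span]
    exact h3
  obtain ⟨k, f, g, hfg⟩ := Submodule.mem_span_set'.mp h4
  refine ⟨k, fun j => (f j : Qb), fun j => (g j : Qb), fun j => (f j).2, fun j => ?_, ?_⟩
  · have h5 : ∀ y ∈ Submonoid.closure S, DivG Γ y := by
      intro y hy
      induction hy using Submonoid.closure_induction with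
      | mem y hy => exact hy
      | one => exact ⟨1, one_pos, 1, one_mem Γ, by simp⟩
      | mul a b _ _ ha hb => exact Pool.Agent.W237.RK.DivG.mul ha hb
    exact h5 _ (g j).2
  · rw [← hfg]
    exact Finset.sum_congr rfl fun j _ => rfl

/-- Kummer theory: a radical over `F` in `F(Γ_div)` is in `F* Γ_div` -/
theorem kummer (F : GF) (Γ : Subgroup Qbˣ) (hF : ∀ x : Qb, Tor x → x ∈ F)
    (hΓ : ∀ g ∈ Γ, (g : Qb) ∈ F) (x : Qb) (hx : Rad F x) (hxL : x ∈ F ⊔ divF Γ) :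
    ∃ f ∈ F, ∃ γ, DivG Γ γ ∧ x = f * γ := by
  classical
  obtain ⟨k, b, γ, hb, hγ, hsum⟩ := span_form F Γ x hxL
  have hγR : ∀ j, Rad F (γ j) := by
    intro j
    obtain ⟨n, hn, g, hg, h⟩ := hγ j
    exact ⟨Pool.Agent.TH53.RP.DivG.ne_zero (hγ j), n, hn, by rw [h]; exact hΓ g hg⟩
  obtain ⟨S, a, -, ha0, ha, hdiv, hsum'⟩ := grouping' F hF b γ hb hγR
  let ψx : fixG F →* Qb := kum F hF x hx.1 fun σ => hx.tor σ
  have hψx : ∀ σ : fixG F, σ.1 x = x * ψx σ := by
    intro σ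
    have h1 : ψx σ = σ.1 x / x := rfl
    rw [h1, mul_div_cancel₀ _ hx.1]
  have hmem : ψx ∈ S := by
    by_contra hcon
    have hli := linearIndependent_monoidHom (fixG F) Qb
    rw [linearIndependent_iff'] at hli
    have h1 := hli (insert ψx S) (fun ψ => if ψ = ψx then x else -(a ψ)) (by
      funext σ
      rw [Finset.sum_insert hcon, if_pos rfl]
      have h2 : ∑ ψ ∈ S, ((if ψ = ψx then x else -(a ψ)) • (ψ : fixG F → Qb)) =
          ∑ ψ ∈ S, (-(a ψ)) • (ψ : fixG F → Qb) := by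
        refine Finset.sum_congr rfl fun ψ hψ => ?_
        rw [if_neg]
        rintro rfl
        exact hcon hψ
      rw [h2, Pi.add_apply, Finset.sum_apply]
      have h3 : σ.1 x = ∑ ψ ∈ S, a ψ * ψ σ := by
        conv_lhs => rw [hsum, hsum']
        rw [map_sum]
        exact Finset.sum_congr rfl fun ψ _ => ha ψ σ
      show x * ψx σ + ∑ ψ ∈ S, -(a ψ) * ψ σ = 0
      rw [← hψx σ, h3, ← Finset.sum_add_distrib]
      exact Finset.sum_eq_zero fun ψ _ => by ring) ψx (Finset.mem_insert_self _ _)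
    rw [if_pos rfl] at h1
    exact hx.1 h1
  obtain ⟨j, hj⟩ := hdiv ψx hmem
  have hγ0 := (hγR j).1
  refine ⟨x / γ j, ?_, γ j, hγ j, (div_mul_cancel₀ _ hγ0).symm⟩
  apply mem_of_fix F
  intro σ hσ
  have h1 := hψx ⟨σ, hσ⟩
  have h2 := hj ⟨σ, hσ⟩
  have h3 := char_ne_zero ψx ⟨σ, hσ⟩
  rw [map_div₀]
  show (⟨σ, hσ⟩ : fixG F).1 x / (⟨σ, hσ⟩ : fixG F).1 (γ j) = x / γ j
  rw [h1, h2]
  field_simp

lemma orb_div_le (F : GF) (x y : Qb) :
    (orb F (x / y)).ncard ≤ (orb F x).ncard * (orb F y).ncard := by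
  have h1 : orb F (x / y) ⊆ (fun q : Qb × Qb => q.1 / q.2) '' (orb F x ×ˢ orb F y) := by
    rintro _ ⟨σ, hσ, rfl⟩
    exact ⟨(σ x, σ y), ⟨⟨σ, hσ, rfl⟩, ⟨σ, hσ, rfl⟩⟩, (map_div₀ σ x y).symm⟩
  have hfin : (orb F x ×ˢ orb F y).Finite := (orb_finite F x).prod (orb_finite F y)
  calc (orb F (x / y)).ncard ≤ ((fun q : Qb × Qb => q.1 / q.2) '' (orb F x ×ˢ orb F y)).ncard :=
        Set.ncard_le_ncard h1 (hfin.image _)
    _ ≤ (orb F x ×ˢ orb F y).ncard := Set.ncard_image_le hfin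
    _ = _ := Set.ncard_prod

/-- **the strong form for quotients of sums of radicals** -/
theorem main3 (Γ : Subgroup Qbˣ) (hΓfg : Γ.FG) : ∃ A : ℕ, 0 < A ∧
    ∀ (k l D : ℕ) (E : IntermediateField cyc Qb), FiniteDimensional cyc E →
      Module.finrank cyc E ≤ D → ∀ (θ : Fin k → Qb) (θ' : Fin l → Qb),
      (∀ j, ∃ m : ℕ, 0 < m ∧ θ j ^ m ∈ E) → (∀ j, ∃ m : ℕ, 0 < m ∧ θ' j ^ m ∈ E) →
      ∀ α : Qb, α * ∑ j, θ' j = ∑ j, θ j → ∑ j, θ' j ≠ 0 → α ≠ 0 → ¬ DivG Γ α →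
      lowc A (D * B2 (k + l)) / ((minpoly (divF Γ) α).natDegree : ℝ) ≤ ht α := by
  obtain ⟨S, hS⟩ := id hΓfg
  set T : Set Qb := (fun u : Qbˣ => (u : Qb)) '' (S : Set Qbˣ) with hT
  have hTf : Finite T := (S.finite_toSet.image _)
  set K : GF := IntermediateField.adjoin ℚ T with hK
  have hKfd : FiniteDimensional ℚ K :=
    IntermediateField.finiteDimensional_adjoin fun x _ => Pool.Agent.H58P.qb_isIntegral x
  have hΓK : ∀ g ∈ Γ, (g : Qb) ∈ K := by
    intro g hg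
    rw [← hS] at hg
    induction hg using Subgroup.closure_induction with
    | mem x hx => exact IntermediateField.subset_adjoin _ _ ⟨x, hx, rfl⟩
    | one => exact one_mem K
    | mul x y _ _ hx hy => rw [Units.val_mul]; exact mul_mem hx hy
    | inv x _ hx => rw [Units.val_inv_eq_inv_val]; exact inv_mem hx
  obtain ⟨A, hA, hmain⟩ := dist' K Γ hKfd hΓfg hΓK ∅ (by simp)
  refine ⟨A + 1, Nat.succ_pos _, ?_⟩
  intro k l D E hE hD θ θ' hθ hθ' α hα hQ hα0 hnd
  set L : GF := fullField K Γ ∅ with hL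
  set F : GF := L ⊔ E.restrictScalars ℚ with hF
  set B : ℕ := B2 (k + l) with hB
  have hTorL : ∀ x : Qb, Tor x → x ∈ L := fun x hx => kinf_le_fullField K Γ ∅ (tor_mem_kinf K hx)
  have hcyc : cyc ≤ L := by
    rw [cyc, IntermediateField.adjoin_le_iff]
    intro y hy
    exact hTorL y hy
  have hLF : L ≤ F := le_sup_left
  have hEF : E.restrictScalars ℚ ≤ F := le_sup_right
  have hTorF : ∀ x : Qb, Tor x → x ∈ F := fun x hx => hLF (hTorL x hx)
  have hΓF : ∀ g ∈ Γ, (g : Qb) ∈ F := fun g hg => hLF (le_fullField K Γ ∅ (hΓK g hg))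
  have hD0 : 0 < D := lt_of_lt_of_le Module.finrank_pos hD
  have hB0 : 0 < B := B2_pos _
  have hDB : 0 < D * B := Nat.mul_pos hD0 hB0
  set d : ℕ := (minpoly (divF Γ) α).natDegree with hd
  have hd' : (orb (divF Γ) α).ncard = d := orb_ncard _ _
  have hd0 : 0 < d := by rw [← hd']; exact orb_ncard_pos _ _
  have hdR : (1 : ℝ) ≤ d := by exact_mod_cast hd0
  have hBR : (1 : ℝ) ≤ B := by exact_mod_cast hB0
  have hAR : (1 : ℝ) ≤ A := by exact_mod_cast hA
  have hDBR : (1 : ℝ) ≤ ((D * B : ℕ) : ℝ) := by exact_mod_cast hDB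
  have hBDB : (B : ℝ) ≤ ((D * B : ℕ) : ℝ) := by exact_mod_cast Nat.le_mul_of_pos_left _ hD0
  have hpow : (1 : ℝ) ≤ ((D * B : ℕ) : ℝ) ^ A := one_le_pow₀ hDBR
  -- comparison of the constants
  have hconst : (A : ℝ) * ((D * B : ℕ) : ℝ) ^ A * B ≤
      ((A + 1 : ℕ) : ℝ) * ((D * B : ℕ) : ℝ) ^ (A + 1) := by
    rw [pow_succ]
    push_cast
    push_cast at hBDB hpow hDBR
    have h1 : (A : ℝ) * ((D : ℝ) * B) ^ A * B ≤ A * ((D : ℝ) * B) ^ A * (D * B) := by
      apply mul_le_mul_of_nonneg_left hBDB (by positivity)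
    have h2 : (0 : ℝ) ≤ ((D : ℝ) * B) ^ A * (D * B) := by positivity
    nlinarith
  rw [lowc, ← one_div, div_div, div_le_iff₀ (by positivity)]
  rcases step3 F hTorF θ θ' (fun j => by
      obtain ⟨m, hm, h⟩ := hθ j
      exact ⟨m, hm, hEF h⟩) (fun j => by
      obtain ⟨m, hm, h⟩ := hθ' j
      exact ⟨m, hm, hEF h⟩) α hα hα0 hQ with h | ⟨γ₀, hγ₀, horb⟩
  · -- large height
    have h0 : (0 : ℝ) < B := by linarith
    rw [← hB, inv_le_iff_one_le_mul₀ h0] at h
    have h2 : (B : ℝ) ≤ ((A + 1 : ℕ) : ℝ) * ((D * B : ℕ) : ℝ) ^ (A + 1) * d := by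
      have h3 : (B : ℝ) ≤ (A : ℝ) * ((D * B : ℕ) : ℝ) ^ A * B := by
        have : (1 : ℝ) ≤ (A : ℝ) * ((D * B : ℕ) : ℝ) ^ A := by nlinarith
        nlinarith
      have h4 := h3.trans hconst
      have h5 : (0 : ℝ) ≤ ((A + 1 : ℕ) : ℝ) * ((D * B : ℕ) : ℝ) ^ (A + 1) := by positivity
      nlinarith
    have h6 := ht_nonneg α
    calc (1 : ℝ) ≤ ht α * B := by linarith
      _ ≤ ht α * (((A + 1 : ℕ) : ℝ) * ((D * B : ℕ) : ℝ) ^ (A + 1) * d) :=
          mul_le_mul_of_nonneg_left h2 h6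
  · set Fi : GF := F ⊔ divF Γ with hFi
    set β : Qb := α / γ₀ with hβ
    have hγ₀0 : γ₀ ≠ 0 := hγ₀.1
    have hβ0 : β ≠ 0 := div_ne_zero hα0 hγ₀0
    have hγβ : γ₀ = α / β := by
      rw [hβ]
      field_simp
    have hαβ : α = β * γ₀ := by rw [hβ, div_mul_cancel₀ _ hγ₀0]
    have hFFi : F ≤ Fi := le_sup_left
    have hdFi : divF Γ ≤ Fi := le_sup_right
    -- the order of the radical
    have hord : (orb Fi γ₀).ncard ≤ d * B := by
      conv_lhs => rw [hγβ]
      refine (orb_div_le Fi α β).trans (Nat.mul_le_mul ?_ ?_)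
      · rw [← hd']
        exact Set.ncard_le_ncard (orb_mono hdFi α) (orb_finite _ _)
      · exact (Set.ncard_le_ncard (orb_mono hFFi β) (orb_finite _ _)).trans horb
    obtain ⟨m, hm0, hm, hrig⟩ := torRigid_small (Finf := Fi)
      (fun x hx => hFFi (hTorF x hx)) hγ₀0 hord
    have hmem : γ₀ ^ m ∈ Fi := by
      apply mem_of_fix Fi
      intro ρ hρ
      apply hrig ρ hρ
      exact (hγ₀.pow m).tor ⟨ρ, fix_mono hFFi hρ⟩
    obtain ⟨f, hf, γ, hγ, hfγ⟩ := kummer F Γ hTorF hΓF (γ₀ ^ m) (hγ₀.pow m) hmem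
    have hγ0 : γ ≠ 0 := Pool.Agent.TH53.RP.DivG.ne_zero hγ
    have hf0 : f ≠ 0 := by
      rintro rfl
      rw [zero_mul] at hfγ
      exact pow_ne_zero _ hγ₀0 hfγ
    set y : Qb := β ^ m / f⁻¹ with hy
    have hy' : y = β ^ m * f := by rw [hy, div_inv_eq_mul]
    have hy0 : y ≠ 0 := by rw [hy']; exact mul_ne_zero (pow_ne_zero _ hβ0) hf0
    have hαm : α ^ m = y * γ := by
      rw [hαβ, mul_pow, hfγ, hy']
      ring
    have horby : (orb F y).ncard ≤ B := by
      rw [hy, orb_div_ncard (inv_ne_zero hf0) (inv_mem hf)]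
      exact (orb_pow_ncard β m).trans horb
    have horbL : (orb L y).ncard ≤ D * B :=
      (orb_ext L hcyc E y).trans (Nat.mul_le_mul hD horby)
    have hyd : ¬ DivG Γ y := by
      intro hcon
      apply hnd
      have h1 : DivG Γ (α ^ m) := by
        rw [hαm]
        exact Pool.Agent.W237.RK.DivG.mul hcon hγ
      exact Pool.Agent.TH53.RP.DivG.of_pow hm0 h1
    have h2 := hmain (D * B) hDB y hy0 horbL hyd γ⁻¹ (DivG.inv hγ)
    rw [div_inv_eq_mul, ← hαm, Pool.Agent.H58B.ht_pow, lowc, ← one_div,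
      div_le_iff₀ (by positivity)] at h2
    have hmR : (m : ℝ) ≤ (d : ℝ) * B := by exact_mod_cast hm
    have h6 := ht_nonneg α
    have h7 : (0 : ℝ) ≤ (A : ℝ) * ((D * B : ℕ) : ℝ) ^ A := by positivity
    calc (1 : ℝ) ≤ m * ht α * ((A : ℝ) * ((D * B : ℕ) : ℝ) ^ A) := h2
      _ ≤ (d * B) * ht α * ((A : ℝ) * ((D * B : ℕ) : ℝ) ^ A) := by gcongr
      _ = ht α * (((A : ℝ) * ((D * B : ℕ) : ℝ) ^ A * B) * d) := by ring
      _ ≤ ht α * ((((A + 1 : ℕ) : ℝ) * ((D * B : ℕ) : ℝ) ^ (A + 1)) * d) := by gcongr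

end Pool.Agent.TH53.BL
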