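import Mathlib
import Pool.Agent.TH53.BL11

set_option autoImplicit false
set_option linter.unusedVariables false

/-!
# Points whose coordinates are quotients of sums of radicals
-/

namespace Pool.Agent.TH53.BL

open IntermediateField
open Pool.Agent.W237.RK
open Pool.Agent.H58P (Qb ht)
open Pool.Agent.H58R (ht_nonneg ht_mul_le ht_inv ht_zpow ht_prod_le)
open Pool.Agent.TH53.RP

lemma fix_adj {S : Set Qb} {τ : Aut} (h : ∀ x ∈ S, τ x = x) :
    Fix (IntermediateField.adjoin ℚ S) τ := by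
  let U : GF :=
    { carrier := {x | τ x = x}
      mul_mem' := by
        intro x y hx hy
        show τ (x * y) = x * y
        rw [map_mul, show τ x = x from hx, show τ y = y from hy]
      add_mem' := by
        intro x y hx hy
        show τ (x + y) = x + y
        rw [map_add, show τ x = x from hx, show τ y = y from hy]
      algebraMap_mem' := fun r => τ.commutes r
      inv_mem' := by
        intro x hx
        show τ x⁻¹ = x⁻¹
        rw [map_inv₀, show τ x = x from hx] }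
  have hU : IntermediateField.adjoin ℚ S ≤ U := by
    rw [IntermediateField.adjoin_le_iff]
    exact fun x hx => h x hx
  intro x hx
  exact hU hx

/-- conjugates of an element of `F(β_1, ..., β_n)` -/
lemma orb_adjoin_bound {n : ℕ} (F : GF) (β : Fin n → Qb) (B : ℕ)
    (hβ : ∀ i, (orb F (β i)).ncard ≤ B) (f : Qb)
    (hf : f ∈ F ⊔ IntermediateField.adjoin ℚ (Set.range β)) :
    (orb F f).ncard ≤ B ^ n := by
  classical
  let T : Finset (Fin n → Qb) := Fintype.piFinset fun i => (orb_finite F (β i)).toFinset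
  let g : (Fin n → Qb) → Qb := fun t =>
    if h : ∃ σ : Aut, Fix F σ ∧ ∀ i, σ (β i) = t i then h.choose f else 0
  have hsub : orb F f ⊆ g '' (T : Set (Fin n → Qb)) := by
    rintro _ ⟨σ, hσ, rfl⟩
    refine ⟨fun i => σ (β i), ?_, ?_⟩
    · rw [Finset.mem_coe, Fintype.mem_piFinset]
      intro i
      rw [Set.Finite.mem_toFinset]
      exact ⟨σ, hσ, rfl⟩
    · have h : ∃ τ : Aut, Fix F τ ∧ ∀ i, τ (β i) = σ (β i) := ⟨σ, hσ, fun _ => rfl⟩
      show (if h : ∃ τ : Aut, Fix F τ ∧ ∀ i, τ (β i) = σ (β i) then h.choose f else 0) = σ f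
      rw [dif_pos h]
      obtain ⟨h1, h2⟩ := h.choose_spec
      have h3 : Fix (F ⊔ IntermediateField.adjoin ℚ (Set.range β)) (σ⁻¹ * h.choose) := by
        apply fix_sup (fix_mul (fix_inv hσ) h1)
        apply fix_adj
        rintro _ ⟨i, rfl⟩
        rw [AlgEquiv.mul_apply, h2 i, inv_apply_self]
      have h5 := h3 f hf
      rw [AlgEquiv.mul_apply] at h5
      have h6 := congrArg σ h5
      rwa [apply_inv_self] at h6
  calc (orb F f).ncard ≤ (g '' (T : Set (Fin n → Qb))).ncard :=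
        Set.ncard_le_ncard hsub (T.finite_toSet.image _)
    _ ≤ (T : Set (Fin n → Qb)).ncard := Set.ncard_image_le T.finite_toSet
    _ = T.card := Set.ncard_coe_finset T
    _ = ∏ i, ((orb_finite F (β i)).toFinset).card := Fintype.card_piFinset _
    _ = ∏ i, (orb F (β i)).ncard := by
        refine Finset.prod_congr rfl fun i _ => ?_
        exact (Set.ncard_eq_toFinset_card _ (orb_finite F (β i))).symm
    _ ≤ ∏ _i : Fin n, B := Finset.prod_le_prod' fun i _ => hβ i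
    _ = B ^ n := by rw [Finset.prod_const, Finset.card_univ, Fintype.card_fin]

lemma Rad.mul {F : GF} {θ θ' : Qb} (h : Rad F θ) (h' : Rad F θ') : Rad F (θ * θ') := by
  obtain ⟨h0, m, hm, h1⟩ := h
  obtain ⟨h0', m', hm', h1'⟩ := h'
  refine ⟨mul_ne_zero h0 h0', m * m', Nat.mul_pos hm hm', ?_⟩
  rw [mul_pow, pow_mul θ, mul_comm m m', pow_mul θ']
  exact mul_mem (pow_mem h1 _) (pow_mem h1' _)

lemma Rad.one (F : GF) : Rad F 1 := ⟨one_ne_zero, 1, one_pos, by rw [one_pow]; exact one_mem _⟩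

lemma Rad.prod {F : GF} {ι : Type*} (s : Finset ι) (f : ι → Qb) (h : ∀ i ∈ s, Rad F (f i)) :
    Rad F (∏ i ∈ s, f i) := by
  classical
  induction s using Finset.induction_on with
  | empty => simpa using Rad.one F
  | insert a s ha ih =>
    rw [Finset.prod_insert ha]
    exact (h a (Finset.mem_insert_self _ _)).mul
      (ih fun i hi => h i (Finset.mem_insert_of_mem hi))

lemma Rad.mono {F F' : GF} (hF : F ≤ F') {θ : Qb} (h : Rad F θ) : Rad F' θ := by
  obtain ⟨h0, m, hm, h1⟩ := h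
  exact ⟨h0, m, hm, hF h1⟩

/-- two monomials with the same character -/
theorem two_monomials {n : ℕ} (F : GF) (hF : ∀ x : Qb, Tor x → x ∈ F) (z : Fin n → Qb)
    (hz : ∀ i, Rad F (z i)) (S : Finset (Fin n →₀ ℕ)) (c : (Fin n →₀ ℕ) → Qb)
    (hc : ∀ u ∈ S, c u ∈ F) (u₀ : Fin n →₀ ℕ) (hu₀ : u₀ ∈ S) (hc₀ : c u₀ ≠ 0)
    (hsum : ∑ u ∈ S, c u * ∏ i, z i ^ u i = 0) :
    ∃ u ∈ S, ∃ v ∈ S, u ≠ v ∧ (∏ i, z i ^ u i) / (∏ i, z i ^ v i) ∈ F := by
  classical
  have hz0 : ∀ i, z i ≠ 0 := fun i => (hz i).1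
  let χ : Fin n → (fixG F →* Qb) := fun i => kum F hF (z i) (hz0 i) fun σ => (hz i).tor σ
  have hχ : ∀ i (σ : fixG F), σ.1 (z i) = z i * χ i σ := by
    intro i σ
    have h1 : χ i σ = σ.1 (z i) / z i := rfl
    rw [h1, mul_div_cancel₀ _ (hz0 i)]
  let ψ : (Fin n →₀ ℕ) → (fixG F →* Qb) := fun u => ∏ i, χ i ^ u i
  have hψ1 : ∀ u (σ : fixG F), ψ u σ = ∏ i, χ i σ ^ u i := by
    intro u σ
    show (∏ i, χ i ^ u i : fixG F →* Qb) σ = _
    rw [MonoidHom.finsetProd_apply]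
    rfl
  have hψ : ∀ u (σ : fixG F), σ.1 (∏ i, z i ^ u i) = (∏ i, z i ^ u i) * ψ u σ := by
    intro u σ
    rw [map_prod, hψ1, ← Finset.prod_mul_distrib]
    refine Finset.prod_congr rfl fun i _ => ?_
    rw [map_pow, hχ i σ, mul_pow]
  have hz0' : ∀ u : Fin n →₀ ℕ, ∏ i, z i ^ u i ≠ 0 := fun u =>
    Finset.prod_ne_zero_iff.mpr fun i _ => pow_ne_zero _ (hz0 i)
  by_contra hcon
  push Not at hcon
  have hinj : Function.Injective fun u : S => ψ u := by
    intro u v huv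
    by_contra hne
    apply hcon u u.2 v v.2 (fun h => hne (Subtype.ext h))
    apply mem_of_fix F
    intro σ hσ
    have h1 := hψ u ⟨σ, hσ⟩
    have h2 := hψ v ⟨σ, hσ⟩
    have h3 : ψ u = ψ v := huv
    have h4 := char_ne_zero (ψ v) ⟨σ, hσ⟩
    rw [map_div₀]
    show (⟨σ, hσ⟩ : fixG F).1 (∏ i, z i ^ (u : Fin n →₀ ℕ) i) /
      (⟨σ, hσ⟩ : fixG F).1 (∏ i, z i ^ (v : Fin n →₀ ℕ) i) = _
    rw [h1, h2, h3, mul_div_mul_right _ _ h4]
  have hli := (linearIndependent_monoidHom (fixG F) Qb).comp (fun u : S => ψ u) hinj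
  rw [Fintype.linearIndependent_iff] at hli
  have h1 := hli (fun u => c u * ∏ i, z i ^ (u : Fin n →₀ ℕ) i) (by
    funext σ
    rw [Finset.sum_apply]
    show ∑ u : S, (c u * ∏ i, z i ^ (u : Fin n →₀ ℕ) i) * ψ u σ = 0
    rw [Finset.sum_coe_sort S (fun u => (c u * ∏ i, z i ^ u i) * ψ u σ)]
    have h2 := congrArg σ.1 hsum
    rw [map_sum, map_zero] at h2
    rw [← h2]
    refine Finset.sum_congr rfl fun u hu => ?_
    rw [map_mul, hψ u σ, σ.2 _ (hc u hu), mul_assoc]) ⟨u₀, hu₀⟩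
  exact (mul_ne_zero hc₀ (hz0' u₀)) h1

end Pool.Agent.TH53.BL
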