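import Mathlib
import Pool.Agent.TH53.BL12

set_option autoImplicit false
set_option linter.unusedVariables false

/-!
# Polynomials vanishing at points whose coordinates are quotients of sums of radicals
-/

namespace Pool.Agent.TH53.BL

open IntermediateField
open Pool.Agent.W237.RK
open Pool.Agent.H58P (Qb ht)
open Pool.Agent.H58R (ht_nonneg ht_mul_le ht_inv ht_zpow ht_prod_le)
open Pool.Agent.TH53.RP

lemma orb_one_ncard (F : GF) : (orb F (1 : Qb)).ncard = 1 := by
  have : orb F (1 : Qb) = {1} := by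
    ext y
    constructor
    · rintro ⟨σ, -, rfl⟩
      exact map_one σ
    · rintro rfl
      exact self_mem_orb F 1
  rw [this, Set.ncard_singleton]

/-- **the lower bound for the multidegree of a hypersurface through the point** -/
theorem main4 (K₀ : GF) (hK₀ : FiniteDimensional ℚ K₀) (Γ : Subgroup Qbˣ) (hΓfg : Γ.FG) :
    ∃ A : ℕ, 0 < A ∧
    ∀ (n N D : ℕ) (E : IntermediateField cyc Qb), FiniteDimensional cyc E →
      Module.finrank cyc E ≤ D → ∀ (x : Fin n → Qb),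
      (∀ i, ∃ (k l : ℕ) (θ : Fin k → Qb) (θ' : Fin l → Qb), k + l ≤ N ∧
        (∀ j, ∃ m : ℕ, 0 < m ∧ θ j ^ m ∈ E) ∧ (∀ j, ∃ m : ℕ, 0 < m ∧ θ' j ^ m ∈ E) ∧
        x i * ∑ j, θ' j = ∑ j, θ j ∧ ∑ j, θ' j ≠ 0) →
      (∀ i, x i ≠ 0) →
      (∀ v : Fin n → ℤ, DivG Γ (∏ i, x i ^ v i) → v = 0) →
      ∀ P : MvPolynomial (Fin n) (K₀ ⊔ divF Γ : GF), P ≠ 0 → MvPolynomial.aeval x P = 0 →
      lowc A (D * B2 N ^ n) ≤ ∑ i, (P.degreeOf i : ℝ) * ht (x i) := by
  classical
  obtain ⟨S, hS⟩ := id hΓfg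
  set T : Set Qb := (fun u : Qbˣ => (u : Qb)) '' (S : Set Qbˣ) with hT
  have hTf : Finite T := (S.finite_toSet.image _)
  set K₁ : GF := IntermediateField.adjoin ℚ T with hK₁
  have hK₁fd : FiniteDimensional ℚ K₁ :=
    IntermediateField.finiteDimensional_adjoin fun x _ => Pool.Agent.H58P.qb_isIntegral x
  set K : GF := K₀ ⊔ K₁ with hK
  have hKfd : FiniteDimensional ℚ K := IntermediateField.finiteDimensional_sup K₀ K₁
  have hΓK : ∀ g ∈ Γ, (g : Qb) ∈ K := by
    intro g hg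
    apply (le_sup_right : K₁ ≤ K)
    rw [← hS] at hg
    induction hg using Subgroup.closure_induction with
    | mem x hx => exact IntermediateField.subset_adjoin _ _ ⟨x, hx, rfl⟩
    | one => exact one_mem K₁
    | mul x y _ _ hx hy => rw [Units.val_mul]; exact mul_mem hx hy
    | inv x _ hx => rw [Units.val_inv_eq_inv_val]; exact inv_mem hx
  obtain ⟨A, hA, hmain⟩ := dist' K Γ hKfd hΓfg hΓK ∅ (by simp)
  refine ⟨A, hA, ?_⟩
  intro n N D E hE hD x hx hx0 hind P hP hPx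
  set L : GF := fullField K Γ ∅ with hL
  set F : GF := L ⊔ E.restrictScalars ℚ with hF
  set B : ℕ := B2 N with hB
  have hTorL : ∀ x : Qb, Tor x → x ∈ L := fun x hx => kinf_le_fullField K Γ ∅ (tor_mem_kinf K hx)
  have hcyc : cyc ≤ L := by
    rw [cyc, IntermediateField.adjoin_le_iff]
    intro y hy
    exact hTorL y hy
  have hLF : L ≤ F := le_sup_left
  have hEF : E.restrictScalars ℚ ≤ F := le_sup_right
  have hTorF : ∀ x : Qb, Tor x → x ∈ F := fun x hx => hLF (hTorL x hx)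
  have hKL : K ≤ L := le_fullField K Γ ∅
  have hΓF : ∀ g ∈ Γ, (g : Qb) ∈ F := fun g hg => hLF (hKL (hΓK g hg))
  have hD0 : 0 < D := lt_of_lt_of_le Module.finrank_pos hD
  have hB0 : 0 < B := B2_pos _
  have hDB : 0 < D * B ^ n := Nat.mul_pos hD0 (pow_pos hB0 n)
  have hterm : ∀ i, 0 ≤ (P.degreeOf i : ℝ) * ht (x i) := fun i =>
    mul_nonneg (Nat.cast_nonneg _) (ht_nonneg _)
  by_cases hbig : ∃ i, 0 < P.degreeOf i ∧ ((B : ℕ) : ℝ)⁻¹ ≤ ht (x i)
  · -- a coordinate of large height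
    obtain ⟨i, hi, hhi⟩ := hbig
    have hn : 1 ≤ n := Nat.one_le_iff_ne_zero.mpr (by
      rintro rfl
      exact i.elim0)
    have h1 : (P.degreeOf i : ℝ) * ht (x i) ≤ ∑ i, (P.degreeOf i : ℝ) * ht (x i) :=
      Finset.single_le_sum (fun i _ => hterm i) (Finset.mem_univ i)
    refine le_trans ?_ h1
    have h2 : ht (x i) ≤ (P.degreeOf i : ℝ) * ht (x i) := by
      have h3 : (1 : ℝ) ≤ P.degreeOf i := by exact_mod_cast hi
      have h4 := ht_nonneg (x i)
      nlinarith
    refine le_trans ?_ (hhi.trans h2)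
    rw [lowc]
    apply inv_anti₀ (by exact_mod_cast hB0)
    have h3 : B ≤ A * (D * B ^ n) ^ A := by
      calc B = B ^ 1 := (pow_one B).symm
        _ ≤ B ^ n := Nat.pow_le_pow_right hB0 hn
        _ ≤ D * B ^ n := Nat.le_mul_of_pos_left _ hD0
        _ = (D * B ^ n) ^ 1 := (pow_one _).symm
        _ ≤ (D * B ^ n) ^ A := Nat.pow_le_pow_right hDB hA
        _ ≤ A * (D * B ^ n) ^ A := Nat.le_mul_of_pos_left _ hA
    exact_mod_cast h3
  · push Not at hbig
    have hstr : ∀ i, ∃ γ β : Qb, Rad F γ ∧ β ≠ 0 ∧ (orb F β).ncard ≤ B ∧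
        (0 < P.degreeOf i → x i = β * γ) := by
      intro i
      by_cases hi : 0 < P.degreeOf i
      · obtain ⟨k, l, θ, θ', hkl, hθ, hθ', hα, hQ⟩ := hx i
        have hBm : B2 (k + l) ≤ B := B2_mono hkl
        rcases step3 F hTorF θ θ' (fun j => by
            obtain ⟨m, hm, h⟩ := hθ j
            exact ⟨m, hm, hEF h⟩) (fun j => by
            obtain ⟨m, hm, h⟩ := hθ' j
            exact ⟨m, hm, hEF h⟩) (x i) hα (hx0 i) hQ with h | ⟨γ, hγ, horb⟩
        · exfalso
          have h1 := hbig i hi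
          have h2 : ((B : ℕ) : ℝ)⁻¹ ≤ ((B2 (k + l) : ℕ) : ℝ)⁻¹ := by
            apply inv_anti₀
            · exact_mod_cast B2_pos _
            · exact_mod_cast hBm
          linarith
        · exact ⟨γ, x i / γ, hγ, div_ne_zero (hx0 i) hγ.1, horb.trans hBm,
            fun _ => (div_mul_cancel₀ _ hγ.1).symm⟩
      · exact ⟨1, 1, Rad.one F, one_ne_zero, by rw [orb_one_ncard]; exact hB0, fun h => absurd h hi⟩
    choose γ β hγ hβ0 hβ hxβ using hstr
    set F2 : GF := F ⊔ IntermediateField.adjoin ℚ (Set.range β) with hF2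
    have hFF2 : F ≤ F2 := le_sup_left
    have hβF2 : ∀ i, β i ∈ F2 := fun i =>
      (le_sup_right : _ ≤ F2) (IntermediateField.subset_adjoin _ _ ⟨i, rfl⟩)
    let z : Fin n → Qb := fun i => β i * γ i
    have hz : ∀ i, Rad F2 (z i) := fun i =>
      Rad.mul ⟨hβ0 i, 1, one_pos, by rw [pow_one]; exact hβF2 i⟩ ((hγ i).mono hFF2)
    set Fi : GF := F2 ⊔ divF Γ with hFi
    have hF2Fi : F2 ≤ Fi := le_sup_left
    have hdFi : divF Γ ≤ Fi := le_sup_right
    have hKFi : K₀ ⊔ divF Γ ≤ Fi :=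
      sup_le (((le_sup_left : K₀ ≤ K).trans hKL).trans (hLF.trans (hFF2.trans hF2Fi))) hdFi
    have hTorFi : ∀ x : Qb, Tor x → x ∈ Fi := fun x hx => hF2Fi (hFF2 (hTorF x hx))
    -- the monomials
    have hmon : ∀ u ∈ P.support, ∏ i, x i ^ u i = ∏ i, z i ^ u i := by
      intro u hu
      refine Finset.prod_congr rfl fun i _ => ?_
      by_cases hi : u i = 0
      · rw [hi, pow_zero, pow_zero]
      · have h1 : 0 < P.degreeOf i :=
          lt_of_lt_of_le (Nat.pos_of_ne_zero hi) (MvPolynomial.monomial_le_degreeOf i hu)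
        rw [hxβ i h1]
    have hsum : ∑ u ∈ P.support, ((P.coeff u : (K₀ ⊔ divF Γ : GF)) : Qb) * ∏ i, z i ^ u i = 0 := by
      rw [← hPx, MvPolynomial.aeval_def, MvPolynomial.eval₂_eq']
      refine Finset.sum_congr rfl fun u hu => ?_
      rw [hmon u hu]
      rfl
    obtain ⟨u₀, hu₀⟩ := (MvPolynomial.support_nonempty.mpr hP)
    obtain ⟨u, hu, v, hv, huv, hyFi⟩ := two_monomials Fi hTorFi z (fun i => (hz i).mono hF2Fi)
      P.support (fun u => ((P.coeff u : (K₀ ⊔ divF Γ : GF)) : Qb)) (fun u _ => hKFi (P.coeff u).2)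
      u₀ hu₀ (by
        have h1 := MvPolynomial.mem_support_iff.mp hu₀
        intro h2
        exact h1 (Subtype.ext h2)) hsum
    set y : Qb := (∏ i, z i ^ u i) / (∏ i, z i ^ v i) with hy
    have hyR : Rad F2 y := (Rad.prod _ _ fun i _ => (hz i).pow (u i)).div
      (Rad.prod _ _ fun i _ => (hz i).pow (v i))
    obtain ⟨f, hf, g, hg, hfg⟩ := kummer F2 Γ (fun x hx => hFF2 (hTorF x hx))
      (fun g hg => hFF2 (hΓF g hg)) y hyR hyFi
    have hg0 : g ≠ 0 := Pool.Agent.TH53.RP.DivG.ne_zero hg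
    have hf0 : f ≠ 0 := by
      rintro rfl
      rw [zero_mul] at hfg
      exact hyR.1 hfg
    have hyx : y = ∏ i, x i ^ ((u i : ℤ) - (v i : ℤ)) := by
      rw [hy, ← hmon u hu, ← hmon v hv, ← Finset.prod_div_distrib]
      refine Finset.prod_congr rfl fun i _ => ?_
      rw [zpow_sub₀ (hx0 i), zpow_natCast, zpow_natCast]
    have hynd : ¬ DivG Γ y := by
      intro hcon
      rw [hyx] at hcon
      have h1 := hind (fun i => (u i : ℤ) - (v i : ℤ)) hcon
      apply huv
      ext i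
      have h2 := congrFun h1 i
      simp only [Pi.zero_apply] at h2
      omega
    have hfnd : ¬ DivG Γ f := by
      intro hcon
      apply hynd
      rw [hfg]
      exact Pool.Agent.W237.RK.DivG.mul hcon hg
    have horbf : (orb F f).ncard ≤ B ^ n := orb_adjoin_bound F β B hβ f hf
    have horbL : (orb L f).ncard ≤ D * B ^ n :=
      (orb_ext L hcyc E f).trans (Nat.mul_le_mul hD horbf)
    have h2 := hmain (D * B ^ n) hDB f hf0 horbL hfnd g⁻¹ (DivG.inv hg)
    rw [div_inv_eq_mul, ← hfg] at h2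
    refine h2.trans ?_
    rw [hyx]
    refine (ht_prod_le _ _).trans (Finset.sum_le_sum fun i _ => ?_)
    rw [ht_zpow _ (hx0 i)]
    apply mul_le_mul_of_nonneg_right _ (ht_nonneg _)
    have h3 : u i ≤ P.degreeOf i := MvPolynomial.monomial_le_degreeOf i hu
    have h4 : v i ≤ P.degreeOf i := MvPolynomial.monomial_le_degreeOf i hv
    have h5 : |(u i : ℤ) - (v i : ℤ)| ≤ (P.degreeOf i : ℤ) := by
      rw [abs_le]
      constructor <;> omega
    exact_mod_cast h5

end Pool.Agent.TH53.BL
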