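import Mathlib
import Pool.Agent.TH53.BL15

set_option autoImplicit false
set_option linter.unusedVariables false

/-!
# Polynomials vanishing on translates of subtori, over any field containing all roots of unity
-/

namespace Pool.Agent.TH53.BL

open IntermediateField
open Pool.Agent.W237.RK
open Pool.Agent.H58P (Qb ht)
open Pool.Agent.H58R (ht_nonneg ht_mul_le ht_inv ht_zpow ht_prod_le)
open Pool.Agent.TH53.RP

theorem main6 (F : GF) (hTorF : ∀ x : Qb, Tor x → x ∈ F) {n d N : ℕ} (x : Fin n → Qb)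
    (a : Fin n → Fin d → ℤ)
    (hx : ∀ i, (∃ m : ℕ, 0 < m ∧ x i ^ m ∈ F) ∨ (a i = 0 ∧
        ∃ (k l : ℕ) (θ : Fin k → Qb) (θ' : Fin l → Qb), k + l ≤ N ∧
          (∀ j, ∃ m : ℕ, 0 < m ∧ θ j ^ m ∈ F) ∧ (∀ j, ∃ m : ℕ, 0 < m ∧ θ' j ^ m ∈ F) ∧
          x i * ∑ j, θ' j = ∑ j, θ j ∧ ∑ j, θ' j ≠ 0))
    (hx0 : ∀ i, x i ≠ 0) (P : MvPolynomial (Fin n) F) (hP : P ≠ 0)
    (hPx : ∀ t : Fin d → Qbˣ,
      MvPolynomial.aeval (fun i => x i * ∏ j, (t j : Qb) ^ a i j) P = 0) :
    (∃ i, 0 < P.degreeOf i ∧ a i = 0 ∧ ((B2 N : ℕ) : ℝ)⁻¹ ≤ ht (x i)) ∨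
    ∃ w : Fin n → ℤ, w ≠ 0 ∧ (∀ i, |w i| ≤ (P.degreeOf i : ℤ)) ∧
      (∀ j, ∑ i, w i * a i j = 0) ∧
      (minpoly F (∏ i, x i ^ w i)).natDegree ≤ B2 N ^ n := by
  classical
  set B : ℕ := B2 N with hB
  have hB0 : 0 < B := B2_pos _
  by_cases hbig : ∃ i, 0 < P.degreeOf i ∧ a i = 0 ∧ ((B : ℕ) : ℝ)⁻¹ ≤ ht (x i)
  · exact Or.inl hbig
  · right
    push Not at hbig
    have hstr : ∀ i, ∃ γ β : Qb, Rad F γ ∧ β ≠ 0 ∧ (orb F β).ncard ≤ B ∧
        (0 < P.degreeOf i → x i = β * γ) := by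
      intro i
      by_cases hi : 0 < P.degreeOf i
      · rcases hx i with ⟨m, hm, hxm⟩ | ⟨hai, k, l, θ, θ', hkl, hθ, hθ', hα, hQ⟩
        · exact ⟨x i, 1, ⟨hx0 i, m, hm, hxm⟩, one_ne_zero,
            by rw [orb_one_ncard]; exact hB0, fun _ => (one_mul _).symm⟩
        have hBm : B2 (k + l) ≤ B := B2_mono hkl
        rcases step3 F hTorF θ θ' hθ hθ' (x i) hα (hx0 i) hQ with h | ⟨γ, hγ, horb⟩
        · exfalso
          have h1 := hbig i hi hai
          have h2 : ((B : ℕ) : ℝ)⁻¹ ≤ ((B2 (k + l) : ℕ) : ℝ)⁻¹ := by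
            apply inv_anti₀
            · exact_mod_cast B2_pos _
            · exact_mod_cast hBm
          linarith
        · exact ⟨γ, x i / γ, hγ, div_ne_zero (hx0 i) hγ.1, horb.trans hBm,
            fun _ => (div_mul_cancel₀ _ hγ.1).symm⟩
      · exact ⟨1, 1, Rad.one F, one_ne_zero, by rw [orb_one_ncard]; exact hB0, fun h => absurd h hi⟩
    choose γ β hγ hβ0 hβ hxβ using hstr
    set F2 : GF := F ⊔ IntermediateField.adjoin ℚ (Set.range β) with hF2
    have hFF2 : F ≤ F2 := le_sup_left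
    have hβF2 : ∀ i, β i ∈ F2 := fun i =>
      (le_sup_right : _ ≤ F2) (IntermediateField.subset_adjoin _ _ ⟨i, rfl⟩)
    let z : Fin n → Qb := fun i => β i * γ i
    have hz : ∀ i, Rad F2 (z i) := fun i =>
      Rad.mul ⟨hβ0 i, 1, one_pos, by rw [pow_one]; exact hβF2 i⟩ ((hγ i).mono hFF2)
    have hTorF2 : ∀ x : Qb, Tor x → x ∈ F2 := fun x hx => hFF2 (hTorF x hx)
    -- the monomials
    have hmon : ∀ u ∈ P.support, ∏ i, x i ^ u i = ∏ i, z i ^ u i := by
      intro u hu
      refine Finset.prod_congr rfl fun i _ => ?_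
      by_cases hi : u i = 0
      · rw [hi, pow_zero, pow_zero]
      · have h1 : 0 < P.degreeOf i :=
          lt_of_lt_of_le (Nat.pos_of_ne_zero hi) (MvPolynomial.monomial_le_degreeOf i hu)
        rw [hxβ i h1]
    obtain ⟨u₀, hu₀⟩ := (MvPolynomial.support_nonempty.mpr hP)
    let e : (Fin n →₀ ℕ) → (Fin d → ℤ) := fun u j => ∑ i, (u i : ℤ) * a i j
    let co : (Fin n →₀ ℕ) → Qb := fun u => ((P.coeff u : F) : Qb)
    have hall : ∀ s : Fin d → Qbˣ,
        ∑ u ∈ P.support, (co u * ∏ i, x i ^ u i) * tchar (e u) s = 0 := by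
      intro s
      rw [← hPx s, MvPolynomial.aeval_def, MvPolynomial.eval₂_eq']
      refine Finset.sum_congr rfl fun u _ => ?_
      have h1 := mon_translate x a s (fun i => (u i : ℤ))
      simp only [zpow_natCast] at h1
      rw [h1, mul_assoc]
      rfl
    set S₀ : Finset (Fin n →₀ ℕ) := P.support.filter fun u => e u = e u₀ with hS₀
    have hS₀sum : ∑ u ∈ S₀, co u * ∏ i, x i ^ u i = 0 := by
      have hli := linearIndependent_monoidHom (Fin d → Qbˣ) Qb
      rw [linearIndependent_iff'] at hli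
      have h1 := hli (P.support.image fun u => tchar (e u))
        (fun ψ => ∑ u ∈ P.support.filter fun u => tchar (e u) = ψ, co u * ∏ i, x i ^ u i) (by
          funext s
          rw [Finset.sum_apply]
          show ∑ ψ ∈ P.support.image fun u => tchar (e u),
            (∑ u ∈ P.support.filter fun u => tchar (e u) = ψ, co u * ∏ i, x i ^ u i) * ψ s = 0
          rw [← hall s]
          have h2 := Finset.sum_fiberwise_of_maps_to (s := P.support)
            (t := P.support.image fun u => tchar (e u)) (g := fun u => tchar (e u))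
            (fun u hu => Finset.mem_image_of_mem _ hu)
            (fun u => (co u * ∏ i, x i ^ u i) * tchar (e u) s)
          rw [← h2]
          refine Finset.sum_congr rfl fun ψ _ => ?_
          rw [Finset.sum_mul]
          refine Finset.sum_congr rfl fun u hu => ?_
          rw [(Finset.mem_filter.mp hu).2]) (tchar (e u₀)) (Finset.mem_image_of_mem _ hu₀)
      rw [← h1]
      refine Finset.sum_congr ?_ fun _ _ => rfl
      ext u
      rw [hS₀, Finset.mem_filter, Finset.mem_filter]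
      exact and_congr_right fun _ => ⟨fun h => by rw [h], fun h => tchar_inj h⟩
    have hsum : ∑ u ∈ S₀, co u * ∏ i, z i ^ u i = 0 := by
      rw [← hS₀sum]
      refine Finset.sum_congr rfl fun u hu => ?_
      rw [hmon u (Finset.mem_filter.mp hu).1]
    obtain ⟨u, hu', v, hv', huv, hy⟩ := two_monomials F2 hTorF2 z hz
      S₀ co (fun u _ => hFF2 (P.coeff u).2)
      u₀ (Finset.mem_filter.mpr ⟨hu₀, rfl⟩) (by
        have h1 := MvPolynomial.mem_support_iff.mp hu₀
        intro h2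
        exact h1 (Subtype.ext h2)) hsum
    obtain ⟨hu, heu⟩ := Finset.mem_filter.mp hu'
    obtain ⟨hv, hev⟩ := Finset.mem_filter.mp hv'
    refine ⟨fun i => (u i : ℤ) - (v i : ℤ), ?_, ?_, ?_, ?_⟩
    · intro h1
      apply huv
      ext i
      have h2 := congrFun h1 i
      simp only [Pi.zero_apply] at h2
      omega
    · intro i
      have h3 : u i ≤ P.degreeOf i := MvPolynomial.monomial_le_degreeOf i hu
      have h4 : v i ≤ P.degreeOf i := MvPolynomial.monomial_le_degreeOf i hv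
      show |(u i : ℤ) - (v i : ℤ)| ≤ (P.degreeOf i : ℤ)
      rw [abs_le]
      constructor <;> omega
    · intro j
      have h1 : ∑ i, (u i : ℤ) * a i j = ∑ i, (v i : ℤ) * a i j := congrFun (heu.trans hev.symm) j
      simp only [sub_mul]
      rw [Finset.sum_sub_distrib, h1, sub_self]
    · have hyx : (∏ i, z i ^ u i) / (∏ i, z i ^ v i) =
          ∏ i, x i ^ ((u i : ℤ) - (v i : ℤ)) := by
        rw [← hmon u hu, ← hmon v hv, ← Finset.prod_div_distrib]
        refine Finset.prod_congr rfl fun i _ => ?_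
        rw [zpow_sub₀ (hx0 i), zpow_natCast, zpow_natCast]
      rw [hyx] at hy
      rw [← orb_ncard]
      exact orb_adjoin_bound F β B hβ _ hy

end Pool.Agent.TH53.BL
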