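import Mathlib
import Pool.Agent.TH53.BL12

set_option autoImplicit false
set_option linter.unusedVariables false

/-!
# From polynomials to the degree
-/

namespace Pool.Agent.TH53.BL

open IntermediateField
open Pool.Agent.W237.RK
open Pool.Agent.H58P (Qb ht)
open Pool.Agent.H58R (ht_nonneg ht_mul_le ht_inv ht_zpow ht_prod_le)
open Pool.Agent.TH53.RP

/-- a polynomial of small degree which vanishes at the point -/
theorem exists_poly {n : ℕ} (L : GF) (x : Fin n → Qb) (N : Fin n → ℕ)
    (h : Module.finrank L (IntermediateField.adjoin L (Set.range x)) < ∏ i, (N i + 1)) :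
    ∃ P : MvPolynomial (Fin n) L, P ≠ 0 ∧ MvPolynomial.aeval x P = 0 ∧
      ∀ i, P.degreeOf i ≤ N i := by
  classical
  set M := IntermediateField.adjoin L (Set.range x) with hM
  have hfd : FiniteDimensional L M :=
    IntermediateField.finiteDimensional_adjoin fun y _ =>
      (Pool.Agent.H58P.qb_isIntegral y).tower_top
  have hxM : ∀ i, x i ∈ M := fun i => IntermediateField.subset_adjoin _ _ ⟨i, rfl⟩
  let x' : Fin n → M := fun i => ⟨x i, hxM i⟩
  let v : ((i : Fin n) → Fin (N i + 1)) → M := fun u => ∏ i, x' i ^ (u i : ℕ)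
  have hnli : ¬ LinearIndependent L v := by
    intro hli
    have h1 := hli.fintype_card_le_finrank
    rw [Fintype.card_pi] at h1
    simp only [Fintype.card_fin] at h1
    omega
  rw [Fintype.not_linearIndependent_iff] at hnli
  obtain ⟨g, hg, u₀, hu₀⟩ := hnli
  let e : ((i : Fin n) → Fin (N i + 1)) → (Fin n →₀ ℕ) := fun u =>
    Finsupp.equivFunOnFinite.symm fun i => (u i : ℕ)
  have he : ∀ u i, e u i = (u i : ℕ) := fun u i => rfl
  have hinj : Function.Injective e := by
    intro u w huw
    funext i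
    have h1 := DFunLike.congr_fun huw i
    rw [he, he] at h1
    exact Fin.ext h1
  let P : MvPolynomial (Fin n) L := ∑ u, MvPolynomial.monomial (e u) (g u)
  have hcoeff : ∀ u, P.coeff (e u) = g u := by
    intro u
    show (∑ w, MvPolynomial.monomial (e w) (g w)).coeff (e u) = g u
    rw [MvPolynomial.coeff_sum]
    rw [Finset.sum_eq_single u]
    · rw [MvPolynomial.coeff_monomial, if_pos rfl]
    · intro w _ hw
      rw [MvPolynomial.coeff_monomial, if_neg fun h => hw (hinj h)]
    · intro h
      exact absurd (Finset.mem_univ u) h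
  refine ⟨P, ?_, ?_, ?_⟩
  · intro h0
    apply hu₀
    rw [← hcoeff u₀, h0, MvPolynomial.coeff_zero]
  · show MvPolynomial.aeval x (∑ u, MvPolynomial.monomial (e u) (g u)) = 0
    rw [map_sum]
    have h1 : ∀ u, MvPolynomial.aeval x (MvPolynomial.monomial (e u) (g u)) =
        ((g u • v u : M) : Qb) := by
      intro u
      rw [MvPolynomial.aeval_monomial, Finsupp.prod_fintype _ _ (fun i => pow_zero _)]
      show algebraMap L Qb (g u) * ∏ i, x i ^ (u i : ℕ) = ((g u • ∏ i, x' i ^ (u i : ℕ) : M) : Qb)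
      rw [IntermediateField.coe_smul, Algebra.smul_def]
      congr 1
      rw [IntermediateField.coe_prod]
      rfl
    rw [Finset.sum_congr rfl fun u _ => h1 u, ← IntermediateField.coe_sum, hg]
    rfl
  · intro i
    rw [MvPolynomial.degreeOf_le_iff]
    intro m hm
    have h1 : m ∈ Finset.univ.biUnion fun u => (MvPolynomial.monomial (e u) (g u)).support :=
      MvPolynomial.support_sum hm
    rw [Finset.mem_biUnion] at h1
    obtain ⟨u, -, hu⟩ := h1
    have h2 := MvPolynomial.support_monomial_subset hu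
    rw [Finset.mem_singleton] at h2
    rw [h2, he]
    have := (u i).2
    omega

/-- from the multidegree of hypersurfaces to the degree of the point -/
theorem product_bound {n : ℕ} (L : GF) (x : Fin n → Qb) (c : ℝ) (hc : 0 < c)
    (h : ∀ P : MvPolynomial (Fin n) L, P ≠ 0 → MvPolynomial.aeval x P = 0 →
      c ≤ ∑ i, (P.degreeOf i : ℝ) * ht (x i)) :
    (c / n) ^ n ≤ (∏ i, ht (x i)) *
      (Module.finrank L (IntermediateField.adjoin L (Set.range x)) : ℝ) := by
  classical
  set M := IntermediateField.adjoin L (Set.range x) with hM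
  have hfd : FiniteDimensional L M :=
    IntermediateField.finiteDimensional_adjoin fun y _ =>
      (Pool.Agent.H58P.qb_isIntegral y).tower_top
  set I := Module.finrank L M with hI
  have hI0 : 0 < I := Module.finrank_pos
  have hIR : (1 : ℝ) ≤ I := by exact_mod_cast hI0
  rcases Nat.eq_zero_or_pos n with rfl | hn
  · simpa using hIR
  by_contra hcon
  push Not at hcon
  have hnR : (0 : ℝ) < n := by exact_mod_cast hn
  set t : ℝ := c / n with ht'
  have ht0 : 0 < t := by positivity
  let N : Fin n → ℕ := fun i => if ht (x i) = 0 then I else ⌈t / ht (x i)⌉₊ - 1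
  have hN1 : ∀ i, (N i : ℝ) * ht (x i) < t := by
    intro i
    by_cases h0 : ht (x i) = 0
    · rw [h0, mul_zero]
      exact ht0
    · have hpos : 0 < ht (x i) := lt_of_le_of_ne (ht_nonneg _) (Ne.symm h0)
      have h1 : N i = ⌈t / ht (x i)⌉₊ - 1 := if_neg h0
      have h2 : 0 < ⌈t / ht (x i)⌉₊ := Nat.ceil_pos.mpr (div_pos ht0 hpos)
      have h3 : (N i : ℝ) < t / ht (x i) := by
        apply Nat.lt_ceil.mp
        rw [h1]
        omega
      rwa [lt_div_iff₀ hpos] at h3
  have hN2 : I < ∏ i, (N i + 1) := by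
    by_cases h0 : ∃ i, ht (x i) = 0
    · obtain ⟨i, hi⟩ := h0
      have h1 : N i = I := if_pos hi
      calc I < N i + 1 := by rw [h1]; omega
        _ ≤ ∏ i, (N i + 1) := by
          apply Nat.le_of_dvd (Finset.prod_pos fun i _ => Nat.succ_pos _)
          exact Finset.dvd_prod_of_mem (fun i => N i + 1) (Finset.mem_univ i)
    · push Not at h0
      have hpos : ∀ i, 0 < ht (x i) := fun i => lt_of_le_of_ne (ht_nonneg _) (Ne.symm (h0 i))
      have h1 : ∀ i, t / ht (x i) ≤ ((N i + 1 : ℕ) : ℝ) := by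
        intro i
        have h2 : N i = ⌈t / ht (x i)⌉₊ - 1 := if_neg (h0 i)
        have h3 : 0 < ⌈t / ht (x i)⌉₊ := Nat.ceil_pos.mpr (div_pos ht0 (hpos i))
        have h4 : N i + 1 = ⌈t / ht (x i)⌉₊ := by omega
        rw [h4]
        exact Nat.le_ceil _
      have h2 : t ^ n / ∏ i, ht (x i) ≤ ∏ i, ((N i + 1 : ℕ) : ℝ) := by
        calc t ^ n / ∏ i, ht (x i) = ∏ i, (t / ht (x i)) := by
              rw [Finset.prod_div_distrib, Finset.prod_const, Finset.card_univ, Fintype.card_fin]
          _ ≤ ∏ i, ((N i + 1 : ℕ) : ℝ) :=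
              Finset.prod_le_prod (fun i _ => (div_pos ht0 (hpos i)).le) fun i _ => h1 i
      have hP : 0 < ∏ i, ht (x i) := Finset.prod_pos fun i _ => hpos i
      have h3 : (I : ℝ) < t ^ n / ∏ i, ht (x i) := by
        rw [lt_div_iff₀ hP, mul_comm]
        exact hcon
      have h4 := h3.trans_le h2
      rw [← Nat.cast_prod] at h4
      exact_mod_cast h4
  obtain ⟨P, hP0, hPx, hPd⟩ := exists_poly L x N hN2
  have h1 := h P hP0 hPx
  have h2 : ∑ i, (P.degreeOf i : ℝ) * ht (x i) < ∑ _i : Fin n, t := by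
    apply Finset.sum_lt_sum_of_nonempty ⟨⟨0, hn⟩, Finset.mem_univ _⟩
    intro i _
    refine lt_of_le_of_lt ?_ (hN1 i)
    apply mul_le_mul_of_nonneg_right _ (ht_nonneg _)
    exact_mod_cast hPd i
  rw [Finset.sum_const, Finset.card_univ, Fintype.card_fin, nsmul_eq_mul, ht',
    mul_div_cancel₀ _ hnR.ne'] at h2
  linarith

end Pool.Agent.TH53.BL
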