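import Mathlib

/-!
# A valuation ring of `ℂ` above a prime number

`exists_val p`: a valuation subring of `ℂ` which contains all algebraic integers and does not contain
`1 / p`.
-/

set_option autoImplicit false

open Polynomial

namespace Pool.Agent.TH53.HR

/-- `V` contains all algebraic integers, and not `1 / p` -/
structure Good (p : ℕ) (V : ValuationSubring ℂ) : Prop where
  int : ∀ z : ℂ, IsIntegral ℤ z → z ∈ V
  inv : (p : ℂ)⁻¹ ∉ V

theorem exists_val (p : ℕ) (hp : p.Prime) : ∃ V : ValuationSubring ℂ, Good p V := by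
  have hx : (p : ℂ)⁻¹ ∉ (integralClosure ℤ ℂ).toSubring := by
    intro h
    have h1 : IsIntegral ℤ ((p : ℂ)⁻¹) := h
    have h2 : IsIntegral ℤ ((p : ℚ)⁻¹) := by
      have : algebraMap ℚ ℂ ((p : ℚ)⁻¹) = (p : ℂ)⁻¹ := by simp
      rw [← this] at h1
      exact (isIntegral_algebraMap_iff (algebraMap ℚ ℂ).injective).mp h1
    obtain ⟨n, hn⟩ := IsIntegrallyClosed.isIntegral_iff.mp h2
    have hp0 : (p : ℚ) ≠ 0 := by exact_mod_cast hp.ne_zero
    have h3 : (n : ℚ) * p = 1 := by
      have : (n : ℚ) = (p : ℚ)⁻¹ := by rw [← hn]; rfl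
      rw [this]; field_simp
    have h4 : n * p = 1 := by exact_mod_cast h3
    have h5 : IsUnit (p : ℤ) := IsUnit.of_mul_eq_one n (by rw [mul_comm]; exact h4)
    rw [Int.isUnit_iff] at h5
    have := hp.two_le
    omega
  have : IsIntegrallyClosedIn (integralClosure ℤ ℂ).toSubring ℂ :=
    inferInstanceAs (IsIntegrallyClosedIn (integralClosure ℤ ℂ) ℂ)
  obtain ⟨V, hV, hV2⟩ := Subring.exists_le_valuationSubring_of_isIntegrallyClosedIn hx
  exact ⟨V, fun z hz => hV hz, hV2⟩

variable {p : ℕ} {V : ValuationSubring ℂ}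

/-- a rational number `r / p ^ m` in `V` is an integer -/
lemma pow_dvd_of_mem (hp : p.Prime) (hV : Good p V) (m : ℕ) (r : ℤ)
    (h : (r : ℂ) / (p : ℂ) ^ m ∈ V) : (p : ℤ) ^ m ∣ r := by
  have hp0 : (p : ℂ) ≠ 0 := by exact_mod_cast hp.ne_zero
  have hpp : Prime (p : ℤ) := Nat.prime_iff_prime_int.mp hp
  induction m generalizing r with
  | zero => simp
  | succ m ih =>
    have hpV : (p : ℂ) ∈ V := hV.int _ (by
      simpa using isIntegral_algebraMap (R := ℤ) (A := ℂ) (x := (p : ℤ)))
    have hpm : (p : ℂ) ^ m ∈ V := V.pow_mem hpV m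
    by_cases hr : (p : ℤ) ∣ r
    · obtain ⟨c, rfl⟩ := hr
      rw [pow_succ']
      apply mul_dvd_mul_left
      apply ih
      have : (((p : ℤ) * c : ℤ) : ℂ) / (p : ℂ) ^ (m + 1) = (c : ℂ) / (p : ℂ) ^ m := by
        push_cast
        field_simp
        ring
      rwa [this] at h
    · exfalso
      have hc : IsCoprime r (p : ℤ) := ((Prime.coprime_iff_not_dvd hpp).mpr hr).symm
      obtain ⟨a, b, hab⟩ := hc
      apply hV.inv
      have h1 : (p : ℂ)⁻¹ = (a : ℂ) * (((r : ℂ) / (p : ℂ) ^ (m + 1)) * (p : ℂ) ^ m) + b := by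
        have h2 : (a : ℂ) * r + b * p = 1 := by exact_mod_cast hab
        have h3 : ((r : ℂ) / (p : ℂ) ^ (m + 1)) * (p : ℂ) ^ m = r / p := by
          rw [pow_succ]; field_simp
        rw [h3]
        field_simp
        linear_combination -h2
      rw [h1]
      have ha : (a : ℂ) ∈ V := by
        have := hV.int (a : ℂ) (by simpa using isIntegral_algebraMap (R := ℤ) (A := ℂ) (x := a))
        exact this
      have hb : (b : ℂ) ∈ V := by
        have := hV.int (b : ℂ) (by simpa using isIntegral_algebraMap (R := ℤ) (A := ℂ) (x := b))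
        exact this
      exact V.add_mem _ _ (V.mul_mem _ _ ha (V.mul_mem _ _ h hpm)) hb

end Pool.Agent.TH53.HR
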