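import Mathlib
import Pool.Agent.TH53.HR1

/-!
# Divisibility of a Vandermonde determinant by a power of `p`
-/

set_option autoImplicit false

open Polynomial Finset

namespace Pool.Agent.TH53.HR

lemma sum_bound (t : ℕ) (ht : 0 < t) (h N : ℕ) :
    ((N - h : ℕ) : ℤ) * (((N - h : ℕ) : ℤ) - 2 * t) ≤
      2 * t * ((∑ m ∈ Finset.range N, (m - h) / t : ℕ) : ℤ) := by
  induction N with
  | zero => simp
  | succ N ih =>
    rw [Finset.sum_range_succ]
    push_cast
    rcases lt_or_ge N h with h1 | h1
    · have h2 : N + 1 - h = 0 := by omega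
      have h3 : N - h = 0 := by omega
      rw [h2, h3]
      rw [h3] at ih
      push_cast at ih ⊢
      simp at ih ⊢
      positivity
    · obtain ⟨x, rfl⟩ := Nat.exists_eq_add_of_le h1
      have h2 : h + x + 1 - h = x + 1 := by omega
      have h3 : h + x - h = x := by omega
      rw [h2, h3]
      rw [h3] at ih
      push_cast at ih ⊢
      have h4 : (x : ℤ) < (x / t : ℕ) * t + t := by exact_mod_cast Nat.lt_div_mul_add ht
      push_cast at h4
      nlinarith

variable {p : ℕ} {V : ValuationSubring ℂ}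

/-- determinants of matrices with entries in `V` -/
lemma det_mem {n : ℕ} (M : Matrix (Fin n) (Fin n) ℂ) (hM : ∀ i j, M i j ∈ V) : M.det ∈ V := by
  have : M = (Matrix.of fun i j => (⟨M i j, hM i j⟩ : V)).map V.subtype := by
    ext i j; rfl
  rw [this, ← RingHom.mapMatrix_apply, ← RingHom.map_det]
  exact (Matrix.det _ : V).2

lemma aeval_mem {z : ℂ} (hz : z ∈ V) (P : ℤ[X]) : aeval z P ∈ V := by
  have h : aeval z P = V.subtype (aeval (⟨z, hz⟩ : V) P) := by
    rw [Polynomial.aeval_def, Polynomial.aeval_def, Polynomial.hom_eval₂]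
    congr 1
  rw [h]
  exact (aeval (⟨z, hz⟩ : V) P : V).2

/-- the auxiliary polynomials -/
noncomputable def auxP (N : ℕ) (v : Fin N → ℂ) (H : Finset (Fin N)) (F : ℤ[X]) (t m : ℕ) : ℂ[X] :=
  if H.card ≤ m then (∏ u ∈ H, (X - C (v u))) *
    (X ^ ((m - H.card) % t) * (F.map (Int.castRingHom ℂ)) ^ ((m - H.card) / t)) else X ^ m

lemma auxP_monic {N : ℕ} (v : Fin N → ℂ) (H : Finset (Fin N)) {F : ℤ[X]} (hF : F.Monic)
    (t m : ℕ) : (auxP N v H F t m).Monic := by
  unfold auxP
  split_ifs
  · exact (monic_prod_of_monic _ _ fun u _ => monic_X_sub_C _).mul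
      ((monic_X_pow _).mul ((hF.map _).pow _))
  · exact monic_X_pow m

lemma auxP_natDegree {N : ℕ} (v : Fin N → ℂ) (H : Finset (Fin N)) {F : ℤ[X]} (hF : F.Monic)
    (m : ℕ) : (auxP N v H F F.natDegree m).natDegree = m := by
  unfold auxP
  split_ifs with h
  · rw [(monic_prod_of_monic _ _ fun u _ => monic_X_sub_C _).natDegree_mul
      ((monic_X_pow _).mul ((hF.map _).pow _)), (monic_X_pow _).natDegree_mul ((hF.map _).pow _),
      natDegree_X_pow, (hF.map _).natDegree_pow, hF.natDegree_map,
      natDegree_prod_of_monic _ _ fun u _ => monic_X_sub_C _]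
    simp only [natDegree_X_sub_C, Finset.sum_const, smul_eq_mul, mul_one]
    have := Nat.mod_add_div (m - H.card) F.natDegree
    rw [mul_comm] at this
    rw [mul_comm ((m - H.card) / F.natDegree)]
    have h2 := Nat.mod_add_div (m - H.card) F.natDegree
    omega
  · exact natDegree_X_pow m

/-- the values of the auxiliary polynomials -/
lemma auxP_eval_mem (hp : p ≠ 0) {N : ℕ} (v : Fin N → ℂ) (hv : ∀ i, v i ∈ V) (H : Finset (Fin N))
    (F : ℤ[X]) (hF : ∀ i, i ∉ H → aeval (v i) F / p ∈ V) (t m : ℕ) (i : Fin N) :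
    (auxP N v H F t m).eval (v i) / (p : ℂ) ^ ((m - H.card) / t) ∈ V := by
  have hp0 : (p : ℂ) ≠ 0 := by exact_mod_cast hp
  unfold auxP
  split_ifs with h
  · by_cases hi : i ∈ H
    · have : (∏ u ∈ H, (X - C (v u))).eval (v i) = 0 := by
        rw [eval_prod]
        exact Finset.prod_eq_zero hi (by simp)
      rw [eval_mul, this, zero_mul, zero_div]
      exact V.zero_mem
    · have e : (((∏ u ∈ H, (X - C (v u))) *
          (X ^ ((m - H.card) % t) * (F.map (Int.castRingHom ℂ)) ^ ((m - H.card) / t))).eval (v i)) /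
          (p : ℂ) ^ ((m - H.card) / t) = (∏ u ∈ H, (v i - v u)) * ((v i) ^ ((m - H.card) % t) *
            (aeval (v i) F / p) ^ ((m - H.card) / t)) := by
        rw [eval_mul, eval_mul, eval_pow, eval_pow, eval_X, eval_prod, div_pow, eval_map,
          Polynomial.aeval_def]
        simp only [eval_sub, eval_X, eval_C]
        have : (algebraMap ℤ ℂ) = Int.castRingHom ℂ := rfl
        rw [this]
        ring
      rw [e]
      refine V.mul_mem _ _ (V.toSubring.prod_mem fun u _ => V.toSubring.sub_mem (hv i) (hv u))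
        (V.mul_mem _ _ (V.toSubring.pow_mem (hv i) _) (V.toSubring.pow_mem (hF i hi) _))
  · have : (m - H.card) / t = 0 := by
      have : m - H.card = 0 := by omega
      rw [this]; simp
    rw [this, pow_zero, div_one, eval_pow, eval_X]
    exact V.toSubring.pow_mem (hv i) _

/-- **divisibility of the Vandermonde determinant** -/
theorem vandermonde_div (hp : p ≠ 0) {N : ℕ} (v : Fin N → ℂ) (hv : ∀ i, v i ∈ V)
    (H : Finset (Fin N)) (F : ℤ[X]) (hFm : F.Monic)
    (hF : ∀ i, i ∉ H → aeval (v i) F / p ∈ V) :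
    (Matrix.vandermonde v).det /
      (p : ℂ) ^ (∑ m ∈ Finset.range N, (m - H.card) / F.natDegree) ∈ V := by
  have hp0 : (p : ℂ) ≠ 0 := by exact_mod_cast hp
  set t := F.natDegree with ht
  rw [Matrix.det_eval_matrixOfPolynomials_eq_det_vandermonde v
    (fun m : Fin N => auxP N v H F t (m : ℕ)) (fun m => auxP_natDegree v H hFm m)
    (fun m => auxP_monic v H hFm t m)]
  have e : (Matrix.of fun i j : Fin N => (auxP N v H F t (j : ℕ)).eval (v i)) =
      Matrix.of fun i j : Fin N => (p : ℂ) ^ (((j : ℕ) - H.card) / t) *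
        (Matrix.of fun i j : Fin N => (auxP N v H F t (j : ℕ)).eval (v i) /
          (p : ℂ) ^ (((j : ℕ) - H.card) / t)) i j := by
    ext i j
    simp only [Matrix.of_apply]
    field_simp
  rw [e, Matrix.det_mul_row, Finset.prod_pow_eq_pow_sum,
    Fin.sum_univ_eq_sum_range (fun m => (m - H.card) / t) N, mul_div_assoc, mul_comm,
    div_mul_cancel₀ _ (pow_ne_zero _ hp0)]
  apply det_mem
  intro i j
  exact auxP_eval_mem hp v hv H F hF t j i

end Pool.Agent.TH53.HR
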