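import Mathlib
import Pool.Agent.TH53.HR2
import Pool.Agent.TH53.HR3
import Pool.Agent.H388SL.DobA

/-!
# The determinant inequality
-/

set_option autoImplicit false

open Polynomial Finset Module

namespace Pool.Agent.TH53.HR

open Pool.Agent.H388SL

variable {p : ℕ} {V : ValuationSubring ℂ}

/-- the square of a Vandermonde determinant whose power sums are integers is an integer -/
lemma det_sq_int {N : ℕ} (v : Fin N → ℂ) (hs : ∀ j : ℕ, ∃ m : ℤ, ∑ i, v i ^ j = m) :
    ∃ r : ℤ, (Matrix.vandermonde v).det ^ 2 = r := by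
  choose m hm using hs
  have e : (Matrix.vandermonde v).transpose * Matrix.vandermonde v =
      (Matrix.of fun i j : Fin N => m ((i : ℕ) + j)).map (Int.castRingHom ℂ) := by
    ext i j
    rw [Matrix.mul_apply, Matrix.map_apply, Matrix.of_apply, eq_intCast, ← hm]
    refine Finset.sum_congr rfl fun u _ => ?_
    rw [Matrix.transpose_apply, Matrix.vandermonde_apply, Matrix.vandermonde_apply, pow_add]
  refine ⟨(Matrix.of fun i j : Fin N => m ((i : ℕ) + j)).det, ?_⟩
  have h := congrArg Matrix.det e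
  rw [Matrix.det_mul, Matrix.det_transpose, ← RingHom.mapMatrix_apply, ← RingHom.map_det] at h
  rw [sq, h]
  rfl

lemma det_lower (hp : p.Prime) (hV : Good p V) {N : ℕ} (v : Fin N → ℂ)
    (hinj : Function.Injective v) (hint : ∀ i, IsIntegral ℤ (v i))
    (hs : ∀ j : ℕ, ∃ m : ℤ, ∑ i, v i ^ j = m)
    (H : Finset (Fin N)) (F : ℤ[X]) (hFm : F.Monic)
    (hF : ∀ i, i ∉ H → aeval (v i) F / p ∈ V) :
    (p : ℝ) ^ (2 * ∑ m ∈ Finset.range N, (m - H.card) / F.natDegree) ≤
      ‖(Matrix.vandermonde v).det‖ ^ 2 := by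
  obtain ⟨r, hr⟩ := det_sq_int v hs
  have h1 := vandermonde_div (p := p) (V := V) hp.ne_zero v (fun i => hV.int _ (hint i)) H F hFm hF
  set S := ∑ m ∈ Finset.range N, (m - H.card) / F.natDegree with hS
  have h2 : (r : ℂ) / (p : ℂ) ^ (2 * S) ∈ V := by
    have : (r : ℂ) / (p : ℂ) ^ (2 * S) = ((Matrix.vandermonde v).det / (p : ℂ) ^ S) ^ 2 := by
      rw [div_pow, hr, ← pow_mul, mul_comm S 2]
    rw [this]
    exact V.toSubring.pow_mem h1 2
  have h3 := pow_dvd_of_mem hp hV _ _ h2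
  have hD : (Matrix.vandermonde v).det ≠ 0 := Matrix.det_vandermonde_ne_zero_iff.mpr hinj
  have hr0 : r ≠ 0 := by
    rintro rfl
    rw [Int.cast_zero] at hr
    exact hD (pow_eq_zero_iff (two_ne_zero) |>.mp hr)
  have h4 : (p : ℤ) ^ (2 * S) ≤ |r| :=
    Int.le_of_dvd (abs_pos.mpr hr0) ((dvd_abs _ _).mpr h3)
  have h5 : ‖(Matrix.vandermonde v).det‖ ^ 2 = ((|r| : ℤ) : ℝ) := by
    rw [← norm_pow, hr, Complex.norm_intCast, Int.cast_abs]
  rw [h5]
  exact_mod_cast h4

/-- **the determinant inequality** -/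
theorem gen_ineq {ι : Type*} [Fintype ι] (hp : p.Prime) (hV : Good p V) (v : ι → ℂ)
    (hinj : Function.Injective v) (hint : ∀ i, IsIntegral ℤ (v i))
    (hs : ∀ j : ℕ, ∃ m : ℤ, ∑ i, v i ^ j = m)
    (H : Finset ι) (F : ℤ[X]) (hFm : F.Monic) (hFt : 0 < F.natDegree)
    (hF : ∀ i, i ∉ H → aeval (v i) F / p ∈ V) :
    ((Fintype.card ι : ℝ) - H.card) * ((Fintype.card ι : ℝ) - H.card - 2 * F.natDegree) *
        Real.log p ≤
      F.natDegree * (Fintype.card ι * (Real.log (Fintype.card ι) +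
        2 * ∑ i, Real.log (max 1 ‖v i‖))) := by
  classical
  set N := Fintype.card ι with hN
  set t := F.natDegree with ht
  let e : Fin N ≃ ι := (Fintype.equivFin ι).symm
  set w : Fin N → ℂ := fun i => v (e i) with hw
  set H' : Finset (Fin N) := H.map e.symm.toEmbedding with hH'
  have hcard : H'.card = H.card := Finset.card_map _
  have h1 := det_lower hp hV w (hinj.comp e.injective) (fun i => hint _) (fun j => by
    obtain ⟨m, hm⟩ := hs j
    exact ⟨m, by rw [← hm]; exact Fintype.sum_equiv e _ _ fun i => rfl⟩) H' F hFm (fun i hi => by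
    apply hF
    intro h
    apply hi
    rw [hH', Finset.mem_map]
    exact ⟨e i, h, by simp⟩)
  rw [hcard] at h1
  have h2 := vandermonde_le w
  have hp1 : (1 : ℝ) < p := by exact_mod_cast hp.one_lt
  have hlogp : 0 < Real.log p := Real.log_pos hp1
  have h3 := h1.trans h2
  set S := ∑ m ∈ Finset.range N, (m - H.card) / t with hS
  have hHN : H.card ≤ N := Finset.card_le_univ H
  have hsb := sum_bound t hFt H.card N
  rw [← hS] at hsb
  have hsb' : ((N : ℝ) - H.card) * ((N : ℝ) - H.card - 2 * t) ≤ 2 * t * S := by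
    have h4 : ((N - H.card : ℕ) : ℝ) = (N : ℝ) - H.card := by rw [Nat.cast_sub hHN]
    rw [← h4]
    exact_mod_cast hsb
  rcases Nat.eq_zero_or_pos N with hN0 | hN0
  · have h5 : H.card = 0 := by omega
    rw [hN0, h5]
    simp
  have hN1 : (0 : ℝ) < N := by exact_mod_cast hN0
  have h4 : 2 * (S : ℝ) * Real.log p ≤ N * Real.log N +
      2 * (N - 1) * ∑ i, Real.log (max 1 ‖v i‖) := by
    have h5 := Real.log_le_log (by positivity) h3
    have hmax : ∀ i, (0:ℝ) < max 1 ‖w i‖ := fun i => lt_of_lt_of_le one_pos (le_max_left _ _)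
    have hpos : ∀ i ∈ (Finset.univ : Finset (Fin N)), (max 1 ‖w i‖) ^ (2 * (N - 1)) ≠ 0 :=
      fun i _ => (pow_pos (hmax i) _).ne'
    rw [Real.log_pow, Real.log_mul (by positivity) (Finset.prod_ne_zero_iff.mpr hpos),
      Real.log_pow, Real.log_prod hpos] at h5
    simp_rw [Real.log_pow] at h5
    rw [← Finset.mul_sum] at h5
    have h6 : ∑ i, Real.log (max 1 ‖w i‖) = ∑ i, Real.log (max 1 ‖v i‖) :=
      Fintype.sum_equiv e _ _ fun i => rfl
    rw [h6] at h5
    push_cast [Nat.cast_sub hN0] at h5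
    linarith
  have hsum : 0 ≤ ∑ i, Real.log (max 1 ‖v i‖) :=
    Finset.sum_nonneg fun _ _ => Real.log_nonneg (le_max_left _ _)
  have ht0 : (0:ℝ) < t := by exact_mod_cast hFt
  calc ((N : ℝ) - H.card) * ((N : ℝ) - H.card - 2 * t) * Real.log p
      ≤ 2 * t * S * Real.log p := mul_le_mul_of_nonneg_right hsb' hlogp.le
    _ = t * (2 * S * Real.log p) := by ring
    _ ≤ t * (N * Real.log N + 2 * (N - 1) * ∑ i, Real.log (max 1 ‖v i‖)) :=
        mul_le_mul_of_nonneg_left h4 ht0.le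
    _ ≤ t * (N * (Real.log N + 2 * ∑ i, Real.log (max 1 ‖v i‖))) := by
        apply mul_le_mul_of_nonneg_left _ ht0.le
        nlinarith

/-- Frobenius -/
lemma expand_pow_eq (p : ℕ) [Fact p.Prime] (b : ℕ) (G : ℤ[X]) :
    ∃ v : ℤ[X], expand ℤ (p ^ b) G = G ^ (p ^ b) + C (p : ℤ) * v := by
  have h0 : ∀ (b : ℕ) (g : (ZMod p)[X]), expand (ZMod p) (p ^ b) g = g ^ (p ^ b) := by
    intro b
    induction b with
    | zero => intro g; simp
    | succ b ih =>
      intro g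
      rw [pow_succ, ← Polynomial.expand_expand, ih, ZMod.expand_card, ← pow_mul, mul_comm]
  have h1 : (expand ℤ (p ^ b) G - G ^ (p ^ b)).map (Int.castRingHom (ZMod p)) = 0 := by
    rw [Polynomial.map_sub, Polynomial.map_pow, Polynomial.map_expand, h0, sub_self]
  have : C (p : ℤ) ∣ (expand ℤ (p ^ b) G - G ^ (p ^ b)) := by
    rw [Polynomial.C_dvd_iff_dvd_coeff]
    intro i
    have h1 := congrArg (fun u => Polynomial.coeff u i) h1
    simp only [Polynomial.coeff_map, Polynomial.coeff_zero, eq_intCast] at h1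
    exact (ZMod.intCast_zmod_eq_zero_iff_dvd _ _).1 h1
  obtain ⟨v, hv⟩ := this
  exact ⟨v, by rw [← hv]; ring⟩

lemma aeval_pow_div_mem (hp : p.Prime) {z : ℂ} (hz : z ∈ V) (F : ℤ[X]) {E b : ℕ}
    (hE : E ≤ p ^ b) (h : (aeval z F) ^ E / p ∈ V) : aeval (z ^ (p ^ b)) F / p ∈ V := by
  have : Fact p.Prime := ⟨hp⟩
  have hp0 : (p : ℂ) ≠ 0 := by exact_mod_cast hp.ne_zero
  obtain ⟨J, hJ⟩ := expand_pow_eq p b F
  obtain ⟨c, hc⟩ := Nat.exists_eq_add_of_le hE
  have h1 : aeval (z ^ (p ^ b)) F = (aeval z F) ^ (p ^ b) + p * aeval z J := by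
    rw [← Polynomial.expand_aeval, hJ]
    simp
  rw [h1, hc, pow_add, add_div, mul_div_cancel_left₀ _ hp0, mul_div_right_comm]
  exact V.add_mem _ _ (V.mul_mem _ _ h (V.toSubring.pow_mem (aeval_mem hz F) c)) (aeval_mem hz J)

variable {K : Type*} [Field K] [NumberField K]

lemma trace_int {β : K} (hβ : IsIntegral ℤ β) : ∃ m : ℤ, ∑ σ : K →ₐ[ℚ] ℂ, σ β = m := by
  have h1 := trace_eq_sum_embeddings (K := ℚ) (L := K) ℂ (x := β)
  have h2 : IsIntegral ℤ (Algebra.trace ℚ K β) := Algebra.isIntegral_trace hβ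
  obtain ⟨m, hm⟩ := IsIntegrallyClosed.isIntegral_iff.mp h2
  refine ⟨m, ?_⟩
  rw [← h1, ← hm]
  simp

/-- **the core inequality in a number field** -/
theorem field_ineq (hp : p.Prime) (hV : Good p V) {α : K} (hα : IsIntegral ℤ α) (h0 : α ≠ 0)
    (hroot : ∀ n : ℕ, 0 < n → α ^ n ≠ 1) (hc : ∀ s : ℕ, CInj (α ^ p ^ s))
    (F : ℤ[X]) (hFm : F.Monic) (hFt : 0 < F.natDegree) {E s : ℕ} (hE : E ≤ p ^ s)
    (G : Finset (K →ₐ[ℚ] ℂ)) (hG : ∀ σ ∈ G, (aeval (σ α) F) ^ E / p ∈ V) (k : ℕ) (hk : 0 < k) :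
    (G.card : ℝ) * (k * G.card - 2 * F.natDegree) * Real.log p ≤
      F.natDegree * (finrank ℚ K * (Real.log (k * finrank ℚ K) +
        2 * ((p : ℝ) ^ s * ∑ a ∈ Finset.range k, (p : ℝ) ^ a) * lam α)) := by
  classical
  let v : Fin k × (K →ₐ[ℚ] ℂ) → ℂ := fun u => u.2 (α ^ p ^ (s + (u.1 : ℕ)))
  have hinj : Function.Injective v := by
    rintro ⟨a, σ⟩ ⟨b, τ⟩ h
    simp only [v] at h
    by_cases hab : a = b
    · subst hab
      have := hc (s + (a : ℕ)) h
      rw [this]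
    · exfalso
      have hne : p ^ (s + (a : ℕ)) ≠ p ^ (s + (b : ℕ)) := by
        intro h1
        have := Nat.pow_right_injective hp.two_le h1
        apply hab
        ext
        omega
      exact conj_ne hα h0 hroot hne (hc _) (hc _) σ τ h
  have hint : ∀ u, IsIntegral ℤ (v u) := fun u => (hα.pow _).map (u.2.restrictScalars ℤ)
  have hs : ∀ j : ℕ, ∃ m : ℤ, ∑ u, v u ^ j = m := by
    intro j
    have h1 : ∀ a : Fin k, ∃ m : ℤ, ∑ σ : K →ₐ[ℚ] ℂ, v (a, σ) ^ j = m := by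
      intro a
      obtain ⟨m, hm⟩ := trace_int ((hα.pow (p ^ (s + (a : ℕ)))).pow j)
      refine ⟨m, ?_⟩
      rw [← hm]
      refine Finset.sum_congr rfl fun σ _ => ?_
      rw [map_pow σ (α ^ _)]
    choose m hm using h1
    refine ⟨∑ a, m a, ?_⟩
    rw [Fintype.sum_prod_type, Int.cast_sum]
    exact Finset.sum_congr rfl fun a _ => hm a
  set H : Finset (Fin k × (K →ₐ[ℚ] ℂ)) := Finset.univ ×ˢ Gᶜ with hH
  have hHF : ∀ u, u ∉ H → aeval (v u) F / p ∈ V := by
    rintro ⟨a, σ⟩ hu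
    have hσ : σ ∈ G := by
      by_contra h
      apply hu
      rw [hH, Finset.mem_product]
      exact ⟨Finset.mem_univ _, Finset.mem_compl.mpr h⟩
    have h1 : v (a, σ) = (σ α) ^ p ^ (s + (a : ℕ)) := by simp [v]
    rw [h1]
    apply aeval_pow_div_mem hp (hV.int _ (hα.map (σ.restrictScalars ℤ))) F (E := E) _ (hG σ hσ)
    exact hE.trans (Nat.pow_le_pow_right hp.pos (Nat.le_add_right _ _))
  have h := gen_ineq hp hV v hinj hint hs H F hFm hFt hHF
  have hn : Fintype.card (K →ₐ[ℚ] ℂ) = finrank ℚ K := AlgHom.card ℚ K ℂ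
  have hcard : Fintype.card (Fin k × (K →ₐ[ℚ] ℂ)) = k * finrank ℚ K := by
    rw [Fintype.card_prod, Fintype.card_fin, hn]
  have hHc : (H.card : ℝ) = k * (finrank ℚ K - G.card) := by
    rw [hH, Finset.card_product, Finset.card_univ, Fintype.card_fin, Finset.card_compl, hn,
      Nat.cast_mul, Nat.cast_sub]
    rw [← hn]
    exact Finset.card_le_univ G
  rw [hcard, hHc] at h
  have hsum : ∑ u, Real.log (max 1 ‖v u‖) =
      ((p : ℝ) ^ s * ∑ a ∈ Finset.range k, (p : ℝ) ^ a) * lam α := by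
    rw [Fintype.sum_prod_type]
    have h1 : ∀ a : Fin k, ∑ σ : K →ₐ[ℚ] ℂ, Real.log (max 1 ‖v (a, σ)‖) =
        ((p : ℝ) ^ s * (p : ℝ) ^ (a : ℕ)) * lam α := by
      intro a
      have := lam_pow α (p ^ (s + (a : ℕ)))
      unfold lam at this
      rw [this]
      push_cast
      rw [pow_add]
      rfl
    rw [Finset.sum_congr rfl fun a _ => h1 a, ← Finset.sum_mul, ← Finset.mul_sum,
      Fin.sum_univ_eq_sum_range (fun a => (p : ℝ) ^ a) k]
  rw [hsum] at h
  push_cast at h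
  have hk0 : (0 : ℝ) < k := by exact_mod_cast hk
  set g : ℝ := (G.card : ℝ) with hg
  set n : ℝ := (finrank ℚ K : ℝ) with hnn
  set t : ℝ := (F.natDegree : ℝ) with htt
  have h2 : ((k : ℝ) * n - k * (n - g)) * (k * n - k * (n - g) - 2 * t) * Real.log p =
      k * (g * (k * g - 2 * t) * Real.log p) := by ring
  rw [h2] at h
  have h3 : t * (k * n * (Real.log (k * n) + 2 * ((p : ℝ) ^ s * (∑ a ∈ Finset.range k, (p : ℝ) ^ a) *
      lam α))) = k * (t * (n * (Real.log (k * n) + 2 * ((p : ℝ) ^ s *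
        ∑ a ∈ Finset.range k, (p : ℝ) ^ a) * lam α))) := by ring
  rw [h3] at h
  exact le_of_mul_le_mul_left h hk0

end Pool.Agent.TH53.HR
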