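import Mathlib
import Pool.Agent.TH53.HR4

/-!
# Counting the zeros whose residue is a zero of a factor modulo `p`
-/

set_option autoImplicit false

open Polynomial Finset Module

namespace Pool.Agent.TH53.HR

variable {p : ℕ} {V : ValuationSubring ℂ}

/-- the residue field of `V` -/
abbrev Rk (V : ValuationSubring ℂ) : Type := IsLocalRing.ResidueField V

lemma charP_Rk (hp : p.Prime) (hV : Good p V) : CharP (Rk V) p := by
  rw [CharP.charP_iff_prime_eq_zero hp]
  have h1 : ((p : V) : V) ∈ IsLocalRing.maximalIdeal V := by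
    rw [IsLocalRing.mem_maximalIdeal, mem_nonunits_iff]
    intro hu
    obtain ⟨u, hu⟩ := hu
    apply hV.inv
    have h2 : ((u⁻¹ : Vˣ) : V) * (p : V) = 1 := by rw [← hu]; exact u.inv_mul
    have h3 : ((((u⁻¹ : Vˣ) : V) : ℂ)) * (p : ℂ) = 1 := by
      have := congrArg (fun x : V => (x : ℂ)) h2
      simpa using this
    have h4 : (p : ℂ)⁻¹ = (((u⁻¹ : Vˣ) : V) : ℂ) := by
      rw [eq_comm]
      exact eq_inv_of_mul_eq_one_left h3
    rw [h4]
    exact ((u⁻¹ : Vˣ) : V).2
  have h2 := IsLocalRing.residue_eq_zero_iff (p : V) |>.mpr h1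
  rw [map_natCast] at h2
  exact h2

/-- division by `p` of elements of the form `a` with `a b ∈ p V` and `b` a unit -/
lemma div_mem_of_residue {b : V} (hb : IsLocalRing.residue V b ≠ 0) {a c : ℂ}
    (h : a * b = p * c) (hc : c ∈ V) (hp : p ≠ 0) : a / p ∈ V := by
  have hp0 : (p : ℂ) ≠ 0 := by exact_mod_cast hp
  have hu : IsUnit b := by
    by_contra h1
    exact hb ((IsLocalRing.residue_eq_zero_iff b).mpr h1)
  obtain ⟨u, rfl⟩ := hu
  have h2 : ((u : V) : ℂ) * (((u⁻¹ : Vˣ) : V) : ℂ) = 1 := congrArg Subtype.val u.mul_inv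
  have h3 : a / p = c * (((u⁻¹ : Vˣ) : V) : ℂ) := by
    rw [div_eq_iff hp0]
    calc a = a * (((u : V) : ℂ) * (((u⁻¹ : Vˣ) : V) : ℂ)) := by rw [h2, mul_one]
      _ = (a * u) * (((u⁻¹ : Vˣ) : V) : ℂ) := by ring
      _ = c * (((u⁻¹ : Vˣ) : V) : ℂ) * p := by rw [h]; ring
  rw [h3]
  exact V.mul_mem _ _ hc ((u⁻¹ : Vˣ) : V).2

/-- lifting of polynomials -/
lemma exists_lift (p : ℕ) (A : (ZMod p)[X]) :
    ∃ P : ℤ[X], P.map (Int.castRingHom (ZMod p)) = A := by
  have : Function.Surjective (Int.castRingHom (ZMod p)) := ZMod.intCast_surjective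
  exact Polynomial.map_surjective _ this A

lemma exists_mul_of_map_eq (p : ℕ) {P Q : ℤ[X]}
    (h : P.map (Int.castRingHom (ZMod p)) = Q.map (Int.castRingHom (ZMod p))) :
    ∃ W : ℤ[X], P = Q + C (p : ℤ) * W := by
  have h0 : (P - Q).map (Int.castRingHom (ZMod p)) = 0 := by
    rw [Polynomial.map_sub, h, sub_self]
  have : C (p : ℤ) ∣ (P - Q) := by
    rw [Polynomial.C_dvd_iff_dvd_coeff]
    intro i
    have h1 := congrArg (fun u => Polynomial.coeff u i) h0
    simp only [Polynomial.coeff_map, Polynomial.coeff_zero, eq_intCast] at h1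
    exact (ZMod.intCast_zmod_eq_zero_iff_dvd _ _).1 h1
  obtain ⟨v, hv⟩ := this
  exact ⟨v, by rw [← hv]; ring⟩

/-- the residue of the value of an integer polynomial -/
lemma residue_aeval (hp : p.Prime) (hV : Good p V) (w : V) (P : ℤ[X]) :
    haveI := charP_Rk hp hV
    IsLocalRing.residue V (aeval w P) =
      ((P.map (Int.castRingHom (ZMod p))).map (ZMod.castHom (dvd_refl p) (Rk V))).eval
        (IsLocalRing.residue V w) := by
  have := charP_Rk hp hV
  rw [Polynomial.map_map, Polynomial.eval_map, Polynomial.aeval_def, Polynomial.hom_eval₂]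
  congr 1
  exact RingHom.ext_int _ _

lemma coe_aeval (w : V) (P : ℤ[X]) : ((aeval w P : V) : ℂ) = aeval (w : ℂ) P := by
  have h : aeval (w : ℂ) P = V.subtype (aeval w P) := by
    rw [Polynomial.aeval_def, Polynomial.aeval_def, Polynomial.hom_eval₂]
    congr 1
  rw [h]
  rfl

/-- if the residue of `w` is a zero of `A` then `F(w) ^ E / p ∈ V` -/
lemma good_of_root (hp : p.Prime) (hV : Good p V) (f : ℤ[X]) (A B : (ZMod p)[X])
    (hAB : f.map (Int.castRingHom (ZMod p)) = A * B) (hco : IsCoprime A B) (F : ℤ[X]) (E : ℕ)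
    (hAF : A ∣ (F.map (Int.castRingHom (ZMod p))) ^ E) (w : V) (hw : aeval (w : ℂ) f = 0)
    (hroot : haveI := charP_Rk hp hV
      (A.map (ZMod.castHom (dvd_refl p) (Rk V))).eval (IsLocalRing.residue V w) = 0) :
    (aeval (w : ℂ) F) ^ E / p ∈ V := by
  have := charP_Rk hp hV
  set ψ := ZMod.castHom (dvd_refl p) (Rk V) with hψ
  have hp0 : (p : ℂ) ≠ 0 := by exact_mod_cast hp.ne_zero
  obtain ⟨A', hA'⟩ := exists_lift p A
  obtain ⟨B', hB'⟩ := exists_lift p B
  obtain ⟨W, hW⟩ := exists_mul_of_map_eq p (P := f) (Q := A' * B') (by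
    rw [Polynomial.map_mul, hA', hB', hAB])
  obtain ⟨D, hD⟩ := hAF
  obtain ⟨D', hD'⟩ := exists_lift p D
  obtain ⟨W2, hW2⟩ := exists_mul_of_map_eq p (P := F ^ E) (Q := A' * D') (by
    rw [Polynomial.map_mul, hA', hD', Polynomial.map_pow, hD])
  -- `B` does not vanish
  have hB0 : IsLocalRing.residue V (aeval w B') ≠ 0 := by
    rw [residue_aeval hp hV, hB']
    intro h
    obtain ⟨a, b, hab⟩ := hco
    have h1 := congrArg (fun P => (P.map ψ).eval (IsLocalRing.residue V w)) hab
    simp only [Polynomial.map_add, Polynomial.map_mul, eval_add, eval_mul, Polynomial.map_one,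
      eval_one] at h1
    rw [hroot, h] at h1
    simp at h1
  have h1 : aeval (w : ℂ) A' / p ∈ V := by
    apply div_mem_of_residue (b := aeval w B') hB0 (c := - aeval (w : ℂ) W) _ _ hp.ne_zero
    · rw [coe_aeval]
      have h2 := congrArg (fun P => aeval (w : ℂ) P) hW
      simp only [hw, map_add, map_mul, Polynomial.aeval_C] at h2
      simp at h2
      linear_combination -h2
    · exact V.neg_mem _ (aeval_mem w.2 W)
  have h3 : (aeval (w : ℂ) F) ^ E / p = (aeval (w : ℂ) A' / p) * aeval (w : ℂ) D' +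
      aeval (w : ℂ) W2 := by
    have h2 := congrArg (fun P => aeval (w : ℂ) P) hW2
    simp only [map_add, map_mul, map_pow, Polynomial.aeval_C] at h2
    simp at h2
    rw [h2]
    field_simp
  rw [h3]
  exact V.add_mem _ _ (V.mul_mem _ _ h1 (aeval_mem w.2 D')) (aeval_mem w.2 W2)

/-- **the number of good zeros is at least the degree of `A`** -/
theorem count_good (hp : p.Prime) (hV : Good p V) {ι : Type*} [Fintype ι] (f : ℤ[X]) (w : ι → V)
    (hf : f.map (Int.castRingHom ℂ) = ∏ i, (X - C (w i : ℂ))) (A B : (ZMod p)[X])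
    (hAB : f.map (Int.castRingHom (ZMod p)) = A * B) (hco : IsCoprime A B) (F : ℤ[X]) (E : ℕ)
    (hAF : A ∣ (F.map (Int.castRingHom (ZMod p))) ^ E)
    (G : Finset ι) (hG : ∀ i, (aeval (w i : ℂ) F) ^ E / p ∈ V → i ∈ G) :
    A.natDegree ≤ G.card := by
  classical
  have := charP_Rk hp hV
  have : Fact p.Prime := ⟨hp⟩
  set ψ := ZMod.castHom (dvd_refl p) (Rk V) with hψ
  have hz : ∀ i, aeval (w i : ℂ) f = 0 := by
    intro i
    rw [Polynomial.aeval_def, ← Polynomial.eval_map]
    change (f.map (Int.castRingHom ℂ)).eval _ = 0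
    rw [hf, eval_prod]
    exact Finset.prod_eq_zero (Finset.mem_univ i) (by simp)
  -- the polynomial over `V`
  have hfV : f.map (Int.castRingHom V) = ∏ i, (X - C (w i)) := by
    apply Polynomial.map_injective V.subtype V.subtype_injective
    rw [Polynomial.map_map, Polynomial.map_prod]
    have : V.subtype.comp (Int.castRingHom V) = Int.castRingHom ℂ := RingHom.ext_int _ _
    rw [this, hf]
    refine Finset.prod_congr rfl fun i _ => ?_
    rw [Polynomial.map_sub, Polynomial.map_X, Polynomial.map_C]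
    rfl
  have hfk : (A.map ψ) * (B.map ψ) = ∏ i, (X - C (IsLocalRing.residue V (w i))) := by
    rw [← Polynomial.map_mul, ← hAB, Polynomial.map_map]
    have h1 : ψ.comp (Int.castRingHom (ZMod p)) = (IsLocalRing.residue V).comp (Int.castRingHom V) :=
      RingHom.ext_int _ _
    rw [h1, ← Polynomial.map_map, hfV, Polynomial.map_prod]
    refine Finset.prod_congr rfl fun i _ => ?_
    rw [Polynomial.map_sub, Polynomial.map_X, Polynomial.map_C]
  have hdvd : A.map ψ ∣ (∏ i ∈ G, (X - C (IsLocalRing.residue V (w i)))) := by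
    have h1 : A.map ψ ∣ (∏ i ∈ G, (X - C (IsLocalRing.residue V (w i)))) *
        ∏ i ∈ Gᶜ, (X - C (IsLocalRing.residue V (w i))) := by
      rw [Finset.prod_mul_prod_compl]
      exact ⟨B.map ψ, hfk.symm⟩
    apply IsCoprime.dvd_of_dvd_mul_right _ h1
    apply IsCoprime.prod_right
    intro i hi
    rw [Finset.mem_compl] at hi
    rw [isCoprime_comm, (irreducible_X_sub_C _).coprime_iff_not_dvd, dvd_iff_isRoot]
    intro h
    exact hi (hG i (good_of_root hp hV f A B hAB hco F E hAF (w i) (hz i) h))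
  have h2 := natDegree_le_of_dvd hdvd (Finset.prod_ne_zero_iff.mpr fun i _ => X_sub_C_ne_zero _)
  rw [natDegree_prod _ _ fun i _ => X_sub_C_ne_zero _] at h2
  simp only [natDegree_X_sub_C, Finset.sum_const, smul_eq_mul, mul_one] at h2
  rwa [natDegree_map] at h2

end Pool.Agent.TH53.HR
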