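import Mathlib
import Pool.Agent.TH53.HR5
import Pool.Agent.H389R3.LR6
import Pool.Agent.H389R3.LP4

/-!
# Transfer to integer polynomials
-/

set_option autoImplicit false

open Polynomial Finset Module IntermediateField

namespace Pool.Agent.TH53.HR

open Pool.Agent.H388SL Pool.Agent.H389R3.LR

/-- no two distinct zeros of `f` have the same power with exponent a power of `p` -/
def NondegAt (p : ℕ) (f : ℤ[X]) : Prop :=
  ∀ z w : ℂ, aeval z f = 0 → aeval w f = 0 → ∀ s : ℕ, z ^ p ^ s = w ^ p ^ s → z = w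

lemma exists_pow_ge {p : ℕ} (hp : p.Prime) {E : ℕ} (hE : 1 ≤ E) :
    ∃ s : ℕ, E ≤ p ^ s ∧ p ^ s ≤ p * E := by
  have hex : ∃ s : ℕ, E ≤ p ^ s := ⟨E, (Nat.lt_pow_self hp.one_lt).le⟩
  classical
  refine ⟨Nat.find hex, Nat.find_spec hex, ?_⟩
  rcases Nat.eq_zero_or_pos (Nat.find hex) with h | h
  · rw [h, pow_zero]
    exact Nat.mul_pos hp.pos hE
  · obtain ⟨s, hs⟩ := Nat.exists_eq_add_of_lt h
    have h1 : ¬ E ≤ p ^ s := Nat.find_min hex (by omega)
    have h2 : Nat.find hex = s + 1 := by omega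
    rw [h2, pow_succ, mul_comm]
    exact Nat.mul_le_mul_left p (by omega)

lemma geom_le (p : ℕ) (k : ℕ) :
    ((p : ℝ) - 1) * ∑ a ∈ Finset.range k, (p : ℝ) ^ a ≤ (p : ℝ) ^ k := by
  rw [mul_comm, geom_sum_mul]
  linarith

/-- the final estimate -/
lemma final_est {p d g t n k Q E P lM lkn lp : ℝ} (hp2 : 2 ≤ p) (hd0 : 0 ≤ d) (hdg : d ≤ g)
    (ht0 : 0 < t) (hn1 : 1 ≤ n) (hk1 : 1 ≤ k) (hQ : 0 ≤ Q) (hE0 : 0 ≤ E) (hP0 : 0 ≤ P)
    (hP : P ≤ p * E) (hlM : 0 ≤ lM) (hlkn : 0 ≤ lkn) (hlp : 0 ≤ lp) {R : ℝ}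
    (hgeom : (p - 1) * Q ≤ R) (h : g * (k * g - 2 * t) * lp ≤ t * (n * (lkn + 2 * (P * Q) * lM))) :
    (p - 1) * (d * (k * d - 2 * t) * lp) ≤
      t * (n * ((p - 1) * lkn + 2 * (E * (R * p)) * lM)) := by
  have hmono : d * (k * d - 2 * t) ≤ max 0 (g * (k * g - 2 * t)) := by
    rcases le_or_gt (k * d) (2 * t) with h1 | h1
    · refine le_trans ?_ (le_max_left _ _)
      exact mul_nonpos_of_nonneg_of_nonpos hd0 (by linarith)
    · refine le_trans ?_ (le_max_right _ _)
      apply mul_le_mul hdg _ (by linarith) (by linarith)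
      have : k * d ≤ k * g := mul_le_mul_of_nonneg_left hdg (by linarith)
      linarith
  have hPQ : 0 ≤ P * Q := mul_nonneg hP0 hQ
  have hRHS0 : 0 ≤ t * (n * (lkn + 2 * (P * Q) * lM)) := by positivity
  have h2 : d * (k * d - 2 * t) * lp ≤ t * (n * (lkn + 2 * (P * Q) * lM)) := by
    rcases max_cases 0 (g * (k * g - 2 * t)) with ⟨h3, h4⟩ | ⟨h3, h4⟩
    · rw [h3] at hmono
      exact le_trans (mul_nonpos_of_nonpos_of_nonneg hmono hlp) hRHS0
    · rw [h3] at hmono
      exact (mul_le_mul_of_nonneg_right hmono hlp).trans h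
  have h3 : (p - 1) * (P * Q) ≤ E * (R * p) := by
    calc (p - 1) * (P * Q) = P * ((p - 1) * Q) := by ring
      _ ≤ (p * E) * R := by
          apply mul_le_mul hP hgeom (mul_nonneg (by linarith) hQ) (by positivity)
      _ = E * (R * p) := by ring
  calc (p - 1) * (d * (k * d - 2 * t) * lp)
      ≤ (p - 1) * (t * (n * (lkn + 2 * (P * Q) * lM))) :=
        mul_le_mul_of_nonneg_left h2 (by linarith)
    _ = t * (n * ((p - 1) * lkn + 2 * ((p - 1) * (P * Q)) * lM)) := by ring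
    _ ≤ t * (n * ((p - 1) * lkn + 2 * (E * (R * p)) * lM)) := by
        apply mul_le_mul_of_nonneg_left _ ht0.le
        apply mul_le_mul_of_nonneg_left _ (by linarith)
        have := mul_le_mul_of_nonneg_right h3 hlM
        linarith

/-- **the basic inequality for monic irreducible polynomials** -/
theorem poly_ineq {p : ℕ} (hp : p.Prime) (f : ℤ[X]) (hf : Irreducible f) (hm : f.Monic)
    (hM : 1 < (f.map (Int.castRingHom ℂ)).mahlerMeasure) (hnd : NondegAt p f)
    (A B : (ZMod p)[X]) (hAB : f.map (Int.castRingHom (ZMod p)) = A * B) (hco : IsCoprime A B)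
    (F : ℤ[X]) (hFm : F.Monic) (hFt : 0 < F.natDegree) (E : ℕ) (hE : 1 ≤ E)
    (hAF : A ∣ (F.map (Int.castRingHom (ZMod p))) ^ E) (k : ℕ) (hk : 0 < k) :
    ((p : ℝ) - 1) * ((A.natDegree : ℝ) * (k * A.natDegree - 2 * F.natDegree) * Real.log p) ≤
      F.natDegree * (f.natDegree * (((p : ℝ) - 1) * Real.log (k * f.natDegree) +
        2 * (E * (p : ℝ) ^ (k + 1)) *
          Real.log (f.map (Int.castRingHom ℂ)).mahlerMeasure)) := by
  classical
  have hdeg : f.natDegree ≠ 0 := by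
    intro h
    have := hm.natDegree_eq_zero.mp h
    exact hf.not_isUnit (this ▸ isUnit_one)
  obtain ⟨z, hz⟩ := IsAlgClosed.exists_aeval_eq_zero ℂ f (by
    intro h
    exact hdeg (natDegree_eq_of_degree_eq_some h))
  have hzi : IsIntegral ℤ z := ⟨f, hm, by rw [← Polynomial.aeval_def]; exact hz⟩
  have hzQ : IsIntegral ℚ z := hzi.tower_top
  have hmin : minpoly ℤ z = f := by
    have h1 := minpoly.isIntegrallyClosed_dvd hzi hz
    have h2 : Associated (minpoly ℤ z) f :=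
      (minpoly.irreducible hzi).associated_of_dvd hf h1
    exact eq_of_monic_of_associated (minpoly.monic hzi) hm h2
  set L := adjoin ℚ {z} with hL
  have hfin : FiniteDimensional ℚ L := adjoin.finiteDimensional hzQ
  have : NumberField L := { to_charZero := inferInstance, to_finiteDimensional := hfin }
  set α : L := AdjoinSimple.gen ℚ z with hα
  have hαz : algebraMap L ℂ α = z := AdjoinSimple.algebraMap_gen ℚ z
  have hαi : IsIntegral ℤ α := by
    rw [← hαz] at hzi
    exact (isIntegral_algebraMap_iff (algebraMap L ℂ).injective).mp hzi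
  have hαc : CInj α := by
    intro σ τ h
    apply adjoin_algHom_ext ℚ (s := {z})
    intro x hx
    rw [Set.mem_singleton_iff] at hx
    subst hx
    exact h
  have hminα : minpoly ℤ α = f := by
    rw [← hmin, ← hαz]
    exact (minpoly.algebraMap_eq (algebraMap L ℂ).injective α).symm
  have hpmap : f.map (Int.castRingHom ℂ) = ∏ τ : L →ₐ[ℚ] ℂ, (X - C (τ α)) := by
    rw [← minpoly_map_eq hαc, minpoly.isIntegrallyClosed_eq_field_fractions' ℚ hαi, hminα,
      Polynomial.map_map]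
    rfl
  have hMM : Real.log (f.map (Int.castRingHom ℂ)).mahlerMeasure = lam α := by
    rw [hpmap]
    have h1 : (∏ τ : L →ₐ[ℚ] ℂ, (X - C (τ α))).mahlerMeasure = ∏ τ : L →ₐ[ℚ] ℂ, max 1 ‖τ α‖ := by
      rw [Finset.prod_eq_multiset_prod, prod_mahlerMeasure_eq_mahlerMeasure_prod, Multiset.map_map,
        Finset.prod_eq_multiset_prod]
      congr 1
      refine Multiset.map_congr rfl fun τ _ => ?_
      rw [Function.comp_apply, mahlerMeasure_X_sub_C]
    rw [h1, Real.log_prod]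
    · rfl
    · intro τ _
      have : (0:ℝ) < max 1 ‖τ α‖ := lt_of_lt_of_le one_pos (le_max_left _ _)
      exact this.ne'
  have hfr : finrank ℚ L = f.natDegree := by
    rw [hL, adjoin.finrank hzQ, minpoly.isIntegrallyClosed_eq_field_fractions' ℚ hzi, hmin]
    exact natDegree_map_eq_of_injective (algebraMap ℤ ℚ).injective_int f
  have hlampos : 0 < lam α := by
    rw [← hMM]; exact Real.log_pos hM
  have hα0 : α ≠ 0 := by
    intro h
    rw [h] at hlampos
    unfold lam at hlampos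
    simp at hlampos
  have hαroot : ∀ n : ℕ, 0 < n → α ^ n ≠ 1 := by
    intro n hn h
    have h1 := lam_pow α n
    rw [h] at h1
    have h2 : lam (1 : L) = 0 := by unfold lam; simp
    rw [h2] at h1
    have h3 : (0:ℝ) < n := by exact_mod_cast hn
    have : 0 < (n:ℝ) * lam α := mul_pos h3 hlampos
    linarith
  have hzero : ∀ σ : L →ₐ[ℚ] ℂ, aeval (σ α) f = 0 := by
    intro σ
    rw [← map_aevalZ, ← hminα, minpoly.aeval, map_zero]
  have hc : ∀ s : ℕ, CInj (α ^ p ^ s) := by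
    intro s σ τ h
    simp only [map_pow] at h
    exact hαc (hnd _ _ (hzero σ) (hzero τ) s h)
  obtain ⟨V, hV⟩ := exists_val p hp
  have hαV : ∀ σ : L →ₐ[ℚ] ℂ, σ α ∈ V := fun σ => hV.int _ (hαi.map (σ.restrictScalars ℤ))
  set G : Finset (L →ₐ[ℚ] ℂ) := Finset.univ.filter fun σ => (aeval (σ α) F) ^ E / p ∈ V with hG
  have hcount := count_good hp hV f (fun σ : L →ₐ[ℚ] ℂ => (⟨σ α, hαV σ⟩ : V)) hpmap A B hAB hco F E
    hAF G (fun σ hσ => by rw [hG, Finset.mem_filter]; exact ⟨Finset.mem_univ _, hσ⟩)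
  obtain ⟨s, hs1, hs2⟩ := exists_pow_ge hp hE
  have h := field_ineq hp hV hαi hα0 hαroot hc F hFm hFt hs1 G (fun σ hσ => by
    rw [hG, Finset.mem_filter] at hσ; exact hσ.2) k hk
  rw [hfr, ← hMM] at h
  have hlM0 : 0 ≤ Real.log (f.map (Int.castRingHom ℂ)).mahlerMeasure := (Real.log_pos hM).le
  have hn1 : (1:ℝ) ≤ (f.natDegree : ℝ) := by exact_mod_cast Nat.one_le_iff_ne_zero.mpr hdeg
  have hk1 : (1:ℝ) ≤ k := by exact_mod_cast hk
  have ht0 : (0:ℝ) < (F.natDegree : ℝ) := by exact_mod_cast hFt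
  have hp2 : (2:ℝ) ≤ p := by exact_mod_cast hp.two_le
  have hdg : (A.natDegree : ℝ) ≤ (G.card : ℝ) := by exact_mod_cast hcount
  have hlogp : 0 ≤ Real.log p := Real.log_nonneg (by linarith)
  have hlogkn : 0 ≤ Real.log (k * f.natDegree) := Real.log_nonneg (by nlinarith)
  have hps : ((p:ℝ) ^ s) ≤ p * E := by exact_mod_cast hs2
  have hsum0 : 0 ≤ ∑ a ∈ Finset.range k, (p : ℝ) ^ a :=
    Finset.sum_nonneg fun _ _ => by positivity
  have h9 := final_est (R := (p:ℝ) ^ k) hp2 (Nat.cast_nonneg _) hdg ht0 hn1 hk1 hsum0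
    (Nat.cast_nonneg E) (by positivity) hps hlM0 hlogkn hlogp (geom_le p k) h
  rw [pow_succ]
  exact h9

end Pool.Agent.TH53.HR
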