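import Mathlib

/-!
# The factors of large multiplicity of a polynomial over a field
-/

set_option autoImplicit false

open Polynomial Finset UniqueFactorizationMonoid

namespace Pool.Agent.TH53.HR

variable {k : Type*} [Field k] [DecidableEq k]

/-- the finset of the distinct monic irreducible factors -/
noncomputable def dfac (g : k[X]) : Finset k[X] := by
  classical exact (normalizedFactors g).toFinset

/-- the degree of the radical -/
noncomputable def rdeg (g : k[X]) : ℕ := ∑ q ∈ dfac g, q.natDegree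

lemma mem_dfac {g q : k[X]} : q ∈ dfac g ↔ q ∈ normalizedFactors g := by
  classical
  unfold dfac
  rw [Multiset.mem_toFinset]

lemma dfac_irr {g q : k[X]} (h : q ∈ dfac g) : Irreducible q :=
  irreducible_of_normalized_factor q (mem_dfac.mp h)

lemma dfac_monic {g q : k[X]} (h : q ∈ dfac g) : q.Monic := by
  classical
  have h1 := normalize_normalized_factor q (mem_dfac.mp h)
  rw [← h1]
  exact monic_normalize (dfac_irr h).ne_zero

lemma dfac_dvd {g q : k[X]} (h : q ∈ dfac g) : q ∣ g :=
  dvd_of_mem_normalizedFactors (mem_dfac.mp h)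

lemma dfac_coprime {g q r : k[X]} (hq : q ∈ dfac g) (hr : r ∈ dfac g) (hne : q ≠ r) :
    IsCoprime q r := by
  rw [(dfac_irr hq).coprime_iff_not_dvd]
  intro h
  exact hne (normalizedFactors_eq_of_dvd g q (mem_dfac.mp hq) r (mem_dfac.mp hr) h)

lemma mem_dfac_of {g q : k[X]} (hg : g ≠ 0) (hq : Irreducible q) (hm : q.Monic) (h : q ∣ g) :
    q ∈ dfac g := by
  classical
  rw [mem_dfac, mem_normalizedFactors_iff' hg]
  refine ⟨hq, ?_, h⟩
  exact hm.normalize_eq_self

lemma ceil_ge {e : ℕ} (he : 1 ≤ e) (m : ℕ) : m ≤ (m + e - 1) / e * e := by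
  have h1 := Nat.lt_div_mul_add (a := m + e - 1) (b := e) (by omega)
  omega

lemma ceil_le {e : ℕ} (m : ℕ) : e * ((m + e - 1) / e) ≤ m + e - 1 := Nat.mul_div_le _ _

/-- **the factors of multiplicity at least `e`** -/
theorem mult_lemma (g : k[X]) (hg : g.Monic) (e : ℕ) (he : 1 ≤ e) :
    ∃ A B Φ : k[X], g = A * B ∧ IsCoprime A B ∧ A.Monic ∧ Φ.Monic ∧ A ∣ Φ ^ e ∧
      e * Φ.natDegree ≤ 2 * A.natDegree ∧ g.natDegree ≤ A.natDegree + (e - 1) * rdeg g := by
  classical
  set m : k[X] → ℕ := fun q => (normalizedFactors g).count q with hm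
  set D1 := (dfac g).filter fun q => e ≤ m q with hD1
  set D2 := (dfac g).filter fun q => ¬ e ≤ m q with hD2
  have hD1m : ∀ q ∈ D1, q.Monic := fun q hq => dfac_monic (Finset.mem_filter.mp hq).1
  have hD2m : ∀ q ∈ D2, q.Monic := fun q hq => dfac_monic (Finset.mem_filter.mp hq).1
  have hgprod : g = ∏ q ∈ dfac g, q ^ m q := by
    have h1 := prod_normalizedFactors_eq hg.ne_zero
    rw [hg.normalize_eq_self] at h1
    conv_lhs => rw [← h1]
    rw [Finset.prod_multiset_count]
    rfl
  set A := ∏ q ∈ D1, q ^ m q with hA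
  set B := ∏ q ∈ D2, q ^ m q with hB
  set Φ := ∏ q ∈ D1, q ^ ((m q + e - 1) / e) with hΦ
  have hgAB : g = A * B := by
    rw [hgprod, hA, hB, hD1, hD2, Finset.prod_filter_mul_prod_filter_not]
  have hAm : A.Monic := monic_prod_of_monic _ _ fun q hq => (hD1m q hq).pow _
  have hBm : B.Monic := monic_prod_of_monic _ _ fun q hq => (hD2m q hq).pow _
  have hΦm : Φ.Monic := monic_prod_of_monic _ _ fun q hq => (hD1m q hq).pow _
  have hAd : A.natDegree = ∑ q ∈ D1, m q * q.natDegree := by
    rw [hA, natDegree_prod_of_monic _ _ fun q hq => (hD1m q hq).pow _]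
    exact Finset.sum_congr rfl fun q hq => (hD1m q hq).natDegree_pow _
  have hBd : B.natDegree = ∑ q ∈ D2, m q * q.natDegree := by
    rw [hB, natDegree_prod_of_monic _ _ fun q hq => (hD2m q hq).pow _]
    exact Finset.sum_congr rfl fun q hq => (hD2m q hq).natDegree_pow _
  have hΦd : Φ.natDegree = ∑ q ∈ D1, ((m q + e - 1) / e) * q.natDegree := by
    rw [hΦ, natDegree_prod_of_monic _ _ fun q hq => (hD1m q hq).pow _]
    exact Finset.sum_congr rfl fun q hq => (hD1m q hq).natDegree_pow _
  refine ⟨A, B, Φ, hgAB, ?_, hAm, hΦm, ?_, ?_, ?_⟩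
  · apply IsCoprime.prod_left
    intro q hq
    apply IsCoprime.prod_right
    intro r hr
    apply IsCoprime.pow
    obtain ⟨hq1, hq2⟩ := Finset.mem_filter.mp hq
    obtain ⟨hr1, hr2⟩ := Finset.mem_filter.mp hr
    apply dfac_coprime hq1 hr1
    rintro rfl
    exact hr2 hq2
  · rw [hA, hΦ, ← Finset.prod_pow]
    apply Finset.prod_dvd_prod_of_dvd
    intro q _
    rw [← pow_mul]
    exact pow_dvd_pow _ (ceil_ge he _)
  · rw [hΦd, hAd, Finset.mul_sum, Finset.mul_sum]
    refine Finset.sum_le_sum fun q hq => ?_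
    have h1 : e ≤ m q := (Finset.mem_filter.mp hq).2
    have h2 := ceil_le (e := e) (m q)
    calc e * ((m q + e - 1) / e * q.natDegree) = (e * ((m q + e - 1) / e)) * q.natDegree := by ring
      _ ≤ (2 * m q) * q.natDegree := Nat.mul_le_mul_right _ (by omega)
      _ = 2 * (m q * q.natDegree) := by ring
  · have h1 : g.natDegree = A.natDegree + B.natDegree := by rw [hgAB, hAm.natDegree_mul hBm]
    rw [h1, hBd]
    apply Nat.add_le_add_left
    unfold rdeg
    rw [Finset.mul_sum]
    calc ∑ q ∈ D2, m q * q.natDegree ≤ ∑ q ∈ D2, (e - 1) * q.natDegree := by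
          refine Finset.sum_le_sum fun q hq => ?_
          have h2 : ¬ e ≤ m q := (Finset.mem_filter.mp hq).2
          exact Nat.mul_le_mul_right _ (by omega)
      _ ≤ ∑ q ∈ dfac g, (e - 1) * q.natDegree :=
          Finset.sum_le_sum_of_subset (Finset.filter_subset _ _)

/-- the degree of the radical is at most the number of distinct zeros -/
theorem rdeg_le [PerfectField k] (g : k[X]) (hg : g ≠ 0) {Ω : Type*} [Field Ω] [Algebra k Ω]
    [IsAlgClosed Ω] : rdeg g ≤ (g.rootSet Ω).ncard := by
  classical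
  set r := ∏ q ∈ dfac g, q with hr
  have hrd : r.natDegree = rdeg g := by
    rw [hr, natDegree_prod_of_monic _ _ fun q hq => dfac_monic hq]
    rfl
  have hrm : r.Monic := monic_prod_of_monic _ _ fun q hq => dfac_monic hq
  have hsep : r.Separable := by
    apply separable_prod'
    · intro q hq s hs hne
      exact dfac_coprime hq hs hne
    · intro q hq
      exact PerfectField.separable_of_irreducible (dfac_irr hq)
  have h1 := card_rootSet_eq_natDegree (K := Ω) hsep (IsAlgClosed.splits _)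
  rw [← hrd, ← h1, ← Nat.card_eq_fintype_card, Nat.card_coe_set_eq]
  apply Set.ncard_le_ncard _ (rootSet_finite g Ω)
  intro x hx
  rw [mem_rootSet_of_ne hrm.ne_zero] at hx
  rw [mem_rootSet_of_ne hg]
  rw [hr, map_prod] at hx
  obtain ⟨q, hq, hqx⟩ := Finset.prod_eq_zero_iff.mp hx
  obtain ⟨c, hc⟩ := dfac_dvd hq
  rw [hc, map_mul, hqx, zero_mul]

end Pool.Agent.TH53.HR
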