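import Mathlib
import Pool.Agent.TH53.HR6
import Pool.Agent.TH53.HR7

/-!
# Lehmer's problem for polynomials with few distinct zeros modulo `p`
-/

set_option autoImplicit false

open Polynomial Finset

namespace Pool.Agent.TH53.HR

open Pool.Agent.H389R3.LR Pool.Agent.H389R3.LP

/-- the choice of `k` -/
lemma k_choice {lp C k : ℝ} (hlp : Real.log 2 ≤ lp) (hC : 0 ≤ C) (hk : 40 + 20 * C ≤ k) :
    1 ≤ (k / 4 - 2) * lp - Real.log k - 2 * C := by
  have h2 := Real.log_two_gt_d9
  have h2' := Real.log_two_lt_d9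
  have hk0 : 0 < k := by linarith
  have h3 : Real.log k ≤ k / 16 + 4 * Real.log 2 - 1 := by
    have h4 := Real.log_le_sub_one_of_pos (show 0 < k / 16 by positivity)
    have h5 : Real.log (k / 16) = Real.log k - 4 * Real.log 2 := by
      rw [Real.log_div hk0.ne' (by norm_num), show (16:ℝ) = 2 ^ 4 by norm_num, Real.log_pow]
      norm_num
    linarith
  have h6 : (k / 4 - 2) * Real.log 2 ≤ (k / 4 - 2) * lp :=
    mul_le_mul_of_nonneg_left hlp (by linarith)
  nlinarith

/-- real-number part of the final estimate -/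
lemma final_real {p k e d t n r C lM lp l2n : ℝ} (hp2 : 2 ≤ p) (hlp : Real.log 2 ≤ lp)
    (hk : 40 + 20 * C ≤ k) (hC : 0 ≤ C) (he : 1 ≤ e) (hd : n ≤ 2 * d) (hdn : d ≤ n) (ht : 0 < t)
    (hn : 1 ≤ n) (het : e * t ≤ 2 * d) (hr : 0 < r) (hre : n ≤ 2 * r * e)
    (hl2n : r * l2n ≤ C * n) {lkn : ℝ} (hlkn : lkn ≤ Real.log k + l2n) {P : ℝ} (hP : 0 < P)
    (h : (p - 1) * (d * (k * d - 2 * t) * lp) ≤
      t * (n * ((p - 1) * lkn + 2 * (e * (P * p)) * lM))) :
    1 / (4 * P) ≤ lM := by
  have hkc := k_choice hlp hC hk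
  have hlp0 : 0 < lp := lt_of_lt_of_le (Real.log_pos one_lt_two) hlp
  have hk0 : 0 < k := by linarith
  have htn : 0 < t * n := by positivity
  -- lower bound of the left side
  have h1 : t * n * (k * e / 4 - 2) ≤ d * (k * d - 2 * t) := by
    have h2 : (e * t) * n ≤ (2 * d) * (2 * d) :=
      mul_le_mul het hd (by linarith) (by linarith)
    have h3 : k * ((e * t) * n) ≤ k * ((2 * d) * (2 * d)) := mul_le_mul_of_nonneg_left h2 hk0.le
    have h4 : d * t ≤ n * t := mul_le_mul_of_nonneg_right hdn ht.le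
    nlinarith
  have h5 : t * n * ((p - 1) * ((k * e / 4 - 2) * lp)) ≤
      t * n * ((p - 1) * lkn + 2 * (e * (P * p)) * lM) := by
    calc t * n * ((p - 1) * ((k * e / 4 - 2) * lp))
        = (p - 1) * ((t * n * (k * e / 4 - 2)) * lp) := by ring
      _ ≤ (p - 1) * (d * (k * d - 2 * t) * lp) := by
          apply mul_le_mul_of_nonneg_left _ (by linarith)
          exact mul_le_mul_of_nonneg_right h1 hlp0.le
      _ ≤ t * (n * ((p - 1) * lkn + 2 * (e * (P * p)) * lM)) := h
      _ = _ := by ring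
  have h6 := le_of_mul_le_mul_left h5 htn
  -- `log (2n)`
  have h7 : l2n ≤ 2 * C * e := by
    have h8 : r * l2n ≤ r * (2 * C * e) := by
      calc r * l2n ≤ C * n := hl2n
        _ ≤ C * (2 * r * e) := mul_le_mul_of_nonneg_left hre hC
        _ = r * (2 * C * e) := by ring
    exact le_of_mul_le_mul_left h8 hr
  have hlogk : 0 ≤ Real.log k := Real.log_nonneg (by linarith)
  have h9 : e ≤ (k * e / 4 - 2) * lp - lkn := by
    have h10 : e * 1 ≤ e * ((k / 4 - 2) * lp - Real.log k - 2 * C) :=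
      mul_le_mul_of_nonneg_left hkc (by linarith)
    have h11 : 0 ≤ (e - 1) * (2 * lp + Real.log k) := mul_nonneg (by linarith) (by linarith)
    nlinarith
  have h12 : (p - 1) * e ≤ 2 * (e * (P * p)) * lM := by
    have h13 : (p - 1) * e ≤ (p - 1) * ((k * e / 4 - 2) * lp - lkn) :=
      mul_le_mul_of_nonneg_left h9 (by linarith)
    nlinarith
  have h14 : (p - 1) ≤ 2 * (P * p) * lM := by
    have h15 : e * (p - 1) ≤ e * (2 * (P * p) * lM) := by nlinarith
    exact le_of_mul_le_mul_left h15 (by linarith)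
  rw [div_le_iff₀ (by positivity)]
  have h16 : p * 1 ≤ p * (lM * (4 * P)) := by nlinarith
  exact le_of_mul_le_mul_left h16 (by linarith)

/-- the number of distinct zeros of `f` modulo `p` -/
noncomputable def zerosMod (f : ℤ[X]) (p : ℕ) [Fact p.Prime] : ℕ :=
  ((f.map (Int.castRingHom (ZMod p))).rootSet (AlgebraicClosure (ZMod p))).ncard

theorem monic_distinct (p : ℕ) [Fact p.Prime] (f : ℤ[X]) (hf : Irreducible f) (hm : f.Monic)
    (hM : 1 < (f.map (Int.castRingHom ℂ)).mahlerMeasure) (hnd : NondegAt p f) (C : ℝ)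
    (hR : (rdeg (f.map (Int.castRingHom (ZMod p))) : ℝ) * Real.log (2 * f.natDegree) ≤
      C * f.natDegree) :
    1 / (4 * (p : ℝ) ^ ⌈40 + 20 * C⌉₊) ≤
      Real.log (f.map (Int.castRingHom ℂ)).mahlerMeasure := by
  classical
  have hp : p.Prime := Fact.out
  have hdeg : f.natDegree ≠ 0 := by
    intro h
    have := hm.natDegree_eq_zero.mp h
    exact hf.not_isUnit (this ▸ isUnit_one)
  set g := f.map (Int.castRingHom (ZMod p)) with hg
  have hgm : g.Monic := hm.map _
  have hgd : g.natDegree = f.natDegree := hm.natDegree_map _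
  set n := f.natDegree with hn
  set r := rdeg g with hr
  have hn1 : (1:ℝ) ≤ n := by exact_mod_cast Nat.one_le_iff_ne_zero.mpr hdeg
  have hl2n : 0 < Real.log (2 * n) := Real.log_pos (by linarith)
  have hr0 : 0 < r := by
    obtain ⟨q, hqm, hq, hqd⟩ := exists_monic_irreducible_factor g (by
      intro h
      rw [isUnit_iff_degree_eq_zero, degree_eq_natDegree hgm.ne_zero, hgd] at h
      exact hdeg (by exact_mod_cast h))
    have h1 : q ∈ dfac g := mem_dfac_of hgm.ne_zero hq hqm hqd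
    have h2 : q.natDegree ≤ r := by
      rw [hr]
      unfold rdeg
      exact Finset.single_le_sum (f := fun q : (ZMod p)[X] => q.natDegree)
        (fun _ _ => Nat.zero_le _) h1
    exact lt_of_lt_of_le hq.natDegree_pos h2
  have hr0' : (0:ℝ) < r := by exact_mod_cast hr0
  have hC : 0 ≤ C := by
    by_contra h
    push Not at h
    have h1 : C * (n:ℝ) < 0 := mul_neg_of_neg_of_pos h (by linarith)
    have h2 : 0 < (r:ℝ) * Real.log (2 * n) := by positivity
    linarith
  set k := ⌈40 + 20 * C⌉₊ with hk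
  have hk1 : 40 + 20 * C ≤ (k:ℝ) := Nat.le_ceil _
  have hk0 : 0 < k := by
    have : (0:ℝ) < k := by linarith
    exact_mod_cast this
  set e := n / (2 * r) + 1 with he
  have he1 : 1 ≤ e := Nat.le_add_left _ _
  have he2 : e - 1 = n / (2 * r) := Nat.add_sub_cancel _ _
  obtain ⟨A, B, Φ, hAB, hco, hAm, hΦm, hAΦ, het, hnA⟩ := mult_lemma g hgm e he1
  rw [hgd] at hnA
  have h1 : (e - 1) * r * 2 ≤ n := by
    rw [he2]
    have := Nat.div_mul_le_self n (2 * r)
    calc n / (2 * r) * r * 2 = n / (2 * r) * (2 * r) := by ring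
      _ ≤ n := this
  have hdA : n ≤ 2 * A.natDegree := by
    have h3 : (e - 1) * rdeg g = (e - 1) * r := rfl
    rw [h3] at hnA
    omega
  have hre : n ≤ 2 * r * e := by
    have := (Nat.lt_div_mul_add (a := n) (b := 2 * r) (by omega)).le
    calc n ≤ n / (2 * r) * (2 * r) + 2 * r := this
      _ = 2 * r * e := by rw [he]; ring
  have hdn : A.natDegree ≤ n := by
    have := natDegree_le_of_dvd (Dvd.intro B hAB.symm) hgm.ne_zero
    rwa [hgd] at this
  have hΦ0 : 0 < Φ.natDegree := by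
    by_contra h
    have h3 : Φ.natDegree = 0 := by omega
    have h4 := hΦm.natDegree_eq_zero.mp h3
    rw [h4, one_pow] at hAΦ
    have h5 := natDegree_le_of_dvd hAΦ one_ne_zero
    rw [natDegree_one] at h5
    omega
  obtain ⟨F, hF1, hF2, hF3⟩ := lifts_and_natDegree_eq_and_monic (f := Int.castRingHom (ZMod p))
    (by
      obtain ⟨P, hP⟩ := exists_lift p Φ
      exact ⟨P, hP⟩) hΦm
  have key := poly_ineq hp f hf hm hM hnd A B hAB hco F hF3 (by rw [hF2]; exact hΦ0) e he1
    (by rw [hF1]; exact hAΦ) k hk0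
  rw [hF2] at key
  have hlkn : Real.log (k * n) ≤ Real.log k + Real.log (2 * n) := by
    rw [Real.log_mul (by positivity) (by positivity)]
    have : Real.log n ≤ Real.log (2 * n) := Real.log_le_log (by linarith) (by linarith)
    linarith
  refine final_real (p := p) (k := k) (e := e) (d := A.natDegree) (t := Φ.natDegree) (n := n)
    (r := r) (C := C) (lp := Real.log p) (l2n := Real.log (2 * n)) ?_ ?_ hk1 hC ?_ ?_ ?_ ?_ hn1
    ?_ hr0' ?_ hR hlkn (by have := hp.pos; positivity) ?_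
  · exact_mod_cast hp.two_le
  · exact Real.log_le_log two_pos (by exact_mod_cast hp.two_le)
  · rw [he]; push_cast; linarith [show (0:ℝ) ≤ ((n / (2 * r) : ℕ) : ℝ) from Nat.cast_nonneg _]
  · exact_mod_cast hdA
  · exact_mod_cast hdn
  · exact_mod_cast hΦ0
  · exact_mod_cast het
  · exact_mod_cast hre
  · rw [pow_succ] at key
    exact key

/-- passage from monic polynomials to all irreducible polynomials with `M < 2` -/
lemma monic_or_neg (f : ℤ[X]) (hf : Irreducible f)
    (hM : 1 < (f.map (Int.castRingHom ℂ)).mahlerMeasure)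
    (h2 : (f.map (Int.castRingHom ℂ)).mahlerMeasure < 2) {Q : ℤ[X] → Prop}
    (hneg : Q f → Q (-f)) (key : ∀ g : ℤ[X], Irreducible g → g.Monic →
      1 < (g.map (Int.castRingHom ℂ)).mahlerMeasure →
      (g.map (Int.castRingHom ℂ)).mahlerMeasure = (f.map (Int.castRingHom ℂ)).mahlerMeasure →
      g.natDegree = f.natDegree → Q g → False) (hQ : Q f) : False := by
  obtain ⟨hlc, -⟩ := units_of_lt_two f hf hM h2
  rcases (abs_eq (zero_le_one' ℤ)).mp hlc with h3 | h3
  · exact key f hf h3 hM rfl rfl hQ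
  · have hMneg := MM_neg' f
    exact key (-f) ((Associated.irreducible_iff (Associated.neg_left (Associated.refl f))).mpr hf)
      (by rw [Monic, leadingCoeff_neg, h3]; rfl) (by rw [hMneg]; exact hM) hMneg (natDegree_neg f)
      (hneg hQ)

lemma nondeg_neg {p : ℕ} {f : ℤ[X]} (h : NondegAt p f) : NondegAt p (-f) := by
  intro z w hz hw s hs
  rw [map_neg, neg_eq_zero] at hz hw
  exact h z w hz hw s hs

/-- **few distinct zeros modulo `p`** -/
theorem distinct_zeros (p : ℕ) [Fact p.Prime] (f : ℤ[X]) (hf : Irreducible f)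
    (hM : 1 < (f.map (Int.castRingHom ℂ)).mahlerMeasure) (hnd : NondegAt p f) (C : ℝ)
    (hR : (zerosMod f p : ℝ) * Real.log (2 * f.natDegree) ≤ C * f.natDegree) :
    Real.exp (1 / (4 * (p : ℝ) ^ ⌈40 + 20 * C⌉₊)) ≤
      (f.map (Int.castRingHom ℂ)).mahlerMeasure := by
  have hp : p.Prime := Fact.out
  by_contra hcon
  push Not at hcon
  have hpp : (1:ℝ) ≤ (p : ℝ) ^ ⌈40 + 20 * C⌉₊ :=
    one_le_pow₀ (by exact_mod_cast hp.one_le)
  have htwo : Real.exp (1 / (4 * (p : ℝ) ^ ⌈40 + 20 * C⌉₊)) ≤ 2 := by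
    rw [← Real.le_log_iff_exp_le two_pos]
    have h4 := Real.log_two_gt_d9
    have h5 : 1 / (4 * (p : ℝ) ^ ⌈40 + 20 * C⌉₊) ≤ 1 / 4 := by
      apply one_div_le_one_div_of_le (by norm_num)
      linarith
    linarith
  refine monic_or_neg f hf hM (hcon.trans_le htwo) (Q := fun g => NondegAt p g ∧
    (zerosMod g p : ℝ) * Real.log (2 * g.natDegree) ≤ C * g.natDegree) ?_ ?_ ⟨hnd, hR⟩
  · rintro ⟨h1, h2⟩
    refine ⟨nondeg_neg h1, ?_⟩
    have h3 : zerosMod (-f) p = zerosMod f p := by
      unfold zerosMod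
      rw [Polynomial.map_neg, rootSet_neg]
    rw [h3, natDegree_neg]
    exact h2
  · rintro g hg hgm hgM hgMf - ⟨h1, h2⟩
    have hg0 : g.map (Int.castRingHom (ZMod p)) ≠ 0 := (hgm.map _).ne_zero
    have h3 := rdeg_le (g.map (Int.castRingHom (ZMod p))) hg0 (Ω := AlgebraicClosure (ZMod p))
    have hdeg : g.natDegree ≠ 0 := by
      intro h
      have := hgm.natDegree_eq_zero.mp h
      exact hg.not_isUnit (this ▸ isUnit_one)
    have hn1 : (1:ℝ) ≤ g.natDegree := by exact_mod_cast Nat.one_le_iff_ne_zero.mpr hdeg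
    have hl : 0 ≤ Real.log (2 * g.natDegree) := Real.log_nonneg (by linarith)
    have h4 : (rdeg (g.map (Int.castRingHom (ZMod p))) : ℝ) * Real.log (2 * g.natDegree) ≤
        C * g.natDegree := by
      refine le_trans (mul_le_mul_of_nonneg_right ?_ hl) h2
      exact_mod_cast h3
    have h5 := monic_distinct p g hg hgm hgM h1 C h4
    rw [Real.le_log_iff_exp_le (by linarith), hgMf] at h5
    linarith

end Pool.Agent.TH53.HR
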