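import Mathlib
import Pool.Agent.TH53.HR8

/-!
# An explicit lower bound for the Mahler measure of polynomials with few distinct zeros modulo `p`
-/

set_option autoImplicit false

open Polynomial Finset Module IntermediateField

namespace Pool.Agent.TH53.SL

open UniqueFactorizationMonoid Pool.Agent.TH53.HR Pool.Agent.H388SL Pool.Agent.H389R3.LR Pool.Agent.H389R3.LP

/-- the sharp lower bound for `∑ ⌊m / t⌋` -/
lemma sum_bound' (t : ℕ) (ht : 0 < t) (N : ℕ) :
    (N : ℤ) * ((N : ℤ) - t) ≤ 2 * t * ((∑ m ∈ Finset.range N, m / t : ℕ) : ℤ) := by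
  -- exact formula: `2 t S = N (N - t) + r (t - r)`, `r = N % t`
  have key : (2 * t * ((∑ m ∈ Finset.range N, m / t : ℕ) : ℤ)) =
      (N : ℤ) * ((N : ℤ) - t) + ((N % t : ℕ) : ℤ) * ((t : ℤ) - ((N % t : ℕ) : ℤ)) := by
    induction N with
    | zero => simp
    | succ N ih =>
      rw [Finset.sum_range_succ]
      push_cast at ih ⊢
      have h1 := Int.emod_add_mul_ediv (N : ℤ) t
      rw [mul_add, ih]
      have ht' : (0 : ℤ) < t := by exact_mod_cast ht
      rcases Nat.lt_or_ge (N % t + 1) t with h2 | h2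
      · have h3 : ((N : ℤ) + 1) % t = (N : ℤ) % t + 1 := by
          have h4 : (N + 1) % t = N % t + 1 := by
            rw [Nat.add_mod]
            rcases Nat.lt_or_ge 1 t with h5 | h5
            · rw [Nat.mod_eq_of_lt h5, Nat.mod_eq_of_lt h2]
            · have : t = 1 := by omega
              subst this
              omega
          exact_mod_cast h4
        rw [h3]
        set r := (N : ℤ) % t with hr
        set q := (N : ℤ) / t with hq
        have h6 : (N : ℤ) = r + t * q := h1.symm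
        rw [h6]
        ring
      · have h7 : N % t + 1 = t := by
          have := Nat.mod_lt N ht
          omega
        have h3 : ((N : ℤ) + 1) % t = 0 := by
          have h4 : (N + 1) % t = 0 := by
            have h8 := Nat.mod_add_div N t
            have : N + 1 = t * (N / t + 1) := by
              calc N + 1 = N % t + t * (N / t) + 1 := by rw [h8]
                _ = (N % t + 1) + t * (N / t) := by ring
                _ = t + t * (N / t) := by rw [h7]
                _ = t * (N / t + 1) := by ring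
            rw [this]
            exact Nat.mul_mod_right t _
          exact_mod_cast h4
        rw [h3]
        have h7' : (N : ℤ) % t = t - 1 := by
          have : (((N % t : ℕ) : ℤ)) + 1 = t := by exact_mod_cast h7
          push_cast at this
          linarith
        rw [h7'] at h1 ⊢
        set q := (N : ℤ) / t with hq
        have h6 : (N : ℤ) = (t - 1) + t * q := h1.symm
        rw [h6]
        ring
  rw [key]
  have h1 : (0 : ℤ) ≤ ((N % t : ℕ) : ℤ) := Int.natCast_nonneg _
  have h2 : ((N % t : ℕ) : ℤ) < t := by exact_mod_cast Nat.mod_lt N ht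
  nlinarith

variable {p : ℕ} {V : ValuationSubring ℂ}

/-- **the determinant inequality**, sharp form -/
theorem gen_ineq' {ι : Type*} [Fintype ι] [Nonempty ι] (hp : p.Prime) (hV : Good p V) (v : ι → ℂ)
    (hinj : Function.Injective v) (hint : ∀ i, IsIntegral ℤ (v i))
    (hs : ∀ j : ℕ, ∃ m : ℤ, ∑ i, v i ^ j = m)
    (F : ℤ[X]) (hFm : F.Monic) (hFt : 0 < F.natDegree)
    (hF : ∀ i, aeval (v i) F / p ∈ V) :
    ((Fintype.card ι : ℝ) - F.natDegree) * Real.log p ≤
      F.natDegree * (Real.log (Fintype.card ι) + 2 * ∑ i, Real.log (max 1 ‖v i‖)) := by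
  classical
  set N := Fintype.card ι with hN
  set t := F.natDegree with ht
  have hN0 : 0 < N := Fintype.card_pos
  let e : Fin N ≃ ι := (Fintype.equivFin ι).symm
  set w : Fin N → ℂ := fun i => v (e i) with hw
  have h1 := det_lower hp hV w (hinj.comp e.injective) (fun i => hint _) (fun j => by
    obtain ⟨m, hm⟩ := hs j
    exact ⟨m, by rw [← hm]; exact Fintype.sum_equiv e _ _ fun i => rfl⟩) ∅ F hFm (fun i _ => hF _)
  rw [Finset.card_empty] at h1
  simp only [Nat.sub_zero] at h1
  have h2 := vandermonde_le w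
  have hp1 : (1 : ℝ) < p := by exact_mod_cast hp.one_lt
  have hlogp : 0 < Real.log p := Real.log_pos hp1
  have h3 := h1.trans h2
  set S := ∑ m ∈ Finset.range N, m / t with hS
  have hsb := sum_bound' t hFt N
  rw [← hS] at hsb
  have hsb' : (N : ℝ) * ((N : ℝ) - t) ≤ 2 * t * S := by exact_mod_cast hsb
  have hN1 : (0 : ℝ) < N := by exact_mod_cast hN0
  have h4 : 2 * (S : ℝ) * Real.log p ≤ N * Real.log N +
      2 * (N - 1) * ∑ i, Real.log (max 1 ‖v i‖) := by
    have h5 := Real.log_le_log (by positivity) h3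
    have hmax : ∀ i, (0:ℝ) < max 1 ‖w i‖ := fun i => lt_of_lt_of_le one_pos (le_max_left _ _)
    have hpos : ∀ i ∈ (Finset.univ : Finset (Fin N)), (max 1 ‖w i‖) ^ (2 * (N - 1)) ≠ 0 :=
      fun i _ => (pow_pos (hmax i) _).ne'
    rw [Real.log_pow, Real.log_mul (by positivity) (Finset.prod_ne_zero_iff.mpr hpos),
      Real.log_pow, Real.log_prod hpos] at h5
    simp_rw [Real.log_pow] at h5
    rw [← Finset.mul_sum] at h5
    have h6 : ∑ i, Real.log (max 1 ‖w i‖) = ∑ i, Real.log (max 1 ‖v i‖) :=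
      Fintype.sum_equiv e _ _ fun i => rfl
    rw [h6] at h5
    push_cast [Nat.cast_sub hN0] at h5
    linarith
  have hsum : 0 ≤ ∑ i, Real.log (max 1 ‖v i‖) :=
    Finset.sum_nonneg fun _ _ => Real.log_nonneg (le_max_left _ _)
  have ht0 : (0:ℝ) < t := by exact_mod_cast hFt
  have h7 : (N : ℝ) * (((N : ℝ) - t) * Real.log p) ≤
      N * (t * (Real.log N + 2 * ∑ i, Real.log (max 1 ‖v i‖))) := by
    calc (N : ℝ) * (((N : ℝ) - t) * Real.log p) = (N : ℝ) * ((N : ℝ) - t) * Real.log p := by ring
      _ ≤ 2 * t * S * Real.log p := mul_le_mul_of_nonneg_right hsb' hlogp.le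
      _ = t * (2 * S * Real.log p) := by ring
      _ ≤ t * (N * Real.log N + 2 * (N - 1) * ∑ i, Real.log (max 1 ‖v i‖)) :=
          mul_le_mul_of_nonneg_left h4 ht0.le
      _ ≤ t * (N * (Real.log N + 2 * ∑ i, Real.log (max 1 ‖v i‖))) := by
          apply mul_le_mul_of_nonneg_left _ ht0.le
          nlinarith
      _ = _ := by ring
  exact le_of_mul_le_mul_left h7 hN1

/-- **the core inequality in a number field** -/
theorem field_ineq' {K : Type*} [Field K] [NumberField K] (hp : p.Prime) (hV : Good p V) {α : K}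
    (hα : IsIntegral ℤ α) (t : ℕ) (hc : CInj (α ^ p ^ t))
    (F : ℤ[X]) (hFm : F.Monic) (hFt : 0 < F.natDegree)
    (hG : ∀ σ : K →ₐ[ℚ] ℂ, (aeval (σ α) F) ^ p ^ t / p ∈ V) :
    ((finrank ℚ K : ℝ) - F.natDegree) * Real.log p ≤
      F.natDegree * (Real.log (finrank ℚ K) + 2 * ((p : ℝ) ^ t * lam α)) := by
  classical
  let v : (K →ₐ[ℚ] ℂ) → ℂ := fun σ => σ (α ^ p ^ t)
  have hint : ∀ u, IsIntegral ℤ (v u) := fun u => (hα.pow _).map (u.restrictScalars ℤ)
  have hs : ∀ j : ℕ, ∃ m : ℤ, ∑ u, v u ^ j = m := by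
    intro j
    obtain ⟨m, hm⟩ := trace_int ((hα.pow (p ^ t)).pow j)
    refine ⟨m, ?_⟩
    rw [← hm]
    refine Finset.sum_congr rfl fun σ _ => ?_
    rw [map_pow σ (α ^ _)]
  have hHF : ∀ u, aeval (v u) F / p ∈ V := by
    intro σ
    have h1 : v σ = (σ α) ^ p ^ t := by simp [v]
    rw [h1]
    exact aeval_pow_div_mem hp (hV.int _ (hα.map (σ.restrictScalars ℤ))) F (E := p ^ t)
      le_rfl (hG σ)
  have hn : Fintype.card (K →ₐ[ℚ] ℂ) = finrank ℚ K := AlgHom.card ℚ K ℂ
  have hne : Nonempty (K →ₐ[ℚ] ℂ) := by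
    rw [← Fintype.card_pos_iff, hn]
    exact finrank_pos
  have h := gen_ineq' hp hV v hc hint hs F hFm hFt hHF
  rw [hn] at h
  have hsum : ∑ u, Real.log (max 1 ‖v u‖) = (p : ℝ) ^ t * lam α := by
    have := lam_pow α (p ^ t)
    unfold lam at this
    rw [this]
    push_cast
    rfl
  rw [hsum] at h
  exact h

/-- **the polynomial `Φ` of small degree with `g ∣ Φ ^ e`** -/
theorem root_poly {k : Type*} [Field k] [DecidableEq k] (g : k[X]) (hg : g.Monic) (e : ℕ)
    (he : 1 ≤ e) : ∃ Φ : k[X], Φ.Monic ∧ g ∣ Φ ^ e ∧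
      e * Φ.natDegree ≤ g.natDegree + (e - 1) * rdeg g := by
  classical
  set m : k[X] → ℕ := fun q => (normalizedFactors g).count q with hm
  have hmon : ∀ q ∈ dfac g, q.Monic := fun q hq => dfac_monic hq
  have hgprod : g = ∏ q ∈ dfac g, q ^ m q := by
    have h1 := prod_normalizedFactors_eq hg.ne_zero
    rw [hg.normalize_eq_self] at h1
    conv_lhs => rw [← h1]
    rw [Finset.prod_multiset_count]
    rfl
  set Φ := ∏ q ∈ dfac g, q ^ ((m q + e - 1) / e) with hΦ
  have hΦm : Φ.Monic := monic_prod_of_monic _ _ fun q hq => (hmon q hq).pow _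
  have hgd : g.natDegree = ∑ q ∈ dfac g, m q * q.natDegree := by
    conv_lhs => rw [hgprod]
    rw [natDegree_prod_of_monic _ _ fun q hq => (hmon q hq).pow _]
    exact Finset.sum_congr rfl fun q hq => (hmon q hq).natDegree_pow _
  have hΦd : Φ.natDegree = ∑ q ∈ dfac g, ((m q + e - 1) / e) * q.natDegree := by
    rw [hΦ, natDegree_prod_of_monic _ _ fun q hq => (hmon q hq).pow _]
    exact Finset.sum_congr rfl fun q hq => (hmon q hq).natDegree_pow _
  refine ⟨Φ, hΦm, ?_, ?_⟩
  · conv_lhs => rw [hgprod]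
    rw [hΦ, ← Finset.prod_pow]
    apply Finset.prod_dvd_prod_of_dvd
    intro q _
    rw [← pow_mul]
    exact pow_dvd_pow _ (ceil_ge he _)
  · unfold rdeg
    rw [hΦd, hgd, Finset.mul_sum, Finset.mul_sum, ← Finset.sum_add_distrib]
    refine Finset.sum_le_sum fun q hq => ?_
    have h2 := ceil_le (e := e) (m q)
    calc e * ((m q + e - 1) / e * q.natDegree) = (e * ((m q + e - 1) / e)) * q.natDegree := by ring
      _ ≤ (m q + (e - 1)) * q.natDegree := Nat.mul_le_mul_right _ (by omega)
      _ = m q * q.natDegree + (e - 1) * q.natDegree := by ring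

end Pool.Agent.TH53.SL
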