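import Mathlib
import Pool.Agent.TH53.SL1

/-!
# The bound for integer polynomials
-/

set_option autoImplicit false

open Polynomial Finset Module IntermediateField

namespace Pool.Agent.TH53.SL

open Pool.Agent.TH53.HR Pool.Agent.H388SL Pool.Agent.H389R3.LR Pool.Agent.H389R3.LP

/-- **the inequality for monic irreducible polynomials** -/
theorem poly_ineq' {p : ℕ} [Fact p.Prime] (f : ℤ[X]) (hf : Irreducible f) (hm : f.Monic)
    (hnd : NondegAt p f) (t : ℕ) :
    ∃ D : ℕ, 0 < D ∧ p ^ t * D ≤ f.natDegree +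
        (p ^ t - 1) * rdeg (f.map (Int.castRingHom (ZMod p))) ∧
      ((f.natDegree : ℝ) - D) * Real.log p ≤ D * (Real.log f.natDegree +
        2 * ((p : ℝ) ^ t * Real.log (f.map (Int.castRingHom ℂ)).mahlerMeasure)) := by
  classical
  have hp : p.Prime := Fact.out
  have hdeg : f.natDegree ≠ 0 := by
    intro h
    have := hm.natDegree_eq_zero.mp h
    exact hf.not_isUnit (this ▸ isUnit_one)
  obtain ⟨z, hz⟩ := IsAlgClosed.exists_aeval_eq_zero ℂ f (by
    intro h
    exact hdeg (natDegree_eq_of_degree_eq_some h))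
  have hzi : IsIntegral ℤ z := ⟨f, hm, by rw [← Polynomial.aeval_def]; exact hz⟩
  have hzQ : IsIntegral ℚ z := hzi.tower_top
  have hmin : minpoly ℤ z = f := by
    have h1 := minpoly.isIntegrallyClosed_dvd hzi hz
    have h2 : Associated (minpoly ℤ z) f :=
      (minpoly.irreducible hzi).associated_of_dvd hf h1
    exact eq_of_monic_of_associated (minpoly.monic hzi) hm h2
  set L := adjoin ℚ {z} with hL
  have hfin : FiniteDimensional ℚ L := adjoin.finiteDimensional hzQ
  have : NumberField L := { to_charZero := inferInstance, to_finiteDimensional := hfin }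
  set α : L := AdjoinSimple.gen ℚ z with hα
  have hαz : algebraMap L ℂ α = z := AdjoinSimple.algebraMap_gen ℚ z
  have hαi : IsIntegral ℤ α := by
    rw [← hαz] at hzi
    exact (isIntegral_algebraMap_iff (algebraMap L ℂ).injective).mp hzi
  have hαc : CInj α := by
    intro σ τ h
    apply adjoin_algHom_ext ℚ (s := {z})
    intro x hx
    rw [Set.mem_singleton_iff] at hx
    subst hx
    exact h
  have hminα : minpoly ℤ α = f := by
    rw [← hmin, ← hαz]
    exact (minpoly.algebraMap_eq (algebraMap L ℂ).injective α).symm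
  have hpmap : f.map (Int.castRingHom ℂ) = ∏ τ : L →ₐ[ℚ] ℂ, (X - C (τ α)) := by
    rw [← minpoly_map_eq hαc, minpoly.isIntegrallyClosed_eq_field_fractions' ℚ hαi, hminα,
      Polynomial.map_map]
    rfl
  have hMM : Real.log (f.map (Int.castRingHom ℂ)).mahlerMeasure = lam α := by
    rw [hpmap]
    have h1 : (∏ τ : L →ₐ[ℚ] ℂ, (X - C (τ α))).mahlerMeasure = ∏ τ : L →ₐ[ℚ] ℂ, max 1 ‖τ α‖ := by
      rw [Finset.prod_eq_multiset_prod, prod_mahlerMeasure_eq_mahlerMeasure_prod, Multiset.map_map,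
        Finset.prod_eq_multiset_prod]
      congr 1
      refine Multiset.map_congr rfl fun τ _ => ?_
      rw [Function.comp_apply, mahlerMeasure_X_sub_C]
    rw [h1, Real.log_prod]
    · rfl
    · intro τ _
      have : (0:ℝ) < max 1 ‖τ α‖ := lt_of_lt_of_le one_pos (le_max_left _ _)
      exact this.ne'
  have hfr : finrank ℚ L = f.natDegree := by
    rw [hL, adjoin.finrank hzQ, minpoly.isIntegrallyClosed_eq_field_fractions' ℚ hzi, hmin]
    exact natDegree_map_eq_of_injective (algebraMap ℤ ℚ).injective_int f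
  have hzero : ∀ σ : L →ₐ[ℚ] ℂ, aeval (σ α) f = 0 := by
    intro σ
    rw [← map_aevalZ, ← hminα, minpoly.aeval, map_zero]
  have hc : ∀ s : ℕ, CInj (α ^ p ^ s) := by
    intro s σ τ h
    simp only [map_pow] at h
    exact hαc (hnd _ _ (hzero σ) (hzero τ) s h)
  obtain ⟨V, hV⟩ := exists_val p hp
  have hαV : ∀ σ : L →ₐ[ℚ] ℂ, σ α ∈ V := fun σ => hV.int _ (hαi.map (σ.restrictScalars ℤ))
  -- the auxiliary polynomial
  set g := f.map (Int.castRingHom (ZMod p)) with hg
  have hgm : g.Monic := hm.map _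
  have hgd : g.natDegree = f.natDegree := hm.natDegree_map _
  obtain ⟨Φ, hΦm, hgΦ, hΦd⟩ := root_poly g hgm (p ^ t) (Nat.one_le_pow _ _ hp.pos)
  rw [hgd] at hΦd
  have hΦ0 : 0 < Φ.natDegree := by
    by_contra h
    have h3 : Φ.natDegree = 0 := by omega
    have h4 := hΦm.natDegree_eq_zero.mp h3
    rw [h4, one_pow] at hgΦ
    have h5 := natDegree_le_of_dvd hgΦ one_ne_zero
    rw [natDegree_one, hgd] at h5
    omega
  obtain ⟨F, hF1, hF2, hF3⟩ := lifts_and_natDegree_eq_and_monic (f := Int.castRingHom (ZMod p))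
    (by
      obtain ⟨P, hP⟩ := exists_lift p Φ
      exact ⟨P, hP⟩) hΦm
  have hroot : ∀ σ : L →ₐ[ℚ] ℂ, (aeval (σ α) F) ^ p ^ t / p ∈ V := by
    intro σ
    have hch := charP_Rk hp hV
    apply good_of_root hp hV f g 1 (by rw [mul_one]) isCoprime_one_right F (p ^ t)
      (by rw [hF1]; exact hgΦ) (⟨σ α, hαV σ⟩ : V) (hzero σ)
    rw [hg, ← residue_aeval hp hV]
    have : aeval (⟨σ α, hαV σ⟩ : V) f = 0 := by
      apply Subtype.ext
      rw [coe_aeval]
      exact hzero σ
    rw [this, map_zero]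
  have h := field_ineq' hp hV hαi t (hc t) F hF3 (by rw [hF2]; exact hΦ0) hroot
  rw [hfr, ← hMM, hF2] at h
  exact ⟨Φ.natDegree, hΦ0, hΦd, h⟩

/-- the choice of `t` and the final estimate for a real lower bound -/
lemma real_est {ln lp n D r e ε lM P : ℝ} (hlp : 0 < lp) (hln : 0 ≤ ln) (hn : 0 < n) (hD : 0 < D)
    (hr : 0 ≤ r) (he0 : 0 < e) (hε : 0 < ε) (hε1 : ε ≤ 1)
    (hP : 0 < P) (he1 : 2 * (1 + ln / lp) / ε ≤ e) (he2 : e ≤ P * (2 * (1 + ln / lp) / ε))
    (hcond : 4 * P * r * (ln + lp) ≤ ε ^ 2 * n * lp)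
    (hDe : e * D ≤ n + e * r) (h : (n - D) * lp ≤ D * (ln + 2 * (e * lM))) :
    (1 - ε) / 2 * lp ≤ lM := by
  -- `e r ≤ (ε / 2) n`
  have h1 : e * r ≤ ε / 2 * n := by
    have h2 : e * r ≤ P * (2 * (1 + ln / lp) / ε) * r := mul_le_mul_of_nonneg_right he2 hr
    have h3 : P * (2 * (1 + ln / lp) / ε) * r = (4 * P * r * (ln + lp)) / (2 * ε * lp) := by
      field_simp
      ring
    have h4 : (4 * P * r * (ln + lp)) / (2 * ε * lp) ≤ (ε ^ 2 * n * lp) / (2 * ε * lp) := by
      gcongr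
    have h5 : (ε ^ 2 * n * lp) / (2 * ε * lp) = ε / 2 * n := by
      field_simp
    rw [h3] at h2
    rw [h5] at h4
    exact h2.trans h4
  have h2 : e * D ≤ (1 + ε / 2) * n := by linarith
  -- `(ln + lp) ≤ (ε / 2) e lp`
  have h3 : ln + lp ≤ ε / 2 * e * lp := by
    have h4 : 2 * (1 + ln / lp) / ε = 2 * (ln + lp) / (ε * lp) := by
      field_simp
      ring
    rw [h4, div_le_iff₀ (by positivity)] at he1
    linarith
  -- the conclusion
  have h5 : e * D * (1 - ε / 2) ≤ n := by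
    have h6 : e * D * (1 - ε / 2) ≤ (1 + ε / 2) * n * (1 - ε / 2) :=
      mul_le_mul_of_nonneg_right h2 (by linarith)
    have h7 : (1 + ε / 2) * n * (1 - ε / 2) = n - ε ^ 2 / 4 * n := by ring
    have h8 : 0 ≤ ε ^ 2 / 4 * n := by positivity
    linarith
  have h6 : D * (e * (1 - ε / 2) * lp) ≤ D * (ln + lp + 2 * (e * lM)) := by
    have h7 : n * lp ≤ D * (ln + lp + 2 * (e * lM)) := by nlinarith
    have h8 : e * D * (1 - ε / 2) * lp ≤ n * lp := mul_le_mul_of_nonneg_right h5 hlp.le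
    calc D * (e * (1 - ε / 2) * lp) = e * D * (1 - ε / 2) * lp := by ring
      _ ≤ _ := h8.trans h7
  have h7 := le_of_mul_le_mul_left h6 hD
  have h8 : e * ((1 - ε) / 2 * lp) ≤ e * lM := by nlinarith
  exact le_of_mul_le_mul_left h8 he0

theorem monic_bound (p : ℕ) [Fact p.Prime] (f : ℤ[X]) (hf : Irreducible f) (hm : f.Monic)
    (hnd : NondegAt p f) (ε : ℝ) (hε : 0 < ε) (hε1 : ε ≤ 1)
    (hR : 4 * (p : ℝ) * rdeg (f.map (Int.castRingHom (ZMod p))) *
      (Real.log f.natDegree + Real.log p) ≤ ε ^ 2 * f.natDegree * Real.log p) :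
    (1 - ε) / 2 * Real.log p ≤ Real.log (f.map (Int.castRingHom ℂ)).mahlerMeasure := by
  have hp : p.Prime := Fact.out
  have hdeg : f.natDegree ≠ 0 := by
    intro h
    have := hm.natDegree_eq_zero.mp h
    exact hf.not_isUnit (this ▸ isUnit_one)
  have hn1 : (1:ℝ) ≤ f.natDegree := by exact_mod_cast Nat.one_le_iff_ne_zero.mpr hdeg
  have hp1 : (1 : ℝ) < p := by exact_mod_cast hp.one_lt
  have hlogp : 0 < Real.log p := Real.log_pos hp1
  have hlogn : 0 ≤ Real.log f.natDegree := Real.log_nonneg hn1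
  set E : ℝ := 2 * (1 + Real.log f.natDegree / Real.log p) / ε with hE
  have hE1 : 1 < E := by
    rw [hE, lt_div_iff₀ hε]
    have : 0 ≤ Real.log f.natDegree / Real.log p := by positivity
    linarith
  -- the least `t` with `E ≤ p ^ t`
  have hex : ∃ t : ℕ, E ≤ (p : ℝ) ^ t := by
    obtain ⟨t, ht⟩ := pow_unbounded_of_one_lt E hp1
    exact ⟨t, ht.le⟩
  classical
  obtain ⟨t, ht1, ht2⟩ : ∃ t : ℕ, E ≤ (p : ℝ) ^ t ∧ (p : ℝ) ^ t ≤ p * E := by
    refine ⟨Nat.find hex, Nat.find_spec hex, ?_⟩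
    rcases Nat.eq_zero_or_pos (Nat.find hex) with h | h
    · have := Nat.find_spec hex
      rw [h, pow_zero] at this
      linarith
    · obtain ⟨s, hs⟩ := Nat.exists_eq_add_of_lt h
      have h1 : ¬ E ≤ (p : ℝ) ^ s := Nat.find_min hex (by omega)
      have h2 : Nat.find hex = s + 1 := by omega
      rw [h2, pow_succ, mul_comm]
      exact mul_le_mul_of_nonneg_left (not_le.mp h1).le (by linarith)
  obtain ⟨D, hD0, hD, h⟩ := poly_ineq' (p := p) f hf hm hnd t
  have hD' : (p : ℝ) ^ t * D ≤ f.natDegree +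
      (p : ℝ) ^ t * rdeg (f.map (Int.castRingHom (ZMod p))) := by
    have h1 : p ^ t * D ≤ f.natDegree + p ^ t * rdeg (f.map (Int.castRingHom (ZMod p))) :=
      hD.trans (Nat.add_le_add_left (Nat.mul_le_mul_right _ (Nat.sub_le _ _)) _)
    exact_mod_cast h1
  exact real_est hlogp hlogn (by linarith) (by exact_mod_cast hD0) (Nat.cast_nonneg _)
    (by positivity) hε hε1 (by linarith) ht1 ht2 hR hD' h

/-- **the bound for all irreducible polynomials** -/
theorem irreducible_bound (p : ℕ) [Fact p.Prime] (f : ℤ[X]) (hf : Irreducible f)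
    (hM : 1 < (f.map (Int.castRingHom ℂ)).mahlerMeasure) (hnd : NondegAt p f) (ε : ℝ) (hε : 0 < ε)
    (hε1 : ε ≤ 1)
    (hR : 4 * (p : ℝ) * zerosMod f p * (Real.log f.natDegree + Real.log p) ≤
      ε ^ 2 * f.natDegree * Real.log p) :
    min 2 ((p : ℝ) ^ ((1 - ε) / 2)) ≤ (f.map (Int.castRingHom ℂ)).mahlerMeasure := by
  have hp : p.Prime := Fact.out
  have hp1 : (1 : ℝ) < p := by exact_mod_cast hp.one_lt
  have hlogp : 0 < Real.log p := Real.log_pos hp1
  by_contra hcon
  push Not at hcon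
  obtain ⟨hcon2, hcon1⟩ := lt_min_iff.mp hcon
  refine monic_or_neg f hf hM hcon2 (Q := fun g => NondegAt p g ∧
    4 * (p : ℝ) * zerosMod g p * (Real.log g.natDegree + Real.log p) ≤
      ε ^ 2 * g.natDegree * Real.log p) ?_ ?_ ⟨hnd, hR⟩
  · rintro ⟨h1, h2⟩
    refine ⟨nondeg_neg h1, ?_⟩
    have h3 : zerosMod (-f) p = zerosMod f p := by
      unfold zerosMod
      rw [Polynomial.map_neg, rootSet_neg]
    rw [h3, natDegree_neg]
    exact h2
  · rintro g hg hgm hgM hgMf - ⟨h1, h2⟩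
    have hg0 : g.map (Int.castRingHom (ZMod p)) ≠ 0 := (hgm.map _).ne_zero
    have h3 := rdeg_le (g.map (Int.castRingHom (ZMod p))) hg0 (Ω := AlgebraicClosure (ZMod p))
    have hdeg : g.natDegree ≠ 0 := by
      intro h
      have := hgm.natDegree_eq_zero.mp h
      exact hg.not_isUnit (this ▸ isUnit_one)
    have hn1 : (1:ℝ) ≤ g.natDegree := by exact_mod_cast Nat.one_le_iff_ne_zero.mpr hdeg
    have hl : 0 ≤ Real.log g.natDegree + Real.log p := by
      have := Real.log_nonneg hn1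
      linarith
    have h4 : 4 * (p : ℝ) * rdeg (g.map (Int.castRingHom (ZMod p))) *
        (Real.log g.natDegree + Real.log p) ≤ ε ^ 2 * g.natDegree * Real.log p := by
      refine le_trans (mul_le_mul_of_nonneg_right (mul_le_mul_of_nonneg_left ?_ (by linarith)) hl) h2
      exact_mod_cast h3
    have h5 := monic_bound p g hg hgm h1 ε hε hε1 h4
    rw [← Real.log_rpow (by linarith), hgMf] at h5
    have h6 := (Real.log_le_log_iff (by positivity) (by linarith)).mp h5
    linarith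

end Pool.Agent.TH53.SL
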