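import Mathlib
import Pool.Agent.TH53.SL2

/-!
# Powers that do not generate the field
-/

set_option autoImplicit false

open Polynomial Finset Module IntermediateField

namespace Pool.Agent.TH53.SL

open Pool.Agent.TH53.HR Pool.Agent.H388SL Pool.Agent.H389R3.LR Pool.Agent.H389R3.LP

/-- product over embeddings -/
lemma prod_emb {K : Type*} [Field K] [NumberField K] (x : K) (g : ℂ → ℝ) :
    ∏ σ : K →ₐ[ℚ] ℂ, g (σ x) =
      (∏ τ : ℚ⟮x⟯ →ₐ[ℚ] ℂ, g (τ (AdjoinSimple.gen ℚ x))) ^ Module.finrank ℚ⟮x⟯ K := by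
  classical
  have hgen : algebraMap ℚ⟮x⟯ K (AdjoinSimple.gen ℚ x) = x := AdjoinSimple.algebraMap_gen ℚ x
  rw [Fintype.prod_equiv algHomEquivSigma (fun σ : K →ₐ[ℚ] ℂ => g (σ x))
      (fun σ => g (σ.1 (AdjoinSimple.gen ℚ x))), ← Finset.univ_sigma_univ, Finset.prod_sigma,
      ← Finset.prod_pow]
  · refine Finset.prod_congr rfl fun σ _ => ?_
    let : Algebra ℚ⟮x⟯ ℂ := σ.toRingHom.toAlgebra
    simp_rw [Finset.prod_const]
    congr
    exact AlgHom.card ℚ⟮x⟯ K ℂ
  · intro σ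
    simp only [algHomEquivSigma, Equiv.coe_fn_mk, AlgHom.domRestrict, AlgHom.comp_apply,
      IsScalarTower.coe_toAlgHom']
    rw [hgen]

variable {p : ℕ} {V : ValuationSubring ℂ}

/-- **the core inequality, without hypothesis on the powers** -/
theorem sub_ineq {K : Type*} [Field K] [NumberField K] (hp : p.Prime) (hV : Good p V) {α : K}
    (hα : IsIntegral ℤ α) (t : ℕ)
    (F : ℤ[X]) (hFm : F.Monic) (hFt : 0 < F.natDegree)
    (hG : ∀ σ : K →ₐ[ℚ] ℂ, (aeval (σ α) F) ^ p ^ t / p ∈ V) :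
    ∃ x : ℕ, 0 < x ∧ x = (Set.range fun σ : K →ₐ[ℚ] ℂ => σ α ^ p ^ t).ncard ∧
    ((x : ℝ) - F.natDegree) * Real.log p ≤
      F.natDegree * (Real.log x + 2 * (x / finrank ℚ K * ((p : ℝ) ^ t * lam α))) := by
  classical
  set β : K := α ^ p ^ t with hβ
  have hβi : IsIntegral ℤ β := hα.pow _
  have hβQ : IsIntegral ℚ β := hβi.tower_top
  set K' := ℚ⟮β⟯ with hK'
  set γ : K' := AdjoinSimple.gen ℚ β with hγ
  have hγβ : algebraMap K' K γ = β := AdjoinSimple.algebraMap_gen ℚ β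
  have hγi : IsIntegral ℤ γ := by
    rw [← hγβ] at hβi
    exact (isIntegral_algebraMap_iff (algebraMap K' K).injective).mp hβi
  let v : (K' →ₐ[ℚ] ℂ) → ℂ := fun τ => τ γ
  have hvinj : Function.Injective v := by
    intro σ τ h
    apply adjoin_algHom_ext ℚ (s := {β})
    intro x hx
    rw [Set.mem_singleton_iff] at hx
    subst hx
    exact h
  have hint : ∀ u, IsIntegral ℤ (v u) := fun u => hγi.map (u.restrictScalars ℤ)
  have hs : ∀ j : ℕ, ∃ m : ℤ, ∑ u, v u ^ j = m := by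
    intro j
    obtain ⟨m, hm⟩ := trace_int (hγi.pow j)
    refine ⟨m, ?_⟩
    rw [← hm]
    refine Finset.sum_congr rfl fun σ _ => ?_
    rw [map_pow]
  have hmin : minpoly ℚ β = minpoly ℚ γ := by
    rw [← hγβ]
    exact minpoly.algebraMap_eq (algebraMap K' K).injective γ
  have hrange : (Set.range fun σ : K →ₐ[ℚ] ℂ => σ α ^ p ^ t) = Set.range v := by
    have h1 := (NumberField.isAlgebraic K).range_eval_eq_rootSet_minpoly ℂ β
    have h2 := (NumberField.isAlgebraic K').range_eval_eq_rootSet_minpoly ℂ γ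
    have h3 : (fun σ : K →ₐ[ℚ] ℂ => σ α ^ p ^ t) = fun σ : K →ₐ[ℚ] ℂ => σ β := by
      funext σ
      rw [hβ, map_pow]
    rw [h3, h1, hmin, ← h2]
  have hHF : ∀ u, aeval (v u) F / p ∈ V := by
    intro τ
    have h1 : v τ ∈ Set.range fun σ : K →ₐ[ℚ] ℂ => σ α ^ p ^ t := by
      rw [hrange]
      exact ⟨τ, rfl⟩
    obtain ⟨σ, hσ⟩ := h1
    simp only at hσ
    rw [← hσ]
    exact aeval_pow_div_mem hp (hV.int _ (hα.map (σ.restrictScalars ℤ))) F (E := p ^ t)
      le_rfl (hG σ)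
  have hn : Fintype.card (K' →ₐ[ℚ] ℂ) = finrank ℚ K' := AlgHom.card ℚ K' ℂ
  have hne : Nonempty (K' →ₐ[ℚ] ℂ) := by
    rw [← Fintype.card_pos_iff, hn]
    exact finrank_pos
  have h := gen_ineq' hp hV v hvinj hint hs F hFm hFt hHF
  rw [hn] at h
  -- the sum
  have hlam : lam β = finrank K' K * ∑ u, Real.log (max 1 ‖v u‖) := by
    have h1 := prod_emb β (fun z => max 1 ‖z‖)
    have hpos : ∀ z : ℂ, (max 1 ‖z‖ : ℝ) ≠ 0 := fun z =>
      (lt_of_lt_of_le one_pos (le_max_left _ _)).ne'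
    have h2 := congrArg Real.log h1
    rw [Real.log_prod (fun σ _ => hpos _), Real.log_pow, Real.log_prod (fun σ _ => hpos _)] at h2
    exact h2
  have hdeg : finrank ℚ K' * finrank K' K = finrank ℚ K := finrank_mul_finrank ℚ K' K
  have hx0 : 0 < finrank ℚ K' := finrank_pos
  have hy0 : 0 < finrank K' K := finrank_pos
  have hx0' : (0 : ℝ) < finrank ℚ K' := by exact_mod_cast hx0
  have hy0' : (0 : ℝ) < finrank K' K := by exact_mod_cast hy0
  have hsum : ∑ u, Real.log (max 1 ‖v u‖) = finrank ℚ K' / finrank ℚ K * ((p : ℝ) ^ t * lam α) := by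
    have h1 : lam β = (p : ℝ) ^ t * lam α := by
      rw [hβ, lam_pow]
      push_cast
      rfl
    rw [← h1, hlam, ← hdeg]
    push_cast
    field_simp
  rw [hsum] at h
  refine ⟨finrank ℚ K', hx0, ?_, h⟩
  rw [hrange, ← Set.image_univ, Set.ncard_image_of_injective _ hvinj, Set.ncard_univ,
    Nat.card_eq_fintype_card, hn]

/-- the number of distinct `p ^ t`-th powers of the zeros of `f` -/
noncomputable def powZeros (p : ℕ) (f : ℤ[X]) (t : ℕ) : ℕ :=
  ((fun z : ℂ => z ^ p ^ t) '' (f.rootSet ℂ)).ncard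

/-- **the inequality for monic irreducible polynomials** -/
theorem poly_ineq'' {p : ℕ} [Fact p.Prime] (f : ℤ[X]) (hf : Irreducible f) (hm : f.Monic) (t : ℕ) :
    0 < powZeros p f t ∧
    ∃ D : ℕ, 0 < D ∧ p ^ t * D ≤ f.natDegree +
        (p ^ t - 1) * rdeg (f.map (Int.castRingHom (ZMod p))) ∧
      ((powZeros p f t : ℝ) - D) * Real.log p ≤ D * (Real.log (powZeros p f t) +
        2 * (powZeros p f t / f.natDegree *
          ((p : ℝ) ^ t * Real.log (f.map (Int.castRingHom ℂ)).mahlerMeasure))) := by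
  classical
  have hp : p.Prime := Fact.out
  have hdeg : f.natDegree ≠ 0 := by
    intro h
    have := hm.natDegree_eq_zero.mp h
    exact hf.not_isUnit (this ▸ isUnit_one)
  obtain ⟨z, hz⟩ := IsAlgClosed.exists_aeval_eq_zero ℂ f (by
    intro h
    exact hdeg (natDegree_eq_of_degree_eq_some h))
  have hzi : IsIntegral ℤ z := ⟨f, hm, by rw [← Polynomial.aeval_def]; exact hz⟩
  have hzQ : IsIntegral ℚ z := hzi.tower_top
  have hmin : minpoly ℤ z = f := by
    have h1 := minpoly.isIntegrallyClosed_dvd hzi hz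
    have h2 : Associated (minpoly ℤ z) f :=
      (minpoly.irreducible hzi).associated_of_dvd hf h1
    exact eq_of_monic_of_associated (minpoly.monic hzi) hm h2
  set L := adjoin ℚ {z} with hL
  have hfin : FiniteDimensional ℚ L := adjoin.finiteDimensional hzQ
  have : NumberField L := { to_charZero := inferInstance, to_finiteDimensional := hfin }
  set α : L := AdjoinSimple.gen ℚ z with hα
  have hαz : algebraMap L ℂ α = z := AdjoinSimple.algebraMap_gen ℚ z
  have hαi : IsIntegral ℤ α := by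
    rw [← hαz] at hzi
    exact (isIntegral_algebraMap_iff (algebraMap L ℂ).injective).mp hzi
  have hαc : CInj α := by
    intro σ τ h
    apply adjoin_algHom_ext ℚ (s := {z})
    intro x hx
    rw [Set.mem_singleton_iff] at hx
    subst hx
    exact h
  have hminα : minpoly ℤ α = f := by
    rw [← hmin, ← hαz]
    exact (minpoly.algebraMap_eq (algebraMap L ℂ).injective α).symm
  have hpmap : f.map (Int.castRingHom ℂ) = ∏ τ : L →ₐ[ℚ] ℂ, (X - C (τ α)) := by
    rw [← minpoly_map_eq hαc, minpoly.isIntegrallyClosed_eq_field_fractions' ℚ hαi, hminα,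
      Polynomial.map_map]
    rfl
  have hMM : Real.log (f.map (Int.castRingHom ℂ)).mahlerMeasure = lam α := by
    rw [hpmap]
    have h1 : (∏ τ : L →ₐ[ℚ] ℂ, (X - C (τ α))).mahlerMeasure = ∏ τ : L →ₐ[ℚ] ℂ, max 1 ‖τ α‖ := by
      rw [Finset.prod_eq_multiset_prod, prod_mahlerMeasure_eq_mahlerMeasure_prod, Multiset.map_map,
        Finset.prod_eq_multiset_prod]
      congr 1
      refine Multiset.map_congr rfl fun τ _ => ?_
      rw [Function.comp_apply, mahlerMeasure_X_sub_C]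
    rw [h1, Real.log_prod]
    · rfl
    · intro τ _
      have : (0:ℝ) < max 1 ‖τ α‖ := lt_of_lt_of_le one_pos (le_max_left _ _)
      exact this.ne'
  have hfr : finrank ℚ L = f.natDegree := by
    rw [hL, adjoin.finrank hzQ, minpoly.isIntegrallyClosed_eq_field_fractions' ℚ hzi, hmin]
    exact natDegree_map_eq_of_injective (algebraMap ℤ ℚ).injective_int f
  have hzero : ∀ σ : L →ₐ[ℚ] ℂ, aeval (σ α) f = 0 := by
    intro σ
    rw [← map_aevalZ, ← hminα, minpoly.aeval, map_zero]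
  have hroots : f.rootSet ℂ = Set.range fun σ : L →ₐ[ℚ] ℂ => σ α := by
    rw [(NumberField.isAlgebraic L).range_eval_eq_rootSet_minpoly ℂ α,
      minpoly.isIntegrallyClosed_eq_field_fractions' ℚ hαi, hminα]
    ext w
    rw [mem_rootSet_of_ne hm.ne_zero, mem_rootSet_of_ne (hm.map _).ne_zero, aeval_map_algebraMap]
  obtain ⟨V, hV⟩ := exists_val p hp
  have hαV : ∀ σ : L →ₐ[ℚ] ℂ, σ α ∈ V := fun σ => hV.int _ (hαi.map (σ.restrictScalars ℤ))
  -- the auxiliary polynomial
  set g := f.map (Int.castRingHom (ZMod p)) with hg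
  have hgm : g.Monic := hm.map _
  have hgd : g.natDegree = f.natDegree := hm.natDegree_map _
  obtain ⟨Φ, hΦm, hgΦ, hΦd⟩ := root_poly g hgm (p ^ t) (Nat.one_le_pow _ _ hp.pos)
  rw [hgd] at hΦd
  have hΦ0 : 0 < Φ.natDegree := by
    by_contra h
    have h3 : Φ.natDegree = 0 := by omega
    have h4 := hΦm.natDegree_eq_zero.mp h3
    rw [h4, one_pow] at hgΦ
    have h5 := natDegree_le_of_dvd hgΦ one_ne_zero
    rw [natDegree_one, hgd] at h5
    omega
  obtain ⟨F, hF1, hF2, hF3⟩ := lifts_and_natDegree_eq_and_monic (f := Int.castRingHom (ZMod p))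
    (by
      obtain ⟨P, hP⟩ := exists_lift p Φ
      exact ⟨P, hP⟩) hΦm
  have hroot : ∀ σ : L →ₐ[ℚ] ℂ, (aeval (σ α) F) ^ p ^ t / p ∈ V := by
    intro σ
    have hch := charP_Rk hp hV
    apply good_of_root hp hV f g 1 (by rw [mul_one]) isCoprime_one_right F (p ^ t)
      (by rw [hF1]; exact hgΦ) (⟨σ α, hαV σ⟩ : V) (hzero σ)
    rw [hg, ← residue_aeval hp hV]
    have : aeval (⟨σ α, hαV σ⟩ : V) f = 0 := by
      apply Subtype.ext
      rw [coe_aeval]
      exact hzero σ
    rw [this, map_zero]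
  obtain ⟨x, hx0, hx, h⟩ := sub_ineq hp hV hαi t F hF3 (by rw [hF2]; exact hΦ0) hroot
  have hxp : x = powZeros p f t := by
    rw [hx]
    unfold powZeros
    rw [hroots, ← Set.range_comp]
    rfl
  rw [hfr, ← hMM, hF2, hxp] at h
  exact ⟨hxp ▸ hx0, Φ.natDegree, hΦ0, hΦd, h⟩

end Pool.Agent.TH53.SL
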