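import Mathlib
import Pool.Agent.TH53.SL3

/-!
# The final bound
-/

set_option autoImplicit false

open Polynomial Finset

namespace Pool.Agent.TH53.SL

open Pool.Agent.TH53.HR Pool.Agent.H389R3.LR Pool.Agent.H389R3.LP

/-- `(log p + log x) / x` is decreasing -/
lemma mono_aux {lp : ℝ} (hlp : Real.log 2 ≤ lp) {N x : ℕ} (hN : 1 ≤ N) (hx : N ≤ x) :
    (lp + Real.log x) / x ≤ (lp + Real.log N) / N := by
  induction x, hx using Nat.le_induction with
  | base => exact le_rfl
  | succ x hx ih =>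
    refine le_trans ?_ ih
    have hx1 : 1 ≤ x := hN.trans hx
    have hx0 : (0:ℝ) < x := by exact_mod_cast hx1
    rw [div_le_div_iff₀ (by push_cast; positivity) hx0]
    push_cast
    have hl2 := Real.log_two_gt_d9
    -- `x log (1 + 1 / x) ≤ lp + log x`
    have h1 : Real.log (x + 1) = Real.log x + Real.log (1 + 1 / x) := by
      rw [← Real.log_mul hx0.ne' (by positivity)]
      congr 1
      field_simp
    have h2 : x * Real.log (1 + 1 / x) ≤ lp + Real.log x := by
      rcases Nat.lt_or_ge x 2 with h3 | h3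
      · have h4 : x = 1 := by omega
        subst h4
        norm_num
        exact hlp
      · have h4 : Real.log (1 + 1 / x) ≤ 1 / x := by
          have := Real.log_le_sub_one_of_pos (show (0:ℝ) < 1 + 1 / x by positivity)
          linarith
        have h5 : (x : ℝ) * Real.log (1 + 1 / x) ≤ 1 := by
          calc (x : ℝ) * Real.log (1 + 1 / x) ≤ x * (1 / x) := mul_le_mul_of_nonneg_left h4 hx0.le
            _ = 1 := by field_simp
        have h6 : Real.log 2 ≤ Real.log x := Real.log_le_log two_pos (by exact_mod_cast h3)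
        linarith
    rw [h1]
    nlinarith

/-- the final estimate, in real numbers -/
lemma real_est2 {lx lp lN n D r e ε lM P x N : ℝ} (hlp : 0 < lp) (hn : 0 < n) (hD : 0 < D)
    (hr : 0 ≤ r) (he0 : 0 < e) (hε : 0 < ε) (hε1 : ε ≤ 1) (hx : 0 < x) (hN : 0 < N)
    (hP : 0 < P) (he1 : n / N * (2 * (1 + lN / lp)) / ε ≤ e)
    (he2 : e ≤ P * (n / N * (2 * (1 + lN / lp)) / ε))
    (hcond : 4 * P * r * (lN + lp) ≤ ε ^ 2 * N * lp)
    (hmono : (lp + lx) / x ≤ (lp + lN) / N)
    (hDe : e * D ≤ n + e * r) (h : (x - D) * lp ≤ D * (lx + 2 * (x / n * (e * lM)))) :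
    (1 - ε) / 2 * lp ≤ lM := by
  -- `e r ≤ (ε / 2) n`
  have h1 : e * r ≤ ε / 2 * n := by
    have h2 : e * r ≤ P * (n / N * (2 * (1 + lN / lp)) / ε) * r := mul_le_mul_of_nonneg_right he2 hr
    have h3 : P * (n / N * (2 * (1 + lN / lp)) / ε) * r =
        n * (4 * P * r * (lN + lp)) / (2 * ε * N * lp) := by
      field_simp
      ring
    have h4 : n * (4 * P * r * (lN + lp)) / (2 * ε * N * lp) ≤
        n * (ε ^ 2 * N * lp) / (2 * ε * N * lp) := by
      gcongr
    have h5 : n * (ε ^ 2 * N * lp) / (2 * ε * N * lp) = ε / 2 * n := by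
      field_simp
    rw [h3] at h2
    rw [h5] at h4
    exact h2.trans h4
  have h2 : e * D ≤ (1 + ε / 2) * n := by linarith
  -- `n (lp + lx) ≤ (ε / 2) x e lp`
  have h3 : n * (lp + lx) ≤ ε / 2 * (x * e) * lp := by
    have h4 : n / N * (2 * (1 + lN / lp)) / ε = 2 * n * (lN + lp) / (N * ε * lp) := by
      field_simp
      ring
    rw [h4, div_le_iff₀ (by positivity)] at he1
    rw [div_le_div_iff₀ hx hN] at hmono
    have h5 : N * (n * (lp + lx)) ≤ N * (ε / 2 * (x * e) * lp) := by
      calc N * (n * (lp + lx)) = n * ((lp + lx) * N) := by ring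
        _ ≤ n * ((lp + lN) * x) := mul_le_mul_of_nonneg_left hmono hn.le
        _ = x / 2 * (2 * n * (lN + lp)) := by ring
        _ ≤ x / 2 * (e * (N * ε * lp)) := mul_le_mul_of_nonneg_left he1 (by positivity)
        _ = N * (ε / 2 * (x * e) * lp) := by ring
    exact le_of_mul_le_mul_left h5 hN
  -- the conclusion
  have h5 : e * D * (1 - ε / 2) ≤ n := by
    have h6 : e * D * (1 - ε / 2) ≤ (1 + ε / 2) * n * (1 - ε / 2) :=
      mul_le_mul_of_nonneg_right h2 (by linarith)
    have h7 : (1 + ε / 2) * n * (1 - ε / 2) = n - ε ^ 2 / 4 * n := by ring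
    have h8 : 0 ≤ ε ^ 2 / 4 * n := by positivity
    linarith
  have h6 : D * ((x * e) * ((1 - ε / 2) * lp)) ≤ D * (n * (lp + lx) + 2 * (x * e) * lM) := by
    have h7 : x * lp ≤ D * (lp + lx + 2 * (x / n * (e * lM))) := by linarith
    have h8 : e * D * (1 - ε / 2) * (x * lp) ≤ n * (x * lp) :=
      mul_le_mul_of_nonneg_right h5 (by positivity)
    have h9 : n * (x * lp) ≤ n * (D * (lp + lx + 2 * (x / n * (e * lM)))) :=
      mul_le_mul_of_nonneg_left h7 hn.le
    have h10 : n * (D * (lp + lx + 2 * (x / n * (e * lM)))) =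
        D * (n * (lp + lx) + 2 * (x * e) * lM) := by
      field_simp
    calc D * ((x * e) * ((1 - ε / 2) * lp)) = e * D * (1 - ε / 2) * (x * lp) := by ring
      _ ≤ _ := h8.trans (h9.trans_eq h10)
  have h7 := le_of_mul_le_mul_left h6 hD
  have h8 : (x * e) * ((1 - ε) / 2 * lp) ≤ (x * e) * lM := by nlinarith
  exact le_of_mul_le_mul_left h8 (by positivity)

theorem monic_bound' (p : ℕ) [Fact p.Prime] (f : ℤ[X]) (hf : Irreducible f) (hm : f.Monic)
    (N : ℕ) (hN : ∀ t : ℕ, N ≤ powZeros p f t) (ε : ℝ) (hε : 0 < ε) (hε1 : ε ≤ 1)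
    (hR : 4 * (p : ℝ) * rdeg (f.map (Int.castRingHom (ZMod p))) *
      (Real.log N + Real.log p) ≤ ε ^ 2 * N * Real.log p) :
    (1 - ε) / 2 * Real.log p ≤ Real.log (f.map (Int.castRingHom ℂ)).mahlerMeasure := by
  classical
  have hp : p.Prime := Fact.out
  have hdeg : f.natDegree ≠ 0 := by
    intro h
    have := hm.natDegree_eq_zero.mp h
    exact hf.not_isUnit (this ▸ isUnit_one)
  have hn1 : (1:ℝ) ≤ f.natDegree := by exact_mod_cast Nat.one_le_iff_ne_zero.mpr hdeg
  have hp1 : (1 : ℝ) < p := by exact_mod_cast hp.one_lt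
  have hlogp : 0 < Real.log p := Real.log_pos hp1
  -- `r ≥ 1`
  have hr0 : 0 < rdeg (f.map (Int.castRingHom (ZMod p))) := by
    have hgm : (f.map (Int.castRingHom (ZMod p))).Monic := hm.map _
    obtain ⟨q, hqm, hq, hqd⟩ := exists_monic_irreducible_factor (f.map (Int.castRingHom (ZMod p)))
      (by
        intro h
        rw [isUnit_iff_degree_eq_zero, degree_eq_natDegree hgm.ne_zero, hm.natDegree_map] at h
        exact hdeg (by exact_mod_cast h))
    have h1 : q ∈ dfac (f.map (Int.castRingHom (ZMod p))) := mem_dfac_of hgm.ne_zero hq hqm hqd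
    have h2 : q.natDegree ≤ rdeg (f.map (Int.castRingHom (ZMod p))) := by
      unfold rdeg
      exact Finset.single_le_sum (f := fun q : (ZMod p)[X] => q.natDegree)
        (fun _ _ => Nat.zero_le _) h1
    exact lt_of_lt_of_le hq.natDegree_pos h2
  have hN0 : 0 < N := by
    rcases Nat.eq_zero_or_pos N with h | h
    · exfalso
      rw [h] at hR
      simp at hR
      have h1 : (0:ℝ) < rdeg (f.map (Int.castRingHom (ZMod p))) := by exact_mod_cast hr0
      have : 0 < 4 * (p : ℝ) * rdeg (f.map (Int.castRingHom (ZMod p))) * Real.log p := by positivity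
      linarith
    · exact h
  have hN1 : (1:ℝ) ≤ N := by exact_mod_cast hN0
  have hlogN : 0 ≤ Real.log N := Real.log_nonneg hN1
  -- `N ≤ n`
  have hNn : (N : ℝ) ≤ f.natDegree := by
    have h1 := hN 0
    have h2 : powZeros p f 0 ≤ f.natDegree := by
      unfold powZeros
      refine (Set.ncard_image_le (rootSet_finite f ℂ)).trans ?_
      exact ncard_rootSet_le f ℂ
    exact_mod_cast h1.trans h2
  set E : ℝ := f.natDegree / N * (2 * (1 + Real.log N / Real.log p)) / ε with hE
  have hE1 : 1 < E := by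
    rw [hE, lt_div_iff₀ hε]
    have h1 : 0 ≤ Real.log N / Real.log p := by positivity
    have h2 : 1 ≤ (f.natDegree : ℝ) / N := by
      rw [one_le_div (by linarith)]
      exact hNn
    nlinarith
  have hex : ∃ t : ℕ, E ≤ (p : ℝ) ^ t := by
    obtain ⟨t, ht⟩ := pow_unbounded_of_one_lt E hp1
    exact ⟨t, ht.le⟩
  obtain ⟨t, ht1, ht2⟩ : ∃ t : ℕ, E ≤ (p : ℝ) ^ t ∧ (p : ℝ) ^ t ≤ p * E := by
    refine ⟨Nat.find hex, Nat.find_spec hex, ?_⟩
    rcases Nat.eq_zero_or_pos (Nat.find hex) with h | h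
    · have := Nat.find_spec hex
      rw [h, pow_zero] at this
      linarith
    · obtain ⟨s, hs⟩ := Nat.exists_eq_add_of_lt h
      have h1 : ¬ E ≤ (p : ℝ) ^ s := Nat.find_min hex (by omega)
      have h2 : Nat.find hex = s + 1 := by omega
      rw [h2, pow_succ, mul_comm]
      exact mul_le_mul_of_nonneg_left (not_le.mp h1).le (by linarith)
  obtain ⟨hx0, D, hD0, hD, h⟩ := poly_ineq'' (p := p) f hf hm t
  have hD' : (p : ℝ) ^ t * D ≤ f.natDegree +
      (p : ℝ) ^ t * rdeg (f.map (Int.castRingHom (ZMod p))) := by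
    have h1 : p ^ t * D ≤ f.natDegree + p ^ t * rdeg (f.map (Int.castRingHom (ZMod p))) :=
      hD.trans (Nat.add_le_add_left (Nat.mul_le_mul_right _ (Nat.sub_le _ _)) _)
    exact_mod_cast h1
  have hmono := mono_aux (lp := Real.log p)
    (Real.log_le_log two_pos (by exact_mod_cast hp.two_le)) hN0 (hN t)
  exact real_est2 hlogp (by linarith) (by exact_mod_cast hD0) (Nat.cast_nonneg _)
    (by positivity) hε hε1 (by exact_mod_cast hx0) (by linarith) (by linarith) ht1 ht2 hR hmono hD' h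

/-- **the bound for all irreducible polynomials** -/
theorem irreducible_bound' (p : ℕ) [Fact p.Prime] (f : ℤ[X]) (hf : Irreducible f)
    (hM : 1 < (f.map (Int.castRingHom ℂ)).mahlerMeasure) (N : ℕ) (hN : ∀ t : ℕ, N ≤ powZeros p f t)
    (ε : ℝ) (hε : 0 < ε) (hε1 : ε ≤ 1)
    (hR : 4 * (p : ℝ) * zerosMod f p * (Real.log N + Real.log p) ≤ ε ^ 2 * N * Real.log p) :
    min 2 ((p : ℝ) ^ ((1 - ε) / 2)) ≤ (f.map (Int.castRingHom ℂ)).mahlerMeasure := by
  have hp : p.Prime := Fact.out
  have hp1 : (1 : ℝ) < p := by exact_mod_cast hp.one_lt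
  have hlogp : 0 < Real.log p := Real.log_pos hp1
  by_contra hcon
  push Not at hcon
  obtain ⟨hcon2, hcon1⟩ := lt_min_iff.mp hcon
  refine monic_or_neg f hf hM hcon2 (Q := fun g => (∀ t : ℕ, N ≤ powZeros p g t) ∧
    4 * (p : ℝ) * zerosMod g p * (Real.log N + Real.log p) ≤
      ε ^ 2 * N * Real.log p) ?_ ?_ ⟨hN, hR⟩
  · rintro ⟨h1, h2⟩
    refine ⟨?_, ?_⟩
    · intro t
      have := h1 t
      unfold powZeros at this ⊢
      rwa [rootSet_neg]
    · have h3 : zerosMod (-f) p = zerosMod f p := by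
        unfold zerosMod
        rw [Polynomial.map_neg, rootSet_neg]
      rw [h3]
      exact h2
  · rintro g hg hgm hgM hgMf - ⟨h1, h2⟩
    have hg0 : g.map (Int.castRingHom (ZMod p)) ≠ 0 := (hgm.map _).ne_zero
    have h3 := rdeg_le (g.map (Int.castRingHom (ZMod p))) hg0 (Ω := AlgebraicClosure (ZMod p))
    have hl : 0 ≤ Real.log N + Real.log p := by
      rcases Nat.eq_zero_or_pos N with h | h
      · rw [h]; simp; exact hlogp.le
      · have := Real.log_nonneg (show (1:ℝ) ≤ N by exact_mod_cast h)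
        linarith
    have h4 : 4 * (p : ℝ) * rdeg (g.map (Int.castRingHom (ZMod p))) *
        (Real.log N + Real.log p) ≤ ε ^ 2 * N * Real.log p := by
      refine le_trans (mul_le_mul_of_nonneg_right (mul_le_mul_of_nonneg_left ?_ (by linarith)) hl) h2
      exact_mod_cast h3
    have h5 := monic_bound' p g hg hgm N h1 ε hε hε1 h4
    rw [← Real.log_rpow (by linarith), hgMf] at h5
    have h6 := (Real.log_le_log_iff (by positivity) (by linarith)).mp h5
    linarith

end Pool.Agent.TH53.SL
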