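import Mathlib
import Pool.Agent.TH53.SL4
import Pool.Agent.H389R3.PR1

/-!
# Parry powers of Perron numbers with few distinct zeros modulo `p`
-/

set_option autoImplicit false

open Polynomial

namespace Pool.Agent.TH53.SL

open Pool.Agent.TH53.HR Pool.Agent.H389R3.PR

/-- the powers of the conjugates of a Salem or Pisot number are distinct -/
lemma salem_nondeg {β : ℝ} (hβ1 : 1 < β) (hβ : IsIntegral ℤ β)
    (hone : ∀ z : ℂ, aeval z (minpoly ℤ β) = 0 → z ≠ (β : ℂ) → ‖z‖ ≤ 1)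
    {z w : ℂ} (hz : aeval z (minpoly ℤ β) = 0) (hw : aeval w (minpoly ℤ β) = 0) {k : ℕ}
    (hk : 0 < k) (h : z ^ k = w ^ k) : z = w := by
  set f := minpoly ℤ β with hf
  have hm : f.Monic := minpoly.monic hβ
  have hβf : aeval (β : ℂ) f = 0 := by
    have h1 : aeval (β : ℂ) f = ((aeval β f : ℝ) : ℂ) := aeval_algebraMap_apply ℂ β f
    rw [h1, minpoly.aeval]
    simp
  have halg : ∀ u : ℂ, aeval u f = 0 → u ∈ algebraicClosure ℚ ℂ := by
    intro u hu
    rw [mem_algebraicClosure_iff]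
    have : IsIntegral ℤ u := ⟨f, hm, by rw [← aeval_def]; exact hu⟩
    exact (this.tower_top (A := ℚ)).isAlgebraic
  have hcl : IsAlgClosure ℚ (algebraicClosure ℚ ℂ) := algebraicClosure.isAlgClosure ℚ ℂ
  have : Normal ℚ (algebraicClosure ℚ ℂ) := IsAlgClosure.normal ℚ _
  set z' : algebraicClosure ℚ ℂ := ⟨z, halg z hz⟩ with hz'
  set w' : algebraicClosure ℚ ℂ := ⟨w, halg w hw⟩ with hw'
  set b' : algebraicClosure ℚ ℂ := ⟨β, halg _ hβf⟩ with hb'
  have hval : ∀ (u : algebraicClosure ℚ ℂ), ((aeval u f : algebraicClosure ℚ ℂ) : ℂ) =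
      aeval (u : ℂ) f := fun u => (aeval_algebraMap_apply ℂ u f).symm
  have hmin : ∀ u : algebraicClosure ℚ ℂ, aeval (u : ℂ) f = 0 → minpoly ℚ u = (minpoly ℚ β) := by
    intro u hu
    have h1 : minpoly ℚ β = f.map (algebraMap ℤ ℚ) :=
      minpoly.isIntegrallyClosed_eq_field_fractions' ℚ hβ
    have h2 : aeval u (minpoly ℚ β) = 0 := by
      rw [h1, aeval_map_algebraMap]
      apply Subtype.ext
      rw [hval, hu]
      rfl
    exact (minpoly.eq_of_irreducible_of_monic (minpoly.irreducible hβ.tower_top) h2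
      (minpoly.monic hβ.tower_top)).symm
  have hconj : IsConjRoot ℚ b' z' := by
    rw [IsConjRoot, hmin z' hz, hmin b' hβf]
  obtain ⟨σ, hσ⟩ := isConjRoot_iff_exists_algEquiv.mp hconj
  -- `σ z' = b'`
  have h1 : aeval ((σ w' : algebraicClosure ℚ ℂ) : ℂ) f = 0 := by
    rw [← hval]
    have h4 : aeval w' f = 0 := by
      apply Subtype.ext
      rw [hval]
      exact hw
    have h5 := aeval_algHom_apply (σ.toAlgHom.restrictScalars ℤ) w' f
    have h6 : (σ.toAlgHom.restrictScalars ℤ) w' = σ w' := rfl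
    rw [h6] at h5
    rw [h5, h4, map_zero]
    rfl
  have h2 : ((σ w' : algebraicClosure ℚ ℂ) : ℂ) ^ k = (β : ℂ) ^ k := by
    have h3 : w' ^ k = z' ^ k := by
      apply Subtype.ext
      exact h.symm
    have h4 : (σ w') ^ k = b' ^ k := by
      rw [← map_pow, h3, map_pow, hσ]
    have := congrArg (fun u : algebraicClosure ℚ ℂ => (u : ℂ)) h4
    simpa using this
  have h3 : ((σ w' : algebraicClosure ℚ ℂ) : ℂ) = β := by
    by_contra hne
    have h4 := hone _ h1 hne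
    have h5 : ‖((σ w' : algebraicClosure ℚ ℂ) : ℂ)‖ ^ k = β ^ k := by
      rw [← norm_pow, h2, norm_pow, Complex.norm_real, Real.norm_of_nonneg (by linarith)]
    have h6 : ‖((σ w' : algebraicClosure ℚ ℂ) : ℂ)‖ ^ k ≤ 1 := pow_le_one₀ (norm_nonneg _) h4
    have h7 : 1 < β ^ k := one_lt_pow₀ hβ1 hk.ne'
    linarith
  have h4 : σ w' = σ z' := by
    rw [hσ]
    apply Subtype.ext
    exact h3
  have h5 : w' = z' := σ.injective h4
  have := congrArg (fun u : algebraicClosure ℚ ℂ => (u : ℂ)) h5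
  exact this.symm

/-- **lower bound for Salem and Pisot numbers** -/
theorem salem_bound {β : ℝ} (hβ1 : 1 < β) (hβ : IsIntegral ℤ β)
    (hone : ∀ z : ℂ, aeval z (minpoly ℤ β) = 0 → z ≠ (β : ℂ) → ‖z‖ ≤ 1) (p : ℕ) [Fact p.Prime]
    (ε : ℝ) (hε : 0 < ε) (hε1 : ε ≤ 1)
    (hR : 4 * (p : ℝ) * zerosMod (minpoly ℤ β) p *
      Real.log (p * (minpoly ℤ β).natDegree) ≤ ε ^ 2 * (minpoly ℤ β).natDegree * Real.log p) :
    (p : ℝ) ^ ((1 - ε) / 2) ≤ β := by
  classical
  have hp : p.Prime := Fact.out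
  have hp1 : (1 : ℝ) < p := by exact_mod_cast hp.one_lt
  have hM := mahler_eq hβ1 hβ hone
  set f := minpoly ℤ β with hf
  have hm : f.Monic := minpoly.monic hβ
  have hirr : Irreducible f := minpoly.irreducible hβ
  have hn1 : (1 : ℝ) ≤ f.natDegree := by
    exact_mod_cast minpoly.natDegree_pos hβ
  have hlogp : 0 < Real.log p := Real.log_pos hp1
  have hlog : Real.log (p * f.natDegree) = Real.log f.natDegree + Real.log p := by
    rw [Real.log_mul (by linarith) (by linarith)]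
    ring
  rw [hlog] at hR
  have hnd : NondegAt p f := by
    intro z w hz hw s h
    exact salem_nondeg hβ1 hβ hone hz hw (pow_pos hp.pos s) h
  have h4 := Pool.Agent.TH53.HR.rdeg_le (f.map (Int.castRingHom (ZMod p))) (hm.map _).ne_zero
    (Ω := AlgebraicClosure (ZMod p))
  have hl : 0 ≤ Real.log f.natDegree + Real.log p := by
    have := Real.log_nonneg hn1
    linarith
  have h5 := monic_bound p f hirr hm hnd ε hε hε1 (by
    refine le_trans (mul_le_mul_of_nonneg_right (mul_le_mul_of_nonneg_left ?_ (by linarith)) hl) hR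
    exact_mod_cast h4)
  rw [← Real.log_rpow (by linarith), hM] at h5
  exact (Real.log_le_log_iff (by positivity) (by linarith)).mp h5

/-- **Parry powers** -/
theorem parry_finite {β : ℝ} (hβ1 : 1 < β) (hβ : IsIntegral ℤ β)
    (hP : ∀ z : ℂ, aeval z (minpoly ℤ β) = 0 → z ≠ (β : ℂ) → ‖z‖ < β) (p : ℕ) [Fact p.Prime]
    (ε : ℝ) (hε : 0 < ε) (hε1 : ε ≤ 1)
    (hR : 4 * (p : ℝ) * zerosMod (minpoly ℤ β) p *
      Real.log (p * (minpoly ℤ β).natDegree) ≤ ε ^ 2 * (minpoly ℤ β).natDegree * Real.log p)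
    (hlt : β < (p : ℝ) ^ ((1 - ε) / 2)) : (parry β).Finite := by
  by_contra hinf
  have h1 := salem_bound hβ1 hβ (fun z hz hne => conj_le_one hβ1 hβ hP hinf hz hne) p ε hε hε1 hR
  exact absurd hlt (not_lt.2 h1)

lemma lehmer_root_lt {τ : ℝ} (h1 : 1 < τ)
    (h : τ ^ 10 + τ ^ 9 - τ ^ 7 - τ ^ 6 - τ ^ 5 - τ ^ 4 - τ ^ 3 + τ + 1 = 0) :
    τ < (2 : ℝ) ^ ((1 : ℝ) / 4) := by
  have h2 : τ < 1.189 := by
    by_contra hcon
    push Not at hcon
    obtain ⟨y, rfl⟩ : ∃ y : ℝ, τ = 1.189 + y := ⟨τ - 1.189, by ring⟩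
    have hy : 0 ≤ y := by linarith
    ring_nf at h
    nlinarith [pow_nonneg hy 2, pow_nonneg hy 3, pow_nonneg hy 4, pow_nonneg hy 5, pow_nonneg hy 6,
      pow_nonneg hy 7, pow_nonneg hy 8, pow_nonneg hy 9, pow_nonneg hy 10]
  refine h2.trans ?_
  rw [Real.lt_rpow_iff_log_lt (by norm_num) (by norm_num)]
  have h1 : (4 : ℝ) * Real.log 1.189 < Real.log 2 := by
    have : (4 : ℝ) * Real.log 1.189 = Real.log (1.189 ^ 4) := by
      rw [Real.log_pow]; norm_num
    rw [this]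
    exact Real.log_lt_log (by norm_num) (by norm_num)
  linarith

theorem parry_finite_lehmer {τ : ℝ} (hτ1 : 1 < τ)
    (hτ : τ ^ 10 + τ ^ 9 - τ ^ 7 - τ ^ 6 - τ ^ 5 - τ ^ 4 - τ ^ 3 + τ + 1 = 0)
    {β : ℝ} (hβ1 : 1 < β) (hβτ : β < τ) (hβ : IsIntegral ℤ β)
    (hP : ∀ z : ℂ, aeval z (minpoly ℤ β) = 0 → z ≠ (β : ℂ) → ‖z‖ < β) (p : ℕ) [Fact p.Prime]
    (hR : 16 * (p : ℝ) * zerosMod (minpoly ℤ β) p *
      Real.log (p * (minpoly ℤ β).natDegree) ≤ (minpoly ℤ β).natDegree * Real.log p) :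
    (parry β).Finite := by
  have hp2 : (2:ℝ) ≤ p := by exact_mod_cast (Fact.out : p.Prime).two_le
  apply parry_finite hβ1 hβ hP p (1 / 2) (by norm_num) (by norm_num)
  · have : (1 / 2 : ℝ) ^ 2 * (minpoly ℤ β).natDegree * Real.log p =
        ((minpoly ℤ β).natDegree * Real.log p) / 4 := by ring
    rw [this]
    linarith
  · have h3 : ((1 - 1 / 2 : ℝ) / 2) = (1 : ℝ) / 4 := by norm_num
    rw [h3]
    exact (hβτ.trans (lehmer_root_lt hτ1 hτ)).trans_le
      (Real.rpow_le_rpow (by norm_num) hp2 (by norm_num))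

end Pool.Agent.TH53.SL
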