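import Mathlib

/-!
# Lehmer's number is less than `2 ^ (1 / 4)`
-/

set_option autoImplicit false

open Polynomial

namespace Pool.Agent.TH53.SL

/-- the Mahler measure of a product of two linear factors -/
lemma mm_two (r s : ℂ) : ((X - C r) * (X - C s)).mahlerMeasure = max 1 ‖r‖ * max 1 ‖s‖ := by
  rw [mahlerMeasure_mul, mahlerMeasure_X_sub_C, mahlerMeasure_X_sub_C]

lemma quad_eq {y r s : ℂ} (h1 : r + s = y) (h2 : r * s = 1) :
    (X ^ 2 - C y * X + 1 : ℂ[X]) = (X - C r) * (X - C s) := by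
  have : (X - C r) * (X - C s) = X ^ 2 - C (r + s) * X + C (r * s) := by
    rw [C_add, C_mul]; ring
  rw [this, h1, h2, C_1]

lemma quad_unit (y : ℝ) (h1 : -2 < y) (h2 : y < 2) :
    (X ^ 2 - C (y : ℂ) * X + 1 : ℂ[X]).mahlerMeasure = 1 := by
  set t := Real.sqrt (4 - y ^ 2) with ht
  have ht2 : t ^ 2 = 4 - y ^ 2 := Real.sq_sqrt (by nlinarith)
  set r : ℂ := ⟨y / 2, t / 2⟩ with hr
  set s : ℂ := ⟨y / 2, -t / 2⟩ with hs
  have e1 : r + s = y := by
    apply Complex.ext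
    · simp [hr, hs]
    · simp [hr, hs]; ring
  have e2 : r * s = 1 := by
    apply Complex.ext
    · simp [hr, hs]; nlinarith
    · simp [hr, hs]; ring
  rw [quad_eq e1 e2, mm_two]
  have n1 : ‖r‖ = 1 := by
    have : ‖r‖ ^ 2 = 1 := by
      rw [← Complex.normSq_eq_norm_sq, Complex.normSq_apply, hr]
      simp only
      nlinarith
    have h0 := norm_nonneg r
    nlinarith
  have n2 : ‖s‖ = 1 := by
    have : ‖s‖ ^ 2 = 1 := by
      rw [← Complex.normSq_eq_norm_sq, Complex.normSq_apply, hs]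
      simp only
      nlinarith
    have h0 := norm_nonneg s
    nlinarith
  rw [n1, n2]
  simp

lemma quad_big (y : ℝ) (h1 : 2 < y) (h2 : y < 203 / 100) :
    (X ^ 2 - C (y : ℂ) * X + 1 : ℂ[X]).mahlerMeasure < 1189 / 1000 := by
  set t := Real.sqrt (y ^ 2 - 4) with ht
  have ht2 : t ^ 2 = y ^ 2 - 4 := Real.sq_sqrt (by nlinarith)
  have ht0 : 0 ≤ t := Real.sqrt_nonneg _
  set r : ℝ := (y + t) / 2 with hr
  set s : ℝ := (y - t) / 2 with hs
  have e1 : (r : ℂ) + s = y := by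
    rw [hr, hs]; push_cast; ring
  have e2' : r * s = 1 := by rw [hr, hs]; nlinarith
  have e2 : (r : ℂ) * s = 1 := by exact_mod_cast e2'
  rw [quad_eq e1 e2, mm_two]
  have hr1 : 1 ≤ r := by rw [hr]; linarith
  have hty : t < y := by nlinarith
  have hs0 : 0 < s := by rw [hs]; linarith
  have hs1 : s ≤ 1 := by nlinarith
  rw [Complex.norm_real, Complex.norm_real, Real.norm_of_nonneg (by linarith),
    Real.norm_of_nonneg hs0.le, max_eq_right hr1, max_eq_left hs1, mul_one]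
  have ht3 : t < 348 / 1000 := by nlinarith
  rw [hr]
  linarith

/-- the trace polynomial of Lehmer's polynomial -/
lemma trace_roots : ∃ y1 y2 y3 y4 y5 : ℝ, -2 < y1 ∧ y1 < y2 ∧ y2 < y3 ∧ y3 < y4 ∧ y4 < 2 ∧
    2 < y5 ∧ y5 < 203 / 100 ∧ ∀ y ∈ ({y1, y2, y3, y4, y5} : Finset ℝ),
      y ^ 5 + y ^ 4 - 5 * y ^ 3 - 5 * y ^ 2 + 4 * y + 3 = 0 := by
  have hc : Continuous fun y : ℝ => y ^ 5 + y ^ 4 - 5 * y ^ 3 - 5 * y ^ 2 + 4 * y + 3 := by
    fun_prop
  have up : ∀ a b : ℝ, a ≤ b → a ^ 5 + a ^ 4 - 5 * a ^ 3 - 5 * a ^ 2 + 4 * a + 3 < 0 →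
      0 < b ^ 5 + b ^ 4 - 5 * b ^ 3 - 5 * b ^ 2 + 4 * b + 3 →
      ∃ c, a < c ∧ c < b ∧ c ^ 5 + c ^ 4 - 5 * c ^ 3 - 5 * c ^ 2 + 4 * c + 3 = 0 := by
    intro a b hab ha hb
    obtain ⟨c, ⟨h1, h2⟩, h3⟩ := intermediate_value_Ioo hab hc.continuousOn
      (show (0:ℝ) ∈ Set.Ioo _ _ from ⟨ha, hb⟩)
    exact ⟨c, h1, h2, h3⟩
  have down : ∀ a b : ℝ, a ≤ b → 0 < a ^ 5 + a ^ 4 - 5 * a ^ 3 - 5 * a ^ 2 + 4 * a + 3 →
      b ^ 5 + b ^ 4 - 5 * b ^ 3 - 5 * b ^ 2 + 4 * b + 3 < 0 →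
      ∃ c, a < c ∧ c < b ∧ c ^ 5 + c ^ 4 - 5 * c ^ 3 - 5 * c ^ 2 + 4 * c + 3 = 0 := by
    intro a b hab ha hb
    obtain ⟨c, ⟨h1, h2⟩, h3⟩ := intermediate_value_Ioo' hab hc.continuousOn
      (show (0:ℝ) ∈ Set.Ioo _ _ from ⟨hb, ha⟩)
    exact ⟨c, h1, h2, h3⟩
  obtain ⟨y1, a1, b1, c1⟩ := up (-2) (-18 / 10) (by norm_num) (by norm_num) (by norm_num)
  obtain ⟨y2, a2, b2, c2⟩ := down (-18 / 10) (-1) (by norm_num) (by norm_num) (by norm_num)
  obtain ⟨y3, a3, b3, c3⟩ := up (-1) 0 (by norm_num) (by norm_num) (by norm_num)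
  obtain ⟨y4, a4, b4, c4⟩ := down 0 1 (by norm_num) (by norm_num) (by norm_num)
  obtain ⟨y5, a5, b5, c5⟩ := up 2 (203 / 100) (by norm_num) (by norm_num) (by norm_num)
  refine ⟨y1, y2, y3, y4, y5, a1, by linarith, by linarith, by linarith, by linarith, a5, b5, ?_⟩
  intro y hy
  simp only [Finset.mem_insert, Finset.mem_singleton] at hy
  rcases hy with rfl | rfl | rfl | rfl | rfl <;> assumption

/-- **Lehmer's number is less than `1.189`** -/
theorem lehmer_lt : ((X ^ 10 + X ^ 9 - X ^ 7 - X ^ 6 - X ^ 5 - X ^ 4 - X ^ 3 + X + 1 : ℤ[X]).map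
    (Int.castRingHom ℂ)).mahlerMeasure < 1189 / 1000 := by
  obtain ⟨y1, y2, y3, y4, y5, h1, h12, h23, h34, h4, h5, h6, hroot⟩ := trace_roots
  -- factorization of the trace polynomial
  set Q : ℂ[X] := X ^ 5 + X ^ 4 - 5 * X ^ 3 - 5 * X ^ 2 + 4 * X + 3 with hQ
  have hQd : Q.natDegree = 5 := by rw [hQ]; compute_degree!
  have hQm : Q.Monic := by rw [hQ]; monicity!
  set S : Multiset ℂ := {(y1 : ℂ), (y2 : ℂ), (y3 : ℂ), (y4 : ℂ), (y5 : ℂ)} with hS
  have hnd : S.Nodup := by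
    have e : S = ({y1, y2, y3, y4, y5} : Multiset ℝ).map (fun x : ℝ => (x : ℂ)) := by
      simp [hS]
    rw [e]
    apply Multiset.Nodup.map Complex.ofReal_injective
    simp only [Multiset.insert_eq_cons, Multiset.nodup_cons, Multiset.mem_cons,
      Multiset.mem_singleton, Multiset.nodup_singleton, and_true]
    refine ⟨?_, ?_, ?_, ?_⟩
    · rintro (h | h | h | h) <;> linarith
    · rintro (h | h | h) <;> linarith
    · rintro (h | h) <;> linarith
    · intro h; linarith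
  have hle : S ≤ Q.roots := by
    rw [Multiset.le_iff_subset hnd]
    intro z hz
    rw [mem_roots hQm.ne_zero, IsRoot.def]
    have key : ∀ y : ℝ, y ∈ ({y1, y2, y3, y4, y5} : Finset ℝ) → Q.eval (y : ℂ) = 0 := by
      intro y hy
      have h := hroot y hy
      have h' : ((y : ℂ)) ^ 5 + (y : ℂ) ^ 4 - 5 * (y : ℂ) ^ 3 - 5 * (y : ℂ) ^ 2 + 4 * y + 3 = 0 := by
        exact_mod_cast h
      rw [hQ]
      simpa using h'
    simp only [hS, Multiset.insert_eq_cons, Multiset.mem_cons, Multiset.mem_singleton] at hz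
    rcases hz with rfl | rfl | rfl | rfl | rfl <;> apply key <;> simp
  have hprod : Q = (S.map fun a => X - C a).prod := by
    have h7 := (Multiset.prod_X_sub_C_dvd_iff_le_roots hQm.ne_zero S).mpr hle
    have h8 : ((S.map fun a => X - C a).prod).Monic := monic_multisetProd_X_sub_C S
    refine eq_of_monic_of_dvd_of_natDegree_le h8 hQm h7 ?_
    rw [natDegree_multiset_prod_X_sub_C_eq_card, hQd, hS]
    simp
  have hval : ∀ y : ℂ, y ^ 5 + y ^ 4 - 5 * y ^ 3 - 5 * y ^ 2 + 4 * y + 3 =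
      (y - y1) * (y - y2) * (y - y3) * (y - y4) * (y - y5) := by
    intro y
    have h7 := congrArg (Polynomial.eval y) hprod
    rw [hQ, hS] at h7
    simp at h7
    rw [h7]
    ring
  -- factorization of Lehmer's polynomial
  have hL : (X ^ 10 + X ^ 9 - X ^ 7 - X ^ 6 - X ^ 5 - X ^ 4 - X ^ 3 + X + 1 : ℤ[X]).map
      (Int.castRingHom ℂ) = (X ^ 2 - C (y1 : ℂ) * X + 1) * (X ^ 2 - C (y2 : ℂ) * X + 1) *
        (X ^ 2 - C (y3 : ℂ) * X + 1) * (X ^ 2 - C (y4 : ℂ) * X + 1) *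
          (X ^ 2 - C (y5 : ℂ) * X + 1) := by
    apply Polynomial.funext
    intro x
    simp only [Polynomial.map_add, Polynomial.map_sub, Polynomial.map_pow, Polynomial.map_X,
      Polynomial.map_one, eval_add, eval_sub, eval_pow, eval_X, eval_one, eval_mul, eval_C]
    rcases eq_or_ne x 0 with rfl | hx
    · norm_num
    · have h7 := hval (x + x⁻¹)
      have h8 : x ^ 10 + x ^ 9 - x ^ 7 - x ^ 6 - x ^ 5 - x ^ 4 - x ^ 3 + x + 1 =
          x ^ 5 * ((x + x⁻¹) ^ 5 + (x + x⁻¹) ^ 4 - 5 * (x + x⁻¹) ^ 3 - 5 * (x + x⁻¹) ^ 2 +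
            4 * (x + x⁻¹) + 3) := by
        field_simp
        ring
      rw [h8, h7]
      field_simp
      ring
  rw [hL]
  simp only [mahlerMeasure_mul]
  rw [quad_unit y1 h1 (by linarith), quad_unit y2 (by linarith) (by linarith),
    quad_unit y3 (by linarith) (by linarith), quad_unit y4 (by linarith) h4]
  simp only [one_mul]
  exact quad_big y5 h5 h6

theorem lehmer_lt' : ((X ^ 10 + X ^ 9 - X ^ 7 - X ^ 6 - X ^ 5 - X ^ 4 - X ^ 3 + X + 1 : ℤ[X]).map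
    (Int.castRingHom ℂ)).mahlerMeasure < (2 : ℝ) ^ ((1 : ℝ) / 4) := by
  refine lehmer_lt.trans ?_
  rw [Real.lt_rpow_iff_log_lt (by norm_num) (by norm_num)]
  have h1 : (4 : ℝ) * Real.log (1189 / 1000) < Real.log 2 := by
    have : (4 : ℝ) * Real.log (1189 / 1000) = Real.log ((1189 / 1000) ^ 4) := by
      rw [Real.log_pow]; norm_num
    rw [this]
    exact Real.log_lt_log (by norm_num) (by norm_num)
  linarith

end Pool.Agent.TH53.SL
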