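import Mathlib
import Pool.Agent.TH53.HR8

/-!
# Number fields: the sum of the residue degrees
-/

set_option autoImplicit false

open Polynomial Finset NumberField

namespace Pool.Agent.TH53.HR

open Pool.Agent.H388SL Pool.Agent.H389R3.LR

variable {K : Type*} [Field K] [NumberField K]

/-- the sum of the residue degrees of the prime ideals above `p` -/
noncomputable def resDegSum (K : Type*) [Field K] [NumberField K] (p : ℕ) : ℕ :=
  ∑ P ∈ IsDedekindDomain.primesOverFinset (Ideal.span {(p : ℤ)}) (𝓞 K), P.inertiaDeg ℤ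

lemma span_ne_bot {p : ℕ} (hp : p.Prime) : (Ideal.span {(p : ℤ)}) ≠ ⊥ := by
  rw [Ne, Ideal.span_singleton_eq_bot]
  exact_mod_cast hp.ne_zero

lemma span_maximal {p : ℕ} (hp : p.Prime) : (Ideal.span {(p : ℤ)}).IsMaximal :=
  PrincipalIdealRing.isMaximal_of_irreducible (Nat.prime_iff_prime_int.mp hp).irreducible

/-- a prime ideal for every irreducible factor -/
lemma exists_prime (p : ℕ) [Fact p.Prime] (a : 𝓞 K) (hc : CInj (a : K))
    (q : (ZMod p)[X]) (hq : Irreducible q)
    (hqd : q ∣ (minpoly ℤ (a : K)).map (Int.castRingHom (ZMod p))) :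
    ∃ P : Ideal (𝓞 K), P.IsPrime ∧ P.LiesOver (Ideal.span {(p : ℤ)}) ∧
      ∀ Q : ℤ[X], q ∣ Q.map (Int.castRingHom (ZMod p)) → aeval a Q ∈ P := by
  classical
  have hα : IsIntegral ℤ (a : K) := a.isIntegral_coe
  have hp : p.Prime := Fact.out
  obtain ⟨V, hV⟩ := exists_val p hp
  have hch := charP_Rk hp hV
  set ψ := ZMod.castHom (dvd_refl p) (Rk V) with hψ
  have hαV : ∀ (σ : K →ₐ[ℚ] ℂ) (x : 𝓞 K), σ x ∈ V := fun σ x =>
    hV.int _ (x.isIntegral_coe.map (σ.restrictScalars ℤ))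
  set f := minpoly ℤ (a : K) with hf
  have hpmap : f.map (Int.castRingHom ℂ) = ∏ τ : K →ₐ[ℚ] ℂ, (X - C (τ (a : K))) := by
    rw [← minpoly_map_eq hc, minpoly.isIntegrallyClosed_eq_field_fractions' ℚ hα,
      Polynomial.map_map]
    rfl
  set w : (K →ₐ[ℚ] ℂ) → V := fun σ => ⟨σ (a : K), hαV σ a⟩ with hw
  have hfV : f.map (Int.castRingHom V) = ∏ σ, (X - C (w σ)) := by
    apply Polynomial.map_injective V.subtype V.subtype_injective
    rw [Polynomial.map_map, Polynomial.map_prod]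
    have : V.subtype.comp (Int.castRingHom V) = Int.castRingHom ℂ := RingHom.ext_int _ _
    rw [this, hpmap]
    refine Finset.prod_congr rfl fun i _ => ?_
    rw [Polynomial.map_sub, Polynomial.map_X, Polynomial.map_C]
    rfl
  have hfk : (f.map (Int.castRingHom (ZMod p))).map ψ =
      ∏ σ, (X - C (IsLocalRing.residue V (w σ))) := by
    rw [Polynomial.map_map]
    have h1 : ψ.comp (Int.castRingHom (ZMod p)) = (IsLocalRing.residue V).comp (Int.castRingHom V) :=
      RingHom.ext_int _ _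
    rw [h1, ← Polynomial.map_map, hfV, Polynomial.map_prod]
    refine Finset.prod_congr rfl fun i _ => ?_
    rw [Polynomial.map_sub, Polynomial.map_X, Polynomial.map_C]
  have hqk : q.map ψ ∣ ∏ σ, (X - C (IsLocalRing.residue V (w σ))) := by
    rw [← hfk]
    exact Polynomial.map_dvd ψ hqd
  -- an irreducible factor of `q` over the residue field is one of the linear factors
  have hqu : ¬ IsUnit (q.map ψ) := by
    rw [isUnit_iff_degree_eq_zero, degree_map]
    intro h
    exact hq.not_isUnit (isUnit_iff_degree_eq_zero.mpr h)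
  obtain ⟨r, hrm, hr, hrd⟩ := exists_monic_irreducible_factor (q.map ψ) hqu
  obtain ⟨σ, -, hσ⟩ := (hr.prime.dvd_finsetProd_iff _).mp (hrd.trans hqk)
  have hroot : (q.map ψ).eval (IsLocalRing.residue V (w σ)) = 0 := by
    have h1 : Associated r (X - C (IsLocalRing.residue V (w σ))) :=
      hr.associated_of_dvd (irreducible_X_sub_C _) hσ
    have h2 : (X - C (IsLocalRing.residue V (w σ))) ∣ q.map ψ := h1.symm.dvd.trans hrd
    exact dvd_iff_isRoot.mp h2
  -- the ring homomorphism to the residue field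
  let θ₀ : 𝓞 K →+* V :=
    { toFun := fun x => ⟨σ x, hαV σ x⟩
      map_one' := by ext; simp
      map_mul' := fun x y => by ext; simp
      map_zero' := by ext; simp
      map_add' := fun x y => by ext; simp }
  let θ : 𝓞 K →+* Rk V := (IsLocalRing.residue V).comp θ₀
  refine ⟨RingHom.ker θ, RingHom.ker_isPrime θ, ⟨?_⟩, ?_⟩
  · ext x
    rw [Ideal.mem_span_singleton, Ideal.under_def, Ideal.mem_comap, RingHom.mem_ker]
    have h1 : θ (algebraMap ℤ (𝓞 K) x) = (x : Rk V) := by
      rw [← RingHom.comp_apply, eq_intCast]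
    rw [h1]
    exact (CharP.intCast_eq_zero_iff (Rk V) p x).symm
  · rintro Q ⟨c, hc⟩
    rw [RingHom.mem_ker]
    have h1 : θ (aeval a Q) = IsLocalRing.residue V (aeval (w σ) Q) := by
      change IsLocalRing.residue V (θ₀ (aeval a Q)) = _
      congr 1
      rw [Polynomial.aeval_def, Polynomial.aeval_def, Polynomial.hom_eval₂]
      congr 1
      exact RingHom.ext_int _ _
    rw [h1, residue_aeval hp hV, hc, Polynomial.map_mul, eval_mul, hroot, zero_mul]

/-- the degree of the factor is at most the residue degree -/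
lemma natDegree_le_inertia (p : ℕ) [Fact p.Prime] (a : 𝓞 K) (q : (ZMod p)[X]) (hq : Irreducible q)
    (P : Ideal (𝓞 K)) (hP : P.IsPrime) (hPp : P.LiesOver (Ideal.span {(p : ℤ)}))
    (h : ∀ Q : ℤ[X], q ∣ Q.map (Int.castRingHom (ZMod p)) → aeval a Q ∈ P) :
    q.natDegree ≤ P.inertiaDeg ℤ ∧
      ∀ Q : ℤ[X], aeval a Q ∈ P → q ∣ Q.map (Int.castRingHom (ZMod p)) := by
  classical
  have hp : p.Prime := Fact.out
  have hmax : (Ideal.span {(p : ℤ)}).IsMaximal := span_maximal hp
  have hPmax : P.IsMaximal := Ideal.IsMaximal.of_liesOver_isMaximal P (Ideal.span {(p : ℤ)})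
  have hcomm : ∀ x : ℤ, (x : 𝓞 K ⧸ P) = 0 ↔ (p : ℤ) ∣ x := by
    intro x
    have h1 : (x : 𝓞 K ⧸ P) = Ideal.Quotient.mk P (algebraMap ℤ (𝓞 K) x) := by
      rw [eq_intCast, map_intCast]
    rw [h1, Ideal.Quotient.eq_zero_iff_mem, ← Ideal.mem_comap, ← Ideal.under_def,
      ← hPp.over, Ideal.mem_span_singleton]
  have : Nontrivial (𝓞 K ⧸ P) := Ideal.Quotient.nontrivial_iff.mpr hPmax.ne_top
  have hch : CharP (𝓞 K ⧸ P) p := by
    rw [CharP.charP_iff_prime_eq_zero hp]
    have := (hcomm (p : ℤ)).mpr dvd_rfl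
    exact_mod_cast this
  let _ : Field (𝓞 K ⧸ P) := Ideal.Quotient.field P
  let _ : Algebra (ZMod p) (𝓞 K ⧸ P) := ZMod.algebra _ p
  have hev : ∀ Q : ℤ[X], Ideal.Quotient.mk P (aeval a Q) =
      aeval (Ideal.Quotient.mk P a) (Q.map (Int.castRingHom (ZMod p))) := by
    intro Q
    rw [Polynomial.aeval_def, Polynomial.aeval_def, Polynomial.hom_eval₂, Polynomial.eval₂_map]
    congr 1
    exact RingHom.ext_int _ _
  set x : 𝓞 K ⧸ P := Ideal.Quotient.mk P a with hx
  have hqx : aeval x q = 0 := by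
    obtain ⟨Q, hQ⟩ := exists_lift p q
    have h1 := h Q (by rw [hQ])
    rw [← Ideal.Quotient.eq_zero_iff_mem, hev, hQ] at h1
    exact h1
  have hxi : IsIntegral (ZMod p) x := by
    have : IsAlgebraic (ZMod p) x := ⟨q, hq.ne_zero, hqx⟩
    exact this.isIntegral
  have hmin : Associated (minpoly (ZMod p) x) q :=
    (minpoly.irreducible hxi).associated_of_dvd hq (minpoly.dvd _ _ hqx)
  refine ⟨?_, ?_⟩
  · have hfin : Finite (𝓞 K ⧸ P) := by
      have h0 : P ≠ ⊥ := by
        rintro rfl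
        have h1 := hPp.over
        have h2 : (p : ℤ) ∈ Ideal.span {(p : ℤ)} := Ideal.mem_span_singleton_self _
        rw [h1, Ideal.under_def, Ideal.mem_comap, Ideal.mem_bot] at h2
        have h3 : (algebraMap ℤ (𝓞 K)) (p : ℤ) = ((p : ℕ) : 𝓞 K) := by simp
        rw [h3] at h2
        exact hp.ne_zero (by exact_mod_cast h2)
      exact Ideal.finiteQuotientOfFreeOfNeBot P h0
    have : Module.Finite (ZMod p) (𝓞 K ⧸ P) := Module.Finite.of_finite
    have h1 : q.natDegree ≤ Module.finrank (ZMod p) (𝓞 K ⧸ P) := by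
      rw [← natDegree_eq_of_degree_eq (degree_eq_degree_of_associated hmin)]
      exact minpoly.natDegree_le x
    have h2 : p ^ P.inertiaDeg ℤ = Ideal.absNorm P := Ideal.pow_inertiaDeg p P
    have h3 : Nat.card (𝓞 K ⧸ P) = p ^ Module.finrank (ZMod p) (𝓞 K ⧸ P) := by
      rw [Module.natCard_eq_pow_finrank (K := ZMod p) (V := 𝓞 K ⧸ P), Nat.card_zmod]
    have h4 : Ideal.absNorm P = Nat.card (𝓞 K ⧸ P) := rfl
    rw [h4, h3] at h2
    have h5 := Nat.pow_right_injective hp.two_le h2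
    rw [h5]
    exact h1
  · intro Q hQ
    rw [← Ideal.Quotient.eq_zero_iff_mem, hev] at hQ
    exact hmin.symm.dvd.trans (minpoly.dvd _ _ hQ)

/-- **the degree of the radical is at most the sum of the residue degrees** -/
theorem rdeg_le_resDegSum (p : ℕ) [Fact p.Prime] (a : 𝓞 K) (hc : CInj (a : K)) :
    rdeg ((minpoly ℤ (a : K)).map (Int.castRingHom (ZMod p))) ≤ resDegSum K p := by
  classical
  have hp : p.Prime := Fact.out
  have hmax : (Ideal.span {(p : ℤ)}).IsMaximal := span_maximal hp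
  set g := (minpoly ℤ (a : K)).map (Int.castRingHom (ZMod p)) with hg
  have h1 : ∀ q : (ZMod p)[X], q ∈ dfac g → ∃ P : Ideal (𝓞 K), P.IsPrime ∧
      P.LiesOver (Ideal.span {(p : ℤ)}) ∧ (∀ Q : ℤ[X], q ∣ Q.map (Int.castRingHom (ZMod p)) →
        aeval a Q ∈ P) := by
    intro q hq
    exact exists_prime p a hc q (dfac_irr hq) (dfac_dvd hq)
  choose! P hP1 hP2 hP3 using h1
  have h2 : ∀ q ∈ dfac g, q.natDegree ≤ (P q).inertiaDeg ℤ := fun q hq =>
    (natDegree_le_inertia p a q (dfac_irr hq) (P q) (hP1 q hq) (hP2 q hq) (hP3 q hq)).1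
  have hinj : Set.InjOn P (dfac g : Set (ZMod p)[X]) := by
    intro q hq r hr h
    by_contra hne
    obtain ⟨R, hR⟩ := exists_lift p r
    have h3 : aeval a R ∈ P q := by
      rw [h]
      exact hP3 r hr R (by rw [hR])
    have h4 := (natDegree_le_inertia p a q (dfac_irr hq) (P q) (hP1 q hq) (hP2 q hq)
      (hP3 q hq)).2 R h3
    rw [hR] at h4
    have h5 := dfac_coprime hq hr hne
    exact (dfac_irr hq).not_isUnit (h5.isUnit_of_dvd' dvd_rfl h4)
  unfold rdeg resDegSum
  calc ∑ q ∈ dfac g, q.natDegree ≤ ∑ q ∈ dfac g, (P q).inertiaDeg ℤ := Finset.sum_le_sum h2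
    _ = ∑ I ∈ (dfac g).image P, I.inertiaDeg ℤ :=
        (Finset.sum_image (f := fun I : Ideal (𝓞 K) => I.inertiaDeg ℤ) hinj).symm
    _ ≤ ∑ I ∈ IsDedekindDomain.primesOverFinset (Ideal.span {(p : ℤ)}) (𝓞 K), I.inertiaDeg ℤ := by
        apply Finset.sum_le_sum_of_subset
        intro I hI
        obtain ⟨q, hq, rfl⟩ := Finset.mem_image.mp hI
        rw [IsDedekindDomain.mem_primesOverFinset_iff (span_ne_bot hp)]
        exact ⟨hP1 q hq, hP2 q hq⟩

end Pool.Agent.TH53.HR
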