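import Mathlib
import Pool.Agent.TH53.HR9

/-!
# Lehmer's problem in number fields with small residue degrees or large ramification above `p`
-/

set_option autoImplicit false

open Polynomial Finset NumberField Module

namespace Pool.Agent.TH53.HR

open Pool.Agent.H388SL Pool.Agent.H389R3.LR

variable {K : Type*} [Field K] [NumberField K]

lemma CInj_of_adjoin {β : K} (h : IntermediateField.adjoin ℚ {β} = ⊤) : CInj β := by
  intro σ τ hst
  have h1 : ∀ x ∈ IntermediateField.adjoin ℚ {β}, σ x = τ x := by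
    intro x hx
    induction hx using IntermediateField.adjoin_induction with
    | mem x hx =>
      rw [Set.mem_singleton_iff] at hx
      subst hx
      exact hst
    | algebraMap x => rw [AlgHom.commutes, AlgHom.commutes]
    | add x y _ _ hx hy => rw [map_add, map_add, hx, hy]
    | inv x _ hx => rw [map_inv₀, map_inv₀, hx]
    | mul x y _ _ hx hy => rw [map_mul, map_mul, hx, hy]
  ext x
  exact h1 x (by rw [h]; exact IntermediateField.mem_top)

theorem number_field_rdeg (p : ℕ) [Fact p.Prime] (a : 𝓞 K)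
    (hgen : ∀ s : ℕ, IntermediateField.adjoin ℚ {(a : K) ^ p ^ s} = ⊤)
    (h0 : a ≠ 0) (hroot : ∀ m : ℕ, 0 < m → a ^ m ≠ 1) (c : ℝ)
    (hR : (rdeg ((minpoly ℤ (a : K)).map (Int.castRingHom (ZMod p))) : ℝ) *
      Real.log (2 * finrank ℚ K) ≤ c * finrank ℚ K) :
    Real.exp (1 / (4 * (p : ℝ) ^ ⌈40 + 20 * c⌉₊)) ≤
      ((minpoly ℤ (a : K)).map (Int.castRingHom ℂ)).mahlerMeasure := by
  classical
  have hp : p.Prime := Fact.out
  have hα : IsIntegral ℤ (a : K) := a.isIntegral_coe
  have hc : CInj (a : K) := by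
    have := CInj_of_adjoin (hgen 0)
    simpa using this
  set f := minpoly ℤ (a : K) with hf
  have hfm : f.Monic := minpoly.monic hα
  have hfi : Irreducible f := minpoly.irreducible hα
  have hpmap : f.map (Int.castRingHom ℂ) = ∏ τ : K →ₐ[ℚ] ℂ, (X - C (τ (a : K))) := by
    rw [← minpoly_map_eq hc, minpoly.isIntegrallyClosed_eq_field_fractions' ℚ hα,
      Polynomial.map_map]
    rfl
  have hdeg : f.natDegree = finrank ℚ K := by
    have h1 : (f.map (Int.castRingHom ℂ)).natDegree = f.natDegree := hfm.natDegree_map _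
    rw [← h1, hpmap, natDegree_prod_of_monic _ _ fun τ _ => monic_X_sub_C _]
    simp only [natDegree_X_sub_C, Finset.sum_const, smul_eq_mul, mul_one]
    rw [Finset.card_univ, AlgHom.card]
  have h0' : (a : K) ≠ 0 := by
    intro h
    exact h0 (RingOfIntegers.ext (by rw [h]; simp))
  have hroot' : ∀ m : ℕ, 0 < m → (a : K) ^ m ≠ 1 := by
    intro m hm h
    apply hroot m hm
    apply RingOfIntegers.ext
    simpa using h
  have hlam := lam_pos hα h0' hroot'
  have hMM : (f.map (Int.castRingHom ℂ)).mahlerMeasure = ∏ τ : K →ₐ[ℚ] ℂ, max 1 ‖τ (a : K)‖ := by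
    rw [hpmap, Finset.prod_eq_multiset_prod, prod_mahlerMeasure_eq_mahlerMeasure_prod,
      Multiset.map_map, Finset.prod_eq_multiset_prod]
    congr 1
    refine Multiset.map_congr rfl fun τ _ => ?_
    rw [Function.comp_apply, mahlerMeasure_X_sub_C]
  have hMlog : Real.log (f.map (Int.castRingHom ℂ)).mahlerMeasure = lam (a : K) := by
    rw [hMM, Real.log_prod]
    · rfl
    · intro τ _
      have : (0:ℝ) < max 1 ‖τ (a : K)‖ := lt_of_lt_of_le one_pos (le_max_left _ _)
      exact this.ne'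
  have hM0 : 0 < (f.map (Int.castRingHom ℂ)).mahlerMeasure := by
    rw [hMM]
    exact Finset.prod_pos fun τ _ => lt_of_lt_of_le one_pos (le_max_left _ _)
  have hM : 1 < (f.map (Int.castRingHom ℂ)).mahlerMeasure := by
    rw [← Real.log_pos_iff hM0.le, hMlog]
    exact hlam
  have hnd : NondegAt p f := by
    have hz : ∀ z : ℂ, aeval z f = 0 → ∃ σ : K →ₐ[ℚ] ℂ, σ (a : K) = z := by
      intro z hz
      rw [Polynomial.aeval_def, ← Polynomial.eval_map] at hz
      change (f.map (Int.castRingHom ℂ)).eval z = 0 at hz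
      rw [hpmap, eval_prod] at hz
      obtain ⟨σ, -, hσ⟩ := Finset.prod_eq_zero_iff.mp hz
      refine ⟨σ, ?_⟩
      simp only [eval_sub, eval_X, eval_C] at hσ
      exact (sub_eq_zero.mp hσ).symm
    intro z w hzf hwf s hs
    obtain ⟨σ, rfl⟩ := hz z hzf
    obtain ⟨τ, rfl⟩ := hz w hwf
    have h1 := CInj_of_adjoin (hgen s)
    have h2 : σ = τ := h1 (by simpa using hs)
    rw [h2]
  have h1 := monic_distinct p f hfi hfm hM hnd c (by
    rw [hdeg]
    exact hR)
  rw [Real.le_log_iff_exp_le hM0] at h1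
  exact h1

lemma log_finrank_nonneg : 0 ≤ Real.log (2 * finrank ℚ K) := by
  have : (1:ℝ) ≤ finrank ℚ K := by
    exact_mod_cast (finrank_pos : 0 < finrank ℚ K)
  exact Real.log_nonneg (by linarith)

theorem number_field (p : ℕ) [Fact p.Prime] (a : 𝓞 K)
    (hgen : ∀ s : ℕ, IntermediateField.adjoin ℚ {(a : K) ^ p ^ s} = ⊤)
    (h0 : a ≠ 0) (hroot : ∀ m : ℕ, 0 < m → a ^ m ≠ 1) (c : ℝ)
    (hR : (resDegSum K p : ℝ) * Real.log (2 * finrank ℚ K) ≤ c * finrank ℚ K) :
    Real.exp (1 / (4 * (p : ℝ) ^ ⌈40 + 20 * c⌉₊)) ≤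
      ((minpoly ℤ (a : K)).map (Int.castRingHom ℂ)).mahlerMeasure := by
  have hc : CInj (a : K) := by
    have := CInj_of_adjoin (hgen 0)
    simpa using this
  refine number_field_rdeg p a hgen h0 hroot c (le_trans (mul_le_mul_of_nonneg_right ?_
    log_finrank_nonneg) hR)
  exact_mod_cast rdeg_le_resDegSum p a hc

theorem number_field_zeros (p : ℕ) [Fact p.Prime] (a : 𝓞 K)
    (hgen : ∀ s : ℕ, IntermediateField.adjoin ℚ {(a : K) ^ p ^ s} = ⊤)
    (h0 : a ≠ 0) (hroot : ∀ m : ℕ, 0 < m → a ^ m ≠ 1) (c : ℝ)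
    (hR : (zerosMod (minpoly ℤ (a : K)) p : ℝ) * Real.log (2 * finrank ℚ K) ≤
      c * finrank ℚ K) :
    Real.exp (1 / (4 * (p : ℝ) ^ ⌈40 + 20 * c⌉₊)) ≤
      ((minpoly ℤ (a : K)).map (Int.castRingHom ℂ)).mahlerMeasure := by
  refine number_field_rdeg p a hgen h0 hroot c (le_trans (mul_le_mul_of_nonneg_right ?_
    log_finrank_nonneg) hR)
  have hm : (minpoly ℤ (a : K)).Monic := minpoly.monic a.isIntegral_coe
  have h1 := rdeg_le ((minpoly ℤ (a : K)).map (Int.castRingHom (ZMod p))) (hm.map _).ne_zero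
    (Ω := AlgebraicClosure (ZMod p))
  exact_mod_cast h1

/-- the fundamental identity and large ramification indices -/
lemma resDegSum_le (p : ℕ) [Fact p.Prime] {e : ℝ}
    (he : ∀ P ∈ (Ideal.span {(p : ℤ)}).primesOver (𝓞 K), e ≤ (P.ramificationIdx ℤ : ℝ)) :
    e * (resDegSum K p : ℝ) ≤ finrank ℚ K := by
  classical
  have hp : p.Prime := Fact.out
  have hmax : (Ideal.span {(p : ℤ)}).IsMaximal := span_maximal hp
  have hprime : (Ideal.span {(p : ℤ)}).IsPrime := hmax.isPrime
  have hcoe := IsDedekindDomain.coe_primesOverFinset (span_ne_bot hp) (𝓞 K)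
  have : Fintype ((Ideal.span {(p : ℤ)}).primesOver (𝓞 K)) :=
    Fintype.ofFinset (IsDedekindDomain.primesOverFinset (Ideal.span {(p : ℤ)}) (𝓞 K)) (by
      intro P
      exact IsDedekindDomain.mem_primesOverFinset_iff (span_ne_bot hp) (𝓞 K))
  have h1 := Ideal.sum_ramification_inertia_eq_finrank (Ideal.span {(p : ℤ)}) (𝓞 K)
  have h2 : finrank ℤ (𝓞 K) = finrank ℚ K := RingOfIntegers.rank K
  have h3 : ∑ P ∈ IsDedekindDomain.primesOverFinset (Ideal.span {(p : ℤ)}) (𝓞 K),
      P.ramificationIdx ℤ * P.inertiaDeg ℤ = finrank ℚ K := by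
    rw [← h2, ← h1]
    symm
    apply Finset.sum_bij (fun (q : (Ideal.span {(p : ℤ)}).primesOver (𝓞 K)) _ => q.1)
    · intro q _
      rw [IsDedekindDomain.mem_primesOverFinset_iff (span_ne_bot hp)]
      exact q.2
    · intro q _ r _ h
      exact Subtype.ext h
    · intro P hP
      rw [IsDedekindDomain.mem_primesOverFinset_iff (span_ne_bot hp)] at hP
      exact ⟨⟨P, hP⟩, Finset.mem_univ _, rfl⟩
    · intro q _
      rfl
  unfold resDegSum
  rw [← h3]
  push_cast
  rw [Finset.mul_sum]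
  refine Finset.sum_le_sum fun P hP => ?_
  apply mul_le_mul_of_nonneg_right _ (Nat.cast_nonneg _)
  apply he
  rwa [IsDedekindDomain.mem_primesOverFinset_iff (span_ne_bot hp)] at hP

end Pool.Agent.TH53.HR
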