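import Mathlib
import Pool.Agent.W963.GE.Conj
import Pool.Agent.TH53.HR5

/-!
# Lower bounds for the Mahler measure: totally real numbers; residues of bounded order
-/

set_option autoImplicit false

open Polynomial Finset Module

namespace Pool.Agent.TH53.UG

open Pool.Agent.W963.GE

/-- the set of conjugates -/
noncomputable def conjs (x : ℂ) : Finset ℂ := by
  classical
  exact ((minpoly ℤ x).map (Int.castRingHom ℂ)).roots.toFinset

lemma mem_conjs {x : ℂ} (hx : IsIntegral ℤ x) {a : ℂ} :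
    a ∈ conjs x ↔ aeval a (minpoly ℤ x) = 0 := by
  classical
  unfold conjs
  rw [Multiset.mem_toFinset, mem_roots (minpoly_ne x hx), IsRoot.def, eval_map, aeval_def]
  rfl

lemma conjs_val {x : ℂ} (hx : IsIntegral ℤ x) :
    (conjs x).val = ((minpoly ℤ x).map (Int.castRingHom ℂ)).roots := by
  classical
  unfold conjs
  rw [Multiset.toFinset_val, Multiset.dedup_eq_self]
  exact roots_nodup x hx

lemma poly_eq {x : ℂ} (hx : IsIntegral ℤ x) :
    (minpoly ℤ x).map (Int.castRingHom ℂ) = ∏ a ∈ conjs x, (X - C a) := by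
  have hs : ((minpoly ℤ x).map (Int.castRingHom ℂ)).Splits := IsAlgClosed.splits _
  have h1 := hs.eq_prod_roots_of_monic ((minpoly.monic hx).map _)
  rw [← conjs_val hx] at h1
  exact h1

lemma card_conjs {x : ℂ} (hx : IsIntegral ℤ x) : (conjs x).card = (minpoly ℤ x).natDegree := by
  have h1 := congrArg natDegree (poly_eq hx)
  rw [(minpoly.monic hx).natDegree_map, natDegree_prod_of_monic _ _ fun a _ => monic_X_sub_C a] at h1
  simp at h1
  exact h1.symm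

lemma MM_prod {x : ℂ} (hx : IsIntegral ℤ x) : MM x = ∏ a ∈ conjs x, max 1 ‖a‖ := by
  unfold MM
  rw [mahlerMeasure_eq_leadingCoeff_mul_prod_roots, ((minpoly.monic hx).map _).leadingCoeff,
    norm_one, one_mul, ← conjs_val hx]
  rfl

/-- the value at an integer -/
lemma prod_eval {x : ℂ} (hx : IsIntegral ℤ x) (m : ℤ) (hm : (m : ℂ) ∉ conjs x) :
    1 ≤ ∏ a ∈ conjs x, ‖(m : ℂ) - a‖ := by
  have h1 : (((minpoly ℤ x).eval m : ℤ) : ℂ) = ∏ a ∈ conjs x, ((m : ℂ) - a) := by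
    have h2 : ((minpoly ℤ x).map (Int.castRingHom ℂ)).eval (m : ℂ) =
        (((minpoly ℤ x).eval m : ℤ) : ℂ) := by
      have := Polynomial.eval_intCast_map (Int.castRingHom ℂ) (minpoly ℤ x) m
      simpa using this
    rw [← h2, poly_eq hx, eval_prod]
    simp
  have h2 : (minpoly ℤ x).eval m ≠ 0 := by
    intro h
    rw [h, Int.cast_zero] at h1
    obtain ⟨a, ha, h3⟩ := Finset.prod_eq_zero_iff.mp h1.symm
    apply hm
    rw [sub_eq_zero.mp h3]
    exact ha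
  rw [← norm_prod, ← h1, Complex.norm_intCast]
  exact_mod_cast Int.one_le_abs h2

lemma real_ineq (s : ℝ) (hs : 0 ≤ s) : s * (s - 1) ^ 2 ≤ 4 / 27 * (max 1 s) ^ 4 := by
  rcases le_total s 1 with h | h
  · rw [max_eq_left h]
    have : 0 ≤ (1 - 3 * s) ^ 2 * (4 - 3 * s) := mul_nonneg (sq_nonneg _) (by linarith)
    nlinarith
  · rw [max_eq_right h]
    have h1 : 0 ≤ (s - 3) ^ 2 * (4 * s - 3) := mul_nonneg (sq_nonneg _) (by linarith)
    have h2 : (s - 1) ^ 2 ≤ 4 / 27 * s ^ 3 := by nlinarith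
    calc s * (s - 1) ^ 2 ≤ s * (4 / 27 * s ^ 3) := mul_le_mul_of_nonneg_left h2 hs
      _ = 4 / 27 * s ^ 4 := by ring

lemma real_root_ineq {a : ℂ} (ha : a.im = 0) :
    (‖(0:ℂ) - a‖ * (‖(1:ℂ) - a‖ * ‖(-1:ℂ) - a‖)) ^ 2 ≤ 4 / 27 * (max 1 ‖a‖) ^ 8 := by
  have h1 : a = (a.re : ℂ) := by
    apply Complex.ext
    · simp
    · simp [ha]
  have h2 : ‖(1:ℂ) - a‖ * ‖(-1:ℂ) - a‖ = |a.re ^ 2 - 1| := by
    rw [← norm_mul, h1]
    have : ((1:ℂ) - (a.re : ℂ)) * ((-1:ℂ) - (a.re : ℂ)) = ((a.re ^ 2 - 1 : ℝ) : ℂ) := by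
      push_cast; ring
    rw [this, Complex.norm_real, Complex.ofReal_re, Real.norm_eq_abs]
  have h3 : ‖a‖ = |a.re| := by
    conv_lhs => rw [h1]
    rw [Complex.norm_real, Real.norm_eq_abs]
  have h4 : ‖(0:ℂ) - a‖ = |a.re| := by rw [zero_sub, norm_neg, h3]
  rw [h2, h4, h3, mul_pow, sq_abs, sq_abs]
  have h5 := real_ineq (a.re ^ 2) (sq_nonneg _)
  have h6 : max 1 (a.re ^ 2) = (max 1 |a.re|) ^ 2 := by
    rcases le_total 1 |a.re| with h | h
    · rw [max_eq_right h, sq_abs, max_eq_right]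
      rw [← sq_abs]; nlinarith
    · rw [max_eq_left h, one_pow, max_eq_left]
      rw [← sq_abs]; nlinarith [abs_nonneg a.re]
  rw [h6] at h5
  calc a.re ^ 2 * (a.re ^ 2 - 1) ^ 2 ≤ 4 / 27 * ((max 1 |a.re|) ^ 2) ^ 4 := h5
    _ = 4 / 27 * (max 1 |a.re|) ^ 8 := by ring

/-- **totally real algebraic integers** -/
theorem totally_real {x : ℂ} (hx : IsIntegral ℤ x) (h0 : x ≠ 0) (hroot : ∀ m > 0, x ^ m ≠ 1)
    (hreal : ∀ z : ℂ, aeval z (minpoly ℤ x) = 0 → z.im = 0) :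
    (27 / 4 : ℝ) ^ (minpoly ℤ x).natDegree ≤ MM x ^ 8 := by
  have hpos : 0 < (minpoly ℤ x).natDegree := minpoly.natDegree_pos hx
  -- integers that are conjugates
  have hint : ∀ m : ℤ, (m : ℂ) ∈ conjs x → x = m := by
    intro m hm
    have h1 : (X - C m : ℤ[X]) ∣ minpoly ℤ x := by
      rw [dvd_iff_isRoot, IsRoot.def]
      have h2 := (mem_conjs hx).mp hm
      have h3 : aeval (m : ℂ) (minpoly ℤ x) = (((minpoly ℤ x).eval m : ℤ) : ℂ) := by
        have := Polynomial.aeval_algebraMap_apply ℂ m (minpoly ℤ x)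
        simpa using this
      rw [h3] at h2
      exact_mod_cast h2
    have h2 : Associated (X - C m : ℤ[X]) (minpoly ℤ x) :=
      (irreducible_X_sub_C m).associated_of_dvd (minpoly.irreducible hx) h1
    have h3 : (X - C m : ℤ[X]) = minpoly ℤ x :=
      eq_of_monic_of_associated (monic_X_sub_C m) (minpoly.monic hx) h2
    have h4 := minpoly.aeval ℤ x
    rw [← h3] at h4
    simp at h4
    exact sub_eq_zero.mp h4
  have e0 : ((0 : ℤ) : ℂ) ∉ conjs x := fun h => h0 (by rw [hint 0 h]; simp)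
  have e1 : ((1 : ℤ) : ℂ) ∉ conjs x := fun h => hroot 1 one_pos (by rw [hint 1 h]; simp)
  have e2 : ((-1 : ℤ) : ℂ) ∉ conjs x := fun h => hroot 2 two_pos (by rw [hint (-1) h]; simp)
  have p0 := prod_eval hx 0 e0
  have p1 := prod_eval hx 1 e1
  have p2 := prod_eval hx (-1) e2
  push_cast at p0 p1 p2
  have h1 : (1 : ℝ) ≤ (∏ a ∈ conjs x, ‖(0:ℂ) - a‖ * (‖(1:ℂ) - a‖ * ‖(-1:ℂ) - a‖)) ^ 2 := by
    rw [Finset.prod_mul_distrib, Finset.prod_mul_distrib]
    exact one_le_pow₀ (one_le_mul_of_one_le_of_one_le p0 (one_le_mul_of_one_le_of_one_le p1 p2))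
  have h2 : (∏ a ∈ conjs x, ‖(0:ℂ) - a‖ * (‖(1:ℂ) - a‖ * ‖(-1:ℂ) - a‖)) ^ 2 ≤
      ∏ a ∈ conjs x, (4 / 27 * (max 1 ‖a‖) ^ 8) := by
    rw [← Finset.prod_pow]
    apply Finset.prod_le_prod
    · intro a _; positivity
    · intro a ha
      exact real_root_ineq (hreal a ((mem_conjs hx).mp ha))
  have h3 : ∏ a ∈ conjs x, (4 / 27 * (max 1 ‖a‖) ^ 8) =
      (4 / 27 : ℝ) ^ (minpoly ℤ x).natDegree * MM x ^ 8 := by
    rw [Finset.prod_mul_distrib, Finset.prod_const, card_conjs hx, MM_prod hx, Finset.prod_pow]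
  rw [h3] at h2
  have h4 := h1.trans h2
  have h5 : (27 / 4 : ℝ) ^ (minpoly ℤ x).natDegree * ((4 / 27 : ℝ) ^ (minpoly ℤ x).natDegree) = 1 := by
    rw [← mul_pow]; norm_num
  calc (27 / 4 : ℝ) ^ (minpoly ℤ x).natDegree
      = (27 / 4 : ℝ) ^ (minpoly ℤ x).natDegree * 1 := by ring
    _ ≤ (27 / 4 : ℝ) ^ (minpoly ℤ x).natDegree *
        ((4 / 27 : ℝ) ^ (minpoly ℤ x).natDegree * MM x ^ 8) :=
        mul_le_mul_of_nonneg_left h4 (by positivity)
    _ = MM x ^ 8 := by rw [← mul_assoc, h5, one_mul]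

/-- the degree of a unit that is not a root of unity is at least two -/
lemma two_le_deg {x : ℂ} (hx : IsIntegral ℤ x) (h0 : x ≠ 0) (hxi : IsIntegral ℤ x⁻¹)
    (hroot : ∀ m > 0, x ^ m ≠ 1) : 2 ≤ (minpoly ℤ x).natDegree := by
  have hpos : 0 < (minpoly ℤ x).natDegree := minpoly.natDegree_pos hx
  by_contra hcon
  have h1 : (minpoly ℤ x).natDegree = 1 := by omega
  have hm := minpoly.monic hx
  have h2 : minpoly ℤ x = X + C ((minpoly ℤ x).coeff 0) := by
    have := (minpoly ℤ x).eq_X_add_C_of_natDegree_le_one h1.le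
    rw [this]
    have h3 : (minpoly ℤ x).coeff 1 = 1 := by
      have := hm.coeff_natDegree
      rwa [h1] at this
    rw [h3]
    simp
  have h3 := minpoly.aeval ℤ x
  rw [h2] at h3
  simp only [map_add, aeval_X, aeval_C] at h3
  set m := (minpoly ℤ x).coeff 0 with hmm
  have h4 : x = ((-m : ℤ) : ℂ) := by
    have : (algebraMap ℤ ℂ) m = (m : ℂ) := rfl
    rw [this] at h3
    push_cast
    linear_combination h3
  have h5 : IsIntegral ℤ (((-m : ℤ) : ℚ)⁻¹) := by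
    have : algebraMap ℚ ℂ (((-m : ℤ) : ℚ)⁻¹) = x⁻¹ := by rw [h4]; simp
    rw [← this] at hxi
    exact (isIntegral_algebraMap_iff (algebraMap ℚ ℂ).injective).mp hxi
  obtain ⟨n, hn⟩ := IsIntegrallyClosed.isIntegral_iff.mp h5
  have hm0 : ((-m : ℤ) : ℚ) ≠ 0 := by
    intro h
    apply h0
    rw [h4]
    have : (-m : ℤ) = 0 := by exact_mod_cast h
    rw [this]; simp
  have h6 : (n : ℚ) * ((-m : ℤ) : ℚ) = 1 := by
    have : (n : ℚ) = ((-m : ℤ) : ℚ)⁻¹ := by rw [← hn]; rfl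
    rw [this]; field_simp
  have h7 : n * (-m) = 1 := by exact_mod_cast h6
  have h8 : IsUnit (-m) := IsUnit.of_mul_eq_one n (by rw [mul_comm]; exact h7)
  rw [Int.isUnit_iff] at h8
  rcases h8 with h8 | h8
  · apply hroot 1 one_pos
    rw [h4, h8]; simp
  · apply hroot 2 two_pos
    rw [h4, h8]; simp

end Pool.Agent.TH53.UG
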