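import Mathlib
import Pool.Agent.TH53.UG1
import Pool.Agent.TH53.HR6
import Pool.Agent.TH53.HR7
import Pool.Agent.H389R3.LR6
import Pool.Agent.H389R3.LP4

/-!
# Lower bound for the Mahler measure when the residues above `p` have bounded order
-/

set_option autoImplicit false

open Polynomial Finset Module IntermediateField UniqueFactorizationMonoid

namespace Pool.Agent.TH53.UG

open Pool.Agent.TH53.HR Pool.Agent.H388SL Pool.Agent.H389R3.LR Pool.Agent.W963.GE

/-- if `g` divides a power of `h` then `g` divides `h ^ deg g` -/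
lemma dvd_pow_natDegree {k : Type*} [Field k] [DecidableEq k] {g h : k[X]} (hg : g.Monic) {N : ℕ}
    (hd : g ∣ h ^ N) : g ∣ h ^ g.natDegree := by
  classical
  set m : k[X] → ℕ := fun q => (normalizedFactors g).count q with hm
  have hgprod : g = ∏ q ∈ dfac g, q ^ m q := by
    have h1 := prod_normalizedFactors_eq hg.ne_zero
    rw [hg.normalize_eq_self] at h1
    conv_lhs => rw [← h1]
    rw [Finset.prod_multiset_count]
    rfl
  have hgd : g.natDegree = ∑ q ∈ dfac g, m q * q.natDegree := by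
    conv_lhs => rw [hgprod]
    rw [natDegree_prod_of_monic _ _ fun q hq => (dfac_monic hq).pow _]
    exact Finset.sum_congr rfl fun q hq => (dfac_monic hq).natDegree_pow _
  conv_lhs => rw [hgprod]
  apply Finset.prod_dvd_of_coprime
  · intro q hq r hr hne
    exact (dfac_coprime hq hr hne).pow
  · intro q hq
    have h1 : q ∣ h := (dfac_irr hq).prime.dvd_of_dvd_pow ((dfac_dvd hq).trans hd)
    have h2 : m q ≤ g.natDegree := by
      rw [hgd]
      calc m q ≤ m q * q.natDegree := Nat.le_mul_of_pos_right _ (dfac_irr hq).natDegree_pos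
        _ ≤ ∑ q ∈ dfac g, m q * q.natDegree :=
          Finset.single_le_sum (f := fun q => m q * q.natDegree) (fun _ _ => Nat.zero_le _) hq
    exact (pow_dvd_pow q h2).trans (pow_dvd_pow_of_dvd h1 _)

/-- the congruence -/
lemma congr_integral {K : Type*} [Field K] {p : ℕ} [Fact p.Prime] {α : K} (hα : IsIntegral ℤ α)
    {f : ℤ[X]} (hf : aeval α f = 0) {e n t : ℕ}
    (hd : f.map (Int.castRingHom (ZMod p)) ∣ (X ^ e - 1) ^ n) (ht : n ≤ p ^ t) :
    ∃ y : K, IsIntegral ℤ y ∧ α ^ (e * p ^ t) - 1 = p * y := by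
  obtain ⟨D, hD⟩ := hd
  obtain ⟨D', hD'⟩ := exists_lift p D
  obtain ⟨W, hW⟩ := exists_mul_of_map_eq p (P := (X ^ e - 1) ^ n) (Q := f * D') (by
    rw [Polynomial.map_mul, hD', ← hD]
    simp)
  have h1 : (α ^ e - 1) ^ n = p * aeval α W := by
    have h2 := congrArg (aeval α) hW
    simp only [map_add, map_mul, hf, zero_mul, zero_add, aeval_C, map_pow, map_sub, aeval_X,
      map_one] at h2
    rw [h2]
    simp
  obtain ⟨J, hJ⟩ := expand_pow_eq p t (X ^ e - 1 : ℤ[X])
  have h2 : α ^ (e * p ^ t) - 1 = (α ^ e - 1) ^ (p ^ t) + p * aeval α J := by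
    have h3 := congrArg (aeval α) hJ
    rw [expand_aeval] at h3
    simp only [map_add, map_mul, aeval_C, map_pow, map_sub, aeval_X, map_one] at h3
    rw [← pow_mul, mul_comm (p ^ t) e] at h3
    rw [h3]
    simp
  obtain ⟨c, hc⟩ := Nat.exists_eq_add_of_le ht
  refine ⟨aeval α W * (α ^ e - 1) ^ c + aeval α J, ?_, ?_⟩
  · exact ((isIntegral_aevalZ' hα W).mul (((hα.pow e).sub isIntegral_one).pow c)).add
      (isIntegral_aevalZ' hα J)
  · rw [h2, hc, pow_add, h1]
    ring
where
  isIntegral_aevalZ' {K : Type _} [Field K] {x : K} (hx : IsIntegral ℤ x) (P : ℤ[X]) :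
      IsIntegral ℤ (aeval x P) := by
    have h1 : aeval x P ∈ Algebra.adjoin ℤ {x} := Polynomial.aeval_mem_adjoin_singleton ℤ x
    exact adjoin_le_integralClosure hx h1

/-- **residues of bounded order** -/
theorem bounded_order {p : ℕ} [Fact p.Prime] {x : ℂ} (hx : IsIntegral ℤ x) (h0 : x ≠ 0)
    (hroot : ∀ m > 0, x ^ m ≠ 1) {e : ℕ} (he : 0 < e) {N : ℕ}
    (hd : (minpoly ℤ x).map (Int.castRingHom (ZMod p)) ∣ (X ^ e - 1) ^ N) :
    Real.log 2 / (2 * e * p) ≤ Real.log (MM x) := by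
  classical
  have hp : p.Prime := Fact.out
  set f := minpoly ℤ x with hfdef
  have hm : f.Monic := minpoly.monic hx
  have hxQ : IsIntegral ℚ x := hx.tower_top
  set L := adjoin ℚ {x} with hL
  have hfin : FiniteDimensional ℚ L := adjoin.finiteDimensional hxQ
  have : NumberField L := { to_charZero := inferInstance, to_finiteDimensional := hfin }
  set α : L := AdjoinSimple.gen ℚ x with hα
  have hαz : algebraMap L ℂ α = x := AdjoinSimple.algebraMap_gen ℚ x
  have hαi : IsIntegral ℤ α := by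
    rw [← hαz] at hx
    exact (isIntegral_algebraMap_iff (algebraMap L ℂ).injective).mp hx
  have hαc : CInj α := by
    intro σ τ h
    apply adjoin_algHom_ext ℚ (s := {x})
    intro y hy
    rw [Set.mem_singleton_iff] at hy
    subst hy
    exact h
  have hminα : minpoly ℤ α = f := by
    rw [hfdef, ← hαz]
    exact (minpoly.algebraMap_eq (algebraMap L ℂ).injective α).symm
  have hpmap : f.map (Int.castRingHom ℂ) = ∏ τ : L →ₐ[ℚ] ℂ, (X - C (τ α)) := by
    rw [← minpoly_map_eq hαc, minpoly.isIntegrallyClosed_eq_field_fractions' ℚ hαi, hminα,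
      Polynomial.map_map]
    rfl
  have hMM : Real.log (MM x) = lam α := by
    unfold MM
    rw [← hfdef, hpmap]
    have h1 : (∏ τ : L →ₐ[ℚ] ℂ, (X - C (τ α))).mahlerMeasure = ∏ τ : L →ₐ[ℚ] ℂ, max 1 ‖τ α‖ := by
      rw [Finset.prod_eq_multiset_prod, prod_mahlerMeasure_eq_mahlerMeasure_prod, Multiset.map_map,
        Finset.prod_eq_multiset_prod]
      congr 1
      refine Multiset.map_congr rfl fun τ _ => ?_
      rw [Function.comp_apply, mahlerMeasure_X_sub_C]
    rw [h1, Real.log_prod]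
    · rfl
    · intro τ _
      have : (0:ℝ) < max 1 ‖τ α‖ := lt_of_lt_of_le one_pos (le_max_left _ _)
      exact this.ne'
  have hfr : finrank ℚ L = f.natDegree := by
    rw [hL, adjoin.finrank hxQ, minpoly.isIntegrallyClosed_eq_field_fractions' ℚ hx, ← hfdef]
    exact natDegree_map_eq_of_injective (algebraMap ℤ ℚ).injective_int f
  have hαf : aeval α f = 0 := by rw [← hminα, minpoly.aeval]
  have hαroot : ∀ m > 0, α ^ m ≠ 1 := by
    intro m hm1 h
    apply hroot m hm1
    rw [← hαz, ← map_pow, h, map_one]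
  set n := f.natDegree with hn
  have hn0 : 0 < n := minpoly.natDegree_pos hx
  have hd' : f.map (Int.castRingHom (ZMod p)) ∣ (X ^ e - 1) ^ n := by
    have := dvd_pow_natDegree (hm.map (Int.castRingHom (ZMod p))) hd
    rwa [hm.natDegree_map] at this
  obtain ⟨t, ht1, ht2⟩ := exists_pow_ge hp hn0
  obtain ⟨y, hy, hyeq⟩ := congr_integral hαi hαf hd' ht1
  have hpt : 0 < p ^ t := pow_pos hp.pos t
  -- upper bound
  have hup : ∀ m : ℕ, ∏ σ : L →ₐ[ℚ] ℂ, ‖σ (α ^ m - 1)‖ ≤ 2 ^ n * Real.exp (m * lam α) := by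
    intro m
    have h1 : ∀ σ : L →ₐ[ℚ] ℂ, ‖σ (α ^ m - 1)‖ ≤ 2 * (max 1 ‖σ α‖) ^ m := by
      intro σ
      rw [map_sub, map_pow, map_one]
      have h2 : ‖(σ α) ^ m - 1‖ ≤ ‖σ α‖ ^ m + 1 := by
        calc ‖(σ α) ^ m - 1‖ ≤ ‖(σ α) ^ m‖ + ‖(1:ℂ)‖ := norm_sub_le _ _
          _ = _ := by rw [norm_pow, norm_one]
      have h3 : ‖σ α‖ ^ m ≤ (max 1 ‖σ α‖) ^ m :=
        pow_le_pow_left₀ (norm_nonneg _) (le_max_right _ _) m
      have h4 : (1 : ℝ) ≤ (max 1 ‖σ α‖) ^ m := one_le_pow₀ (le_max_left _ _)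
      linarith
    calc ∏ σ : L →ₐ[ℚ] ℂ, ‖σ (α ^ m - 1)‖ ≤ ∏ σ : L →ₐ[ℚ] ℂ, (2 * (max 1 ‖σ α‖) ^ m) :=
          Finset.prod_le_prod (fun _ _ => norm_nonneg _) fun σ _ => h1 σ
      _ = 2 ^ n * (∏ σ : L →ₐ[ℚ] ℂ, max 1 ‖σ α‖) ^ m := by
          rw [Finset.prod_mul_distrib, Finset.prod_const, Finset.card_univ, AlgHom.card, hfr,
            Finset.prod_pow]
      _ = 2 ^ n * Real.exp (m * lam α) := by
          congr 1
          have h5 : ∏ σ : L →ₐ[ℚ] ℂ, max 1 ‖σ α‖ = Real.exp (lam α) := by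
            unfold lam
            rw [Real.exp_sum]
            refine Finset.prod_congr rfl fun σ _ => ?_
            rw [Real.exp_log (lt_of_lt_of_le one_pos (le_max_left _ _))]
          rw [h5, ← Real.exp_nat_mul]
  have hlam0 : 0 ≤ lam α := lam_nonneg α
  have hp0 : (0:ℝ) < p := by exact_mod_cast hp.pos
  have he0 : (0:ℝ) < e := by exact_mod_cast he
  have hn0' : (0:ℝ) < n := by exact_mod_cast hn0
  have hpt2 : ((p ^ t : ℕ) : ℝ) ≤ p * n := by exact_mod_cast ht2
  have hl2 : 0 < Real.log 2 := Real.log_pos one_lt_two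
  rw [hMM, div_le_iff₀ (by positivity)]
  rcases Nat.lt_or_ge p 3 with hp3 | hp3
  · -- `p = 2`
    have hp2 : p = 2 := by have := hp.two_le; omega
    have h1 : α ^ (e * p ^ t * 2) - 1 = ((4 : ℕ) : L) * (y * (y + 1)) := by
      have h2 : α ^ (e * p ^ t) = 1 + p * y := by rw [← hyeq]; ring
      rw [pow_mul, h2, hp2]
      push_cast
      ring
    have h2 : y * (y + 1) ≠ 0 := by
      intro h
      apply hαroot (e * p ^ t * 2) (by positivity)
      have := h1
      rw [h, mul_zero] at this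
      exact sub_eq_zero.mp this
    have h3 := pow_le_prod_norm (hy.mul (hy.add isIntegral_one)) h2 4
    rw [← h1, hfr] at h3
    have h4 := h3.trans (hup (e * p ^ t * 2))
    have h5 : (2 : ℝ) ^ n ≤ Real.exp ((e * p ^ t * 2 : ℕ) * lam α) := by
      have h6 : ((4 : ℕ) : ℝ) ^ n = 2 ^ n * 2 ^ n := by
        rw [← mul_pow]; norm_num
      rw [h6] at h4
      exact le_of_mul_le_mul_left h4 (by positivity)
    have h6 := Real.log_le_log (by positivity) h5
    rw [Real.log_pow, Real.log_exp] at h6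
    push_cast at h6 hpt2
    have h7 : (n : ℝ) * Real.log 2 ≤ n * (lam α * (2 * e * p)) := by
      calc (n : ℝ) * Real.log 2 ≤ e * (p : ℝ) ^ t * 2 * lam α := h6
        _ = (p : ℝ) ^ t * (e * 2 * lam α) := by ring
        _ ≤ (p * n) * (e * 2 * lam α) := mul_le_mul_of_nonneg_right hpt2 (by positivity)
        _ = _ := by ring
    exact le_of_mul_le_mul_left h7 hn0'
  · -- `p ≥ 3`
    have h2 : y ≠ 0 := by
      rintro rfl
      apply hαroot (e * p ^ t) (by positivity)
      rw [mul_zero] at hyeq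
      exact sub_eq_zero.mp hyeq
    have h3 := pow_le_prod_norm hy h2 p
    rw [← hyeq, hfr] at h3
    have h4 := h3.trans (hup (e * p ^ t))
    have hp3' : (3:ℝ) ≤ p := by exact_mod_cast hp3
    have h5 : ((p : ℝ) / 2) ^ n ≤ Real.exp ((e * p ^ t : ℕ) * lam α) := by
      rw [div_pow, div_le_iff₀ (by positivity)]
      linarith
    have h6 := Real.log_le_log (by positivity) h5
    rw [Real.log_pow, Real.log_exp] at h6
    push_cast at h6 hpt2
    have h8 : Real.log 2 / 2 ≤ Real.log (p / 2) := by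
      have h9 : Real.log (3 / 2) ≤ Real.log (p / 2) := Real.log_le_log (by norm_num) (by linarith)
      have h10 : Real.log 2 ≤ 2 * Real.log (3 / 2) := by
        have : (2 : ℝ) * Real.log (3 / 2) = Real.log ((3 / 2) ^ 2) := by
          rw [Real.log_pow]; norm_num
        rw [this]
        exact Real.log_le_log (by norm_num) (by norm_num)
      linarith
    have h7 : (n : ℝ) * Real.log 2 ≤ n * (lam α * (2 * e * p)) := by
      calc (n : ℝ) * Real.log 2 ≤ 2 * (n * Real.log (p / 2)) := by nlinarith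
        _ ≤ 2 * (e * (p : ℝ) ^ t * lam α) := by linarith
        _ = (p : ℝ) ^ t * (e * 2 * lam α) := by ring
        _ ≤ (p * n) * (e * 2 * lam α) := mul_le_mul_of_nonneg_right hpt2 (by positivity)
        _ = _ := by ring
    exact le_of_mul_le_mul_left h7 hn0'

end Pool.Agent.TH53.UG
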