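import Mathlib
import Pool.Agent.TH53.UG2
import Pool.Agent.H785R3.GrowthP

/-!
# Eigenvalues of an endomorphism of a finitely generated abelian group
-/

set_option autoImplicit false

open Polynomial TensorProduct

namespace Pool.Agent.TH53.UG

variable {M : Type*} [AddCommGroup M]

lemma integral_of_root [Module.Finite ℤ M] (g : Module.End ℤ M) (c : M) {x : ℂ}
    (h : ∀ p : ℤ[X], (aeval g p) c = 0 → aeval x p = 0) : IsIntegral ℤ x := by
  obtain ⟨P, hP, h0⟩ := LinearMap.exists_monic_and_aeval_eq_zero ℤ g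
  exact ⟨P, hP, h P (by rw [h0]; rfl)⟩

theorem eig_of_root [Module.Finite ℤ M] (g : Module.End ℤ M) (c : M) {x : ℂ}
    (h : ∀ p : ℤ[X], (aeval g p) c = 0 → aeval x p = 0) {z : ℂ}
    (hz : aeval z (minpoly ℤ x) = 0) :
    Module.End.HasEigenvalue (LinearMap.baseChange ℂ g : Module.End ℂ (ℂ ⊗[ℤ] M)) z := by
  have hx : IsIntegral ℤ x := integral_of_root g c h
  set A : Module.End ℚ (ℚ ⊗[ℤ] M) := g.baseChange ℚ with hA
  set χ : ℚ[X] := LinearMap.charpoly A with hχ
  obtain ⟨b, hb, hbP⟩ := IsLocalization.integerNormalization_spec (nonZeroDivisors ℤ) χ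
  set P : ℤ[X] := IsLocalization.integerNormalization (nonZeroDivisors ℤ) χ with hP
  have hb0 : b ≠ 0 := nonZeroDivisors.ne_zero hb
  have h1 : (aeval A (P.map (algebraMap ℤ ℚ))) = 0 := by
    rw [hbP, map_zsmul, hχ, LinearMap.aeval_self_charpoly, smul_zero]
  have h2 := H785R3.GrowthP.bc_aeval g P c
  rw [← hA, h1, LinearMap.zero_apply] at h2
  have h8 : TensorProduct.mk ℤ ℚ M 1 ((aeval g P) c) = 0 := h2.symm
  rw [IsLocalizedModule.eq_zero_iff (nonZeroDivisors ℤ)] at h8
  obtain ⟨s, hs⟩ := h8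
  have hs0 : (s : ℤ) ≠ 0 := nonZeroDivisors.ne_zero s.2
  have h3 : aeval x (C (s : ℤ) * P) = 0 := by
    apply h
    rw [map_mul, aeval_C, Module.End.mul_apply, Module.algebraMap_end_apply]
    exact hs
  have h4 : aeval x P = 0 := by
    rw [map_mul, aeval_C] at h3
    rcases mul_eq_zero.mp h3 with h5 | h5
    · exfalso
      apply hs0
      have : ((s : ℤ) : ℂ) = 0 := h5
      exact_mod_cast this
    · exact h5
  have h5 : aeval x χ = 0 := by
    have h6 : aeval x (P.map (algebraMap ℤ ℚ)) = 0 := by rwa [aeval_map_algebraMap]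
    rw [hbP, map_zsmul] at h6
    rcases smul_eq_zero.mp h6 with h7 | h7
    · exact absurd h7 hb0
    · exact h7
  have h6 : minpoly ℚ x ∣ χ := minpoly.dvd ℚ x h5
  have h7 : aeval z (minpoly ℚ x) = 0 := by
    rw [minpoly.isIntegrallyClosed_eq_field_fractions' ℚ hx, aeval_map_algebraMap]
    exact hz
  have h9 : aeval z χ = 0 := by
    obtain ⟨r, hr⟩ := h6
    rw [hr, map_mul, h7, zero_mul]
  -- eigenvalue of the base change of `A`
  have h10 : Module.End.HasEigenvalue (LinearMap.baseChange ℂ A : Module.End ℂ (ℂ ⊗[ℚ] (ℚ ⊗[ℤ] M))) z := by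
    rw [Module.End.hasEigenvalue_iff_isRoot_charpoly, LinearMap.charpoly_baseChange, IsRoot.def,
      eval_map, ← aeval_def]
    exact h9
  obtain ⟨v, hv⟩ := h10.exists_hasEigenvector
  set e := TensorProduct.AlgebraTensorModule.cancelBaseChange ℤ ℚ ℂ ℂ M with he
  have hcomm : ∀ w : ℂ ⊗[ℚ] (ℚ ⊗[ℤ] M),
      e ((LinearMap.baseChange ℂ A) w) = (LinearMap.baseChange ℂ g) (e w) := by
    intro w
    induction w using TensorProduct.induction_on with
    | zero => simp
    | add a b ha hb => rw [map_add, map_add, ha, hb, map_add, map_add]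
    | tmul a w =>
      induction w using TensorProduct.induction_on with
      | zero => simp
      | add a' b' ha hb =>
        rw [TensorProduct.tmul_add, map_add, map_add, ha, hb, map_add, map_add]
      | tmul q m =>
        rw [LinearMap.baseChange_tmul, hA, LinearMap.baseChange_tmul, he,
          TensorProduct.AlgebraTensorModule.cancelBaseChange_tmul,
          TensorProduct.AlgebraTensorModule.cancelBaseChange_tmul, LinearMap.baseChange_tmul]
  refine Module.End.hasEigenvalue_of_hasEigenvector (x := e v) ⟨?_, ?_⟩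
  · rw [Module.End.mem_eigenspace_iff, ← hcomm, hv.apply_eq_smul, map_smul]
  · intro h0
    exact hv.2 (e.injective (by rw [h0, map_zero]))

/-- the polynomial relation modulo `p` -/
theorem dvd_of_congr [Module.Finite ℤ M] (g : Module.End ℤ M) (c : M) {x : ℂ}
    (h : ∀ p : ℤ[X], (aeval g p) c = 0 → aeval x p = 0) {p : ℕ} [Fact p.Prime] {e j : ℕ}
    (hc : ∀ m : M, ∃ m' : M, (g ^ (e * p ^ j)) m = m + (p : ℤ) • m') :
    ∃ N : ℕ, (minpoly ℤ x).map (Int.castRingHom (ZMod p)) ∣ (X ^ e - 1) ^ N := by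
  have hx : IsIntegral ℤ x := integral_of_root g c h
  set f : Module.End ℤ M := g ^ (e * p ^ j) - 1 with hf
  have hI : LinearMap.range f ≤ (Ideal.span {(p : ℤ)}) • (⊤ : Submodule ℤ M) := by
    rintro _ ⟨m, rfl⟩
    obtain ⟨m', hm'⟩ := hc m
    have : f m = (p : ℤ) • m' := by
      rw [hf, LinearMap.sub_apply, hm', Module.End.one_apply, add_sub_cancel_left]
    rw [this]
    exact Submodule.smul_mem_smul (Ideal.mem_span_singleton_self _) trivial
  obtain ⟨Q, hQ, -, hcoef, hQ0⟩ :=
    LinearMap.exists_monic_and_natDegree_eq_and_coeff_mem_pow_and_aeval_eq_zero ℤ f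
      (Ideal.span {(p : ℤ)}) hI
  have h1 : aeval g (Q.comp (X ^ (e * p ^ j) - 1)) = 0 := by
    rw [aeval_comp]
    have : aeval g (X ^ (e * p ^ j) - 1 : ℤ[X]) = f := by
      rw [map_sub, map_pow, aeval_X, map_one]
    rw [this]
    exact hQ0
  have h2 : aeval x (Q.comp (X ^ (e * p ^ j) - 1)) = 0 := by
    apply h
    rw [h1]; rfl
  obtain ⟨R, hR⟩ := minpoly.isIntegrallyClosed_dvd hx h2
  have hQmap : Q.map (Int.castRingHom (ZMod p)) = X ^ Q.natDegree := by
    ext k
    rw [coeff_map, coeff_X_pow]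
    split_ifs with hk
    · rw [hk, hQ.coeff_natDegree]; simp
    · rcases lt_or_gt_of_ne hk with hlt | hgt
      · have h3 := hcoef k
        have h4 : Q.coeff k ∈ Ideal.span {(p : ℤ)} :=
          Ideal.pow_le_self (by omega) h3
        rw [Ideal.mem_span_singleton] at h4
        exact (ZMod.intCast_zmod_eq_zero_iff_dvd _ _).mpr h4
      · rw [coeff_eq_zero_of_natDegree_lt hgt, map_zero]
  refine ⟨p ^ j * Q.natDegree, ?_⟩
  have h3 : (minpoly ℤ x).map (Int.castRingHom (ZMod p)) ∣
      (Q.comp (X ^ (e * p ^ j) - 1)).map (Int.castRingHom (ZMod p)) := by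
    rw [hR, Polynomial.map_mul]
    exact dvd_mul_right _ _
  have h4 : (Q.comp (X ^ (e * p ^ j) - 1)).map (Int.castRingHom (ZMod p)) =
      (X ^ e - 1) ^ (p ^ j * Q.natDegree) := by
    rw [Polynomial.map_comp, hQmap]
    simp only [Polynomial.map_sub, Polynomial.map_pow, map_X, Polynomial.map_one, pow_comp, X_comp]
    rw [pow_mul (X ^ e - 1 : (ZMod p)[X]), sub_pow_char_pow, one_pow, ← pow_mul]
  rw [← h4]
  exact h3

end Pool.Agent.TH53.UG
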