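import Mathlib
import Pool.Agent.TH53.UG3
import Pool.Agent.H785R3.GrowthR

/-!
# The growth argument, remembering the acting element
-/

set_option autoImplicit false

namespace Pool.Agent.TH53.UG

open Subgroup
open scoped Pointwise commutatorElement IsMulCommutative
open Pool.Agent.H785R3.GrowthA

universe u

theorem abel_track {G : Type u} [Group G] {S : Set G} (hfin : S.Finite) (hS : closure S = ⊤)
    {k : ℕ} (hk : 1 ≤ k) [hcommA : IsMulCommutative (gam G k)] :
    (∀ n, 2 ^ n ≤ Nat.card ↥(S ^ n) ^ (2 ^ (k + 1))) ∨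
    (Module.Finite ℤ (Additive (gam G k)) ∧ ∃ (t : G) (c : Additive (gam G k)) (x : ℂ),
      x ≠ 0 ∧ (∀ n > 0, x ^ n ≠ 1) ∧
      (∀ p : Polynomial ℤ, (Polynomial.aeval (H746UG.th (gam G k) t) p) c = 0 →
        Polynomial.aeval x p = 0) ∧
      ∀ n, Nat.card (H746UG.DS x n) ≤ Nat.card ↥(S ^ n) ^ (2 ^ (k + 1))) ∨
    ∃ H : Subgroup G, H.Normal ∧ H.FiniteIndex ∧ gam G k ≤ H ∧ ∃ n, H.lowerCentralSeries n = ⊥ := by
  classical
  have hab : ∀ a ∈ gam G k, ∀ b ∈ gam G k, a * b = b * a :=
    fun a ha b hb => H746UG.comm_of_mem ha hb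
  by_cases hNF : NoFree S (2 ^ (k + 1))
  swap
  · exact Or.inl (two_pow_of_not_NoFree hfin hNF)
  right
  obtain ⟨F, hF, hFsub, hFcl⟩ := gam_fg_of_abelian hfin hS hk hab hNF
  set A := gam G k with hA
  have hAfg : A.FG := ⟨hF.toFinset, by rw [Set.Finite.coe_toFinset]; exact hFcl⟩
  have hAfg2 : Group.FG A := (Group.fg_iff_subgroup_fg A).2 hAfg
  have hMfin : Module.Finite ℤ (Additive A) := by
    rw [Module.Finite.iff_addGroup_fg]
    infer_instance
  by_cases hD : ∃ (t : G) (c : Additive A) (x : ℂ),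
      x ≠ 0 ∧ (∀ n > 0, x ^ n ≠ 1) ∧
      (∀ p : Polynomial ℤ, (Polynomial.aeval (H746UG.th A t) p) c = 0 →
        Polynomial.aeval x p = 0) ∧
      ∀ n, Nat.card (H746UG.DS x n) ≤ Nat.card ↥(S ^ n) ^ (2 ^ (k + 1))
  · exact Or.inl ⟨hMfin, hD⟩
  right
  obtain ⟨j, rfl⟩ : ∃ j, k = j + 1 := ⟨k - 1, by omega⟩
  let C : Set (Additive A) := {m | H746UG.val A m ∈ Df S j}
  have hDA : Df S j ⊆ (A : Set G) := Df_subset j
  have hUU := coreU (H746UG.th A) hfin hS hk (fun g hg => H746UG.th_of_mem hg) (C := C)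
    (by
      intro V hV hCV
      rw [eq_top_iff]
      intro m _
      have hBn : (valSub A V).Normal := by
        constructor
        rintro _ ⟨a, ha, rfl⟩ g
        exact ⟨H746UG.th A g a, hV g a ha, H746UG.val_th g a⟩
      have hDB : Df S j ⊆ (valSub A V : Set G) := by
        intro d hd
        exact ⟨H746UG.el A d (hDA hd), hCV hd, H746UG.val_el d (hDA hd)⟩
      have hle : A ≤ valSub A V := (gam_le_normalClosure hS j).trans (normalClosure_le_normal hDB)
      obtain ⟨a, ha, hav⟩ := hle (H746UG.val_mem m)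
      rw [← H746UG.val_inj hav]; exact ha)
    (by
      intro c hc
      obtain ⟨u, v, huv, hcv⟩ := hc
      obtain ⟨l', hl', hu, hv⟩ := Pr_len huv
      have key : ∀ l ≤ 1, ∀ g ∈ S ^ l, QU (H746UG.th A) (g * v) c := by
        intro l hl g hg
        by_contra hcon
        apply hD
        rcases H785R3.GrowthP.exists_root (H746UG.th A (g * v)) (rho_inj (H746UG.th A) (g * v)) c with
          h | ⟨x, hx0, hx, hp⟩
        · exact absurd h hcon
        · have h1 : 2 ^ (j + 1 + 1) = 4 * 2 ^ j := by rw [pow_succ, pow_succ]; ring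
          have h2 : 0 < 2 ^ j := by positivity
          have e : g * v * H746UG.val A c = g * u := by rw [hcv]; group
          have hX : g * v ∈ S ^ (l + l') := mul_mem_pow hg hv rfl
          have hY : g * v * H746UG.val A c ∈ S ^ (l + l') := by
            rw [e]; exact mul_mem_pow hg hu rfl
          have hl0 : 0 < l + l' := by
            rcases Nat.eq_zero_or_pos (l + l') with h0 | h0
            · exfalso
              apply hcon
              rw [h0, pow_zero, Set.mem_one] at hX hY
              have hc0 : c = 0 := by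
                apply H746UG.val_inj
                rw [H746UG.val_zero]
                rw [hX, one_mul] at hY
                exact hY
              rw [hc0]
              exact ⟨1, 1, 1, one_pos, one_pos, by simp⟩
            · exact h0
          have hne : S.Nonempty := by
            rw [Set.nonempty_iff_ne_empty]
            rintro rfl
            rw [Set.empty_pow hl0.ne'] at hX
            exact hX
          refine ⟨g * v, c, x, hx0, hx, hp, fun n => ?_⟩
          exact (card_DS_le hfin hX hY x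
            (fun u v hl he => digits_of_pair A rfl x hp u v hl he) n).trans
            (pow_le_of_le hfin hne (by omega) n)
      refine ⟨v, ?_, ?_⟩
      · have := key 0 (by norm_num) 1 (by simp)
        simpa using this
      · intro w hw
        exact key 1 le_rfl w (by simpa using hw))
  exact nilp_of_UU A rfl hUU

/-- the endomorphism of the abelianization of a normal subgroup `N` (written additively) induced
by conjugation by `t` -/
noncomputable def act {G : Type*} [Group G] (N : Subgroup G) [N.Normal] (t : G) :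
    Module.End ℤ (Additive (Abelianization N)) :=
  (MonoidHom.toAdditive
    (Abelianization.map (MulAut.conjNormal t : N ≃* N).toMonoidHom)).toIntLinearMap

lemma act_of {G : Type*} [Group G] (N : Subgroup G) [N.Normal] (t : G) (a : N) :
    act N t (Additive.ofMul (Abelianization.of a)) =
      Additive.ofMul (Abelianization.of (MulAut.conjNormal t a)) := by
  simp [act]

lemma aeval_comm {M N : Type*} [AddCommGroup M] [AddCommGroup N] (φ : M →ₗ[ℤ] N)
    {g : Module.End ℤ M} {h : Module.End ℤ N} (hc : ∀ m, φ (g m) = h (φ m))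
    (p : Polynomial ℤ) (m : M) :
    φ ((Polynomial.aeval g p) m) = (Polynomial.aeval h p) (φ m) := by
  induction p using Polynomial.induction_on' with
  | add p q hp hq => rw [map_add, map_add, LinearMap.add_apply, LinearMap.add_apply, map_add, hp, hq]
  | monomial n a =>
    rw [Polynomial.aeval_monomial, Polynomial.aeval_monomial, Module.End.mul_apply,
      Module.End.mul_apply, Module.algebraMap_end_apply, Module.algebraMap_end_apply, map_smul]
    congr 1
    induction n with
    | zero => simp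
    | succ n ih => rw [pow_succ', pow_succ', Module.End.mul_apply, Module.End.mul_apply, hc, ih]

theorem main_track {G : Type u} [Group G] {S : Set G} (hfin : S.Finite) (hS : closure S = ⊤)
    {k : ℕ} (hk : 1 ≤ k) :
    (∀ n, 2 ^ n ≤ Nat.card ↥(S ^ n) ^ (2 ^ (k + 1))) ∨
    (Module.Finite ℤ (Additive (Abelianization (gam G k))) ∧
      ∃ (t : G) (c : Additive (Abelianization (gam G k))) (x : ℂ),
      x ≠ 0 ∧ (∀ n > 0, x ^ n ≠ 1) ∧
      (∀ p : Polynomial ℤ, (Polynomial.aeval (act (gam G k) t) p) c = 0 →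
        Polynomial.aeval x p = 0) ∧
      ∀ n, Nat.card (H746UG.DS x n) ≤ Nat.card ↥(S ^ n) ^ (2 ^ (k + 1))) ∨
    (Group.IsVirtuallyNilpotent (G ⧸ ⁅gam G k, gam G k⁆) ∧
      (Group.IsNilpotent (gam G k) → Group.IsVirtuallyNilpotent G)) := by
  classical
  set Γ := gam G k with hΓ
  set D := ⁅Γ, Γ⁆ with hD
  have hDle : D ≤ Γ := commutator_le_left _ _
  have hsurj := QuotientGroup.mk'_surjective D
  have hS' : closure ((QuotientGroup.mk' D) '' S) = ⊤ := by
    rw [← MonoidHom.map_closure, hS, ← MonoidHom.range_eq_map]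
    exact MonoidHom.range_eq_top.2 hsurj
  have hg : gam (G ⧸ D) k = Γ.map (QuotientGroup.mk' D) := gam_map hsurj k
  have hab : ∀ a ∈ gam (G ⧸ D) k, ∀ b ∈ gam (G ⧸ D) k, a * b = b * a := by
    rw [hg]
    rintro _ ⟨a, ha, rfl⟩ _ ⟨b, hb, rfl⟩
    have : ⁅a, b⁆ ∈ D := commutator_mem_commutator ha hb
    rw [← QuotientGroup.eq_one_iff, commutatorElement_def] at this
    simp only [QuotientGroup.mk_mul, QuotientGroup.mk_inv] at this
    rw [mul_inv_eq_one, mul_inv_eq_iff_eq_mul] at this
    exact this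
  have hcommA : IsMulCommutative (gam (G ⧸ D) k) := ⟨⟨fun a b => Subtype.ext (hab a a.2 b b.2)⟩⟩
  -- the comparison map
  let ψ0 : Γ →* gam (G ⧸ D) k :=
    ((QuotientGroup.mk' D).comp Γ.subtype).codRestrict (gam (G ⧸ D) k) (fun a => by
      rw [hg]; exact mem_map_of_mem _ a.2)
  have hψ0 : ∀ a : Γ, ((ψ0 a : gam (G ⧸ D) k) : G ⧸ D) = QuotientGroup.mk' D (a : G) := fun _ => rfl
  let ψ : Abelianization Γ →* gam (G ⧸ D) k := Abelianization.lift ψ0
  have hψ : ∀ a : Γ, ψ (Abelianization.of a) = ψ0 a := fun a => Abelianization.lift_apply_of _ _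
  have hψinj : Function.Injective ψ := by
    rw [injective_iff_map_eq_one]
    intro a ha
    obtain ⟨γ, rfl⟩ := QuotientGroup.mk_surjective a
    change ψ (Abelianization.of γ) = 1 at ha
    rw [hψ] at ha
    have h1 : QuotientGroup.mk' D (γ : G) = 1 := by
      rw [← hψ0, ha]; rfl
    have h2 : (γ : G) ∈ D := (QuotientGroup.eq_one_iff _).1 h1
    rw [hD, ← Subgroup.map_subtype_commutator] at h2
    obtain ⟨δ, hδ, hδe⟩ := h2
    have h3 : δ = γ := Subtype.ext hδe
    rw [h3] at hδ
    exact (QuotientGroup.eq_one_iff γ).2 hδ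
  have hψsurj : Function.Surjective ψ := by
    rintro ⟨a, ha⟩
    have ha' := ha
    rw [hg] at ha'
    obtain ⟨γ, hγ, rfl⟩ := ha'
    exact ⟨Abelianization.of ⟨γ, hγ⟩, by rw [hψ]; rfl⟩
  let φ0 : Additive (Abelianization Γ) →+ Additive (gam (G ⧸ D) k) := MonoidHom.toAdditive ψ
  have hφ0 : Function.Bijective φ0 := ⟨fun a b h => hψinj h, fun a => hψsurj a⟩
  let φ : Additive (Abelianization Γ) ≃ₗ[ℤ] Additive (gam (G ⧸ D) k) :=
    (AddEquiv.ofBijective φ0 hφ0).toIntLinearEquiv
  have hφ : ∀ a : Γ, H746UG.val (gam (G ⧸ D) k) (φ (Additive.ofMul (Abelianization.of a))) =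
      QuotientGroup.mk' D (a : G) := by
    intro a
    have : φ (Additive.ofMul (Abelianization.of a)) = Additive.ofMul (ψ (Abelianization.of a)) := rfl
    rw [this, hψ]
    rfl
  have hcomm : ∀ (t : G) (b : Additive (Abelianization Γ)),
      φ (act Γ t b) = H746UG.th (gam (G ⧸ D) k) (QuotientGroup.mk' D t) (φ b) := by
    intro t b
    obtain ⟨γ, hγ⟩ := QuotientGroup.mk_surjective (Additive.toMul b)
    have hb : b = Additive.ofMul (Abelianization.of γ) := by
      apply Additive.toMul.injective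
      exact hγ.symm
    rw [hb, act_of]
    apply H746UG.val_inj
    rw [H746UG.val_th, hφ, hφ]
    simp
  rcases abel_track (hfin.image (QuotientGroup.mk' D)) hS' hk with
    h | ⟨hMf, t', c, x, hx0, hx, hp, hn⟩ | ⟨H, hHn, hHf, hle, n, hn⟩
  · left
    intro n
    refine (h n).trans (Nat.pow_le_pow_left ?_ _)
    have : Finite ↥(S ^ n) := H746UG.finite_pow S hfin n
    rw [← Set.image_pow]
    exact Nat.card_image_le this
  · right; left
    refine ⟨Module.Finite.equiv φ.symm, ?_⟩
    obtain ⟨t, rfl⟩ := hsurj t'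
    refine ⟨t, φ.symm c, x, hx0, hx, ?_, ?_⟩
    · intro p h0
      apply hp
      have h1 := aeval_comm (φ : Additive (Abelianization Γ) →ₗ[ℤ] Additive (gam (G ⧸ D) k))
        (g := act Γ t) (h := H746UG.th (gam (G ⧸ D) k) (QuotientGroup.mk' D t)) (hcomm t) p (φ.symm c)
      rw [h0, map_zero] at h1
      have h2 : (φ : Additive (Abelianization Γ) →ₗ[ℤ] Additive (gam (G ⧸ D) k)) (φ.symm c) = c :=
        φ.apply_symm_apply c
      rw [h2] at h1
      exact h1.symm
    · intro n
      refine (hn n).trans (Nat.pow_le_pow_left ?_ _)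
      have : Finite ↥(S ^ n) := H746UG.finite_pow S hfin n
      rw [← Set.image_pow]
      exact Nat.card_image_le this
  · right; right
    refine ⟨⟨H, (Subgroup.isNilpotent_iff_lowerCentralSeries H).2 ⟨n, hn⟩, hHf⟩, fun hnil => ?_⟩
    set H2 := H.comap (QuotientGroup.mk' D) with hH2
    have hH2n : H2.Normal := hHn.comap _
    have hH2f : H2.FiniteIndex :=
      ⟨by rw [hH2, index_comap_of_surjective _ hsurj]; exact hHf.index_ne_zero⟩
    have hle2 : Γ ≤ H2 := by
      intro a ha
      apply hle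
      rw [hg]
      exact mem_map_of_mem _ ha
    obtain ⟨c, hc⟩ := (Subgroup.isNilpotent_iff_lowerCentralSeries Γ).1 hnil
    have h1 : H2.lowerCentralSeries n ≤ ⁅Γ, Γ⁆ := by
      intro a ha
      have h2 := lcs_map (QuotientGroup.mk' D) H2 H (map_comap_le _ _) n (mem_map_of_mem _ ha)
      rw [hn, mem_bot] at h2
      exact (QuotientGroup.eq_one_iff a).1 h2
    obtain ⟨m, hm⟩ := H648R4.hall hle2 hc h1
    exact ⟨H2, (Subgroup.isNilpotent_iff_lowerCentralSeries H2).2 ⟨m, hm⟩, hH2f⟩

end Pool.Agent.TH53.UG
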