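import Mathlib
import Pool.Agent.TH53.UG4
import Pool.Agent.W963.GE.Final

/-!
# Growth gaps: from the eigenvalues to the growth rate
-/

set_option autoImplicit false

namespace Pool.Agent.TH53.UG

open Filter Topology Polynomial
open scoped Pointwise commutatorElement TensorProduct
open Pool.Agent.W963.GE

universe u

/-- lower bound for the base -/
lemma base_exp {M δ : ℝ} (hM : 0 < M) (hδ : δ ≤ 1 - 1 / M ^ 2) (hδ0 : 0 ≤ δ) (hδ1 : δ ≤ 4 / 3) :
    δ / 3 ≤ Real.log (base M) := by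
  have h0 : Real.exp (δ / 3) * (1 + Real.exp (-δ)) ≤ 2 := by
    have h1 : Real.cosh (δ / 2) ≤ Real.exp ((δ / 2) ^ 2 / 2) := Real.cosh_le_exp_half_sq _
    have h2 : Real.exp ((δ / 2) ^ 2 / 2) ≤ Real.exp (δ / 6) := by
      apply Real.exp_le_exp.2
      nlinarith
    have h3 : 1 + Real.exp (-δ) = 2 * Real.exp (-(δ / 2)) * Real.cosh (δ / 2) := by
      rw [Real.cosh_eq]
      have : 2 * Real.exp (-(δ / 2)) * ((Real.exp (δ / 2) + Real.exp (-(δ / 2))) / 2) =
          Real.exp (-(δ / 2)) * Real.exp (δ / 2) + Real.exp (-(δ / 2)) * Real.exp (-(δ / 2)) := by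
        ring
      rw [this, ← Real.exp_add, ← Real.exp_add]
      have e1 : -(δ / 2) + δ / 2 = 0 := by ring
      have e2 : -(δ / 2) + -(δ / 2) = -δ := by ring
      rw [e1, e2, Real.exp_zero]
    rw [h3]
    have h4 : Real.exp (δ / 3) * (2 * Real.exp (-(δ / 2)) * Real.cosh (δ / 2)) ≤
        Real.exp (δ / 3) * (2 * Real.exp (-(δ / 2)) * Real.exp (δ / 6)) := by
      apply mul_le_mul_of_nonneg_left _ (Real.exp_pos _).le
      exact mul_le_mul_of_nonneg_left (h1.trans h2) (by positivity)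
    have h5 : Real.exp (δ / 3) * (2 * Real.exp (-(δ / 2)) * Real.exp (δ / 6)) = 2 := by
      have : Real.exp (δ / 3) * (2 * Real.exp (-(δ / 2)) * Real.exp (δ / 6)) =
          2 * (Real.exp (δ / 3) * Real.exp (-(δ / 2)) * Real.exp (δ / 6)) := by ring
      rw [this, ← Real.exp_add, ← Real.exp_add]
      have e1 : δ / 3 + -(δ / 2) + δ / 6 = 0 := by ring
      rw [e1, Real.exp_zero, mul_one]
    linarith
  have h1 : Real.exp (δ / 3) ≤ base M := by
    unfold base
    have h2 := Real.exp_pos (-(1 - 1 / M ^ 2))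
    rw [le_div_iff₀ (by positivity)]
    have h3 : Real.exp (-(1 - 1 / M ^ 2)) ≤ Real.exp (-δ) := Real.exp_le_exp.2 (by linarith)
    calc Real.exp (δ / 3) * (1 + Real.exp (-(1 - 1 / M ^ 2))) ≤
        Real.exp (δ / 3) * (1 + Real.exp (-δ)) := by
          apply mul_le_mul_of_nonneg_left _ (Real.exp_pos _).le
          linarith
      _ ≤ 2 := h0
  have h2 := Real.log_le_log (Real.exp_pos _) h1
  rwa [Real.log_exp] at h2

/-- the numerical bound in the totally real case -/
lemma base_quarter {M : ℝ} (hM : 0 < M) (h : (27 / 4 : ℝ) ^ 2 ≤ M ^ 8) :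
    1 / 4 ≤ Real.log (base M) := by
  have h1 : (2.598 : ℝ) ≤ M ^ 2 := by
    by_contra hcon
    push Not at hcon
    have h2 : (M ^ 2) ^ 4 < (2.598 : ℝ) ^ 4 := pow_lt_pow_left₀ hcon (by positivity) (by norm_num)
    have h3 : (M ^ 2) ^ 4 = M ^ 8 := by ring
    rw [h3] at h2
    have h4 : (2.598 : ℝ) ^ 4 < (27 / 4) ^ 2 := by norm_num
    linarith
  have h2 : (0.615 : ℝ) ≤ 1 - 1 / M ^ 2 := by
    have h3 : 1 / M ^ 2 ≤ 1 / 2.598 := one_div_le_one_div_of_le (by norm_num) h1
    have h4 : (1 : ℝ) / 2.598 ≤ 0.385 := by norm_num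
    linarith
  have h3 : Real.exp (1 / 4) ≤ base M := by
    unfold base
    have h4 := Real.exp_pos (-(1 - 1 / M ^ 2))
    rw [le_div_iff₀ (by positivity)]
    have h5 : Real.exp (-(1 - 1 / M ^ 2)) ≤ Real.exp (-0.615) := Real.exp_le_exp.2 (by linarith)
    have h6 : Real.exp (-0.615) ≤ 0.5544 := by
      rw [Real.exp_neg]
      have h7 : 1 + 0.615 + (0.615 : ℝ) ^ 2 / 2 ≤ Real.exp 0.615 :=
        Real.quadratic_le_exp_of_nonneg (by norm_num)
      have h8 : (Real.exp 0.615)⁻¹ ≤ (1 + 0.615 + (0.615 : ℝ) ^ 2 / 2)⁻¹ :=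
        inv_anti₀ (by norm_num) h7
      have h9 : (1 + 0.615 + (0.615 : ℝ) ^ 2 / 2)⁻¹ ≤ 0.5544 := by norm_num
      linarith
    have h7 : Real.exp (1 / 4) ≤ 1.2841 := by
      by_contra hcon
      push Not at hcon
      have h8 : (1.2841 : ℝ) ^ 4 < Real.exp (1 / 4) ^ 4 :=
        pow_lt_pow_left₀ hcon (by norm_num) (by norm_num)
      rw [← Real.exp_nat_mul] at h8
      have h9 : ((4 : ℕ) : ℝ) * (1 / 4) = 1 := by norm_num
      rw [h9] at h8
      have h10 := Real.exp_one_lt_d9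
      have h11 : (2.7183 : ℝ) ≤ 1.2841 ^ 4 := by norm_num
      linarith
    have h8 := Real.exp_pos (1 / 4 : ℝ)
    calc Real.exp (1 / 4) * (1 + Real.exp (-(1 - 1 / M ^ 2))) ≤ 1.2841 * (1 + 0.5544) := by
          apply mul_le_mul h7 (by linarith) (by positivity) (by norm_num)
      _ ≤ 2 := by norm_num
  have h4 := Real.log_le_log (Real.exp_pos _) h3
  rwa [Real.log_exp] at h4

lemma rho_of_dig {G : Type u} [Group G] (T : Set G) {L : ℕ} (hL : 0 < L) {x : ℂ} (hx0 : x ≠ 0)
    (hn : ∀ n, Nat.card (H746UG.DS x n) ≤ Nat.card ↥(T ^ n) ^ L) :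
    H746UG.eta x / L ≤ H746UG.rho T := by
  have hL' : (0 : ℝ) < L := by exact_mod_cast hL
  have h1 : Tendsto (fun n : ℕ => Real.log (Nat.card ↥(H746UG.digitSums x n)) / n / L) atTop
      (𝓝 (H746UG.eta x / L)) := (H746UG.tendsto_eta x hx0).div_const _
  refine le_of_tendsto_of_tendsto' h1 (H746UG.tendsto_rho T) ?_
  intro n
  have h2 : (0 : ℝ) < Nat.card ↥(H746UG.digitSums x n) := by
    have h3 := H746UG.DS_pos x n
    rw [H746UG.DS_eq_digitSums] at h3
    exact_mod_cast h3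
  have h3 : Real.log (Nat.card ↥(H746UG.digitSums x n)) ≤ L * Real.log (Nat.card ↥(T ^ n)) := by
    have h4 : Real.log (Nat.card ↥(H746UG.digitSums x n)) ≤
        Real.log ((Nat.card ↥(T ^ n) : ℝ) ^ L) := by
      apply Real.log_le_log h2
      have := hn n
      rw [H746UG.DS_eq_digitSums] at this
      exact_mod_cast this
    rw [Real.log_pow] at h4
    exact h4
  rcases Nat.eq_zero_or_pos n with h0 | h0
  · subst h0; simp
  · have h5 : (0 : ℝ) < n := by exact_mod_cast h0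
    rw [div_div, div_le_div_iff₀ (by positivity) h5]
    nlinarith

lemma rho_of_two {G : Type u} [Group G] (T : Set G) {L : ℕ} (hL : 0 < L)
    (hn : ∀ n, 2 ^ n ≤ Nat.card ↥(T ^ n) ^ L) : Real.log 2 / L ≤ H746UG.rho T := by
  refine ge_of_tendsto (H746UG.tendsto_rho T) ?_
  filter_upwards [eventually_gt_atTop 0] with n hn0
  have h1 := hn n
  have h2 : 0 < Nat.card ↥(T ^ n) := Nat.pos_of_ne_zero (fun h3 => by
    rw [h3, zero_pow hL.ne'] at h1
    simp at h1)
  have h3 : Real.log ((2 : ℝ) ^ n) ≤ Real.log ((Nat.card ↥(T ^ n) : ℝ) ^ L) := by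
    apply Real.log_le_log (by positivity)
    exact_mod_cast h1
  rw [Real.log_pow, Real.log_pow] at h3
  have hn' : (0 : ℝ) < n := by exact_mod_cast hn0
  have hL' : (0 : ℝ) < L := by exact_mod_cast hL
  rw [div_le_div_iff₀ hL' hn']
  linarith

/-- general form: `c` bounds the growth of digit sums for all possible eigenvalues -/
theorem gap_general {k d : ℕ} (hk : 1 ≤ k) {G : Type u} [Group G] (S : Set G)
    (hfin : S.Finite) (hgen : Subgroup.closure S = ⊤) (H : Subgroup G) (hH0 : H.index ≠ 0)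
    (hHd : H.index ≤ d)
    (hnil : Group.IsNilpotent (gam H k) ∨ ¬ Group.IsVirtuallyNilpotent (H ⧸ ⁅gam H k, gam H k⁆))
    {c : ℝ} (hc2 : c ≤ Real.log 2)
    (hc : Module.Finite ℤ (Additive (Abelianization (gam H k))) →
      ∀ (t : H) (b : Additive (Abelianization (gam H k))) (x : ℂ),
      x ≠ 0 → (∀ n > 0, x ^ n ≠ 1) →
      (∀ p : Polynomial ℤ, (Polynomial.aeval (act (gam H k) t) p) b = 0 →
        Polynomial.aeval x p = 0) → c ≤ H746UG.eta x) :
    Group.IsVirtuallyNilpotent G ∨ c / (2 ^ (k + 1) * (2 * d - 1)) ≤ H746UG.rho S := by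
  have hd : 1 ≤ d := by omega
  rcases S.eq_empty_or_nonempty with rfl | hne
  · left
    rw [Subgroup.closure_empty] at hgen
    have hsub : Subsingleton G := Subgroup.subsingleton_iff.1 (subsingleton_of_bot_eq_top hgen)
    refine ⟨⊥, ?_, ?_⟩
    · infer_instance
    · constructor
      rw [hgen, Subgroup.index_top]
      exact one_ne_zero
  have fin : ∀ (hr : c / ((2 ^ (k + 1) : ℕ) : ℝ) ≤ H746UG.rho (TT S H d)),
      c / (2 ^ (k + 1) * (2 * d - 1)) ≤ H746UG.rho S := by
    intro h1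
    have h2 := rho_TT S hfin hne H hd
    have he : ((2 * d - 1 : ℕ) : ℝ) = 2 * d - 1 := by
      rw [Nat.cast_sub (by omega)]; push_cast; ring
    rw [he] at h2
    have hpos : (0 : ℝ) < 2 * d - 1 := by
      have : (1 : ℝ) ≤ d := by exact_mod_cast hd
      linarith
    have h3 := h1.trans h2
    push_cast at h3
    rw [← div_div, div_le_iff₀ hpos, mul_comm (H746UG.rho S)]
    exact h3
  have hLpos : 0 < 2 ^ (k + 1) := by positivity
  have hLpos' : (0 : ℝ) < ((2 ^ (k + 1) : ℕ) : ℝ) := by exact_mod_cast hLpos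
  rcases main_track (TT_finite S hfin H d) (TT_gen S hgen H hH0 hHd) hk with
    h | ⟨hMf, t, b, x, hx0, hx, hp, hn⟩ | ⟨h', h⟩
  · right
    exact fin ((div_le_div_of_nonneg_right hc2 hLpos'.le).trans (rho_of_two _ hLpos h))
  · right
    exact fin ((div_le_div_of_nonneg_right (hc hMf t b x hx0 hx hp) hLpos'.le).trans
      (rho_of_dig _ hLpos hx0 hn))
  · left
    rcases hnil with hnil | hnil
    · exact vn_of_sub H hH0 (h hnil)
    · exact absurd h' hnil

/-- **real eigenvalues** -/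
theorem gap_real {k d : ℕ} (hk : 1 ≤ k) {G : Type u} [Group G] (S : Set G)
    (hfin : S.Finite) (hgen : Subgroup.closure S = ⊤) (H : Subgroup G) (hH0 : H.index ≠ 0)
    (hHd : H.index ≤ d)
    (hnil : Group.IsNilpotent (gam H k) ∨ ¬ Group.IsVirtuallyNilpotent (H ⧸ ⁅gam H k, gam H k⁆))
    (hreal : ∀ (t : H) (z : ℂ), Module.End.HasEigenvalue
      (LinearMap.baseChange ℂ (act (gam H k) t) :
        Module.End ℂ (ℂ ⊗[ℤ] (Additive (Abelianization (gam H k))))) z → z.im = 0) :
    Group.IsVirtuallyNilpotent G ∨ 1 / (2 ^ (k + 3) * (2 * d - 1)) ≤ H746UG.rho S := by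
  have e : (1 : ℝ) / (2 ^ (k + 3) * (2 * d - 1)) = (1 / 4) / (2 ^ (k + 1) * (2 * d - 1)) := by
    rw [div_div]
    congr 1
    ring
  rw [e]
  refine gap_general hk S hfin hgen H hH0 hHd hnil ?_ ?_
  · have := Real.log_two_gt_d9
    linarith
  · intro hMf t b x hx0 hx hp
    have hxi : IsIntegral ℤ x := integral_of_root _ b hp
    by_cases hi : IsIntegral ℤ x⁻¹
    · have hre : ∀ z : ℂ, aeval z (minpoly ℤ x) = 0 → z.im = 0 := fun z hz =>
        hreal t z (eig_of_root (act (gam H k) t) b hp hz)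
      have h1 := totally_real hxi hx0 hx hre
      have h2 := two_le_deg hxi hx0 hi hx
      have h3 : (27 / 4 : ℝ) ^ 2 ≤ MM x ^ 8 :=
        (pow_le_pow_right₀ (by norm_num) h2).trans h1
      have hM : 0 < MM x := zero_lt_one.trans_le (MM_ge x hxi)
      exact (base_quarter hM h3).trans (eta_ge x hx0 hxi)
    · rw [H746UG.eta_eq_log_two x hx0 (fun h => hi h.2)]
      have := Real.log_two_gt_d9
      linarith

/-- **bounded exponent modulo `p`** -/
theorem gap_modp {k d : ℕ} (hk : 1 ≤ k) {G : Type u} [Group G] (S : Set G)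
    (hfin : S.Finite) (hgen : Subgroup.closure S = ⊤) (H : Subgroup G) (hH0 : H.index ≠ 0)
    (hHd : H.index ≤ d)
    (hnil : Group.IsNilpotent (gam H k) ∨ ¬ Group.IsVirtuallyNilpotent (H ⧸ ⁅gam H k, gam H k⁆))
    {p : ℕ} [Fact p.Prime] {e : ℕ} (he : 0 < e)
    (hmod : ∀ t : H, ∃ j : ℕ, ∀ b : Additive (Abelianization (gam H k)), ∃ b',
      ((act (gam H k) t) ^ (e * p ^ j)) b = b + (p : ℤ) • b') :
    Group.IsVirtuallyNilpotent G ∨ 1 / (6 * e * p * 2 ^ (k + 1) * (2 * d - 1)) ≤ H746UG.rho S := by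
  have hp : p.Prime := Fact.out
  have hp2 : (2 : ℝ) ≤ p := by exact_mod_cast hp.two_le
  have he1 : (1 : ℝ) ≤ e := by exact_mod_cast he
  have hep : (2 : ℝ) ≤ e * p := by nlinarith
  have e' : (1 : ℝ) / (6 * e * p * 2 ^ (k + 1) * (2 * d - 1)) =
      (1 / (6 * (e * p))) / (2 ^ (k + 1) * (2 * d - 1)) := by
    rw [div_div]
    congr 1
    ring
  rw [e']
  have hl2 := Real.log_two_gt_d9
  refine gap_general hk S hfin hgen H hH0 hHd hnil ?_ ?_
  · have : 1 / (6 * ((e : ℝ) * p)) ≤ 1 / 12 := one_div_le_one_div_of_le (by norm_num) (by linarith)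
    linarith
  · intro hMf t b x hx0 hx hpoly
    have hxi : IsIntegral ℤ x := integral_of_root _ b hpoly
    obtain ⟨j, hj⟩ := hmod t
    obtain ⟨N, hN⟩ := dvd_of_congr (act (gam H k) t) b hpoly hj
    have h1 := bounded_order hxi hx0 hx he hN
    refine le_trans ?_ (eta_ge x hx0 hxi)
    have hM : 0 < MM x := zero_lt_one.trans_le (MM_ge x hxi)
    -- `M ^ 2 ≥ 2 ^ (1 / (e p))`
    set w : ℝ := Real.log 2 / (e * p) with hw
    have hw0 : 0 ≤ w := by positivity
    have hw1 : w ≤ 0.35 := by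
      rw [hw, div_le_iff₀ (by positivity)]
      have := Real.log_two_lt_d9
      nlinarith
    have h2 : Real.exp w ≤ MM x ^ 2 := by
      have h3 : w ≤ Real.log (MM x ^ 2) := by
        rw [Real.log_pow]
        have : w = 2 * (Real.log 2 / (2 * e * p)) := by
          rw [hw]
          have h5 : (e : ℝ) ≠ 0 := by positivity
          have h6 : (p : ℝ) ≠ 0 := by positivity
          field_simp
        rw [this]
        push_cast
        linarith
      calc Real.exp w ≤ Real.exp (Real.log (MM x ^ 2)) := Real.exp_le_exp.2 h3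
        _ = MM x ^ 2 := Real.exp_log (by positivity)
    have h3 : w - w ^ 2 / 2 ≤ 1 - 1 / MM x ^ 2 := by
      have h4 : 1 / MM x ^ 2 ≤ Real.exp (-w) := by
        rw [Real.exp_neg, ← one_div]
        exact one_div_le_one_div_of_le (Real.exp_pos _) h2
      have h5 : Real.exp (-w) ≤ 1 - w + w ^ 2 / 2 := by
        have h6 := Real.exp_pos w
        rw [Real.exp_neg]
        have h7 : 1 + w + w ^ 2 / 2 ≤ Real.exp w := Real.quadratic_le_exp_of_nonneg hw0
        have h8 : (Real.exp w)⁻¹ ≤ (1 + w + w ^ 2 / 2)⁻¹ := inv_anti₀ (by positivity) h7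
        have h9 : (1 + w + w ^ 2 / 2)⁻¹ ≤ 1 - w + w ^ 2 / 2 := by
          rw [inv_le_iff_one_le_mul₀ (by positivity)]
          nlinarith [sq_nonneg (w ^ 2)]
        linarith
      linarith
    have h4 := base_exp hM h3 (by nlinarith) (by nlinarith)
    refine le_trans ?_ h4
    have h5 : w * 0.825 ≤ w - w ^ 2 / 2 := by nlinarith
    have h6 : 1 / (6 * ((e : ℝ) * p)) ≤ w * 0.825 / 3 := by
      have h7 : (0 : ℝ) < e * p := by positivity
      rw [hw, div_mul_eq_mul_div, div_div, div_le_div_iff₀ (by positivity) (by positivity)]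
      nlinarith
    linarith

end Pool.Agent.TH53.UG
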