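import Mathlib
import Pool.Agent.TH53.UG5

/-!
# Eigenvalues in CM fields
-/

set_option autoImplicit false

open Polynomial Finset Module IntermediateField
open scoped TensorProduct commutatorElement ComplexConjugate

namespace Pool.Agent.TH53.UG

open Pool.Agent.TH53.HR Pool.Agent.H388SL Pool.Agent.H389R3.LR Pool.Agent.W963.GE

universe u

/-- **algebraic integers on which complex conjugation is a rational polynomial** -/
theorem cm_bound {x : ℂ} (hx : IsIntegral ℤ x) (h0 : x ≠ 0) (hroot : ∀ m > 0, x ^ m ≠ 1)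
    {h : ℚ[X]} (hh : ∀ z : ℂ, aeval z (minpoly ℤ x) = 0 → conj z = aeval z h) :
    (27 / 4 : ℝ) ^ (minpoly ℤ x).natDegree ≤ MM x ^ 8 := by
  classical
  set f := minpoly ℤ x with hfdef
  have hm : f.Monic := minpoly.monic hx
  have hxQ : IsIntegral ℚ x := hx.tower_top
  set L := adjoin ℚ {x} with hL
  have hfin : FiniteDimensional ℚ L := adjoin.finiteDimensional hxQ
  have : NumberField L := { to_charZero := inferInstance, to_finiteDimensional := hfin }
  set α : L := AdjoinSimple.gen ℚ x with hα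
  have hαz : algebraMap L ℂ α = x := AdjoinSimple.algebraMap_gen ℚ x
  have hαi : IsIntegral ℤ α := by
    rw [← hαz] at hx
    exact (isIntegral_algebraMap_iff (algebraMap L ℂ).injective).mp hx
  have hαc : CInj α := by
    intro σ τ h
    apply adjoin_algHom_ext ℚ (s := {x})
    intro y hy
    rw [Set.mem_singleton_iff] at hy
    subst hy
    exact h
  have hminα : minpoly ℤ α = f := by
    rw [hfdef, ← hαz]
    exact (minpoly.algebraMap_eq (algebraMap L ℂ).injective α).symm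
  have hpmap : f.map (Int.castRingHom ℂ) = ∏ τ : L →ₐ[ℚ] ℂ, (X - C (τ α)) := by
    rw [← minpoly_map_eq hαc, minpoly.isIntegrallyClosed_eq_field_fractions' ℚ hαi, hminα,
      Polynomial.map_map]
    rfl
  have hMM : MM x = ∏ τ : L →ₐ[ℚ] ℂ, max 1 ‖τ α‖ := by
    unfold MM
    rw [← hfdef, hpmap, Finset.prod_eq_multiset_prod, prod_mahlerMeasure_eq_mahlerMeasure_prod,
      Multiset.map_map, Finset.prod_eq_multiset_prod]
    congr 1
    refine Multiset.map_congr rfl fun τ _ => ?_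
    rw [Function.comp_apply, mahlerMeasure_X_sub_C]
  have hfr : finrank ℚ L = f.natDegree := by
    rw [hL, adjoin.finrank hxQ, minpoly.isIntegrallyClosed_eq_field_fractions' ℚ hx, ← hfdef]
    exact natDegree_map_eq_of_injective (algebraMap ℤ ℚ).injective_int f
  have hαf : aeval α f = 0 := by rw [← hminα, minpoly.aeval]
  have hσf : ∀ σ : L →ₐ[ℚ] ℂ, aeval (σ α) f = 0 := by
    intro σ
    have h1 : aeval (σ α) f = σ (aeval α f) := by
      have := Polynomial.aeval_algHom_apply (σ.restrictScalars ℤ) α f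
      simpa using this
    rw [h1, hαf, map_zero]
  set β : L := aeval α h with hβ
  have hσβ : ∀ σ : L →ₐ[ℚ] ℂ, σ β = conj (σ α) := by
    intro σ
    rw [hβ, hh _ (hσf σ)]
    exact (Polynomial.aeval_algHom_apply σ α h).symm
  have hβi : IsIntegral ℤ β := by
    have h1 : algebraMap L ℂ β = conj x := by
      have h2 := hσβ (IsScalarTower.toAlgHom ℚ L ℂ)
      have h3 : (IsScalarTower.toAlgHom ℚ L ℂ) β = algebraMap L ℂ β := rfl
      have h4 : (IsScalarTower.toAlgHom ℚ L ℂ) α = algebraMap L ℂ α := rfl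
      rw [h3, h4, hαz] at h2
      exact h2
    have h2 : IsIntegral ℤ (conj x : ℂ) := by
      have : (conj x : ℂ) = (Complex.conjAe.toRingEquiv.toRingHom.toIntAlgHom) x := rfl
      rw [this]
      exact hx.map _
    rw [← h1] at h2
    exact (isIntegral_algebraMap_iff (algebraMap L ℂ).injective).mp h2
  set y : L := α * β with hy
  have hyi : IsIntegral ℤ y := hαi.mul hβi
  have hσy : ∀ σ : L →ₐ[ℚ] ℂ, σ y = ((‖σ α‖ ^ 2 : ℝ) : ℂ) := by
    intro σ
    rw [hy, map_mul, hσβ, Complex.mul_conj, Complex.normSq_eq_norm_sq]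
  obtain ⟨σ0⟩ : Nonempty (L →ₐ[ℚ] ℂ) := ⟨IsScalarTower.toAlgHom ℚ L ℂ⟩
  have hα0 : α ≠ 0 := by
    intro h1
    apply h0
    rw [← hαz, h1, map_zero]
  have hy0 : y ≠ 0 := by
    intro h1
    have h2 := hσy σ0
    rw [h1, map_zero] at h2
    have h3 : ‖σ0 α‖ ^ 2 = 0 := by exact_mod_cast h2.symm
    have h4 : σ0 α = 0 := by
      rw [← norm_eq_zero]
      exact pow_eq_zero_iff (by norm_num) |>.1 h3
    exact hα0 (σ0.toRingHom.injective (by
      show σ0 α = σ0 0
      rw [h4, map_zero]))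
  have hy1 : y - 1 ≠ 0 := by
    intro h1
    have h2 : ∀ σ : L →ₐ[ℚ] ℂ, ‖σ α‖ = 1 := by
      intro σ
      have h3 := hσy σ
      rw [sub_eq_zero.mp h1, map_one] at h3
      have h4 : ‖σ α‖ ^ 2 = 1 := by exact_mod_cast h3.symm
      nlinarith [norm_nonneg (σ α)]
    have h3 := MM_gt x hx h0 hroot
    rw [hMM] at h3
    have h4 : ∏ τ : L →ₐ[ℚ] ℂ, max 1 ‖τ α‖ = 1 := by
      apply Finset.prod_eq_one
      intro τ _
      rw [h2 τ, max_self]
    linarith
  have hn1 := pow_le_prod_norm hyi hy0 1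
  have hn2 := pow_le_prod_norm (hyi.sub isIntegral_one) hy1 1
  simp only [Nat.cast_one, one_mul, one_pow] at hn1 hn2
  have h1 : (1 : ℝ) ≤ (∏ σ : L →ₐ[ℚ] ℂ, ‖σ y‖) * (∏ σ : L →ₐ[ℚ] ℂ, ‖σ (y - 1)‖) ^ 2 :=
    one_le_mul_of_one_le_of_one_le hn1 (one_le_pow₀ hn2)
  have h2 : (∏ σ : L →ₐ[ℚ] ℂ, ‖σ y‖) * (∏ σ : L →ₐ[ℚ] ℂ, ‖σ (y - 1)‖) ^ 2 ≤
      ∏ σ : L →ₐ[ℚ] ℂ, (4 / 27 * (max 1 ‖σ α‖) ^ 8) := by
    rw [← Finset.prod_pow, ← Finset.prod_mul_distrib]
    apply Finset.prod_le_prod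
    · intro σ _; positivity
    · intro σ _
      have h3 : ‖σ y‖ = ‖σ α‖ ^ 2 := by
        rw [hσy, Complex.norm_real, Real.norm_of_nonneg (by positivity)]
      have h4 : ‖σ (y - 1)‖ ^ 2 = (‖σ α‖ ^ 2 - 1) ^ 2 := by
        have : σ (y - 1) = ((‖σ α‖ ^ 2 - 1 : ℝ) : ℂ) := by
          rw [map_sub, hσy, map_one]; push_cast; ring
        rw [this, Complex.norm_real, Real.norm_eq_abs, sq_abs]
      rw [h3, h4]
      have h5 := real_ineq (‖σ α‖ ^ 2) (sq_nonneg _)
      have h6 : max 1 (‖σ α‖ ^ 2) = (max 1 ‖σ α‖) ^ 2 := by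
        rcases le_total 1 ‖σ α‖ with h | h
        · rw [max_eq_right h, max_eq_right]
          nlinarith
        · rw [max_eq_left h, one_pow, max_eq_left]
          nlinarith [norm_nonneg (σ α)]
      rw [h6] at h5
      calc ‖σ α‖ ^ 2 * (‖σ α‖ ^ 2 - 1) ^ 2 ≤ 4 / 27 * ((max 1 ‖σ α‖) ^ 2) ^ 4 := h5
        _ = 4 / 27 * (max 1 ‖σ α‖) ^ 8 := by ring
  have hcard : Fintype.card (L →ₐ[ℚ] ℂ) = f.natDegree := by rw [AlgHom.card, hfr]
  have h3 : ∏ σ : L →ₐ[ℚ] ℂ, (4 / 27 * (max 1 ‖σ α‖) ^ 8) =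
      (4 / 27 : ℝ) ^ f.natDegree * MM x ^ 8 := by
    rw [Finset.prod_mul_distrib, Finset.prod_const, Finset.card_univ, hcard, hMM,
      Finset.prod_pow]
  rw [h3] at h2
  have h4 := h1.trans h2
  have h5 : (27 / 4 : ℝ) ^ f.natDegree * ((4 / 27 : ℝ) ^ f.natDegree) = 1 := by
    rw [← mul_pow]; norm_num
  calc (27 / 4 : ℝ) ^ f.natDegree
      = (27 / 4 : ℝ) ^ f.natDegree * 1 := by ring
    _ ≤ (27 / 4 : ℝ) ^ f.natDegree * ((4 / 27 : ℝ) ^ f.natDegree * MM x ^ 8) :=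
        mul_le_mul_of_nonneg_left h4 (by positivity)
    _ = MM x ^ 8 := by rw [← mul_assoc, h5, one_mul]

/-- **eigenvalues in CM fields or totally real fields** -/
theorem gap_cm {k d : ℕ} (hk : 1 ≤ k) {G : Type u} [Group G] (S : Set G)
    (hfin : S.Finite) (hgen : Subgroup.closure S = ⊤) (H : Subgroup G) (hH0 : H.index ≠ 0)
    (hHd : H.index ≤ d)
    (hnil : Group.IsNilpotent (gam H k) ∨ ¬ Group.IsVirtuallyNilpotent (H ⧸ ⁅gam H k, gam H k⁆))
    (hcm : ∀ t : H, ∃ h : ℚ[X], ∀ z : ℂ, Module.End.HasEigenvalue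
      (LinearMap.baseChange ℂ (act (gam H k) t) :
        Module.End ℂ (ℂ ⊗[ℤ] (Additive (Abelianization (gam H k))))) z → conj z = aeval z h) :
    Group.IsVirtuallyNilpotent G ∨ 1 / (2 ^ (k + 3) * (2 * d - 1)) ≤ H746UG.rho S := by
  have e : (1 : ℝ) / (2 ^ (k + 3) * (2 * d - 1)) = (1 / 4) / (2 ^ (k + 1) * (2 * d - 1)) := by
    rw [div_div]
    congr 1
    ring
  rw [e]
  refine gap_general hk S hfin hgen H hH0 hHd hnil ?_ ?_
  · have := Real.log_two_gt_d9
    linarith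
  · intro hMf t b x hx0 hx hp
    have hxi : IsIntegral ℤ x := integral_of_root _ b hp
    by_cases hi : IsIntegral ℤ x⁻¹
    · obtain ⟨h, hh⟩ := hcm t
      have hre : ∀ z : ℂ, aeval z (minpoly ℤ x) = 0 → conj z = aeval z h := fun z hz =>
        hh z (eig_of_root (act (gam H k) t) b hp hz)
      have h1 := cm_bound hxi hx0 hx hre
      have h2 := two_le_deg hxi hx0 hi hx
      have h3 : (27 / 4 : ℝ) ^ 2 ≤ MM x ^ 8 :=
        (pow_le_pow_right₀ (by norm_num) h2).trans h1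
      have hM : 0 < MM x := zero_lt_one.trans_le (MM_ge x hxi)
      exact (base_quarter hM h3).trans (eta_ge x hx0 hxi)
    · rw [H746UG.eta_eq_log_two x hx0 (fun h => hi h.2)]
      have := Real.log_two_gt_d9
      linarith

end Pool.Agent.TH53.UG
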