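import Mathlib

set_option autoImplicit false

/-!
# Strong partial clones on a five element set: a countably infinite interval

Domain `Fin 5`: `0,1,2` are the left elements, `3,4` the right elements, `0,1` are the marked
elements, and `E` is the bipartite relation with all pairs except `(1,4)`.
-/

namespace Pool.Agent.TH53.PC

abbrev A := Fin 5

/-- marked elements -/
def M (a : A) : Prop := a = 0 ∨ a = 1
/-- left elements -/
def L (a : A) : Prop := a = 0 ∨ a = 1 ∨ a = 2
/-- right elements -/
def U (a : A) : Prop := a = 3 ∨ a = 4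
/-- the bipartite relation: all pairs of a left and a right element except `(1,4)` -/
def E (a b : A) : Prop := L a ∧ U b ∧ ¬ (a = 1 ∧ b = 4)

instance : DecidablePred M := fun a => by unfold M; infer_instance
instance : DecidablePred L := fun a => by unfold L; infer_instance
instance : DecidablePred U := fun a => by unfold U; infer_instance
instance (a b : A) : Decidable (E a b) := by unfold E; infer_instance

theorem M_L {a : A} (h : M a) : L a := by revert h; revert a; decide
theorem L_not_U {a : A} (h : L a) : ¬ U a := by revert h; revert a; decide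
theorem E_L {a b : A} (h : E a b) : L a := h.1
theorem E_U {a b : A} (h : E a b) : U b := h.2.1
theorem E_zero {b : A} (h : U b) : E 0 b := by revert h; revert b; decide
theorem E_three {a : A} (h : L a) : E a 3 := by revert h; revert a; decide

/-- A partial operation `f` of arity `n+1` preserves `R`. -/
def Pres {ι : Type} (n : ℕ) (f : (Fin (n+1) → A) → Option A) (R : Set (ι → A)) : Prop :=
  ∀ r : Fin (n+1) → ι → A, (∀ i, r i ∈ R) → ∀ s : ι → A,
    (∀ v, f (fun i => r i v) = some (s v)) → s ∈ R

abbrev Fam := (n : ℕ) → Set ((Fin (n+1) → A) → Option A)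

/-- every member preserves `R` -/
def Inv {ι : Type} (F : Fam) (R : Set (ι → A)) : Prop :=
  ∀ n f, f ∈ F n → Pres n f R

/-- strong partial clone -/
structure SPC (F : Fam) : Prop where
  proj : ∀ (n : ℕ) (i : Fin (n+1)), (fun x : Fin (n+1) → A => some (x i)) ∈ F n
  comp : ∀ (n m : ℕ) (f : (Fin (n+1) → A) → Option A)
            (g : Fin (n+1) → (Fin (m+1) → A) → Option A)
            (h : (Fin (m+1) → A) → Option A),
            f ∈ F n → (∀ i, g i ∈ F m) →
            (∀ x b, h x = some b ↔
              ∃ y : Fin (n+1) → A, (∀ i, g i x = some (y i)) ∧ f y = some b) →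
            h ∈ F m
  restr : ∀ (n : ℕ) (f h : (Fin (n+1) → A) → Option A),
            f ∈ F n → (∀ x b, h x = some b → f x = some b) → h ∈ F n

/-- The operations preserving a relation form a strong partial clone. -/
theorem spc_pres {ι : Type} (R : Set (ι → A)) : SPC (fun n => {f | Pres n f R}) where
  proj n i := by
    intro r hr s hs
    have : s = r i := by
      funext v
      have := hs v
      simpa using this.symm
    rw [this]; exact hr i
  comp n m f g h hf hg hh := by
    intro r hr s hs
    have key : ∀ v, ∃ y : Fin (n+1) → A,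
        (∀ i, g i (fun j => r j v) = some (y i)) ∧ f y = some (s v) := fun v =>
      (hh _ _).1 (hs v)
    choose y hy1 hy2 using key
    refine hf (fun i v => y v i) (fun i => ?_) s (fun v => hy2 v)
    exact hg i r hr (fun v => y v i) (fun v => hy1 v i)
  restr n f h hf hh := by
    intro r hr s hs
    exact hf r hr s (fun v => hh _ _ (hs v))

/-- Galois connection: a strong partial clone is determined by its invariant relations over
finite index types. -/
theorem sub_of_inv {F F' : Fam} (hF' : SPC F')
    (h : ∀ (ι : Type) (_ : Finite ι) (R : Set (ι → A)), Inv F' R → Inv F R) :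
    ∀ n, F n ⊆ F' n := by
  intro n f hf
  classical
  let ι := {x : Fin (n+1) → A // ∃ b, f x = some b}
  let G : Set (ι → A) := {s | ∃ g ∈ F' n, ∀ v : ι, g v.1 = some (s v)}
  have hG : Inv F' G := by
    intro m p hp r hr s hs
    choose g hg1 hg2 using hr
    let hcomp : (Fin (n+1) → A) → Option A := fun x =>
      if hx : ∃ y : Fin (m+1) → A, (∀ i, g i x = some (y i)) then p hx.choose else none
    refine ⟨hcomp, ?_, ?_⟩
    · refine hF'.comp m n p g hcomp hp hg1 ?_
      intro x b
      constructor
      · intro hx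
        by_cases hex : ∃ y : Fin (m+1) → A, (∀ i, g i x = some (y i))
        · refine ⟨hex.choose, hex.choose_spec, ?_⟩
          simpa [hcomp, hex] using hx
        · simp [hcomp, hex] at hx
      · rintro ⟨y, hy1, hy2⟩
        have hex : ∃ y : Fin (m+1) → A, (∀ i, g i x = some (y i)) := ⟨y, hy1⟩
        have : hex.choose = y := by
          funext i
          have h1 := hex.choose_spec i
          have h2 := hy1 i
          rw [h1] at h2
          exact Option.some.inj h2
        simp only [hcomp, dif_pos hex, this, hy2]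
    · intro v
      have hex : ∃ y : Fin (m+1) → A, (∀ i, g i v.1 = some (y i)) :=
        ⟨fun i => r i v, fun i => hg2 i v⟩
      have : hex.choose = fun i => r i v := by
        funext i
        have h1 := hex.choose_spec i
        have h2 := hg2 i v
        rw [h1] at h2
        exact Option.some.inj h2
      simp only [hcomp, dif_pos hex, this]
      exact hs v
  have hG' : Inv F G := h ι inferInstance G hG
  let s : ι → A := fun v => v.2.choose
  have hs : ∀ v : ι, f v.1 = some (s v) := fun v => v.2.choose_spec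
  have hsG : s ∈ G := by
    refine hG' n f hf (fun i v => v.1 i) (fun i => ?_) s (fun v => hs v)
    exact ⟨fun x => some (x i), hF'.proj n i, fun v => rfl⟩
  obtain ⟨g, hg, hgs⟩ := hsG
  refine hF'.restr n g f hg ?_
  intro x b hx
  have := hgs ⟨x, b, hx⟩
  have h2 := hs ⟨x, b, hx⟩
  simp only at this h2
  rw [this, ← h2, hx]

theorem eq_of_inv {F F' : Fam} (hF : SPC F) (hF' : SPC F')
    (h : ∀ (ι : Type) (_ : Finite ι) (R : Set (ι → A)), Inv F' R ↔ Inv F R) : F = F' := by
  funext n
  apply Set.Subset.antisymm
  · exact sub_of_inv hF' (fun ι hι R => (h ι hι R).1) n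
  · exact sub_of_inv hF (fun ι hι R => (h ι hι R).2) n

/-- Pulling back invariance along a set of maps. -/
theorem Inv.pull {ι κ : Type} {F : Fam} {S : Set (κ → A)} (hS : Inv F S) (R : Set (ι → A))
    (Q : ι → ι → Prop) (H : Set (κ → ι))
    (hR : ∀ s : ι → A, s ∈ R ↔ (∀ i j, Q i j → s i = s j) ∧ ∀ h ∈ H, (s ∘ h) ∈ S) :
    Inv F R := by
  intro n f hf r hr s hs
  rw [hR]
  constructor
  · intro i j hij
    have : (fun k => r k i) = fun k => r k j := by
      funext k
      exact ((hR _).1 (hr k)).1 i j hij
    have h1 := hs i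
    rw [this, hs j] at h1
    exact (Option.some.inj h1).symm
  · intro h hh
    refine hS n f hf (fun k => r k ∘ h) (fun k => ((hR _).1 (hr k)).2 h hh) (s ∘ h) ?_
    intro v
    exact hs (h v)

/-- The total operations preserving `M` and `E`. -/
def C (n : ℕ) : Set ((Fin (n+1) → A) → A) :=
  {f | (∀ a : Fin (n+1) → A, (∀ i, M (a i)) → M (f a)) ∧
       (∀ a b : Fin (n+1) → A, (∀ i, E (a i) (b i)) → E (f a) (f b))}

/-! ### invariant relations are defined by atoms -/

section rel
variable {ι : Type} (R : Set (ι → A))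

def EqR (i j : ι) : Prop := ∀ r ∈ R, r i = r j
def MR (i : ι) : Prop := ∀ r ∈ R, M (r i)
def LR (i : ι) : Prop := ∀ r ∈ R, L (r i)
def UR (i : ι) : Prop := ∀ r ∈ R, U (r i)
def ER (i j : ι) : Prop := ∀ r ∈ R, E (r i) (r j)

end rel

/-- Every nonempty relation invariant under `C` is the conjunction of its atoms. -/
theorem atoms {ι : Type} [Finite ι] {F : Fam}
    (hFC : ∀ n f, f ∈ C n → (fun x => some (f x)) ∈ F n)
    {R : Set (ι → A)} (hR : Inv F R) (hne : R.Nonempty) (s : ι → A)
    (h1 : ∀ i j, EqR R i j → s i = s j) (h2 : ∀ i, MR R i → M (s i))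
    (h3 : ∀ i, LR R i → L (s i)) (h4 : ∀ i, UR R i → U (s i))
    (h5 : ∀ i j, ER R i j → E (s i) (s j)) : s ∈ R := by
  classical
  have hfin : Finite R := inferInstance
  obtain ⟨m, ⟨e⟩⟩ := Finite.exists_equiv_fin R
  obtain ⟨r0, hr0⟩ := hne
  have hm : m ≠ 0 := by
    rintro rfl
    exact (e ⟨r0, hr0⟩).elim0
  obtain ⟨n, rfl⟩ := Nat.exists_eq_succ_of_ne_zero hm
  let row : ι → Fin (n+1) → A := fun i k => (e.symm k).1 i
  have row_eq : ∀ i j, row i = row j → EqR R i j := by
    intro i j hij r hr
    have := congrFun hij (e ⟨r, hr⟩)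
    simpa [row] using this
  have rowM : ∀ i, (∀ k, M (row i k)) → MR R i := by
    intro i hi r hr
    have := hi (e ⟨r, hr⟩)
    simpa [row] using this
  have rowL : ∀ i, (∀ k, L (row i k)) → LR R i := by
    intro i hi r hr
    have := hi (e ⟨r, hr⟩)
    simpa [row] using this
  have rowU : ∀ i, (∀ k, U (row i k)) → UR R i := by
    intro i hi r hr
    have := hi (e ⟨r, hr⟩)
    simpa [row] using this
  have rowE : ∀ i j, (∀ k, E (row i k) (row j k)) → ER R i j := by
    intro i j hi r hr
    have := hi (e ⟨r, hr⟩)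
    simpa [row] using this
  let f : (Fin (n+1) → A) → A := fun t =>
    if h : ∃ i, row i = t then s h.choose
    else if ∀ k, U (t k) then 3 else 0
  have frow : ∀ i, f (row i) = s i := by
    intro i
    have hex : ∃ j, row j = row i := ⟨i, rfl⟩
    have : f (row i) = s hex.choose := by simp only [f]; rw [dif_pos hex]
    rw [this]
    exact h1 _ _ (row_eq _ _ hex.choose_spec)
  have fC : f ∈ C n := by
    constructor
    · intro a ha
      by_cases hex : ∃ i, row i = a
      · obtain ⟨i, rfl⟩ := hex
        rw [frow]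
        exact h2 i (rowM i ha)
      · have hnu : ¬ ∀ k, U (a k) := fun hu => L_not_U (M_L (ha 0)) (hu 0)
        simp only [f]
        rw [dif_neg hex, if_neg hnu]
        left; rfl
    · intro a b hab
      have hb : U (f b) ∧ ((¬ ∃ i, row i = b) → f b = 3) := by
        by_cases hex : ∃ i, row i = b
        · obtain ⟨i, rfl⟩ := hex
          rw [frow]
          exact ⟨h4 i (rowU i (fun k => E_U (hab k))), fun h => absurd ⟨i, rfl⟩ h⟩
        · have hu : ∀ k, U (b k) := fun k => E_U (hab k)
          have : f b = 3 := by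
            simp only [f]; rw [dif_neg hex, if_pos hu]
          rw [this]
          exact ⟨Or.inl rfl, fun _ => rfl⟩
      by_cases hexa : ∃ i, row i = a
      · obtain ⟨i, rfl⟩ := hexa
        rw [frow]
        by_cases hexb : ∃ j, row j = b
        · obtain ⟨j, rfl⟩ := hexb
          rw [frow]
          exact h5 i j (rowE i j hab)
        · rw [hb.2 hexb]
          exact E_three (h3 i (rowL i (fun k => E_L (hab k))))
      · have hnu : ¬ ∀ k, U (a k) := fun hu => L_not_U (E_L (hab 0)) (hu 0)
        have : f a = 0 := by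
          simp only [f]; rw [dif_neg hexa, if_neg hnu]
        rw [this]
        exact E_zero hb.1
  have := hR n _ (hFC n f fC) (fun k => (e.symm k).1) (fun k => (e.symm k).2) s
    (fun v => by
      change some (f (row v)) = some (s v)
      rw [frow])
  exact this


/-- `R` is the conjunction of its atoms -/
def Atomic {ι : Type} (R : Set (ι → A)) : Prop :=
  ∀ s : ι → A, (∀ i j, EqR R i j → s i = s j) → (∀ i, MR R i → M (s i)) →
    (∀ i, LR R i → L (s i)) → (∀ i, UR R i → U (s i)) →
    (∀ i j, ER R i j → E (s i) (s j)) → s ∈ R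

/-! ### canonical relations -/

inductive V : Type
  | p (n : ℕ) : V
  | e1 : V
  | e2 : V
  | m : V
  | l : V
  | u : V

/-- the edge number `i` of the canonical path -/
def Step (t : V → A) (i : ℕ) : Prop :=
  (Even i → E (t (V.p i)) (t (V.p (i+1)))) ∧ (¬ Even i → E (t (V.p (i+1))) (t (V.p i)))

/-- canonical relations: a path with `D+1` edges starting in a marked vertex (if `dl`), an edge
(if `ep`), a marked point (if `mu`), a left point (if `lam`), a right point (if `up`) -/
def K (dl ep mu lam up : Prop) (D : ℕ) : Set (V → A) :=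
  {t | (dl → M (t (V.p 0)) ∧ ∀ i ≤ D, Step t i) ∧ (ep → E (t V.e1) (t V.e2)) ∧
    (mu → M (t V.m)) ∧ (lam → L (t V.l)) ∧ (up → U (t V.u))}

theorem inv_K_pred {F : Fam} {dl ep mu lam up : Prop} {D : ℕ}
    (h : Inv F (K dl ep mu lam up (D+1))) : Inv F (K dl ep mu lam up D) := by
  let g : V → V := fun v => match v with
    | V.p n => if n ≤ D + 1 then V.p n else V.p D
    | V.e1 => V.e1
    | V.e2 => V.e2
    | V.m => V.m
    | V.l => V.l
    | V.u => V.u
  refine h.pull _ (fun _ _ => False) {g} ?_
  intro t
  have gp : ∀ n, n ≤ D + 1 → g (V.p n) = V.p n := fun n hn => by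
    simp only [g]; rw [if_pos hn]
  have gp2 : g (V.p (D+2)) = V.p D := by
    simp only [g]; rw [if_neg (by omega)]
  constructor
  · rintro ⟨h1, h2, h3, h4, h5⟩
    refine ⟨fun _ _ h => h.elim, ?_⟩
    rintro _ rfl
    refine ⟨?_, h2, h3, h4, h5⟩
    intro hd
    obtain ⟨h6, h7⟩ := h1 hd
    refine ⟨?_, ?_⟩
    · show M (t (g (V.p 0)))
      rw [gp 0 (by omega)]; exact h6
    · intro i hi
      rcases Nat.lt_or_ge D i with hlt | hge
      · have hi' : i = D + 1 := by omega
        subst hi'
        have hD := h7 D le_rfl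
        constructor
        · intro he
          show E (t (g (V.p (D+1)))) (t (g (V.p (D+1+1))))
          rw [gp _ le_rfl, gp2]
          exact hD.2 (by intro h; exact (Nat.even_add_one.1 he) h)
        · intro he
          show E (t (g (V.p (D+1+1)))) (t (g (V.p (D+1))))
          rw [gp _ le_rfl, gp2]
          exact hD.1 (by
            by_contra hne
            exact he (Nat.even_add_one.2 hne))
      · have hi2 := h7 i hge
        constructor
        · intro he
          show E (t (g (V.p i))) (t (g (V.p (i+1))))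
          rw [gp i (by omega), gp (i+1) (by omega)]
          exact hi2.1 he
        · intro he
          show E (t (g (V.p (i+1)))) (t (g (V.p i)))
          rw [gp i (by omega), gp (i+1) (by omega)]
          exact hi2.2 he
  · rintro ⟨-, h⟩
    obtain ⟨h1, h2, h3, h4, h5⟩ := h g rfl
    refine ⟨?_, h2, h3, h4, h5⟩
    intro hd
    obtain ⟨h6, h7⟩ := h1 hd
    have h6' : M (t (g (V.p 0))) := h6
    rw [gp 0 (by omega)] at h6'
    refine ⟨h6', ?_⟩
    intro i hi
    obtain ⟨h8, h9⟩ := h7 i (by omega)
    constructor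
    · intro he
      have : E (t (g (V.p i))) (t (g (V.p (i+1)))) := h8 he
      rwa [gp i (by omega), gp (i+1) (by omega)] at this
    · intro he
      have : E (t (g (V.p (i+1)))) (t (g (V.p i))) := h9 he
      rwa [gp i (by omega), gp (i+1) (by omega)] at this

/-! ### shape of a relation -/

section shape
variable {ι : Type} (R : Set (ι → A))

def Adj (i j : ι) : Prop := ER R i j ∨ ER R j i

def Reach : ℕ → ι → Prop
  | 0, i => MR R i
  | n+1, i => ∃ j, Adj R j i ∧ Reach n j

def Near (i : ι) : Prop := ∃ n, Reach R n i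

noncomputable def dist (i : ι) : ℕ := sInf {n | Reach R n i}

variable {R}

theorem Adj.symm {i j : ι} (h : Adj R i j) : Adj R j i := Or.symm h

theorem reach_dist {i : ι} (h : Near R i) : Reach R (dist R i) i := Nat.sInf_mem h

theorem dist_le {i : ι} {n : ℕ} (h : Reach R n i) : dist R i ≤ n := Nat.sInf_le h

theorem near_adj {i j : ι} (hij : Adj R i j) (h : Near R i) :
    Near R j ∧ dist R j ≤ dist R i + 1 := by
  have : Reach R (dist R i + 1) j := ⟨i, hij, reach_dist h⟩
  exact ⟨⟨_, this⟩, dist_le this⟩

theorem ER_LR {i j : ι} (h : ER R i j) : LR R i := fun r hr => E_L (h r hr)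
theorem ER_UR {i j : ι} (h : ER R i j) : UR R j := fun r hr => E_U (h r hr)
theorem not_LR_UR (hne : R.Nonempty) {i : ι} (h1 : LR R i) (h2 : UR R i) : False := by
  obtain ⟨r, hr⟩ := hne
  exact L_not_U (h1 r hr) (h2 r hr)

theorem reach_side (hne : R.Nonempty) : ∀ (n : ℕ) (i : ι), Reach R n i →
    (Even n → LR R i) ∧ (¬ Even n → UR R i) := by
  intro n
  induction n with
  | zero =>
    intro i hi
    exact ⟨fun _ r hr => M_L (hi r hr), fun h => absurd Even.zero h⟩
  | succ n ih =>
    rintro i ⟨j, hji, hj⟩
    have := ih j hj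
    constructor
    · intro he
      have hn : ¬ Even n := Nat.even_add_one.1 he
      rcases hji with h | h
      · exact (not_LR_UR hne (ER_LR h) (this.2 hn)).elim
      · exact ER_LR h
    · intro he
      have hn : Even n := by
        by_contra h; exact he (Nat.even_add_one.2 h)
      rcases hji with h | h
      · exact ER_UR h
      · exact (not_LR_UR hne (this.1 hn) (ER_UR h)).elim

theorem LR_even (hne : R.Nonempty) {i : ι} {n : ℕ} (h : Reach R n i) (hl : LR R i) : Even n := by
  by_contra he
  exact not_LR_UR hne hl ((reach_side hne n i h).2 he)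

theorem UR_odd (hne : R.Nonempty) {i : ι} {n : ℕ} (h : Reach R n i) (hu : UR R i) :
    ¬ Even n := by
  intro he
  exact not_LR_UR hne ((reach_side hne n i h).1 he) hu

theorem edge_dist (hne : R.Nonempty) {i j : ι} (hij : ER R i j) (h : Near R i) :
    Near R j ∧ Even (dist R i) ∧ ¬ Even (dist R j) ∧
      (dist R j = dist R i + 1 ∨ dist R i = dist R j + 1) := by
  have h1 := near_adj (Or.inl hij : Adj R i j) h
  have h2 := near_adj (Or.inr hij : Adj R j i) h1.1
  have h3 := LR_even hne (reach_dist h) (ER_LR hij)
  have h4 := UR_odd hne (reach_dist h1.1) (ER_UR hij)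
  refine ⟨h1.1, h3, h4, ?_⟩
  have h5 : dist R i ≠ dist R j := by
    intro h5; rw [h5] at h3; exact h4 h3
  have := h1.2
  have := h2.2
  omega

theorem walk_ex : ∀ (n : ℕ) (i j : ι), Reach R n i → Adj R i j →
    ∃ q : ℕ → ι, MR R (q 0) ∧ (∀ k, Adj R (q k) (q (k+1))) ∧ q n = i ∧ q (n+1) = j := by
  classical
  intro n
  induction n with
  | zero =>
    intro i j hi hij
    refine ⟨fun k => if Even k then i else j, ?_, ?_, ?_, ?_⟩
    · have hi' : MR R i := hi
      simpa using hi'
    · intro k
      by_cases hk : Even k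
      · have : ¬ Even (k+1) := by
          intro h; exact (Nat.even_add_one.1 h) hk
        simp only [if_pos hk, if_neg this]; exact hij
      · have : Even (k+1) := Nat.even_add_one.2 hk
        simp only [if_neg hk, if_pos this]; exact hij.symm
    · simp
    · simp
  | succ n ih =>
    rintro i j ⟨i', hi', hr⟩ hij
    obtain ⟨q, hq0, hq1, hq2, hq3⟩ := ih i' i hr hi'
    refine ⟨fun k => if k ≤ n + 1 then q k else if Even (k - (n+1)) then i else j,
      ?_, ?_, ?_, ?_⟩
    · simpa using hq0
    · intro k
      rcases Nat.lt_trichotomy k (n+1) with hk | hk | hk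
      · simp only [if_pos (show k ≤ n+1 by omega), if_pos (show k+1 ≤ n+1 by omega)]
        exact hq1 k
      · subst hk
        have h1 : ¬ (n + 1 + 1 ≤ n + 1) := by omega
        have h2 : n + 1 + 1 - (n + 1) = 1 := by omega
        simp only [if_pos (le_refl (n+1)), if_neg h1, h2, Nat.not_even_one, if_false, hq3]
        exact hij
      · have h1 : ¬ (k ≤ n + 1) := by omega
        have h2 : ¬ (k + 1 ≤ n + 1) := by omega
        have h3 : k + 1 - (n+1) = (k - (n+1)) + 1 := by omega
        simp only [if_neg h1, if_neg h2, h3]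
        by_cases hk2 : Even (k - (n+1))
        · have : ¬ Even (k - (n+1) + 1) := fun h => (Nat.even_add_one.1 h) hk2
          simp only [if_pos hk2, if_neg this]; exact hij
        · have : Even (k - (n+1) + 1) := Nat.even_add_one.2 hk2
          simp only [if_neg hk2, if_pos this]; exact hij.symm
    · simp only [if_pos (le_refl (n+1))]; exact hq3
    · have h1 : ¬ (n + 1 + 1 ≤ n + 1) := by omega
      have h2 : n + 1 + 1 - (n + 1) = 1 := by omega
      simp only [if_neg h1, h2, Nat.not_even_one, if_false]

/-- a path map which can be used for the path part of a canonical relation -/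
def Good (R : Set (ι → A)) (q : ℕ → ι) : Prop :=
  MR R (q 0) ∧ ∀ k, (Even k → ER R (q k) (q (k+1))) ∧ (¬ Even k → ER R (q (k+1)) (q k))

theorem good_of_walk (hne : R.Nonempty) {q : ℕ → ι} (h0 : MR R (q 0))
    (h1 : ∀ k, Adj R (q k) (q (k+1))) : Good R q := by
  have hreach : ∀ k, Reach R k (q k) := by
    intro k
    induction k with
    | zero => exact h0
    | succ k ih => exact ⟨q k, h1 k, ih⟩
  refine ⟨h0, fun k => ⟨fun he => ?_, fun he => ?_⟩⟩
  · rcases h1 k with h | h
    · exact h
    · exact (UR_odd hne (hreach k) (ER_UR h) he).elim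
  · rcases h1 k with h | h
    · exact (he (LR_even hne (hreach k) (ER_LR h))).elim
    · exact h

theorem good_ex (hne : R.Nonempty) {n : ℕ} {i j : ι} (h : Reach R n i) (hij : Adj R i j) :
    ∃ q : ℕ → ι, Good R q ∧ q n = i ∧ q (n+1) = j := by
  obtain ⟨q, h0, h1, h2, h3⟩ := walk_ex n i j h hij
  exact ⟨q, good_of_walk hne h0 h1, h2, h3⟩

/-! equality of coordinates -/

theorem EqR.symm {i j : ι} (h : EqR R i j) : EqR R j i := fun r hr => (h r hr).symm

theorem EqR.MR {i j : ι} (h : EqR R i j) (hi : MR R i) : MR R j :=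
  fun r hr => by rw [← h r hr]; exact hi r hr
theorem EqR.LR {i j : ι} (h : EqR R i j) (hi : LR R i) : LR R j :=
  fun r hr => by rw [← h r hr]; exact hi r hr
theorem EqR.UR {i j : ι} (h : EqR R i j) (hi : UR R i) : UR R j :=
  fun r hr => by rw [← h r hr]; exact hi r hr
theorem EqR.Adj {i j k : ι} (h : EqR R i j) (hi : Adj R i k) : Adj R j k := by
  rcases hi with hi | hi
  · left; intro r hr; rw [← h r hr]; exact hi r hr
  · right; intro r hr; rw [← h r hr]; exact hi r hr
theorem EqR.Reach {i j : ι} (h : EqR R i j) {n : ℕ} (hi : Reach R n i) : Reach R n j := by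
  cases n with
  | zero => exact h.MR hi
  | succ n =>
    obtain ⟨k, hk, hk2⟩ := hi
    exact ⟨k, (h.Adj hk.symm).symm, hk2⟩
theorem EqR.Near {i j : ι} (h : EqR R i j) (hi : Near R i) : Near R j := by
  obtain ⟨n, hn⟩ := hi
  exact ⟨n, h.Reach hn⟩
theorem EqR.dist {i j : ι} (h : EqR R i j) : dist R i = dist R j := by
  have : {n | PC.Reach R n i} = {n | PC.Reach R n j} := by
    ext n; exact ⟨fun hn => h.Reach hn, fun hn => h.symm.Reach hn⟩
  unfold PC.dist; rw [this]


/-! flags of a relation -/

variable (R)

def fdl : Prop := ∃ i j, Adj R i j ∧ Near R i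
def fep : Prop := ∃ i j, ER R i j ∧ ¬ Near R i
def fmu : Prop := ∃ i, MR R i ∧ ∀ j, ¬ Adj R i j
def flam : Prop := ∃ i, LR R i ∧ ¬ MR R i ∧ ∀ j, ¬ Adj R i j
def fup : Prop := ∃ i, UR R i ∧ ∀ j, ¬ Adj R i j

variable {R}

/-- the maximal distance, shifted by one -/
theorem exists_max [Finite ι] (hR : R.Nonempty) : ∃ D : ℕ, (∀ i, Near R i → dist R i ≤ D + 1) ∧
    (fdl R → ∃ i, Near R i ∧ dist R i = D + 1) := by
  classical
  by_cases hd : fdl R
  · obtain ⟨i, j, hij, hi⟩ := hd
    have hfin : (Set.range (fun i : {i : ι // Near R i} => dist R i.1)).Finite :=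
      Set.finite_range _
    have hne : (Set.range (fun i : {i : ι // Near R i} => dist R i.1)).Nonempty :=
      ⟨_, ⟨⟨i, hi⟩, rfl⟩⟩
    obtain ⟨N, hN1, hN2⟩ := hfin.exists_maximal hne
    obtain ⟨⟨k, hk⟩, hkN⟩ := hN1
    have hmax : ∀ i, Near R i → dist R i ≤ N := by
      intro i hi
      by_contra hlt
      push Not at hlt
      have := hN2 ⟨⟨i, hi⟩, rfl⟩ hlt.le
      simp only at this
      omega
    have hN : 1 ≤ N := by
      obtain ⟨hj, -⟩ := near_adj hij hi
      have h1 := hmax i hi
      have h2 := hmax j hj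
      by_contra hN
      have hN0 : N = 0 := by omega
      have hdi : dist R i = 0 := by omega
      have hdj : dist R j = 0 := by omega
      have h3 : MR R i := by
        have := reach_dist hi; rw [hdi] at this; exact this
      have h4 : MR R j := by
        have := reach_dist hj; rw [hdj] at this; exact this
      rcases hij with h | h
      · exact not_LR_UR hR (fun r hr => M_L (h4 r hr)) (ER_UR h)
      · exact not_LR_UR hR (fun r hr => M_L (h3 r hr)) (ER_UR h)
    refine ⟨N - 1, ?_, ?_⟩
    · intro i hi
      have := hmax i hi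
      omega
    · intro _
      exact ⟨k, hk, by simp only at hkN; omega⟩
  · refine ⟨sSup (Set.range (fun i : {i : ι // Near R i} => dist R i.1)), ?_, fun h => absurd h hd⟩
    intro i hi
    have : dist R i ≤ sSup (Set.range (fun i : {i : ι // Near R i} => dist R i.1)) :=
      le_csSup (Set.finite_range _).bddAbove ⟨⟨i, hi⟩, rfl⟩
    omega


/-- the canonical relation of `R` -/
def KR (R : Set (ι → A)) (D : ℕ) : Set (V → A) := K (fdl R) (fep R) (fmu R) (flam R) (fup R) D

theorem K_side {dl ep mu lam up : Prop} {D : ℕ} {t : V → A} (ht : t ∈ K dl ep mu lam up D)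
    (hd : dl) (n : ℕ) (hn : n ≤ D + 1) :
    (Even n → L (t (V.p n))) ∧ (¬ Even n → U (t (V.p n))) := by
  obtain ⟨h0, h1⟩ := ht.1 hd
  cases n with
  | zero => exact ⟨fun _ => M_L h0, fun h => absurd Even.zero h⟩
  | succ n =>
    have h2 := h1 n (by omega)
    constructor
    · intro he
      exact E_L (h2.2 (Nat.even_add_one.1 he))
    · intro he
      have : Even n := by
        by_contra h; exact he (Nat.even_add_one.2 h)
      exact E_U (h2.1 this)

/-- auxiliary function for the map onto the canonical shape -/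
noncomputable def h0aux (P Q S T : Prop) (n : ℕ) : V := by
  classical
  exact
    if P then (if Q then V.p n else V.m)
    else (if Q then (if S then V.e1 else V.e2) else (if S then V.l else if T then V.u else V.l))

/-- the map onto the canonical shape -/
noncomputable def h0 (R : Set (ι → A)) (i : ι) : V :=
  h0aux (Near R i) (∃ j, Adj R i j) (LR R i) (UR R i) (dist R i)

theorem h0_near {i j : ι} (h : Near R i) (hij : Adj R i j) : h0 R i = V.p (dist R i) := by
  unfold h0 h0aux
  rw [if_pos h, if_pos ⟨j, hij⟩]

theorem h0_m {i : ι} (h : Near R i) (hij : ∀ j, ¬ Adj R i j) : h0 R i = V.m := by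
  unfold h0 h0aux
  rw [if_pos h, if_neg (by rintro ⟨j, hj⟩; exact hij j hj)]

theorem h0_e1 {i j : ι} (h : ¬ Near R i) (hij : ER R i j) : h0 R i = V.e1 := by
  unfold h0 h0aux
  rw [if_neg h, if_pos ⟨j, Or.inl hij⟩, if_pos (ER_LR hij)]

theorem h0_e2 (hne : R.Nonempty) {i j : ι} (h : ¬ Near R j) (hij : ER R i j) :
    h0 R j = V.e2 := by
  unfold h0 h0aux
  rw [if_neg h, if_pos ⟨i, Or.inr hij⟩, if_neg (fun hl => not_LR_UR hne hl (ER_UR hij))]

theorem h0_l {i : ι} (h : ¬ Near R i) (hij : ∀ j, ¬ Adj R i j) (hl : LR R i) :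
    h0 R i = V.l := by
  unfold h0 h0aux
  rw [if_neg h, if_neg (by rintro ⟨j, hj⟩; exact hij j hj), if_pos hl]

theorem h0_u (hne : R.Nonempty) {i : ι} (h : ¬ Near R i) (hij : ∀ j, ¬ Adj R i j)
    (hl : UR R i) : h0 R i = V.u := by
  unfold h0 h0aux
  rw [if_neg h, if_neg (by rintro ⟨j, hj⟩; exact hij j hj),
    if_neg (fun hl2 => not_LR_UR hne hl2 hl), if_pos hl]

theorem h0_eq {i j : ι} (h : EqR R i j) : h0 R i = h0 R j := by
  have e1 : (∃ k, Adj R i k) = (∃ k, Adj R j k) :=
    propext ⟨fun ⟨k, hk⟩ => ⟨k, h.Adj hk⟩, fun ⟨k, hk⟩ => ⟨k, h.symm.Adj hk⟩⟩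
  have e2 : Near R i = Near R j := propext ⟨h.Near, h.symm.Near⟩
  have e3 : LR R i = LR R j := propext ⟨h.LR, h.symm.LR⟩
  have e4 : UR R i = UR R j := propext ⟨h.UR, h.symm.UR⟩
  have e5 := h.dist
  unfold h0
  rw [e1, e2, e3, e4, e5]

theorem not_near_adj {i j : ι} (h : ¬ Near R i) (hij : Adj R i j) : ¬ Near R j :=
  fun hj => h (near_adj hij.symm hj).1

theorem K_comp_h0 (hne : R.Nonempty) (hat : Atomic R) {D : ℕ}
    (hD : ∀ i, Near R i → dist R i ≤ D + 1) (hD2 : fdl R → ∃ i, Near R i ∧ dist R i = D + 1)
    (t : V → A) : t ∈ KR R D ↔ (t ∘ h0 R) ∈ R := by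
  constructor
  · intro ht
    have hM : ∀ i, MR R i → M (t (h0 R i)) := by
      intro i hi
      have hnear : Near R i := ⟨0, hi⟩
      have hdist : dist R i = 0 := Nat.le_zero.1 (dist_le (show Reach R 0 i from hi))
      by_cases hadj : ∃ j, Adj R i j
      · obtain ⟨j, hj⟩ := hadj
        rw [h0_near hnear hj, hdist]
        exact (ht.1 ⟨i, j, hj, hnear⟩).1
      · push Not at hadj
        rw [h0_m hnear hadj]
        exact ht.2.2.1 ⟨i, hi, hadj⟩
    have hE : ∀ i j, ER R i j → E (t (h0 R i)) (t (h0 R j)) := by
      intro i j hij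
      by_cases hnear : Near R i
      · obtain ⟨hj, he, ho, hd⟩ := edge_dist hne hij hnear
        have hdl : fdl R := ⟨i, j, Or.inl hij, hnear⟩
        rw [h0_near hnear (Or.inl hij), h0_near hj (Or.inr hij)]
        have h1 := hD i hnear
        have h2 := hD j hj
        rcases hd with hd | hd
        · rw [hd]
          exact ((ht.1 hdl).2 (dist R i) (by omega)).1 he
        · rw [hd]
          exact ((ht.1 hdl).2 (dist R j) (by omega)).2 ho
      · rw [h0_e1 hnear hij, h0_e2 hne (not_near_adj hnear (Or.inl hij)) hij]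
        exact ht.2.1 ⟨i, j, hij, hnear⟩
    have hadjLU : ∀ i j, Adj R i j → (LR R i → L (t (h0 R i))) ∧ (UR R i → U (t (h0 R i))) := by
      intro i j hij
      rcases hij with h | h
      · exact ⟨fun _ => E_L (hE i j h), fun hu => (not_LR_UR hne (ER_LR h) hu).elim⟩
      · exact ⟨fun hl => (not_LR_UR hne hl (ER_UR h)).elim, fun _ => E_U (hE j i h)⟩
    refine hat _ ?_ hM ?_ ?_ hE
    · intro i j hij
      show t (h0 R i) = t (h0 R j)
      rw [h0_eq hij]
    · intro i hi
      by_cases hadj : ∃ j, Adj R i j
      · obtain ⟨j, hj⟩ := hadj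
        exact (hadjLU i j hj).1 hi
      · push Not at hadj
        by_cases hm : MR R i
        · exact M_L (hM i hm)
        · have hnn : ¬ Near R i := by
            rintro ⟨n, hn⟩
            cases n with
            | zero => exact hm hn
            | succ n =>
              obtain ⟨j, hj, -⟩ := hn
              exact hadj j hj.symm
          show L (t (h0 R i))
          rw [h0_l hnn hadj hi]
          exact ht.2.2.2.1 ⟨i, hi, hm, hadj⟩
    · intro i hi
      by_cases hadj : ∃ j, Adj R i j
      · obtain ⟨j, hj⟩ := hadj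
        exact (hadjLU i j hj).2 hi
      · push Not at hadj
        have hnn : ¬ Near R i := by
          rintro ⟨n, hn⟩
          cases n with
          | zero => exact not_LR_UR hne (fun r hr => M_L (hn r hr)) hi
          | succ n =>
            obtain ⟨j, hj, -⟩ := hn
            exact hadj j hj.symm
        show U (t (h0 R i))
        rw [h0_u hne hnn hadj hi]
        exact ht.2.2.2.2 ⟨i, hi, hadj⟩
  · intro ht
    refine ⟨?_, ?_, ?_, ?_, ?_⟩
    · intro hdl
      obtain ⟨iD, hiD, hiD2⟩ := hD2 hdl
      have hr : Reach R (D+1) iD := by rw [← hiD2]; exact reach_dist hiD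
      -- geodesic
      have key : ∀ k, k ≤ D + 1 → ∃ i, Near R i ∧ dist R i = D + 1 - k := by
        intro k
        induction k with
        | zero => intro _; exact ⟨iD, hiD, by omega⟩
        | succ k ih =>
          intro hk
          obtain ⟨i, hi, hi2⟩ := ih (by omega)
          obtain ⟨n, hn⟩ : ∃ n, dist R i = n + 1 := ⟨D - k, by omega⟩
          have h1 := reach_dist hi
          rw [hn] at h1
          obtain ⟨j, hj, hj2⟩ := h1
          have hjn : Near R j := ⟨n, hj2⟩
          have h2 := dist_le hj2
          have h3 := (near_adj hj hjn).2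
          exact ⟨j, hjn, by omega⟩
      have key2 : ∀ n, n ≤ D → ∃ i j, Adj R i j ∧ Near R i ∧ dist R i = n ∧ Near R j ∧
          dist R j = n + 1 := by
        intro n hn
        obtain ⟨j, hj, hj2⟩ := key (D - n) (by omega)
        have hj3 : dist R j = n + 1 := by omega
        have h1 := reach_dist hj
        rw [hj3] at h1
        obtain ⟨i, hi, hi2⟩ := h1
        have hin : Near R i := ⟨n, hi2⟩
        have h2 := dist_le hi2
        have h3 := (near_adj hi hin).2
        exact ⟨i, j, hi, hin, by omega, hj, hj3⟩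
      refine ⟨?_, ?_⟩
      · obtain ⟨i, j, hij, hi, hi2, -, -⟩ := key2 0 (by omega)
        have hm : MR R i := by
          have := reach_dist hi; rw [hi2] at this; exact this
        have := hm _ ht
        simp only [Function.comp] at this
        rw [h0_near hi hij, hi2] at this
        exact this
      · intro n hn
        obtain ⟨i, j, hij, hi, hi2, hj, hj2⟩ := key2 n hn
        have e1 := h0_near hi hij
        have e2 := h0_near hj hij.symm
        rw [hi2] at e1
        rw [hj2] at e2
        constructor
        · intro he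
          rcases hij with h | h
          · have := h _ ht
            simp only [Function.comp] at this
            rw [e1, e2] at this
            exact this
          · have h3 := (edge_dist hne h hj).2.2.1
            rw [hi2] at h3
            exact (h3 he).elim
        · intro he
          rcases hij with h | h
          · have h3 := (edge_dist hne h hi).2.1
            rw [hi2] at h3
            exact (he h3).elim
          · have := h _ ht
            simp only [Function.comp] at this
            rw [e1, e2] at this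
            exact this
    · rintro ⟨i, j, hij, hn⟩
      have := hij _ ht
      simp only [Function.comp] at this
      rw [h0_e1 hn hij, h0_e2 hne (not_near_adj hn (Or.inl hij)) hij] at this
      exact this
    · rintro ⟨i, hi, hadj⟩
      have := hi _ ht
      simp only [Function.comp] at this
      rw [h0_m ⟨0, hi⟩ hadj] at this
      exact this
    · rintro ⟨i, hi, hm, hadj⟩
      have hnn : ¬ Near R i := by
        rintro ⟨n, hn⟩
        cases n with
        | zero => exact hm hn
        | succ n =>
          obtain ⟨j, hj, -⟩ := hn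
          exact hadj j hj.symm
      have := hi _ ht
      simp only [Function.comp] at this
      rw [h0_l hnn hadj hi] at this
      exact this
    · rintro ⟨i, hi, hadj⟩
      have hnn : ¬ Near R i := by
        rintro ⟨n, hn⟩
        cases n with
        | zero => exact not_LR_UR hne (fun r hr => M_L (hn r hr)) hi
        | succ n =>
          obtain ⟨j, hj, -⟩ := hn
          exact hadj j hj.symm
      have := hi _ ht
      simp only [Function.comp] at this
      rw [h0_u hne hnn hadj hi] at this
      exact this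

theorem dir1 {F : Fam} (hne : R.Nonempty) (hat : Atomic R) {D : ℕ}
    (hD : ∀ i, Near R i → dist R i ≤ D + 1) (hD2 : fdl R → ∃ i, Near R i ∧ dist R i = D + 1)
    (hR : Inv F R) : Inv F (KR R D) := by
  refine hR.pull _ (fun _ _ => False) {h0 R} ?_
  intro t
  rw [K_comp_h0 hne hat hD hD2]
  constructor
  · intro h
    exact ⟨fun _ _ h => h.elim, by rintro _ rfl; exact h⟩
  · rintro ⟨-, h⟩
    exact h _ rfl

/-- assemble a map from the canonical shape -/
def mk (q : ℕ → ι) (a b c d e : ι) : V → ι
  | V.p n => q n
  | V.e1 => a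
  | V.e2 => b
  | V.m => c
  | V.l => d
  | V.u => e

theorem mk_mem {D : ℕ} {q : ℕ → ι} {a b c d e : ι}
    (h1 : fdl R → Good R q) (h2 : fep R → ER R a b) (h3 : fmu R → MR R c)
    (h4 : flam R → LR R d) (h5 : fup R → UR R e) :
    ∀ r ∈ R, (r ∘ mk q a b c d e) ∈ KR R D := by
  intro r hr
  refine ⟨fun hd => ⟨(h1 hd).1 r hr, fun i _ => ⟨fun he => ?_, fun he => ?_⟩⟩,
    fun h => h2 h r hr, fun h => h3 h r hr, fun h => h4 h r hr, fun h => h5 h r hr⟩
  · exact ((h1 hd).2 i).1 he r hr
  · exact ((h1 hd).2 i).2 he r hr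

theorem dir2 {F : Fam} (hne : R.Nonempty) (hat : Atomic R) {D : ℕ}
    (hD : ∀ i, Near R i → dist R i ≤ D + 1)
    (hK : Inv F (KR R D)) : Inv F R := by
  classical
  refine hK.pull _ (EqR R) {h | ∀ r ∈ R, (r ∘ h) ∈ KR R D} ?_
  intro s
  constructor
  · intro hs
    exact ⟨fun i j hij => hij s hs, fun h hh => hh s hs⟩
  · rintro ⟨hs1, hs2⟩
    -- defaults
    have d1 : ∀ x : ι, ∃ q : ℕ → ι, fdl R → Good R q := by
      intro x
      by_cases hd : fdl R
      · obtain ⟨i, j, hij, n, hn⟩ := hd
        obtain ⟨q, hq, -⟩ := good_ex hne hn hij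
        exact ⟨q, fun _ => hq⟩
      · exact ⟨fun _ => x, fun h => absurd h hd⟩
    have d2 : ∀ x : ι, ∃ a b : ι, fep R → ER R a b := by
      intro x
      by_cases hd : fep R
      · obtain ⟨i, j, hij, -⟩ := hd
        exact ⟨i, j, fun _ => hij⟩
      · exact ⟨x, x, fun h => absurd h hd⟩
    have d3 : ∀ x : ι, ∃ a : ι, fmu R → MR R a := by
      intro x
      by_cases hd : fmu R
      · obtain ⟨i, hi, -⟩ := hd
        exact ⟨i, fun _ => hi⟩
      · exact ⟨x, fun h => absurd h hd⟩
    have d4 : ∀ x : ι, ∃ a : ι, flam R → LR R a := by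
      intro x
      by_cases hd : flam R
      · obtain ⟨i, hi, -⟩ := hd
        exact ⟨i, fun _ => hi⟩
      · exact ⟨x, fun h => absurd h hd⟩
    have d5 : ∀ x : ι, ∃ a : ι, fup R → UR R a := by
      intro x
      by_cases hd : fup R
      · obtain ⟨i, hi, -⟩ := hd
        exact ⟨i, fun _ => hi⟩
      · exact ⟨x, fun h => absurd h hd⟩
    have hM : ∀ i, MR R i → M (s i) := by
      intro i hi
      obtain ⟨q, hq⟩ := d1 i
      obtain ⟨a, b, hab⟩ := d2 i
      obtain ⟨c, hc⟩ := d3 i
      obtain ⟨d, hd⟩ := d4 i
      obtain ⟨e, he⟩ := d5 i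
      by_cases hadj : ∃ j, Adj R i j
      · obtain ⟨j, hj⟩ := hadj
        obtain ⟨q', hq', hq0, -⟩ := good_ex hne (show Reach R 0 i from hi) hj
        have := hs2 (mk q' a b c d e) (mk_mem (fun _ => hq') hab hc hd he)
        have h2 := (this.1 ⟨i, j, hj, 0, hi⟩).1
        have h3 : M (s (q' 0)) := h2
        rwa [hq0] at h3
      · push Not at hadj
        have := hs2 (mk q a b i d e) (mk_mem hq hab (fun _ => hi) hd he)
        exact this.2.2.1 ⟨i, hi, hadj⟩
    have hE : ∀ i j, ER R i j → E (s i) (s j) := by
      intro i j hij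
      obtain ⟨q, hq⟩ := d1 i
      obtain ⟨a, b, hab⟩ := d2 i
      obtain ⟨c, hc⟩ := d3 i
      obtain ⟨d, hd⟩ := d4 i
      obtain ⟨e, he⟩ := d5 i
      by_cases hnear : Near R i
      · have hdl : fdl R := ⟨i, j, Or.inl hij, hnear⟩
        obtain ⟨hj, hev, hod, hdd⟩ := edge_dist hne hij hnear
        have hDi := hD i hnear
        have hDj := hD j hj
        rcases hdd with hdd | hdd
        · obtain ⟨q', hq', hq0, hq1⟩ := good_ex hne (reach_dist hnear) (Or.inl hij : Adj R i j)
          have := hs2 (mk q' a b c d e) (mk_mem (fun _ => hq') hab hc hd he)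
          have h2 : E (s (q' (dist R i))) (s (q' (dist R i + 1))) :=
            ((this.1 hdl).2 (dist R i) (by omega)).1 hev
          rwa [hq0, hq1] at h2
        · obtain ⟨q', hq', hq0, hq1⟩ := good_ex hne (reach_dist hj) (Or.inr hij : Adj R j i)
          have := hs2 (mk q' a b c d e) (mk_mem (fun _ => hq') hab hc hd he)
          have h2 : E (s (q' (dist R j + 1))) (s (q' (dist R j))) :=
            ((this.1 hdl).2 (dist R j) (by omega)).2 hod
          rwa [hq0, hq1] at h2
      · have := hs2 (mk q i j c d e) (mk_mem hq (fun _ => hij) hc hd he)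
        exact this.2.1 ⟨i, j, hij, hnear⟩
    refine hat s hs1 hM ?_ ?_ hE
    · intro i hi
      by_cases hadj : ∃ j, Adj R i j
      · obtain ⟨j, hj⟩ := hadj
        rcases hj with h | h
        · exact E_L (hE i j h)
        · exact (not_LR_UR hne hi (ER_UR h)).elim
      · push Not at hadj
        by_cases hm : MR R i
        · exact M_L (hM i hm)
        · obtain ⟨q, hq⟩ := d1 i
          obtain ⟨a, b, hab⟩ := d2 i
          obtain ⟨c, hc⟩ := d3 i
          obtain ⟨e, he⟩ := d5 i
          have := hs2 (mk q a b c i e) (mk_mem hq hab hc (fun _ => hi) he)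
          exact this.2.2.2.1 ⟨i, hi, hm, hadj⟩
    · intro i hi
      by_cases hadj : ∃ j, Adj R i j
      · obtain ⟨j, hj⟩ := hadj
        rcases hj with h | h
        · exact (not_LR_UR hne (ER_LR h) hi).elim
        · exact E_U (hE j i h)
      · push Not at hadj
        obtain ⟨q, hq⟩ := d1 i
        obtain ⟨a, b, hab⟩ := d2 i
        obtain ⟨c, hc⟩ := d3 i
        obtain ⟨d, hd⟩ := d4 i
        have := hs2 (mk q a b c d i) (mk_mem hq hab hc hd (fun _ => hi))
        exact this.2.2.2.2 ⟨i, hi, hadj⟩

end shape


/-! ### countability -/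

theorem inv_empty {ι : Type} (F : Fam) : Inv F (∅ : Set (ι → A)) := by
  intro n f _ r hr
  exact (hr 0).elim

theorem atomic_of_inv {ι : Type} [Finite ι] {F : Fam}
    (hFC : ∀ n f, f ∈ C n → (fun x => some (f x)) ∈ F n)
    {R : Set (ι → A)} (hR : Inv F R) (hne : R.Nonempty) : Atomic R :=
  fun s h1 h2 h3 h4 h5 => atoms hFC hR hne s h1 h2 h3 h4 h5

/-- the data attached to a family -/
def data (F : Fam) (b : Bool × Bool × Bool × Bool × Bool) : Set ℕ :=
  {D | Inv F (K (b.1 = true) (b.2.1 = true) (b.2.2.1 = true) (b.2.2.2.1 = true)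
    (b.2.2.2.2 = true) D)}

theorem inv_of_data {F F' : Fam}
    (hF : ∀ n f, f ∈ C n → (fun x => some (f x)) ∈ F n)
    (hd : data F = data F') (ι : Type) (hι : Finite ι) (R : Set (ι → A)) (hR : Inv F R) :
    Inv F' R := by
  classical
  rcases Set.eq_empty_or_nonempty R with rfl | hne
  · exact inv_empty F'
  · have hat := atomic_of_inv hF hR hne
    obtain ⟨D, hD, hD2⟩ := exists_max hne
    have h1 : Inv F (KR R D) := dir1 hne hat hD hD2 hR
    have h2 : Inv F' (KR R D) := by
      have h3 : D ∈ data F (decide (fdl R), decide (fep R), decide (fmu R), decide (flam R),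
          decide (fup R)) := by
        show Inv F (K _ _ _ _ _ D)
        simp only [decide_eq_true_eq]
        exact h1
      rw [hd] at h3
      have h4 : Inv F' (K _ _ _ _ _ D) := h3
      simp only [decide_eq_true_eq] at h4
      exact h4
    exact dir2 hne hat hD h2

theorem eq_of_data {F F' : Fam} (hS : SPC F) (hS' : SPC F')
    (hF : ∀ n f, f ∈ C n → (fun x => some (f x)) ∈ F n)
    (hF' : ∀ n f, f ∈ C n → (fun x => some (f x)) ∈ F' n)
    (hd : data F = data F') : F = F' :=
  eq_of_inv hS hS' (fun ι hι R =>
    ⟨inv_of_data hF' hd.symm ι hι R, inv_of_data hF hd ι hι R⟩)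

/-- code of an initial segment of `ℕ` -/
noncomputable def code (S : Set ℕ) : Option ℕ := by
  classical
  exact if h : ∃ n, n ∉ S then some (Nat.find h) else none

theorem code_inj {S T : Set ℕ} (hS : ∀ n, n + 1 ∈ S → n ∈ S) (hT : ∀ n, n + 1 ∈ T → n ∈ T)
    (h : code S = code T) : S = T := by
  classical
  have low : ∀ (S : Set ℕ), (∀ n, n + 1 ∈ S → n ∈ S) → ∀ m n, n ≤ m → m ∈ S → n ∈ S := by
    intro S hS m
    induction m with
    | zero => intro n hn hm; rwa [Nat.le_zero.1 hn]
    | succ m ih =>
      intro n hn hm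
      rcases Nat.lt_or_ge m n with hlt | hge
      · have : n = m + 1 := by omega
        rwa [this]
      · exact ih n hge (hS m hm)
  have char : ∀ (S : Set ℕ), (∀ n, n + 1 ∈ S → n ∈ S) → ∀ n, n ∈ S ↔
      (∀ k, code S = some k → n < k) := by
    intro S hS n
    by_cases hex : ∃ n, n ∉ S
    · have hc : code S = some (Nat.find hex) := by
        unfold code; rw [dif_pos hex]
      rw [hc]
      constructor
      · intro hn k hk
        obtain rfl := Option.some.inj hk
        by_contra hlt
        push Not at hlt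
        exact Nat.find_spec hex (low S hS n _ hlt hn)
      · intro hk
        by_contra hn
        have h1 := hk _ rfl
        exact absurd (Nat.find_min' hex hn) (by omega)
    · push Not at hex
      constructor
      · intro _ k hk
        have hc : code S = none := by
          unfold code; rw [dif_neg (by push Not; exact hex)]
        rw [hc] at hk
        cases hk
      · intro _
        exact hex n
  ext n
  rw [char S hS, char T hT, h]

/-- The strong partial clones containing `C` form a countable set. -/
theorem countable_above :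
    {F : Fam | SPC F ∧ ∀ n f, f ∈ C n → (fun x => some (f x)) ∈ F n}.Countable := by
  let φ : Fam → (Bool × Bool × Bool × Bool × Bool → Option ℕ) := fun F b => code (data F b)
  have hinj : Set.InjOn φ {F : Fam | SPC F ∧ ∀ n f, f ∈ C n → (fun x => some (f x)) ∈ F n} := by
    rintro F ⟨hF1, hF2⟩ F' ⟨hF'1, hF'2⟩ h
    refine eq_of_data hF1 hF'1 hF2 hF'2 ?_
    funext b
    refine code_inj ?_ ?_ (congrFun h b)
    · intro n hn; exact inv_K_pred hn
    · intro n hn; exact inv_K_pred hn
  exact (Set.countable_of_injective_of_countable_image hinj (Set.to_countable _))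

end Pool.Agent.TH53.PC
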