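import Mathlib
import Pool.Agent.TH53.PC

set_option autoImplicit false

/-!
# The infinite chain of strong partial clones
-/

namespace Pool.Agent.TH53.PC

/-- operations preserving the path of length `D+1` starting in a marked vertex -/
def FD (D : ℕ) : Fam := fun n => {f | Pres n f (K True False False False False D)}

theorem spc_FD (D : ℕ) : SPC (FD D) := spc_pres _

theorem FD_succ_sub (D n : ℕ) : FD (D+1) n ⊆ FD D n := by
  intro f hf
  have h : Inv (FD (D+1)) (K True False False False False (D+1)) := fun n f hf => hf
  exact inv_K_pred h n f hf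

theorem FD_anti {D D' : ℕ} (h : D ≤ D') (n : ℕ) : FD D' n ⊆ FD D n := by
  induction h with
  | refl => exact le_rfl
  | step h ih => exact (FD_succ_sub _ n).trans ih

theorem mem_path {D : ℕ} {t : V → A} (h0 : M (t (V.p 0))) (h1 : ∀ i ≤ D, Step t i) :
    t ∈ K True False False False False D :=
  ⟨fun _ => ⟨h0, h1⟩, fun h => h.elim, fun h => h.elim, fun h => h.elim, fun h => h.elim⟩

theorem total_part {D : ℕ} (hD : 1 ≤ D) (n : ℕ) (f : (Fin (n+1) → A) → A) :
    f ∈ C n ↔ (fun x => some (f x)) ∈ FD D n := by
  constructor
  · rintro ⟨hM, hE⟩ r hr s hs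
    have hs' : s = fun v => f (fun i => r i v) := by
      funext v; exact (Option.some.inj (hs v)).symm
    subst hs'
    refine mem_path (hM _ fun i => ((hr i).1 trivial).1) ?_
    intro i hi
    constructor
    · intro he
      exact hE _ _ fun k => (((hr k).1 trivial).2 i hi).1 he
    · intro he
      exact hE _ _ fun k => (((hr k).1 trivial).2 i hi).2 he
  · intro hf
    constructor
    · intro a ha
      let r : Fin (n+1) → V → A := fun k v => match v with
        | V.p m => if m = 0 then a k else if Even m then 0 else 3
        | _ => 0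
      have hr : ∀ k, r k ∈ K True False False False False D := by
        intro k
        refine mem_path (by simp only [r, if_pos]; exact ha k) ?_
        intro i _
        have hL : ∀ m, Even m → L (r k (V.p m)) := by
          intro m hm
          by_cases h0 : m = 0
          · simp only [r, if_pos h0]; exact M_L (ha k)
          · simp only [r, if_neg h0, if_pos hm]; left; rfl
        have hU : ∀ m, ¬ Even m → r k (V.p m) = 3 := by
          intro m hm
          have h0 : m ≠ 0 := by rintro rfl; exact hm Even.zero
          simp only [r, if_neg h0, if_neg hm]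
        constructor
        · intro he
          rw [hU (i+1) (fun h => (Nat.even_add_one.1 h) he)]
          exact E_three (hL i he)
        · intro he
          rw [hU i he]
          exact E_three (hL (i+1) (Nat.even_add_one.2 he))
      have := hf r hr (fun v => f (fun k => r k v)) (fun v => rfl)
      have h1 := (this.1 trivial).1
      simpa [r] using h1
    · intro a b hab
      let r : Fin (n+1) → V → A := fun k v => match v with
        | V.p m => if m = 1 then b k else if m = 2 then a k else if Even m then 0 else 3
        | _ => 0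
      have hr : ∀ k, r k ∈ K True False False False False D := by
        intro k
        refine mem_path (by simp [r, M]) ?_
        intro i _
        rcases Nat.lt_or_ge i 3 with h3 | h3
        · interval_cases i
          · constructor
            · intro _; simpa [r] using E_zero (E_U (hab k))
            · intro h; exact absurd Even.zero h
          · constructor
            · intro h; exact absurd h (by decide)
            · intro _; simpa [r] using hab k
          · constructor
            · intro _
              have : ¬ Even 3 := by decide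
              simpa [r, this] using E_three (E_L (hab k))
            · intro h; exact absurd (by decide) h
        · have e1 : i ≠ 1 := by omega
          have e2 : i ≠ 2 := by omega
          have e3 : i + 1 ≠ 1 := by omega
          have e4 : i + 1 ≠ 2 := by omega
          constructor
          · intro he
            have he' : ¬ Even (i+1) := fun h => (Nat.even_add_one.1 h) he
            simp only [r, if_neg e1, if_neg e2, if_neg e3, if_neg e4, if_pos he, if_neg he']
            decide
          · intro he
            have he' : Even (i+1) := Nat.even_add_one.2 he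
            simp only [r, if_neg e1, if_neg e2, if_neg e3, if_neg e4, if_neg he, if_pos he']
            decide
      have := hf r hr (fun v => f (fun k => r k v)) (fun v => rfl)
      have h1 := ((this.1 trivial).2 1 hD).2 (by decide)
      simpa [r] using h1

/-! ### the separating partial operation -/

/-- tuple number `k` -/
def w (k v : ℕ) : A :=
  match k with
  | 0 => if v = 0 then 0 else if Even v then 2 else 3
  | j+1 => if Even v then (if Even j ∨ v = j + 1 ∨ v + 1 = j then 0 else 1)
      else (if v = j then 4 else 3)

theorem w_even {k v : ℕ} (h : Even v) : L (w k v) := by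
  cases k with
  | zero =>
    by_cases h0 : v = 0
    · simp [w, h0, L]
    · simp [w, h0, h, L]
  | succ j =>
    by_cases h0 : Even j ∨ v = j + 1 ∨ v + 1 = j
    · simp only [w, if_pos h, if_pos h0]; left; rfl
    · simp only [w, if_pos h, if_neg h0]; right; left; rfl

theorem w_odd {k v : ℕ} (h : ¬ Even v) : U (w k v) := by
  have h00 : v ≠ 0 := by rintro rfl; exact h Even.zero
  cases k with
  | zero => simp [w, h00, h, U]
  | succ j =>
    by_cases h0 : v = j
    · simp only [w, if_neg h, if_pos h0]; right; rfl
    · simp only [w, if_neg h, if_neg h0]; left; rfl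

theorem E_w {k a b : ℕ} (ha : Even a) (hb : ¬ Even b) (hab : b = a + 1 ∨ a = b + 1) :
    E (w k a) (w k b) := by
  refine ⟨w_even ha, w_odd hb, ?_⟩
  rintro ⟨h1, h2⟩
  cases k with
  | zero =>
    have h00 : b ≠ 0 := by rintro rfl; exact hb Even.zero
    simp [w, h00, hb] at h2
  | succ j =>
    by_cases h3 : b = j
    · have : Even j ∨ a = j + 1 ∨ a + 1 = j := by
        subst h3
        rcases hab with h | h
        · right; right; exact h.symm
        · right; left; exact h
      simp [w, ha, this] at h1
    · simp [w, hb, h3] at h2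

theorem adj_of_E {N a b : ℕ} (hb : b ≤ N) (h : ∀ k < N + 2, E (w k a) (w k b)) :
    Even a ∧ ¬ Even b ∧ (b = a + 1 ∨ a = b + 1) := by
  have h0 := h 0 (by omega)
  have ha : Even a := by
    by_contra hne
    exact L_not_U (E_L h0) (w_odd hne)
  have hb2 : ¬ Even b := by
    intro he
    exact L_not_U (w_even he) (E_U h0)
  refine ⟨ha, hb2, ?_⟩
  have h1 := h (b+1) (by omega)
  by_contra hne
  push Not at hne
  have h2 : w (b+1) b = 4 := by simp [w, hb2]
  have h3 : w (b+1) a = 1 := by
    have : ¬ (Even b ∨ a = b + 1 ∨ a + 1 = b) := by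
      rintro (h | h | h)
      · exact hb2 h
      · exact hne.2 h
      · exact hne.1 h.symm
    simp only [w, if_pos ha, if_neg this]
  exact h1.2.2 ⟨h3, h2⟩

/-- row `v` -/
def row (N v : ℕ) : Fin (N + 1 + 1) → A := fun k => w k.1 v

theorem row_inj {N a b : ℕ} (ha : a ≤ N) (hb : b ≤ N) (h : row N a = row N b) : a = b := by
  have hk : ∀ k < N + 2, w k a = w k b := fun k hk => congrFun h ⟨k, hk⟩
  by_cases hea : Even a
  · have heb : Even b := by
      by_contra hne
      have h1 := hk 0 (by omega)
      have h2 : L (w 0 a) := w_even hea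
      rw [h1] at h2
      exact L_not_U h2 (w_odd hne)
    have aux : ∀ x y : ℕ, x ≤ N → y ≤ N → Even x → Even y → (∀ k < N + 2, w k x = w k y) →
        x < y → False := by
      intro x y hx hy hex hey hxy hlt
      by_cases hx0 : x = 0
      · have h1 := hxy 0 (by omega)
        have hy0 : y ≠ 0 := by omega
        simp [w, hx0, hy0, hey] at h1
      · obtain ⟨j, rfl⟩ : ∃ j, x = j + 1 := ⟨x - 1, by omega⟩
        have hj : ¬ Even j := Nat.even_add_one.1 hex
        have h1 := hxy (j+1) (by omega)
        have h2 : w (j+1) (j+1) = 0 := by simp [w, hex]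
        have h3 : w (j+1) y = 1 := by
          have : ¬ (Even j ∨ y = j + 1 ∨ y + 1 = j) := by
            rintro (h | h | h)
            · exact hj h
            · omega
            · omega
          simp only [w, if_pos hey, if_neg this]
        rw [h2, h3] at h1
        exact absurd h1 (by decide)
    rcases Nat.lt_trichotomy a b with h1 | h1 | h1
    · exact (aux a b ha hb hea heb hk h1).elim
    · exact h1
    · exact (aux b a hb ha heb hea (fun k hk' => (hk k hk').symm) h1).elim
  · have heb : ¬ Even b := by
      intro he
      have h1 := hk 0 (by omega)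
      have h2 : U (w 0 a) := w_odd hea
      rw [h1] at h2
      exact L_not_U (w_even he) h2
    have h1 := hk (a+1) (by omega)
    have h2 : w (a+1) a = 4 := by simp [w, hea]
    by_contra hne
    have h3 : w (a+1) b = 3 := by
      have : ¬ b = a := fun h => hne h.symm
      simp [w, heb, this]
    rw [h2, h3] at h1
    exact absurd h1 (by decide)

/-- the tuple violating only the last edge -/
def sig (N v : ℕ) : A :=
  if v = N ∨ v + 1 = N then (if Even v then 1 else 4) else (if Even v then 0 else 3)

open Classical in
/-- the separating partial operation -/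
noncomputable def sep (N : ℕ) (x : Fin (N + 1 + 1) → A) : Option A :=
  if h : ∃ v, v ≤ N ∧ row N v = x then some (sig N h.choose) else none

theorem sep_row {N v : ℕ} (hv : v ≤ N) : sep N (row N v) = some (sig N v) := by
  have hex : ∃ v', v' ≤ N ∧ row N v' = row N v := ⟨v, hv, rfl⟩
  unfold sep
  rw [dif_pos hex]
  have := row_inj hex.choose_spec.1 hv hex.choose_spec.2
  rw [this]

theorem sep_some {N : ℕ} {x : Fin (N + 1 + 1) → A} {a : A} (h : sep N x = some a) :
    ∃ v, v ≤ N ∧ x = row N v ∧ a = sig N v := by
  by_cases hex : ∃ v, v ≤ N ∧ row N v = x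
  · obtain ⟨v, hv, rfl⟩ := hex
    rw [sep_row hv] at h
    exact ⟨v, hv, rfl, (Option.some.inj h).symm⟩
  · unfold sep at h
    rw [dif_neg hex] at h
    cases h

theorem E_sig {N a b : ℕ} (ha : a + 1 ≤ N) (hb : b + 1 ≤ N) (hea : Even a) (heb : ¬ Even b) :
    E (sig N a) (sig N b) := by
  have h1 : ¬ (a = N) := by omega
  have h2 : ¬ (b = N) := by omega
  by_cases h3 : a + 1 = N
  · have h4 : ¬ (b + 1 = N) := by
      intro h4
      have : a = b := by omega
      subst this; exact heb hea
    have e1 : sig N a = 1 := by simp [sig, h3, hea]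
    have e2 : sig N b = 3 := by simp [sig, h2, h4, heb]
    rw [e1, e2]; decide
  · have e1 : sig N a = 0 := by simp [sig, h1, h3, hea]
    have e2 : U (sig N b) := by
      by_cases h4 : b + 1 = N
      · simp [sig, h4, heb, U]
      · simp [sig, h2, h4, heb, U]
    rw [e1]; exact E_zero e2

theorem sep_mem (D : ℕ) : sep (D+2) ∈ FD D (D + 2 + 1) := by
  intro r hr s hs
  have hc : ∀ v, ∃ c, c ≤ D + 2 ∧ (fun i => r i v) = row (D+2) c ∧ s v = sig (D+2) c :=
    fun v => sep_some (hs v)
  choose c hc1 hc2 hc3 using hc
  have hw : ∀ v (k : ℕ) (hk : k < D + 2 + 2), r ⟨k, hk⟩ v = w k (c v) := by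
    intro v k hk
    exact congrFun (hc2 v) ⟨k, hk⟩
  have hc0 : c (V.p 0) = 0 := by
    have h1 := ((hr ⟨0, by omega⟩).1 trivial).1
    rw [hw] at h1
    by_contra hne
    by_cases he : Even (c (V.p 0))
    · simp [w, hne, he, M] at h1
    · exact L_not_U (M_L h1) (w_odd he)
  have hstep : ∀ i ≤ D, (Even i → Even (c (V.p i)) ∧ ¬ Even (c (V.p (i+1))) ∧
        (c (V.p (i+1)) = c (V.p i) + 1 ∨ c (V.p i) = c (V.p (i+1)) + 1)) ∧
      (¬ Even i → Even (c (V.p (i+1))) ∧ ¬ Even (c (V.p i)) ∧
        (c (V.p i) = c (V.p (i+1)) + 1 ∨ c (V.p (i+1)) = c (V.p i) + 1)) := by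
    intro i hi
    constructor
    · intro he
      refine adj_of_E (hc1 _) ?_
      intro k hk
      have := (((hr ⟨k, hk⟩).1 trivial).2 i hi).1 he
      rwa [hw, hw] at this
    · intro he
      refine adj_of_E (hc1 _) ?_
      intro k hk
      have := (((hr ⟨k, hk⟩).1 trivial).2 i hi).2 he
      rwa [hw, hw] at this
  have hle : ∀ i, i ≤ D + 1 → c (V.p i) ≤ i := by
    intro i
    induction i with
    | zero => intro _; rw [hc0]
    | succ i ih =>
      intro hi
      have h1 := ih (by omega)
      have h2 := hstep i (by omega)
      by_cases he : Even i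
      · have := (h2.1 he).2.2
        omega
      · have := (h2.2 he).2.2
        omega
  refine mem_path ?_ ?_
  · rw [hc3, hc0]
    simp [sig, M]
  · intro i hi
    have h1 := hle i (by omega)
    have h2 := hle (i+1) (by omega)
    constructor
    · intro he
      obtain ⟨h3, h4, -⟩ := (hstep i hi).1 he
      rw [hc3, hc3]
      exact E_sig (by omega) (by omega) h3 h4
    · intro he
      obtain ⟨h3, h4, -⟩ := (hstep i hi).2 he
      rw [hc3, hc3]
      exact E_sig (by omega) (by omega) h3 h4

theorem sep_not_mem (D : ℕ) : sep (D+2) ∉ FD (D+1) (D + 2 + 1) := by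
  intro h
  let c : V → ℕ := fun v => match v with
    | V.p n => if n ≤ D + 2 then n else 0
    | _ => 0
  have hc : ∀ v, c v ≤ D + 2 := by
    intro v
    cases v with
    | p n =>
      by_cases hn : n ≤ D + 2
      · simp only [c, if_pos hn]; exact hn
      · simp only [c, if_neg hn]; omega
    | _ => simp only [c]; omega
  have hcp : ∀ n, n ≤ D + 2 → c (V.p n) = n := by
    intro n hn
    simp only [c, if_pos hn]
  have hr : ∀ k : Fin (D + 2 + 1 + 1), (fun v => w k.1 (c v)) ∈
      K True False False False False (D+1) := by
    intro k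
    refine mem_path ?_ ?_
    · show M (w k.1 (c (V.p 0)))
      rw [hcp 0 (by omega)]
      rcases k with ⟨k, hk⟩
      cases k with
      | zero => simp [w, M]
      | succ j =>
        by_cases h0 : Even j ∨ 0 = j + 1 ∨ 0 + 1 = j
        · simp only [w, if_pos Even.zero, if_pos h0]; left; rfl
        · simp only [w, if_pos Even.zero, if_neg h0]; right; rfl
    · intro i hi
      constructor
      · intro he
        show E (w k.1 (c (V.p i))) (w k.1 (c (V.p (i+1))))
        rw [hcp i (by omega), hcp (i+1) (by omega)]
        exact E_w he (fun h => (Nat.even_add_one.1 h) he) (Or.inl rfl)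
      · intro he
        show E (w k.1 (c (V.p (i+1)))) (w k.1 (c (V.p i)))
        rw [hcp i (by omega), hcp (i+1) (by omega)]
        exact E_w (Nat.even_add_one.2 he) he (Or.inr rfl)
  have := h (fun k v => w k.1 (c v)) hr (fun v => sig (D+2) (c v)) (fun v => sep_row (hc v))
  have h1 := (this.1 trivial).2 (D+1) le_rfl
  by_cases he : Even (D+1)
  · have h2 : E (sig (D+2) (c (V.p (D+1)))) (sig (D+2) (c (V.p (D+1+1)))) := h1.1 he
    rw [hcp (D+1) (by omega), hcp (D+1+1) (by omega)] at h2
    have he' : ¬ Even (D+2) := fun h => (Nat.even_add_one.1 h) he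
    have e1 : sig (D+2) (D+1) = 1 := by simp [sig, he]
    have e2 : sig (D+2) (D+1+1) = 4 := by simp [sig, he']
    rw [e1, e2] at h2
    exact absurd h2 (by decide)
  · have h2 : E (sig (D+2) (c (V.p (D+1+1)))) (sig (D+2) (c (V.p (D+1)))) := h1.2 he
    rw [hcp (D+1) (by omega), hcp (D+1+1) (by omega)] at h2
    have he' : Even (D+2) := Nat.even_add_one.2 he
    have e1 : sig (D+2) (D+1) = 4 := by simp [sig, he]
    have e2 : sig (D+2) (D+1+1) = 1 := by simp [sig, he']
    rw [e1, e2] at h2
    exact absurd h2 (by decide)

theorem FD_inj : Function.Injective FD := by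
  have key : ∀ D D', D < D' → FD D ≠ FD D' := by
    intro D D' h heq
    have h1 := sep_mem D
    rw [heq] at h1
    exact sep_not_mem D (FD_anti (Nat.succ_le_of_lt h) _ h1)
  intro D D' h
  rcases Nat.lt_trichotomy D D' with h1 | h1 | h1
  · exact (key D D' h1 h).elim
  · exact h1
  · exact (key D' D h1 h.symm).elim

theorem C_proj (n : ℕ) (i : Fin (n+1)) : (fun x : Fin (n+1) → A => x i) ∈ C n :=
  ⟨fun _ h => h i, fun _ _ h => h i⟩

theorem C_comp (n m : ℕ) (f : (Fin (n+1) → A) → A) (g : Fin (n+1) → (Fin (m+1) → A) → A)
    (hf : f ∈ C n) (hg : ∀ i, g i ∈ C m) :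
    (fun x : Fin (m+1) → A => f (fun i => g i x)) ∈ C m :=
  ⟨fun a ha => hf.1 _ fun i => (hg i).1 a ha, fun a b hab => hf.2 _ _ fun i => (hg i).2 a b hab⟩

/-- strong partial clones with total part `C` -/
def Interval : Set Fam := {F | SPC F ∧ ∀ n (f : (Fin (n+1) → A) → A),
  f ∈ C n ↔ (fun x => some (f x)) ∈ F n}

theorem interval_infinite : Interval.Infinite := by
  have hinj : Function.Injective (fun D : ℕ => FD (D+1)) := by
    intro a b h
    have := FD_inj h
    omega
  refine Set.infinite_of_injective_forall_mem hinj ?_
  intro D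
  exact ⟨spc_FD (D+1), fun n f => total_part (by omega) n f⟩

theorem interval_countable : Interval.Countable := by
  refine countable_above.mono ?_
  intro F h
  exact ⟨h.1, fun n f hf => (h.2 n f).1 hf⟩

end Pool.Agent.TH53.PC
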